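import Pool.Agent.H71.SM.TchM
import Pool.Agent.H48.PI.MaxN

/-!
# Module MaxM: the maximum principle for `f - M`

By contradiction, `tch_M`. At the touching point, `σ = sign (f - M)`; along the characteristic through `(t₀,x₀)` with velocity `v₀`: `τ ↦ σ (f (t₀-τ) (x₀-τ v₀) v₀ - M v₀)` has the derivative `-σ Q t₀ x₀ v₀` at `0` (`char_deriv`, see `mn_lt` in H48/PI/MaxN.lean), `τ ↦ B (t₀-τ) Wp p v₀ exp (E (t₀-τ) (x₀-τ v₀) v₀)` has the derivative `-Wp exp(E) (B' + B DE)`.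
The difference (first minus second) is `≤ 0` for `0 < τ < t₀` and `= 0` at `τ = 0`, so its derivative at `0` is `≤ 0`: `σ Q ≥ Wp exp(E) (B' + B DE)`, contradiction to `hQ`.
-/

set_option autoImplicit false

open MeasureTheory Set Filter Topology Pool.Agent.H25.Kin Pool.Agent.H82.BK Pool.Agent.H82.CM
open Pool.Agent.H48.PL Pool.Agent.H48.PI Pool.Agent.H48.PW Pool.Agent.H48.PD Pool.Agent.H48.PR

namespace Pool.Agent.H71.SM

variable {d : ℕ}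

private lemma MaxM_deriv_nonpos {g : ℝ → ℝ} {g' : ℝ} (hg : HasDerivAt g g' 0)
    (h : ∀ᶠ τ in 𝓝[>] (0 : ℝ), g τ ≤ g 0) : g' ≤ 0 := by
  have h1 := hg.tendsto_slope_zero_right
  refine le_of_tendsto h1 ?_
  filter_upwards [h, self_mem_nhdsWithin] with τ h2 h3
  have h3' : 0 < τ := h3
  rw [zero_add, smul_eq_mul]
  exact mul_nonpos_of_nonneg_of_nonpos (inv_nonneg.2 h3'.le) (by linarith)

theorem max_M {T : ℝ} {Q f : ℝ → Vec d → Vec d → ℝ} (hf : IsClassicalSol T Q f) (p : ℕ)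
    {M : Vec d → ℝ} (hMc : Continuous M) (hMd : ∀ N : ℕ, ∃ C, ∀ v, (1 + ‖v‖) ^ N * |M v| ≤ C) {T₁ : ℝ}
    (hT₀ : 0 < T₁) (hT₁ : T₁ < T) {E DE : ℝ → Vec d → Vec d → ℝ}
    (hEc : ContinuousOn (unc E) (Icc 0 T₁ ×ˢ univ))
    (hEp : ∀ t ∈ Icc 0 T₁, ∀ x v i, E t (x + Pi.single i 1) v = E t x v)
    (hEb : ∃ c, ∀ t ∈ Icc 0 T₁, ∀ x v, |E t x v| ≤ c)
    (hED : ∀ t ∈ Ioc 0 T₁, ∀ x v,
      HasDerivAt (fun r => E r (x + r • v) v) (DE t (x + t • v) v) t)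
    {B B' : ℝ → ℝ} (hB : ContinuousOn B (Icc 0 T₁)) (hB0 : ∀ t ∈ Icc 0 T₁, 0 < B t)
    (hB' : ∀ t ∈ Ioc 0 T₁, HasDerivAt B (B' t) t)
    (hQ : ∀ t ∈ Ioc 0 T₁, ∀ x v, ∀ σ : ℝ, (σ = 1 ∨ σ = -1) →
      σ * (f t x v - M v) = B t * Wp p v * Real.exp (E t x v) →
      (∀ u, |f t x u - M u| ≤ B t * Wp p u * Real.exp (E t x u)) →
      σ * Q t x v < Wp p v * Real.exp (E t x v) * (B' t + B t * DE t x v))
    (h0 : ∀ x v, |f 0 x v - M v| < B 0 * Wp p v * Real.exp (E 0 x v)) :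
    ∀ t ∈ Icc 0 T₁, ∀ x v, |f t x v - M v| < B t * Wp p v * Real.exp (E t x v) := by
  by_contra hcon
  push Not at hcon
  obtain ⟨t, ht, x, v, h⟩ := hcon
  obtain ⟨t₀, ht₀, x₀, v₀, heq, hlt, hle⟩ := tch_M hf p hMc hMd hT₀ hT₁ hEc hEp hEb hB hB0 h0
    ⟨t, ht, x, v, h⟩
  have htT : t₀ ∈ Ioo 0 T := ⟨ht₀.1, ht₀.2.trans_lt hT₁⟩
  have hd := char_deriv hf htT x₀ v₀
  have hn : HasDerivAt (fun τ : ℝ => -τ) (-1) 0 := hasDerivAt_neg' (0 : ℝ)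
  have h20 : HasDerivAt (fun τ : ℝ => t₀ + -τ) (-1) 0 := hn.const_add t₀
  have hneg : HasDerivAt (fun τ : ℝ => f (t₀ + -τ) (x₀ + (-τ) • v₀) v₀) (-(Q t₀ x₀ v₀)) 0 := by
    have hd' : HasDerivAt (fun τ : ℝ => f (t₀ + τ) (x₀ + τ • v₀) v₀) (Q t₀ x₀ v₀) (-(0 : ℝ)) := by
      simpa using hd
    have := hd'.comp (0 : ℝ) hn
    simpa [Function.comp_def] using this
  have hEd : HasDerivAt (fun τ : ℝ => E (t₀ + -τ) (x₀ + (-τ) • v₀) v₀) (-(DE t₀ x₀ v₀)) 0 := by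
    have h1 := hED t₀ ht₀ (x₀ - t₀ • v₀) v₀
    have e : x₀ - t₀ • v₀ + t₀ • v₀ = x₀ := sub_add_cancel _ _
    rw [e] at h1
    have h3 : HasDerivAt (fun r => E r (x₀ - t₀ • v₀ + r • v₀) v₀) (DE t₀ x₀ v₀) (t₀ + -0) := by
      rw [neg_zero, add_zero]; exact h1
    have h4 := HasDerivAt.comp (0 : ℝ) h3 h20
    have e2 : ((fun r => E r (x₀ - t₀ • v₀ + r • v₀) v₀) ∘ fun τ : ℝ => t₀ + -τ) =
        fun τ : ℝ => E (t₀ + -τ) (x₀ + (-τ) • v₀) v₀ := by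
      funext τ
      simp only [Function.comp_apply]
      congr 1
      rw [add_smul]
      abel
    rw [e2] at h4
    simpa using h4
  have hBd : HasDerivAt (fun τ : ℝ => B (t₀ + -τ)) (-(B' t₀)) 0 := by
    have h3 : HasDerivAt B (B' t₀) (t₀ + -0) := by
      rw [neg_zero, add_zero]; exact hB' t₀ ht₀
    have h4 := HasDerivAt.comp (0 : ℝ) h3 h20
    have e2 : (B ∘ fun τ : ℝ => t₀ + -τ) = fun τ : ℝ => B (t₀ + -τ) := rfl
    rw [e2] at h4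
    simpa using h4
  have hexp : HasDerivAt (fun τ : ℝ => Real.exp (E (t₀ + -τ) (x₀ + (-τ) • v₀) v₀))
      (-(Real.exp (E t₀ x₀ v₀) * DE t₀ x₀ v₀)) 0 := by
    refine hEd.exp.congr_deriv ?_
    simp
  have main : ∀ σ : ℝ, (σ = 1 ∨ σ = -1) →
      σ * (f t₀ x₀ v₀ - M v₀) = B t₀ * Wp p v₀ * Real.exp (E t₀ x₀ v₀) → False := by
    intro σ hσ h1
    have h2 := hQ t₀ ht₀ x₀ v₀ σ hσ h1 (hle x₀)
    have h3 : HasDerivAt (fun τ : ℝ => σ * (f (t₀ + -τ) (x₀ + (-τ) • v₀) v₀ - M v₀) -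
        B (t₀ + -τ) * Wp p v₀ * Real.exp (E (t₀ + -τ) (x₀ + (-τ) • v₀) v₀))
        (Wp p v₀ * Real.exp (E t₀ x₀ v₀) * (B' t₀ + B t₀ * DE t₀ x₀ v₀) - σ * Q t₀ x₀ v₀) 0 := by
      have h4 := ((hneg.sub_const (M v₀)).const_mul σ).sub ((hBd.mul_const (Wp p v₀)).mul hexp)
      refine h4.congr_deriv ?_
      simp only [neg_zero, add_zero, zero_smul]
      ring
    have h5 := MaxM_deriv_nonpos h3 (by
      filter_upwards [Ioo_mem_nhdsGT ht₀.1] with τ hτ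
      have h6 := hlt (t₀ + -τ) ⟨by linarith [hτ.2], by linarith [hτ.1]⟩ (x₀ + (-τ) • v₀) v₀
      have h7 : σ * (f (t₀ + -τ) (x₀ + (-τ) • v₀) v₀ - M v₀) ≤
          |f (t₀ + -τ) (x₀ + (-τ) • v₀) v₀ - M v₀| := by
        rcases hσ with rfl | rfl
        · rw [one_mul]; exact le_abs_self _
        · rw [neg_one_mul]; exact neg_le_abs _
      have h8 : σ * (f (t₀ + -0) (x₀ + (-(0 : ℝ)) • v₀) v₀ - M v₀) -
          B (t₀ + -0) * Wp p v₀ * Real.exp (E (t₀ + -0) (x₀ + (-(0 : ℝ)) • v₀) v₀) = 0 := by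
        rw [neg_zero, add_zero, zero_smul, add_zero, h1, sub_self]
      rw [h8]
      linarith)
    linarith
  rcases abs_cases (f t₀ x₀ v₀ - M v₀) with ⟨h3, -⟩ | ⟨h3, -⟩
  · exact main 1 (Or.inl rfl) (by rw [one_mul, ← h3]; exact heq)
  · exact main (-1) (Or.inr rfl) (by rw [neg_one_mul, ← h3]; exact heq)

end Pool.Agent.H71.SM
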