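import Pool.Agent.H71.SM.Defs
import Pool.Agent.H48.NE.Mxw

/-!
# Module MxA: the Maxwellian (from H48/NE/Mxw.lean)
-/

set_option autoImplicit false

open MeasureTheory Set Filter Topology Pool.Agent.H25.Kin Pool.Agent.H82.BK Pool.Agent.H82.CM
open Pool.Agent.H48.PL Pool.Agent.H48.PI Pool.Agent.H48.PW Pool.Agent.H48.PD Pool.Agent.H48.PR

namespace Pool.Agent.H71.SM

variable {d : ℕ}

theorem mx_ML {a k : ℝ} (ha : 0 < a) (hk : 0 < k) (u : Vec d) (p : ℕ) :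
    ∃ (Cl : ℕ → ℝ) (Γ : ℝ), ML Cl Γ p (Pool.Agent.H48.NE.mx a k u) := by
  obtain ⟨Cl, h1⟩ := Pool.Agent.H48.NE.mx_FB ha hk u
  obtain ⟨K, hK, h2⟩ := Pool.Agent.H48.NE.mx_lip ha hk u (p + 2)
  refine ⟨Cl, K, h1, hK, fun v h => ?_⟩
  rw [Real.rpow_one]
  exact h2 v h

end Pool.Agent.H71.SM
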