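import Pool.Agent.H71.SM.Alg

/-!
# Module PhP: the weights `PhC`, `PhM`

* `clp δ t = max (-1) (min 1 (t/δ))`: elementary (cases `t ≤ -δ`, `|t| ≤ δ`, `t ≥ δ`). `t * clp δ t`: `|t|` for `|t| ≥ δ`, `t^2/δ` otherwise.
* `be_lip`: `bet' 2 x = (2/(2+x))^2` is 1-Lipschitz on `x ≥ 0` (`|1/(2+x) - 1/(2+y)| ≤ |x-y|/4`, `4 (p^2 - q^2) = 4 (p-q)(p+q)`, `p + q ≤ 1`), and `bet_lip`.
* `PhC_PGW`, `PhM_PGW`: continuous (`chi_cont`, `M` continuous and `≥ 0`, `bet`, `bet'` continuous on `[0,∞)`: `2 + x > 0`), bounded by `1`: `N = 0`, `C = 1`.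
* `PhC_osc`: `|clp δ (u_e-w_e) - clp δ (v_e-w_e)| ≤ min 2 (|u_e-v_e|/δ) ≤ 2/δ min 1 (len (u-v))` (`δ ≤ 1`, `abs_coord_le`).
* `PhC_lip`: `|chi R w - chi R w'| ≤ len (w-w')` (`chi_holder` with `a = 1`), `clp_lip`; `1 + 1/δ ≤ 2/δ`. `PhM_lip`: in addition `be_lip`, `|M w - M w'| ≤ 2 Γ len (w-w')` (`ML.lip` with `h = w'-w`, `Wp ≤ 1`).
-/

set_option autoImplicit false

open MeasureTheory Set Filter Topology Pool.Agent.H25.Kin Pool.Agent.H82.BK Pool.Agent.H82.CM
open Pool.Agent.H48.PL Pool.Agent.H48.PI Pool.Agent.H48.PW Pool.Agent.H48.PD Pool.Agent.H48.PR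

namespace Pool.Agent.H71.SM

variable {d : ℕ} {e : Fin d} {δ R Γ : ℝ} {M : Vec d → ℝ} {Cl : ℕ → ℝ} {p : ℕ}

lemma clp_abs (δ t : ℝ) : |clp δ t| ≤ 1 := by
  unfold clp
  rw [abs_le]
  exact ⟨le_max_left _ _, max_le (by norm_num) (min_le_left _ _)⟩

lemma clp_lip (hδ : 0 < δ) (s t : ℝ) : |clp δ s - clp δ t| ≤ |s - t| / δ := by
  unfold clp
  refine (abs_max_sub_max_le_max (-1) (min 1 (s / δ)) (-1) (min 1 (t / δ))).trans ?_
  rw [sub_self, abs_zero, max_eq_right (abs_nonneg _)]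
  refine (abs_min_sub_min_le_max 1 (s / δ) 1 (t / δ)).trans ?_
  rw [sub_self, abs_zero, max_eq_right (abs_nonneg _), ← sub_div, abs_div, abs_of_pos hδ]

private lemma PhP_clp_nonneg (hδ : 0 < δ) {t : ℝ} (ht : 0 ≤ t) : 0 ≤ clp δ t := by
  unfold clp
  exact le_max_of_le_right (le_min zero_le_one (div_nonneg ht hδ.le))

private lemma PhP_clp_nonpos (hδ : 0 < δ) {t : ℝ} (ht : t ≤ 0) : clp δ t ≤ 0 := by
  unfold clp
  exact max_le (by norm_num) ((min_le_right _ _).trans (div_nonpos_of_nonpos_of_nonneg ht hδ.le))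

lemma clp_mul_nonneg (hδ : 0 < δ) (t : ℝ) : 0 ≤ t * clp δ t := by
  rcases le_total 0 t with h | h
  · exact mul_nonneg h (PhP_clp_nonneg hδ h)
  · exact mul_nonneg_of_nonpos_of_nonpos h (PhP_clp_nonpos hδ h)

lemma clp_mul_le (hδ : 0 < δ) (t : ℝ) : t * clp δ t ≤ |t| := by
  calc t * clp δ t ≤ |t * clp δ t| := le_abs_self _
    _ = |t| * |clp δ t| := abs_mul _ _
    _ ≤ |t| * 1 := mul_le_mul_of_nonneg_left (clp_abs δ t) (abs_nonneg t)
    _ = |t| := mul_one _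

lemma clp_mul_ge (hδ : 0 < δ) {t : ℝ} (h : δ ≤ |t|) : δ ≤ t * clp δ t := by
  rcases le_total 0 t with ht | ht
  · rw [abs_of_nonneg ht] at h
    have h1 : 1 ≤ t / δ := (one_le_div hδ).2 h
    have h2 : clp δ t = 1 := by
      unfold clp
      rw [min_eq_left h1]
      norm_num
    rw [h2, mul_one]
    exact h
  · rw [abs_of_nonpos ht] at h
    have h1 : t / δ ≤ -1 := by
      rw [div_le_iff₀ hδ]
      linarith
    have h2 : clp δ t = -1 := by
      unfold clp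
      rw [min_eq_right (by linarith), max_eq_left h1]
    rw [h2]
    linarith

private lemma PhP_bet_nonneg {r : ℝ} (hr : 0 ≤ r) : 0 ≤ bet 2 r := by
  unfold bet
  positivity

lemma be_pos {r : ℝ} (hr : 0 ≤ r) : 0 < bet' 2 (bet 2 r) ∧ bet' 2 (bet 2 r) ≤ 1 := by
  have h := PhP_bet_nonneg hr
  refine ⟨?_, bet'_le (by norm_num) h⟩
  unfold bet'
  have h1 : 0 < 2 + bet 2 r := by linarith
  positivity

private lemma PhP_be_aux {s m : ℝ} (hs : 0 ≤ s) (hm : 0 ≤ m) : |bet' 2 s - bet' 2 m| ≤ |s - m| := by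
  have h1 : 0 < 2 + s := by linarith
  have h2 : 0 < 2 + m := by linarith
  have h3 : bet' 2 s - bet' 2 m = (m - s) * (4 * (4 + s + m) / ((2 + s) ^ 2 * (2 + m) ^ 2)) := by
    unfold bet'
    field_simp
    ring
  have h4 : 0 ≤ 4 * (4 + s + m) / ((2 + s) ^ 2 * (2 + m) ^ 2) := by positivity
  have h5 : 4 * (4 + s + m) / ((2 + s) ^ 2 * (2 + m) ^ 2) ≤ 1 := by
    rw [div_le_one (by positivity)]
    have a1 : 4 ≤ (2 + s) ^ 2 := by nlinarith
    have a2 : 4 + 4 * m ≤ (2 + m) ^ 2 := by nlinarith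
    have a3 : 4 + 4 * s ≤ (2 + s) ^ 2 := by nlinarith
    have a4 : (4 + 4 * s) * (4 + 4 * m) ≤ (2 + s) ^ 2 * (2 + m) ^ 2 :=
      mul_le_mul a3 a2 (by positivity) (by positivity)
    nlinarith [mul_nonneg hs hm]
  rw [h3, abs_mul, abs_of_nonneg h4, abs_sub_comm s m]
  calc |m - s| * (4 * (4 + s + m) / ((2 + s) ^ 2 * (2 + m) ^ 2)) ≤ |m - s| * 1 :=
        mul_le_mul_of_nonneg_left h5 (abs_nonneg _)
    _ = |m - s| := mul_one _

lemma be_lip {r m : ℝ} (hr : 0 ≤ r) (hm : 0 ≤ m) :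
    |bet' 2 (bet 2 r) - bet' 2 (bet 2 m)| ≤ |r - m| :=
  (PhP_be_aux (PhP_bet_nonneg hr) (PhP_bet_nonneg hm)).trans (bet_lip hr hm)

private lemma PhP_Wp_le (q : ℕ) (v : Vec d) : 0 ≤ Wp q v ∧ Wp q v ≤ 1 := by
  unfold Wp
  have h := sq_nonneg' v
  have h1 : 1 ≤ (1 + nsq v) ^ q := one_le_pow₀ (by linarith)
  exact ⟨by positivity, inv_le_one_of_one_le₀ h1⟩

lemma ML_lip (hM : ML Cl Γ p M) (w w' : Vec d) : |M w - M w'| ≤ 2 * Γ * len (w - w') := by
  have h := hM.lip w' (w - w')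
  rw [add_sub_cancel, Real.rpow_one] at h
  have h0 := len_nonneg (w - w')
  have hG := hM.gam
  have h1 := PhP_Wp_le (p + 2) w'
  have h2 := PhP_Wp_le (p + 2) w
  refine h.trans ?_
  have h3 : min 1 (len (w - w')) ≤ len (w - w') := min_le_right _ _
  have h4 : 0 ≤ min 1 (len (w - w')) := le_min zero_le_one h0
  calc Γ * min 1 (len (w - w')) * (Wp (p + 2) w' + Wp (p + 2) w)
      ≤ Γ * len (w - w') * 2 := by
        refine mul_le_mul (mul_le_mul_of_nonneg_left h3 hG) (by linarith) (by linarith) (by positivity)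
    _ = 2 * Γ * len (w - w') := by ring

lemma PhC_abs (e : Fin d) (δ R : ℝ) (v w : Vec d) : |PhC e δ R v w| ≤ 1 := by
  unfold PhC
  rw [abs_mul, abs_of_nonneg (chi_nonneg R w)]
  exact mul_le_one₀ (chi_le_one R w) (abs_nonneg _) (clp_abs _ _)

lemma PhM_abs (e : Fin d) (δ R : ℝ) (hM0 : ∀ w, 0 ≤ M w) (v w : Vec d) : |PhM e δ R M v w| ≤ 1 := by
  unfold PhM
  have h := be_pos (hM0 w)
  rw [abs_mul, abs_of_nonneg h.1.le]
  exact mul_le_one₀ (PhC_abs e δ R v w) h.1.le h.2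

private lemma PhP_clp_cont (δ : ℝ) : Continuous (clp δ) := by
  unfold clp
  exact continuous_const.max (continuous_const.min (continuous_id.div_const δ))

private lemma PhP_PhC_cont (e : Fin d) (δ R : ℝ) :
    Continuous fun q : Vec d × Vec d => PhC e δ R q.1 q.2 := by
  unfold PhC
  refine ((chi_cont R).comp continuous_snd).mul ((PhP_clp_cont δ).comp ?_)
  exact ((continuous_apply e).comp continuous_fst).sub ((continuous_apply e).comp continuous_snd)

private lemma PhP_one_le (v w : Vec d) : (1 : ℝ) ≤ 1 * ((1 + ‖v‖) ^ 0 * (1 + ‖w‖) ^ 0) := by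
  simp

lemma PhC_PGW (hδ : 0 < δ) (e : Fin d) (R : ℝ) : PGW (PhC e δ R : Vec d → Vec d → ℝ) :=
  ⟨PhP_PhC_cont e δ R, 0, 1, zero_le_one, fun v w => (PhC_abs e δ R v w).trans (PhP_one_le v w)⟩

lemma PhM_PGW (hδ : 0 < δ) (e : Fin d) (R : ℝ) (hMc : Continuous M) (hM0 : ∀ w, 0 ≤ M w) :
    PGW (PhM e δ R M) := by
  refine ⟨?_, 0, 1, zero_le_one, fun v w => (PhM_abs e δ R hM0 v w).trans (PhP_one_le v w)⟩
  unfold PhM
  refine (PhP_PhC_cont e δ R).mul ?_
  have h1 : Continuous fun w : Vec d => bet 2 (M w) := by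
    unfold bet
    refine (continuous_const.mul hMc).div (continuous_const.add hMc) fun w => ?_
    have h3 := hM0 w
    exact (show (0 : ℝ) < 2 + M w by linarith).ne'
  have h2 : Continuous fun w : Vec d => bet' 2 (bet 2 (M w)) := by
    unfold bet'
    refine (continuous_const.div (continuous_const.add h1) fun w => ?_).pow 2
    have h3 := PhP_bet_nonneg (hM0 w)
    exact (show (0 : ℝ) < 2 + bet 2 (M w) by linarith).ne'
  exact h2.comp continuous_snd

lemma PhC_osc (hδ : 0 < δ) (hδ1 : δ ≤ 1) (u v w : Vec d) :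
    |PhC e δ R u w - PhC e δ R v w| ≤ 2 / δ * min 1 (len (u - v)) := by
  have h0 := len_nonneg (u - v)
  have h1 : PhC e δ R u w - PhC e δ R v w = chi R w * (clp δ (u e - w e) - clp δ (v e - w e)) := by
    unfold PhC
    ring
  have h2 : |PhC e δ R u w - PhC e δ R v w| ≤ |clp δ (u e - w e) - clp δ (v e - w e)| := by
    rw [h1, abs_mul, abs_of_nonneg (chi_nonneg R w)]
    calc chi R w * |clp δ (u e - w e) - clp δ (v e - w e)|
        ≤ 1 * |clp δ (u e - w e) - clp δ (v e - w e)| :=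
          mul_le_mul_of_nonneg_right (chi_le_one R w) (abs_nonneg _)
      _ = _ := one_mul _
  refine h2.trans ?_
  have hd : 1 ≤ 1 / δ := (one_le_div hδ).2 hδ1
  have hd2 : 2 / δ = 2 * (1 / δ) := by ring
  rcases le_total 1 (len (u - v)) with h3 | h3
  · rw [min_eq_left h3, mul_one, hd2]
    have a1 := abs_le.1 (clp_abs δ (u e - w e))
    have a2 := abs_le.1 (clp_abs δ (v e - w e))
    rw [abs_le]
    constructor <;> linarith
  · rw [min_eq_right h3, hd2]
    refine (clp_lip hδ _ _).trans ?_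
    have h4 : u e - w e - (v e - w e) = (u - v) e := by
      simp
    rw [h4]
    have h5 := abs_coord_le (u - v) e
    have h6 : |(u - v) e| / δ ≤ len (u - v) / δ := div_le_div_of_nonneg_right h5 hδ.le
    refine h6.trans ?_
    have h7 : len (u - v) / δ = 1 / δ * len (u - v) := by ring
    rw [h7]
    nlinarith [mul_nonneg (show (0 : ℝ) ≤ 1 / δ by linarith) h0]

lemma PhC_lip (hδ : 0 < δ) (hδ1 : δ ≤ 1) (hR : 1 ≤ R) (v w w' : Vec d) :
    |PhC e δ R v w - PhC e δ R v w'| ≤ 2 / δ * len (w - w') := by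
  have h0 := len_nonneg (w - w')
  have h1 : PhC e δ R v w - PhC e δ R v w' = (chi R w - chi R w') * clp δ (v e - w e) +
      chi R w' * (clp δ (v e - w e) - clp δ (v e - w' e)) := by
    unfold PhC
    ring
  have h2 : |(chi R w - chi R w') * clp δ (v e - w e)| ≤ len (w - w') := by
    rw [abs_mul]
    have a1 := chi_holder hR one_pos le_rfl w w'
    rw [Real.rpow_one] at a1
    calc |chi R w - chi R w'| * |clp δ (v e - w e)| ≤ len (w - w') * 1 :=
          mul_le_mul a1 (clp_abs _ _) (abs_nonneg _) h0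
      _ = _ := mul_one _
  have h3 : |chi R w' * (clp δ (v e - w e) - clp δ (v e - w' e))| ≤ len (w - w') / δ := by
    rw [abs_mul, abs_of_nonneg (chi_nonneg R w')]
    have a1 := clp_lip hδ (v e - w e) (v e - w' e)
    have a2 : v e - w e - (v e - w' e) = -((w - w') e) := by
      simp
    rw [a2, abs_neg] at a1
    have a3 : |(w - w') e| / δ ≤ len (w - w') / δ :=
      div_le_div_of_nonneg_right (abs_coord_le (w - w') e) hδ.le
    calc chi R w' * |clp δ (v e - w e) - clp δ (v e - w' e)|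
        ≤ 1 * |clp δ (v e - w e) - clp δ (v e - w' e)| :=
          mul_le_mul_of_nonneg_right (chi_le_one R w') (abs_nonneg _)
      _ = |clp δ (v e - w e) - clp δ (v e - w' e)| := one_mul _
      _ ≤ _ := a1.trans a3
  rw [h1]
  refine (abs_add_le _ _).trans ?_
  have hd : 1 ≤ 1 / δ := (one_le_div hδ).2 hδ1
  have h7 : len (w - w') / δ = 1 / δ * len (w - w') := by ring
  have hd2 : 2 / δ = 2 * (1 / δ) := by ring
  rw [hd2]
  rw [h7] at h3
  nlinarith

lemma PhM_lip (hδ : 0 < δ) (hδ1 : δ ≤ 1) (hR : 1 ≤ R) (hM : ML Cl Γ p M) (v w w' : Vec d) :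
    |PhM e δ R M v w - PhM e δ R M v w'| ≤ (2 / δ + 2 * Γ) * len (w - w') := by
  have h1 : PhM e δ R M v w - PhM e δ R M v w' =
      (PhC e δ R v w - PhC e δ R v w') * bet' 2 (bet 2 (M w)) +
      PhC e δ R v w' * (bet' 2 (bet 2 (M w)) - bet' 2 (bet 2 (M w'))) := by
    unfold PhM
    ring
  have b1 := be_pos (hM.fb.nonneg w)
  have h2 : |(PhC e δ R v w - PhC e δ R v w') * bet' 2 (bet 2 (M w))| ≤ 2 / δ * len (w - w') := by
    rw [abs_mul, abs_of_nonneg b1.1.le]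
    have a1 := PhC_lip (e := e) hδ hδ1 hR v w w'
    calc |PhC e δ R v w - PhC e δ R v w'| * bet' 2 (bet 2 (M w))
        ≤ |PhC e δ R v w - PhC e δ R v w'| * 1 := mul_le_mul_of_nonneg_left b1.2 (abs_nonneg _)
      _ = |PhC e δ R v w - PhC e δ R v w'| := mul_one _
      _ ≤ _ := a1
  have h3 : |PhC e δ R v w' * (bet' 2 (bet 2 (M w)) - bet' 2 (bet 2 (M w')))| ≤
      2 * Γ * len (w - w') := by
    rw [abs_mul]
    have a1 := be_lip (hM.fb.nonneg w) (hM.fb.nonneg w')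
    have a2 := ML_lip hM w w'
    calc |PhC e δ R v w'| * |bet' 2 (bet 2 (M w)) - bet' 2 (bet 2 (M w'))|
        ≤ 1 * |bet' 2 (bet 2 (M w)) - bet' 2 (bet 2 (M w'))| :=
          mul_le_mul_of_nonneg_right (PhC_abs e δ R v w') (abs_nonneg _)
      _ = |bet' 2 (bet 2 (M w)) - bet' 2 (bet 2 (M w'))| := one_mul _
      _ ≤ _ := a1.trans a2
  rw [h1]
  refine (abs_add_le _ _).trans ?_
  rw [add_mul]
  exact add_le_add h2 h3

/-- the flux of the weight -/
lemma VPhC (hδ : 0 < δ) (hR : 1 ≤ R) (e : Fin d) (v w : Vec d) :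
    0 ≤ (v e - w e) * PhC e δ R v w ∧ (v e - w e) * PhC e δ R v w ≤ len v + 2 * R := by
  have h1 : (v e - w e) * PhC e δ R v w = chi R w * ((v e - w e) * clp δ (v e - w e)) := by
    unfold PhC
    ring
  have h2 := clp_mul_nonneg hδ (v e - w e)
  have h3 := clp_mul_le hδ (v e - w e)
  have h4 := len_nonneg v
  rw [h1]
  refine ⟨mul_nonneg (chi_nonneg R w) h2, ?_⟩
  rcases le_total (2 * R) (jb w) with h5 | h5
  · rw [chi_eq_zero hR h5, zero_mul]
    linarith
  · have a1 := (abs_coord_le v e)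
    have a2 := (abs_coord_le w e)
    have a3 := (len_le_jb w).trans h5
    have a4 : |v e - w e| ≤ |v e| + |w e| := abs_sub _ _
    calc chi R w * ((v e - w e) * clp δ (v e - w e)) ≤ 1 * ((v e - w e) * clp δ (v e - w e)) :=
          mul_le_mul_of_nonneg_right (chi_le_one R w) h2
      _ = (v e - w e) * clp δ (v e - w e) := one_mul _
      _ ≤ len v + 2 * R := by linarith

end Pool.Agent.H71.SM
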