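import Pool.Agent.H71.SM.ErrG
import Pool.Agent.H71.SM.PhP

/-!
# Module ErrT0: `err_t` for `0 ≤ γ`, `2s < 1`, `γ + 2s < 2`

Copy of module ErrT with `err_lip0` (module ErrG) instead of `err_lip`.
-/

set_option autoImplicit false

open MeasureTheory Set Filter Topology Pool.Agent.H25.Kin Pool.Agent.H82.BK Pool.Agent.H82.CM
open Pool.Agent.H48.PL Pool.Agent.H48.PI Pool.Agent.H48.PW Pool.Agent.H48.PD Pool.Agent.H48.PR

namespace Pool.Agent.H71.SM

variable {d : ℕ}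

/-- pointwise bound of the collision terms -/
private lemma ErrT0_src {γ : ℝ} {b : ℝ → ℝ} (e : Fin d) (Cl : ℕ → ℝ) {δ R Γ : ℝ} {p : ℕ} (hδ : 0 < δ)
    (hδ1 : δ ≤ 1) (hR : 1 ≤ R) {A B η : ℝ} (hA : 2 / δ + 2 * Γ ≤ A) (hA2 : 2 / δ ≤ A) (hA1 : 1 ≤ A)
    {M : Vec d → ℝ} (hM : ML Cl Γ p M) {F : Vec d → Vec d → ℝ} (v y : Vec d)
    (h1 : ∀ ψ : Vec d → ℝ, Continuous ψ → (∀ w, |ψ w| ≤ A) → (∀ w w', |ψ w - ψ w'| ≤ A * len (w - w')) →
      |∫ w, ψ w * (bet' 1 (F y w) * boltzQ γ b (F y) w)| ≤ A * B + η)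
    (h2 : ∀ ψ : Vec d → ℝ, Continuous ψ → (∀ w, |ψ w| ≤ A) → (∀ w w', |ψ w - ψ w'| ≤ A * len (w - w')) →
      |∫ w, ψ w * (bet' 2 (F y w) * boltzQ γ b (F y) w)| ≤ A * B + η) :
    src e δ R M F (fun y w => boltzQ γ b (F y) w) v y ≤ 2 * A * B + 2 * η := by
  have hMc : Continuous M := hM.fb.nice.cont
  have hM0 : ∀ w, 0 ≤ M w := hM.fb.nonneg
  have c0 : Continuous fun w : Vec d => (v, w) := by fun_prop
  have c2 := (PhM_PGW hδ e R hMc hM0).cont.comp c0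
  have c1 := (PhC_PGW hδ e R : PGW (PhC e δ R : Vec d → Vec d → ℝ)).cont.comp c0
  simp only [Function.comp_def] at c1 c2
  have e2 := h2 (fun w => PhM e δ R M v w) c2 (fun w => (PhM_abs e δ R hM0 v w).trans hA1) fun w w' =>
    (PhM_lip hδ hδ1 hR hM v w w').trans (mul_le_mul_of_nonneg_right hA (len_nonneg _))
  have e1 := h1 (fun w => PhC e δ R v w) c1 (fun w => (PhC_abs e δ R v w).trans hA1) fun w w' =>
    (PhC_lip hδ hδ1 hR v w w').trans (mul_le_mul_of_nonneg_right hA2 (len_nonneg _))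
  have e3 := add_le_add e2 e1
  unfold src
  beta_reduce
  refine e3.trans (le_of_eq (by ring))

theorem err_t0 {s γ : ℝ} (hd : 2 ≤ d) (hs : 0 < s) (h0 : 0 ≤ γ) (hs1 : 2 * s < 1)
    (h2 : γ + 2 * s < 2) {b : ℝ → ℝ}
    (hb : IsKernel d s b) (e : Fin d) (Cl : ℕ → ℝ) {δ R Γ : ℝ} {p : ℕ} (hδ : 0 < δ) (hδ1 : δ ≤ 1)
    (hR : 1 ≤ R) {κ : ℝ} (hκ : 0 < κ) : ∃ ε > 0, ∀ M : Vec d → ℝ, ML Cl Γ p M →
      ∀ (T : ℝ) (f : ℝ → Vec d → Vec d → ℝ), SB γ b Cl e T f → ∀ t₀ : ℝ, 0 < t₀ → t₀ + 1 < T →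
      Hs (f t₀) - Hs (f (t₀ + 1)) ≤ ε →
      ∃ n : ℝ → ℝ, ContinuousOn n (Ioo 0 T) ∧ (∀ t ∈ Icc t₀ (t₀ + 1), 0 ≤ n t) ∧
        ∫ t in t₀..(t₀ + 1), n t ≤ κ ∧ ∀ t ∈ Icc t₀ (t₀ + 1), ∀ v : Vec d,
          ∫ y, src e δ R M (f t) (fun y w => boltzQ γ b (f t y) w) v y ∂(muD d) ≤ n t := by
  obtain ⟨C, Ca, cb, HL⟩ := exists_hypL (γ := γ) hd hs (by linarith) (by linarith) (by linarith) hb
  obtain ⟨K, X, hK, hX, hE⟩ := err_lip0 HL h0 hs1 h2.le Cl
  -- the constants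
  set A : ℝ := 2 / δ + 2 * |Γ| + 1 with hAdef
  have hδ2 : 1 ≤ 2 / δ := by
    rw [le_div_iff₀ hδ]
    linarith
  have hΓ0 : 0 ≤ |Γ| := abs_nonneg Γ
  have hΓ1 : Γ ≤ |Γ| := le_abs_self Γ
  have hA1 : 1 ≤ A := by linarith
  have hA0 : 0 ≤ A := by linarith
  have hA2 : 2 / δ ≤ A := by linarith
  have hA3 : 2 / δ + 2 * Γ ≤ A := by linarith
  set ε₂ : ℝ := min 1 (κ / (8 * A * (X + 1))) with hε₂def
  have hq : 0 < 8 * A * (X + 1) := by positivity
  have hε₂ : 0 < ε₂ := lt_min one_pos (div_pos hκ hq)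
  have hε₂1 : ε₂ ≤ 1 := min_le_left _ _
  have hε₂2 : 2 * A * (ε₂ * X) ≤ κ / 4 := by
    have h3 : ε₂ ≤ κ / (8 * A * (X + 1)) := min_le_right _ _
    rw [le_div_iff₀ hq] at h3
    nlinarith [mul_nonneg hε₂.le hA0]
  have hinv : 0 < 1 / ε₂ := by positivity
  set L : ℝ := 2 * A * (1 / ε₂ + K) with hLdef
  have hL : 0 ≤ L := by positivity
  have hL1 : 0 < L + 1 := by linarith
  refine ⟨κ / (8 * (L + 1)), by positivity, fun M hM T f hf t₀ ht₀ ht₁ hdrop => ?_⟩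
  obtain ⟨Cf, hCf⟩ := Pool.Agent.H15.AV.sol_unice hf.sol ht₀ ht₁
  set η : ℝ := κ / 16 with hηdef
  have hη : 0 < η := by positivity
  set η₂ : ℝ := κ / (16 * (L + 1)) with hη₂def
  have hη₂ : 0 < η₂ := by positivity
  obtain ⟨δa, hδa, ha⟩ := hE ε₂ hε₂ hε₂1 A 2 Cf hA0 (by norm_num) η hη
  obtain ⟨δb, hδb, hb'⟩ := hE ε₂ hε₂ hε₂1 A 1 Cf hA0 (by norm_num) η hη
  obtain ⟨δc, hδc, hc⟩ := Pool.Agent.H87.PE.Dn_ge HL.H Cf hη₂
  obtain ⟨δd, hδd, hdr⟩ := Pool.Agent.H87.PE.drop_lim HL.H hf.sol ht₀ (by linarith : t₀ ≤ t₀ + 1) ht₁ hη₂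
  set δ' : ℝ := min (min δa δb) (min δc δd) with hδ'def
  have hδ' : 0 < δ' := lt_min (lt_min hδa hδb) (lt_min hδc hδd)
  have m1 : δ' ∈ Ioc (0 : ℝ) δa := ⟨hδ', (min_le_left _ _).trans (min_le_left _ _)⟩
  have m2 : δ' ∈ Ioc (0 : ℝ) δb := ⟨hδ', (min_le_left _ _).trans (min_le_right _ _)⟩
  have m3 : δ' ∈ Ioc (0 : ℝ) δc := ⟨hδ', (min_le_right _ _).trans (min_le_left _ _)⟩
  have m4 : δ' ∈ Ioc (0 : ℝ) δd := ⟨hδ', (min_le_right _ _).trans (min_le_right _ _)⟩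
  obtain ⟨hc1, hc2⟩ := Dn_cont' hf.sol hδ'
  have hsub : Icc t₀ (t₀ + 1) ⊆ Ioo 0 T := fun t ht =>
    ⟨ht₀.trans_le ht.1, ht.2.trans_lt ht₁⟩
  -- continuity and integrability in `y`
  have hyc : ∀ t ∈ Icc t₀ (t₀ + 1), Continuous fun y => Dn γ b δ' (f t y) := by
    intro t ht
    have h3 : Continuous fun y : Vec d => ((t, y) : ℝ × Vec d) := by fun_prop
    have h4 := hc1.comp_continuous h3 (fun y => ⟨hsub ht, mem_univ _⟩)
    simp only [Function.comp_def] at h4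
    exact h4
  have hyi : ∀ t ∈ Icc t₀ (t₀ + 1), Integrable (fun y => Dn γ b δ' (f t y)) (muD d) := by
    intro t ht
    exact (hyc t ht).integrableOn_Icc
  have hprob : IsProbabilityMeasure (muD d) := ⟨muD_univ⟩
  have hlow : ∀ t ∈ Icc t₀ (t₀ + 1), ∀ y, -η₂ ≤ Dn γ b δ' (f t y) := fun t ht y =>
    hc δ' m3 _ (hCf t ht y)
  have hlowI : ∀ t ∈ Icc t₀ (t₀ + 1), -η₂ ≤ ∫ y, Dn γ b δ' (f t y) ∂(muD d) := by
    intro t ht
    have h3 := integral_mono (integrable_const (-η₂)) (hyi t ht) (hlow t ht)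
    simpa using h3
  have hFB : ∀ t ∈ Icc t₀ (t₀ + 1), ∀ y, FB Cl (f t y) := fun t ht y =>
    ⟨(hCf t ht y).nice, (hCf t ht y).nonneg, fun N v => hf.dec t ⟨(hsub ht).1.le, (hsub ht).2⟩ N y v⟩
  refine ⟨fun t => L * ((∫ y, Dn γ b δ' (f t y) ∂(muD d)) + η₂) + 2 * A * (ε₂ * X) + 2 * η,
    ?_, fun t ht => ?_, ?_, fun t ht v => ?_⟩
  · exact ((continuousOn_const.mul (hc2.add continuousOn_const)).add continuousOn_const).add
      continuousOn_const
  · have h3 := hlowI t ht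
    have h4 : 0 ≤ L * ((∫ y, Dn γ b δ' (f t y) ∂(muD d)) + η₂) :=
      mul_nonneg hL (by linarith)
    have h5 : 0 ≤ 2 * A * (ε₂ * X) := by positivity
    simp only
    linarith
  · have hci : ContinuousOn (fun t => ∫ y, Dn γ b δ' (f t y) ∂(muD d)) (uIcc t₀ (t₀ + 1)) := by
      rw [uIcc_of_le (by linarith)]
      exact hc2.mono hsub
    have hii := hci.intervalIntegrable (μ := volume)
    have e1 : ∫ t in t₀..(t₀ + 1), (L * ((∫ y, Dn γ b δ' (f t y) ∂(muD d)) + η₂) +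
        2 * A * (ε₂ * X) + 2 * η) =
        L * ((∫ t in t₀..(t₀ + 1), ∫ y, Dn γ b δ' (f t y) ∂(muD d)) + η₂) +
          2 * A * (ε₂ * X) + 2 * η := by
      rw [intervalIntegral.integral_add (((hii.add intervalIntegrable_const).const_mul L).add
        intervalIntegrable_const) intervalIntegrable_const,
        intervalIntegral.integral_add ((hii.add intervalIntegrable_const).const_mul L)
        intervalIntegrable_const, intervalIntegral.integral_const_mul,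
        intervalIntegral.integral_add hii intervalIntegrable_const]
      simp only [intervalIntegral.integral_const, smul_eq_mul]
      ring
    rw [e1]
    have h3 := (abs_le.mp (hdr δ' m4)).2
    have h4 : (∫ t in t₀..(t₀ + 1), ∫ y, Dn γ b δ' (f t y) ∂(muD d)) + η₂ ≤
        κ / (8 * (L + 1)) + 2 * η₂ := by linarith
    have h5 := mul_le_mul_of_nonneg_left h4 hL
    have h6 : L * (κ / (8 * (L + 1)) + 2 * η₂) ≤ κ / 4 := by
      rw [hη₂def]
      have : L * (κ / (8 * (L + 1)) + 2 * (κ / (16 * (L + 1)))) = κ / 4 * (L / (L + 1)) := by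
        field_simp
        ring
      rw [this]
      have h7 : L / (L + 1) ≤ 1 := by
        rw [div_le_one hL1]
        linarith
      nlinarith
    linarith
  · have hb1 : ∀ y, src e δ R M (f t) (fun y w => boltzQ γ b (f t y) w) v y ≤
        L * (Dn γ b δ' (f t y) + η₂) + 2 * A * (ε₂ * X) + 2 * η := by
      intro y
      have h3 := ErrT0_src (γ := γ) (b := b) e Cl hδ hδ1 hR hA3 hA2 hA1 hM (F := f t) v y
        (B := (1 / ε₂ + K) * Dn γ b δ' (f t y) + ε₂ * X) (η := η)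
        (fun ψ q1 q2 q3 => hb' δ' m2 (f t y) (hCf t ht y) (hFB t ht y) ψ q1 q2 q3)
        (fun ψ q1 q2 q3 => ha δ' m1 (f t y) (hCf t ht y) (hFB t ht y) ψ q1 q2 q3)
      have h4 : 0 ≤ L * η₂ := mul_nonneg hL hη₂.le
      have h5 : 2 * A * ((1 / ε₂ + K) * Dn γ b δ' (f t y) + ε₂ * X) =
          L * Dn γ b δ' (f t y) + 2 * A * (ε₂ * X) := by
        rw [hLdef]
        ring
      rw [h5] at h3
      rw [mul_add]
      linarith
    have i1 : Integrable (fun y => Dn γ b δ' (f t y) + η₂) (muD d) :=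
      (hyi t ht).add (integrable_const _)
    have i2 : Integrable (fun y => L * (Dn γ b δ' (f t y) + η₂)) (muD d) := i1.const_mul L
    have i3 : Integrable (fun y => L * (Dn γ b δ' (f t y) + η₂) + 2 * A * (ε₂ * X)) (muD d) :=
      i2.add (integrable_const _)
    have hint : Integrable (fun y => L * (Dn γ b δ' (f t y) + η₂) + 2 * A * (ε₂ * X) + 2 * η)
        (muD d) := i3.add (integrable_const _)
    have h3 := integral_mono_of_nonneg (μ := muD d)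
      (f := fun y => src e δ R M (f t) (fun y w => boltzQ γ b (f t y) w) v y)
      (Eventually.of_forall fun y => by
        unfold src
        positivity) hint (Eventually.of_forall hb1)
    refine h3.trans (le_of_eq ?_)
    rw [integral_add i3 (integrable_const _), integral_add i2 (integrable_const _),
      integral_const_mul, integral_add (hyi t ht) (integrable_const _)]
    simp

end Pool.Agent.H71.SM
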