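import Pool.Agent.H71.SM.Core
import Pool.Agent.H71.SM.ErrT0
import Pool.Agent.H71.SM.MxA

/-!
# Module Fin0: `core_S` and `sup_smooth` for `0 ≤ γ`, `2s < 1`, `γ + 2s < 2`
-/

set_option autoImplicit false

open MeasureTheory Set Filter Topology Pool.Agent.H25.Kin Pool.Agent.H82.BK Pool.Agent.H82.CM
open Pool.Agent.H48.PL Pool.Agent.H48.PI Pool.Agent.H48.PW Pool.Agent.H48.PD Pool.Agent.H48.PR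

namespace Pool.Agent.H71.SM

variable {d : ℕ}

theorem core_S0 {s γ : ℝ} (hd : 2 ≤ d) (hs : 0 < s) (h0 : 0 ≤ γ) (hs1 : 2 * s < 1)
    (h2 : γ + 2 * s < 2) {b : ℝ → ℝ} (hb : IsKernel d s b) (e : Fin d) (Cl : ℕ → ℝ) {m : ℝ} (hm : 0 < m)
    {p : ℕ} (hp : d + 10 ≤ p) {Γ : ℝ} {M : Vec d → ℝ} (hM : ML Cl Γ p M)
    (hQ : ∀ v, boltzQ γ b M v = 0) {η : ℝ} (hη : 0 < η) :
    ∃ ε > 0, ∀ (T : ℝ) (f : ℝ → Vec d → Vec d → ℝ), SB γ b Cl e T f →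
      (∀ t ∈ Ico 0 T, ∀ x, m ≤ ∫ v, f t x v) → ∀ t₀ : ℝ, 1 ≤ t₀ → t₀ + 1 < T →
      Hs (f t₀) - Hs (f (t₀ + 1)) ≤ ε → (∀ t ∈ Icc t₀ (t₀ + 1), L1 M (f t) ≤ ε) →
      ∀ x v, |f (t₀ + 1) x v - M v| ≤ η * Wp p v := by
  refine core_E hd hs h0 hs1 h2 hb e Cl hm hp hM hQ (fun δ R hδ hδ1 hR κ hκ => ?_) hη
  obtain ⟨ε, hε, h⟩ := err_t0 (Γ := Γ) (p := p) hd hs h0 hs1 h2 hb e Cl hδ hδ1 hR hκ
  exact ⟨ε, hε, fun T f hf t₀ ht₀ ht₁ hH => h M hM T f hf t₀ ht₀ ht₁ hH⟩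

theorem sup_smooth0 {s γ : ℝ} (hd : 2 ≤ d) (hs : 0 < s) (h0 : 0 ≤ γ) (hs1 : 2 * s < 1)
    (h2 : γ + 2 * s < 2) {b : ℝ → ℝ}
    (hb : IsKernel d s b) (e : Fin d) (Cl : ℕ → ℝ) {m : ℝ} (hm : 0 < m) {a k : ℝ} (ha : 0 < a)
    (hk : 0 < k) (u : Vec d) (p : ℕ) {η : ℝ} (hη : 0 < η) :
    ∃ ε > 0, ∀ (T : ℝ) (f : ℝ → Vec d → Vec d → ℝ), Pool.Agent.H48.CV.PB γ b Cl m e T f → ∀ t₀ : ℝ,
      1 ≤ t₀ → t₀ + 1 < T → Pool.Agent.H48.PI.Hs (f t₀) - Pool.Agent.H48.PI.Hs (f (t₀ + 1)) ≤ ε →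
      (∀ t ∈ Icc t₀ (t₀ + 1), ∫ q, |f t q.2 q.1 - Pool.Agent.H48.NE.mx a k u q.1| ∂(nu d) ≤ ε) →
      ∀ x v, |f (t₀ + 1) x v - Pool.Agent.H48.NE.mx a k u v| ≤ η * Wp p v := by
  obtain ⟨Cm, Γ, hM⟩ := mx_ML ha hk u (max p (d + 10))
  obtain ⟨C2, hC2⟩ : ∃ C2 : ℕ → ℝ, C2 = fun N => max (Cl N) (Cm N) := ⟨_, rfl⟩
  have hM2 : ML C2 Γ (max p (d + 10)) (Pool.Agent.H48.NE.mx a k u) := by
    refine ⟨⟨hM.fb.nice, hM.fb.nonneg, fun N v => (hM.fb.le N v).trans ?_⟩, hM.gam, hM.lip⟩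
    rw [hC2]
    exact le_max_right _ _
  obtain ⟨ε, hε, h⟩ := core_S0 hd hs h0 hs1 h2 hb e C2 hm (le_max_right p (d + 10)) hM2
    (fun v => (Pool.Agent.H48.NE.mx_Q ha hk γ b u v).1) hη
  refine ⟨ε, hε, fun T f hf t₀ ht₀ ht₁ hH hL x v => ?_⟩
  have h3 := h T f ⟨hf.sol, hf.pla, fun t ht N x v => (hf.dec t ht N x v).trans (by
    rw [hC2]
    exact le_max_left _ _)⟩ hf.mass t₀ ht₀ ht₁ hH hL x v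
  refine h3.trans (mul_le_mul_of_nonneg_left ?_ hη.le)
  unfold Wp
  have hv := sq_nonneg' v
  exact inv_anti₀ (by positivity) (pow_le_pow_right₀ (by linarith) (le_max_left _ _))

end Pool.Agent.H71.SM
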