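import Pool.Agent.H71.SM.Base

/-!
# A contractible compact space is acyclic for small chains
-/

namespace Pool.Agent.H71.SM

open FreeAbelianGroup Pool.Agent.H73.Avr

variable {X : Type}

theorem add_self_Ng (y : O X) : y + y ∈ Ng X :=
  AddSubgroup.mem_sup_right ⟨y, rfl⟩

private theorem map_mem_of_Ng {A : Type*} [AddCommGroup A] {S : AddSubgroup A} (f : O X →+ A)
    (h : ∀ σ, Dg σ → f (of σ) ∈ S) (h2 : ∀ y, f y + f y ∈ S) {y : O X} (hy : y ∈ Ng X) :
    f y ∈ S := by
  obtain ⟨u, hu, v, ⟨w, hw⟩, rfl⟩ := AddSubgroup.mem_sup.1 hy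
  have hv : v = w + w := hw.symm
  rw [hv, map_add, map_add]
  exact S.add_mem (map_mem_of_cl f h hu) (h2 w)

private theorem cns_cns_mem (x : X) (y : O X) : cns x (cns x y) ∈ cl (X := X) Dg := by
  have h1 : y ∈ cl (X := X) (fun _ => True) := by
    unfold cl
    induction y using FreeAbelianGroup.induction_on with
    | zero => exact AddSubgroup.zero_mem _
    | of σ => exact AddSubgroup.subset_closure ⟨σ, trivial, rfl⟩
    | neg σ h => exact AddSubgroup.neg_mem _ h
    | add a b ha hb => exact AddSubgroup.add_mem _ ha hb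
  exact map_mem_of_cl ((cns x).comp (cns x)) (fun σ _ => of_mem_cl (Dg.head _ _)) h1

private theorem dl_Dg (σ : List X) (h : Dg σ) : dl σ ∈ cl (X := X) Dg := by
  induction σ with
  | nil => exact AddSubgroup.zero_mem _
  | cons x τ ih =>
    rcases h.cases with ⟨r, rfl⟩ | h'
    · show of (x :: r) - cns x (of r - cns x (dl r)) ∈ _
      rw [map_sub, cns_of, sub_sub_cancel]
      exact cns_cns_mem x _
    · show of τ - cns x (dl τ) ∈ _
      exact AddSubgroup.sub_mem _ (of_mem_cl h') (cns_mem_Dg (ih h') x)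

theorem dO_Ng {y : O X} (hy : y ∈ Ng X) : dO y ∈ Ng X :=
  map_mem_of_Ng dO (fun σ h => by
    rw [dO_of]; exact AddSubgroup.mem_sup_left (dl_Dg σ h)) (fun y => add_self_Ng _) hy

theorem mp_Ng (f : X → X) {y : O X} (hy : y ∈ Ng X) : mp f y ∈ Ng X :=
  map_mem_of_Ng (mp f) (fun σ h => by
    rw [mp_of]; exact AddSubgroup.mem_sup_left (of_mem_cl (h.map f))) (fun y => add_self_Ng _) hy

private theorem K_Ng (Hs : ℕ → X → X) (D : ℕ) {y : O X} (hy : y ∈ Ng X) : K Hs D y ∈ Ng X :=
  map_mem_of_Ng (K Hs D) (fun _ h => AddSubgroup.mem_sup_left (K_mem_Dg Hs D (of_mem_cl h)))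
    (fun _ => add_self_Ng _) hy

/-- the number of lists of length `0` -/
private noncomputable def n0 : O X →+ ℤ := lift (fun σ => if σ.length = 0 then 1 else 0)

/-- the number of lists of length `1` -/
private noncomputable def n1 : O X →+ ℤ := lift (fun σ => if σ.length = 1 then 1 else 0)

private theorem n0_of (σ : List X) : n0 (of σ) = if σ.length = 0 then 1 else 0 :=
  lift_apply_of _ _

private theorem n1_of (σ : List X) : n1 (of σ) = if σ.length = 1 then 1 else 0 :=
  lift_apply_of _ _

private theorem n0_cns (x : X) (y : O X) : n0 (cns x y) = 0 := by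
  have : (n0 (X := X)).comp (cns x) = 0 := by
    apply FreeAbelianGroup.lift_ext
    intro σ
    show n0 (cns x (of σ)) = 0
    rw [cns_of, n0_of, if_neg (by simp)]
  exact DFunLike.congr_fun this y

private theorem n0_dO (y : O X) : n0 (dO y) = n1 y := by
  have : (n0 (X := X)).comp dO = n1 := by
    apply FreeAbelianGroup.lift_ext
    intro σ
    show n0 (dO (of σ)) = n1 (of σ)
    rw [dO_of, n1_of]
    cases σ with
    | nil => show n0 (0 : O X) = _; rw [map_zero]; rfl
    | cons x σ =>
      show n0 (of σ - cns x (dl σ)) = _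
      rw [map_sub, n0_cns, sub_zero, n0_of]
      cases σ with
      | nil => rfl
      | cons y σ => simp
  exact DFunLike.congr_fun this y

private theorem n0_Ng {y : O X} (hy : y ∈ Ng X) : ∃ k : ℤ, n0 y = k + k := by
  have h := map_mem_of_Ng (S := (AddMonoidHom.id ℤ + AddMonoidHom.id ℤ).range) n0
    (fun σ h => ⟨0, by
      obtain ⟨l, x, r, rfl⟩ := h
      rw [n0_of, if_neg (by simp)]; rfl⟩) (fun y => ⟨n0 y, rfl⟩) hy
  obtain ⟨k, hk⟩ := h
  exact ⟨k, hk.symm⟩

private theorem mp_const (x1 : X) (y : O X) :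
    mp (fun _ => x1) y - (n1 y • of [x1] + n0 y • of []) ∈ cl (X := X) Dg := by
  induction y using FreeAbelianGroup.induction_on with
  | zero => simp only [map_zero, zero_smul, add_zero, sub_zero]; exact AddSubgroup.zero_mem _
  | of σ =>
    rw [mp_of, n1_of, n0_of]
    match σ with
    | [] => simp only [List.map_nil, List.length_nil]; simp
    | [a] => simp
    | a :: b :: r =>
      rw [if_neg (by simp), if_neg (by simp), zero_smul, zero_smul, add_zero, sub_zero]
      exact of_mem_cl (Dg.head _ _)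
  | neg σ h =>
    rw [map_neg, map_neg, map_neg, neg_smul, neg_smul]
    have := AddSubgroup.neg_mem _ h
    convert this using 1
    abel
  | add a b ha hb =>
    rw [map_add, map_add, map_add, add_smul, add_smul]
    have := AddSubgroup.add_mem _ ha hb
    convert this using 1
    abel

private theorem mp_id (y : O X) : mp (id : X → X) y = y := by
  have : mp (id : X → X) = AddMonoidHom.id _ := by
    apply FreeAbelianGroup.lift_ext
    intro σ
    show mp (id : X → X) (of σ) = of σ
    rw [mp_of, List.map_id]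
  exact DFunLike.congr_fun this y

theorem acy_univ [MetricSpace X] [CompactSpace X] [ContractibleSpace X] :
    Acy (Set.univ : Set X) := by
  intro ε hε
  obtain ⟨x1, ⟨Hh⟩⟩ := id_nullhomotopic X
  have huc : UniformContinuous Hh := CompactSpace.uniformContinuous_of_continuous Hh.continuous
  obtain ⟨δ, hδ, hu⟩ := Metric.uniformContinuous_iff.1 huc ε hε
  obtain ⟨D, hD⟩ := exists_nat_gt (1 / δ)
  have hD0 : (0 : ℝ) < D := lt_of_le_of_lt (by positivity) hD
  have hDδ : 1 / (D : ℝ) < δ := by
    rw [div_lt_iff₀ hδ] at hD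
    rw [div_lt_iff₀ hD0]
    linarith
  let pt : ℕ → unitInterval := fun i => Set.projIcc 0 1 zero_le_one ((i : ℝ) / D)
  let Hs : ℕ → X → X := fun i x => Hh (pt i, x)
  have hH0 : Hs 0 = id := by
    funext x
    show Hh (Set.projIcc 0 1 zero_le_one (((0 : ℕ) : ℝ) / D), x) = x
    rw [Nat.cast_zero, zero_div, Set.projIcc_left]
    exact Hh.apply_zero x
  have hHD : Hs D = fun _ => x1 := by
    funext x
    show Hh (Set.projIcc 0 1 zero_le_one ((D : ℝ) / D), x) = x1
    rw [div_self hD0.ne', Set.projIcc_right]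
    exact Hh.apply_one x
  have hpt : ∀ i, dist (pt i) (pt (i + 1)) < δ := by
    intro i
    rw [Subtype.dist_eq, Real.dist_eq]
    refine lt_of_le_of_lt (Set.abs_projIcc_sub_projIcc zero_le_one) ?_
    have : (i : ℝ) / D - ((i + 1 : ℕ) : ℝ) / D = -(1 / D) := by
      push_cast; ring
    rw [this, abs_neg, abs_of_pos (by positivity)]
    exact hDδ
  refine ⟨δ, hδ, fun c hc hdc => ?_⟩
  refine ⟨K Hs D c - n0 c • of [x1], AddSubgroup.sub_mem _ ?_ (AddSubgroup.zsmul_mem _ ?_ _), ?_⟩
  · rw [K_apply]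
    refine AddSubgroup.sum_mem _ fun i _ => map_mem_of_cl (P (Hs i) (Hs (i + 1))) ?_ hc
    rintro σ ⟨-, hσ⟩
    rw [P_of]
    have h4 : cl (X := X) (fun τ => τ.length = σ.length + 1 ∧
        ∀ y ∈ τ, ∃ x ∈ σ, y = Hs i x ∨ y = Hs (i + 1) x) ≤ Sml Set.univ ε := by
      unfold Sml cl
      rw [AddSubgroup.closure_le]
      rintro _ ⟨τ, ⟨-, h6⟩, rfl⟩
      refine AddSubgroup.subset_closure ⟨τ, ⟨fun _ _ => trivial, ?_⟩, rfl⟩
      intro y hy y' hy'
      obtain ⟨x, hx, hyx⟩ := h6 y hy
      obtain ⟨x', hx', hyx'⟩ := h6 y' hy'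
      have hd := hσ x hx x' hx'
      have key : ∀ s t : unitInterval, dist s t < δ → dist (Hh (s, x)) (Hh (t, x')) < ε := by
        intro s t hst
        apply hu
        rw [Prod.dist_eq]
        exact max_lt hst hd
      have h0 : ∀ s : unitInterval, dist s s < δ := fun s => by rw [dist_self]; exact hδ
      rcases hyx with rfl | rfl <;> rcases hyx' with rfl | rfl
      · exact key _ _ (h0 _)
      · exact key _ _ (hpt i)
      · exact key _ _ (by rw [dist_comm]; exact hpt i)
      · exact key _ _ (h0 _)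
    exact h4 (pl_mem (Hs i) (Hs (i + 1)) σ)
  · refine of_mem_cl ⟨fun _ _ => trivial, ?_⟩
    intro y hy y' hy'
    rw [List.mem_singleton] at hy hy'
    rw [hy, hy', dist_self]; exact hε
  · have h1 := dO_K Hs D c
    rw [hHD, hH0, mp_id] at h1
    have h2 := mp_const x1 c
    obtain ⟨k, hk⟩ := n0_Ng hdc
    rw [n0_dO] at hk
    have h3 : dO (of [x1]) = (of [] : O X) := by
      rw [dO_of]
      show of ([] : List X) - cns x1 0 = of []
      rw [map_zero, sub_zero]
    have h4 : dO (K Hs D c) = mp (fun _ => x1) c - c - K Hs D (dO c) := by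
      rw [eq_sub_iff_add_eq]; exact h1
    have h5 : dO (K Hs D c - n0 c • of [x1]) - c =
        (mp (fun _ => x1) c - (n1 c • of [x1] + n0 c • of [])) +
          (k • of [x1] + k • of [x1]) - (c + c) - K Hs D (dO c) := by
      rw [map_sub, map_zsmul, h3, h4, hk, add_smul]
      abel
    rw [h5]
    exact AddSubgroup.sub_mem _ (AddSubgroup.sub_mem _ (AddSubgroup.add_mem _
      (AddSubgroup.mem_sup_left h2) (add_self_Ng _)) (add_self_Ng _)) (K_Ng Hs D hdc)

end Pool.Agent.H71.SM
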