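import Pool.Agent.H71.SM.Defs

/-!
# Module Alg: the Bregman distance

`bet C r = C r/(C+r)`, `bet' C r = (C/(C+r))^2` (H48/PI/Defs, BetA).
* `bet_bet`: `1/bet 2 (bet 2 r) = 1/r + 1/2 + 1/2`: `field_simp`.
* With `s = bet 2 r`, `s₀ = bet 2 m` (both in `[0,2)`): `jS m r = 4 (s-s₀)^2/((2+s₀)^2 (2+s))`. So `0 ≤ jS ≤ (1/2) (s-s₀)^2 ≤ |s-s₀| ≤ |r-m|` (`|s-s₀| ≤ 2`, `bet 2` is 1-Lipschitz: `s - s₀ = 4 (r-m)/((2+r)(2+m))`), and `jS ≥ (s-s₀)^2/16 ≥ (r-m)^2/(2+U)^4`.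
-/

set_option autoImplicit false

open MeasureTheory Set Filter Topology Pool.Agent.H25.Kin Pool.Agent.H82.BK Pool.Agent.H82.CM
open Pool.Agent.H48.PL Pool.Agent.H48.PI Pool.Agent.H48.PW Pool.Agent.H48.PD Pool.Agent.H48.PR

namespace Pool.Agent.H71.SM

lemma bet_bet {r : ℝ} (hr : 0 ≤ r) : bet 2 (bet 2 r) = bet 1 r := by
  unfold bet
  have h1 : (2 : ℝ) + r ≠ 0 := by linarith
  have h2 : (1 : ℝ) + r ≠ 0 := by linarith
  have h3 : 2 + 2 * r / (2 + r) ≠ 0 := by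
    have : 0 ≤ 2 * r / (2 + r) := by positivity
    linarith
  field_simp
  ring

private lemma Alg_dif {r m : ℝ} (hr : 0 ≤ r) (hm : 0 ≤ m) :
    bet 2 r - bet 2 m = 4 * (r - m) / ((2 + r) * (2 + m)) := by
  unfold bet
  have h1 : (2 : ℝ) + r ≠ 0 := by linarith
  have h2 : (2 : ℝ) + m ≠ 0 := by linarith
  field_simp
  ring

private lemma Alg_bet0 {r : ℝ} (hr : 0 ≤ r) : 0 ≤ bet 2 r := by
  unfold bet
  positivity

private lemma Alg_bet2 {r : ℝ} (hr : 0 ≤ r) : bet 2 r ≤ 2 := by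
  unfold bet
  rw [div_le_iff₀ (by linarith)]
  linarith

lemma bet_lip {r m : ℝ} (hr : 0 ≤ r) (hm : 0 ≤ m) : |bet 2 r - bet 2 m| ≤ |r - m| := by
  rw [Alg_dif hr hm, abs_div, abs_mul, abs_of_pos (show (0 : ℝ) < 4 by norm_num),
    abs_of_pos (show (0 : ℝ) < (2 + r) * (2 + m) by positivity), div_le_iff₀ (by positivity)]
  have h1 : 4 ≤ (2 + r) * (2 + m) := by nlinarith [mul_nonneg hr hm]
  have h2 := mul_le_mul_of_nonneg_left h1 (abs_nonneg (r - m))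
  linarith

lemma jS_eq {m r : ℝ} (hm : 0 ≤ m) (hr : 0 ≤ r) :
    jS m r = bet' 2 (bet 2 m) * bet 2 r - bet 1 r + (bet 1 m - bet' 2 (bet 2 m) * bet 2 m) := by
  rw [← bet_bet hm, ← bet_bet hr]
  unfold jS
  ring

private lemma Alg_form {m r : ℝ} (hm : 0 ≤ m) (hr : 0 ≤ r) :
    jS m r = 4 * (bet 2 r - bet 2 m) ^ 2 / ((2 + bet 2 m) ^ 2 * (2 + bet 2 r)) := by
  have h0 := Alg_bet0 hm
  have h1 := Alg_bet0 hr
  have e : jS m r = bet 2 (bet 2 m) + bet' 2 (bet 2 m) * (bet 2 r - bet 2 m) -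
      bet 2 (bet 2 r) := by
    unfold jS
    ring
  rw [e]
  generalize bet 2 m = s₀ at h0 ⊢
  generalize bet 2 r = t at h1 ⊢
  unfold bet bet'
  have h2 : (2 : ℝ) + s₀ ≠ 0 := by linarith
  have h3 : (2 : ℝ) + t ≠ 0 := by linarith
  field_simp
  ring

lemma jS_nonneg {m r : ℝ} (hm : 0 ≤ m) (hr : 0 ≤ r) : 0 ≤ jS m r := by
  rw [Alg_form hm hr]
  have h0 := Alg_bet0 hm
  have h1 := Alg_bet0 hr
  positivity

lemma jS_up {m r : ℝ} (hm : 0 ≤ m) (hr : 0 ≤ r) : jS m r ≤ |r - m| := by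
  refine le_trans ?_ (bet_lip hr hm)
  rw [Alg_form hm hr]
  have h0 := Alg_bet0 hm
  have h1 := Alg_bet0 hr
  have h2 := Alg_bet2 hm
  have h3 := Alg_bet2 hr
  rw [div_le_iff₀ (by positivity)]
  have h4 : |bet 2 r - bet 2 m| ≤ 2 := by
    rw [abs_le]
    constructor <;> linarith
  have h5 : 8 ≤ (2 + bet 2 m) ^ 2 * (2 + bet 2 r) := by
    have h6 : 4 ≤ (2 + bet 2 m) ^ 2 := by nlinarith
    nlinarith
  have h7 := abs_nonneg (bet 2 r - bet 2 m)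
  rw [← sq_abs]
  calc 4 * |bet 2 r - bet 2 m| ^ 2 = |bet 2 r - bet 2 m| * (4 * |bet 2 r - bet 2 m|) := by ring
    _ ≤ |bet 2 r - bet 2 m| * ((2 + bet 2 m) ^ 2 * (2 + bet 2 r)) := by
        refine mul_le_mul_of_nonneg_left ?_ h7
        linarith

lemma jS_low {m r U : ℝ} (hm : 0 ≤ m) (hmU : m ≤ U) (hr : 0 ≤ r) (hrU : r ≤ U) :
    (r - m) ^ 2 ≤ (2 + U) ^ 4 * jS m r := by
  rw [Alg_form hm hr]
  have h0 := Alg_bet0 hm
  have h1 := Alg_bet0 hr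
  have h2 := Alg_bet2 hm
  have h3 := Alg_bet2 hr
  have hU : 0 ≤ U := hm.trans hmU
  have e1 : (bet 2 r - bet 2 m) ^ 2 / 16 ≤
      4 * (bet 2 r - bet 2 m) ^ 2 / ((2 + bet 2 m) ^ 2 * (2 + bet 2 r)) := by
    rw [div_le_div_iff₀ (by norm_num) (by positivity)]
    have h5 : (2 + bet 2 m) ^ 2 * (2 + bet 2 r) ≤ 64 := by
      have h6 : (2 + bet 2 m) ^ 2 ≤ 16 := by nlinarith
      nlinarith [sq_nonneg (2 + bet 2 m)]
    nlinarith [sq_nonneg (bet 2 r - bet 2 m)]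
  have e2 : (r - m) ^ 2 ≤ (2 + U) ^ 4 * ((bet 2 r - bet 2 m) ^ 2 / 16) := by
    rw [Alg_dif hr hm, div_pow, mul_pow]
    have h7 : 0 < ((2 + r) * (2 + m)) ^ 2 := by positivity
    have h8 : ((2 + r) * (2 + m)) ^ 2 ≤ (2 + U) ^ 4 := by
      have h9 : (2 + r) * (2 + m) ≤ (2 + U) * (2 + U) :=
        mul_le_mul (by linarith) (by linarith) (by linarith) (by linarith)
      calc ((2 + r) * (2 + m)) ^ 2 ≤ ((2 + U) * (2 + U)) ^ 2 :=
            pow_le_pow_left₀ (by positivity) h9 2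
        _ = _ := by ring
    have e3 : (2 + U) ^ 4 * (4 ^ 2 * (r - m) ^ 2 / ((2 + r) * (2 + m)) ^ 2 / 16) =
        (r - m) ^ 2 * ((2 + U) ^ 4 / ((2 + r) * (2 + m)) ^ 2) := by ring
    rw [e3]
    have e4 : 1 ≤ (2 + U) ^ 4 / ((2 + r) * (2 + m)) ^ 2 := by
      rw [le_div_iff₀ h7, one_mul]
      exact h8
    nlinarith [sq_nonneg (r - m)]
  exact e2.trans (mul_le_mul_of_nonneg_left e1 (by positivity))

end Pool.Agent.H71.SM
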