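import Pool.Agent.H89.AVB.Final8

/-!
# Spheres of even dimension at scales above the right angle
-/

namespace Pool.Agent.H71.SM

open Pool.Agent.H73.Avr Pool.Agent.H71.AV
open Pool.Agent.H89.AVB (i0 inc_i0 E8 pat8 sg2_pat8 sg2 even_disc exists_nu exists_k tower_ok)

/-- the square of the first coordinate -/
private noncomputable def b0 (m : ℕ) (x : Sph (2 * m + 2)) : ℝ := x.1 (i0 m) ^ 2

private theorem continuous_b0 (m : ℕ) {r : ℝ} :
    Continuous fun μ : AVR (geo (2 * m + 2)) r => ri (b0 m) μ.w := by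
  have h := continuous_rmon (n := 2 * m + 2) (r := r) ![i0 m, i0 m]
  have e : (rmon ![i0 m, i0 m] : Sph (2 * m + 2) → ℝ) = b0 m := by
    funext z
    unfold rmon b0
    rw [Fin.prod_univ_two]
    show z.1 (i0 m) * z.1 (i0 m) = _
    ring
  rw [e] at h
  exact h

private theorem ri_b0 (m : ℕ) {r : ℝ} (ν : AVR (geo 2) r) :
    ri (b0 m) (push m ν).w = ri (fun x => x.1 0 ^ 2) ν.w := by
  have h : (fun y => b0 m (inc m y)) = fun x : Sph 2 => x.1 0 ^ 2 := by
    funext y
    unfold b0
    rw [inc_i0]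
  rw [ri_push, h]

private theorem inv_flip {r : ℝ} {ν : AVR (geo 2) r}
    (hν : ∀ j < 3, ∀ y, ν.w (sg2 (E8 j) y) = ν.w y) (j : Fin 3) (x : Sph 2) :
    ν.w (H70.AV.flip j x) = ν.w x := by
  have hj : j = 0 ∨ j = 1 ∨ j = 2 := by
    clear x
    revert j
    decide
  rcases hj with rfl | rfl | rfl
  · rw [← sg2_pat8]
    exact hν 0 (by norm_num) x
  · rw [← sg2_pat8]
    exact hν 1 (by norm_num) x
  · rw [← sg2_pat8]
    exact hν 2 (by norm_num) x

private theorem flip_mem {r : ℝ} {ν : AVR (geo 2) r}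
    (hν : ∀ j x, ν.w (H70.AV.flip j x) = ν.w x) {x : Sph 2} (hx : x ∈ ν.w.support) (j : Fin 3) :
    H70.AV.flip j x ∈ ν.w.support := by
  rw [Finsupp.mem_support_iff] at hx ⊢
  rw [hν]
  exact hx

private theorem half_lt {r : ℝ} (hr : Real.pi / 2 < r) {ν : AVR (geo 2) r}
    (hν : ∀ j x, ν.w (H70.AV.flip j x) = ν.w x) {x : Sph 2} (hx : x ∈ ν.w.support) {j : Fin 3}
    (hj : x.1 j ≠ 0) : 1 / 2 < x.1 j ^ 2 := by
  have h1 := inner_neg_of_mem hr ν hx (flip_mem hν hx j) (H70.AV.flip_ne hj).symm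
  rw [H70.AV.inner_flip] at h1
  linarith

private theorem zero_or {r : ℝ} (hr : Real.pi / 2 < r) {ν : AVR (geo 2) r}
    (hν : ∀ j x, ν.w (H70.AV.flip j x) = ν.w x) {x : Sph 2} (hx : x ∈ ν.w.support) :
    x.1 0 = 0 ∨ (x.1 1 = 0 ∧ x.1 2 = 0) := by
  by_contra hcon
  rw [not_or, not_and_or] at hcon
  have hs := H70.AV.sum_sq_eq_one x
  rw [Fin.sum_univ_three] at hs
  have h0 := half_lt hr hν hx hcon.1
  rcases hcon.2 with h | h
  · have h1 := half_lt hr hν hx h
    nlinarith [sq_nonneg (x.1 2)]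
  · have h1 := half_lt hr hν hx h
    nlinarith [sq_nonneg (x.1 1)]

private theorem key_big {r : ℝ} (hr : Real.pi / 2 < r) (ν : AVR (geo 2) r)
    (hν : ∀ j x, ν.w (H70.AV.flip j x) = ν.w x) : ri (fun x => x.1 0 ^ 2) ν.w ≠ 1 / 2 := by
  by_cases hall : ∀ x ∈ ν.w.support, x.1 0 ^ 2 = 0
  · rw [H70.AV.ri_eq_of_const ν hall]
    norm_num
  · push Not at hall
    obtain ⟨x, hx, hx0⟩ := hall
    have hx0' : x.1 0 ≠ 0 := fun h => hx0 (by rw [h]; norm_num)
    have hx12 := (zero_or hr hν hx).resolve_left hx0'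
    have hone : ∀ y ∈ ν.w.support, y.1 0 ^ 2 = 1 := by
      intro y hy
      have hs := H70.AV.sum_sq_eq_one y
      rw [Fin.sum_univ_three] at hs
      rcases zero_or hr hν hy with h | ⟨h1, h2⟩
      · exfalso
        have hxy : x ≠ y := by
          rintro rfl
          exact hx0' h
        have h3 := inner_neg_of_mem hr ν hx hy hxy
        rw [H70.AV.inner_eq_sum, Fin.sum_univ_three, h, hx12.1, hx12.2] at h3
        simp at h3
      · rw [h1, h2] at hs
        linarith
    rw [H70.AV.ri_eq_of_const ν hone]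
    norm_num

theorem not_contractible_even_big (m : ℕ) {r : ℝ} (hr : Real.pi / 2 < r) :
    ¬ ContractibleSpace (AVR (geo (2 * m + 2)) r) := by
  intro hc
  have hr0 : 0 < r := by
    have := Real.pi_pos
    linarith
  rcases le_or_gt r Real.pi with h2 | h2
  · obtain ⟨a, ha, hav⟩ := H70.AV.exists_orb (n := 2) hr0.le h2 (fun i => if i = 0 then 1 else 0)
      (fun i => by split_ifs <;> norm_num) (by rw [Fin.sum_univ_three]; simp)
      (fun i hi => by
        have h3 : i = 0 := by
          by_contra h4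
          exact hi (if_neg h4)
        rw [if_pos h3]
        have := Real.neg_one_le_cos r
        linarith)
    obtain ⟨b, hb, hbv⟩ := H70.AV.exists_orb (n := 2) hr0.le h2 (fun i => if i = 1 then 1 else 0)
      (fun i => by split_ifs <;> norm_num) (by rw [Fin.sum_univ_three]; simp)
      (fun i hi => by
        have h3 : i = 1 := by
          by_contra h4
          exact hi (if_neg h4)
        rw [if_pos h3]
        have := Real.neg_one_le_cos r
        linarith)
    refine even_disc m hr0 hc 3 E8 (fun μ => ri (b0 m) μ.w - 1 / 2)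
      ((continuous_b0 m).sub continuous_const) ?_ a b ?_ ?_ ?_ ?_
    · intro ν hν h3
      simp only [ri_b0] at h3
      exact key_big hr ν (inv_flip hν) (by linarith)
    · intro j _ y
      unfold E8
      rw [sg2_pat8]
      exact ha _ _
    · intro j _ y
      unfold E8
      rw [sg2_pat8]
      exact hb _ _
    · show 0 < ri (b0 m) (push m a).w - 1 / 2
      rw [ri_b0, hav _ 1 fun x hx => (hx 0).trans (if_pos rfl)]
      norm_num
    · show ri (b0 m) (push m b).w - 1 / 2 < 0
      rw [ri_b0, hbv _ 0 fun x hx => (hx 0).trans (if_neg (by decide))]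
      norm_num
  · obtain ⟨k, hk⟩ := exists_k hr0
    obtain ⟨μ, hμ⟩ := avr_exists_inv hr0 hc (k + 1 + 3) _ (tower_ok m k 3 E8)
    obtain ⟨ν, -, hν⟩ := exists_nu hk μ hμ
    have hν' := inv_flip hν
    have hne : ν.w.support.Nonempty := by
      rw [Finset.nonempty_iff_ne_empty]
      intro h
      have ht := ν.total
      rw [Finsupp.sum, h, Finset.sum_empty] at ht
      exact zero_ne_one ht
    obtain ⟨x, hx⟩ := hne
    have hex : ∃ j, x.1 j ≠ 0 := by
      by_contra hcon
      push Not at hcon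
      have hs := H70.AV.sum_sq_eq_one x
      simp [hcon] at hs
    obtain ⟨j, hj⟩ := hex
    have h3 := ν.spread x hx _ (flip_mem hν' hx j) (H70.AV.flip_ne hj).symm
    have h4 : geo 2 x (H70.AV.flip j x) ≤ Real.pi := InnerProductGeometry.angle_le_pi _ _
    linarith

end Pool.Agent.H71.SM
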