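import Pool.Agent.H73.Avr.Main
import Pool.Agent.H71.SM.Big
import Pool.Agent.H81.AV.Final5
import Pool.Agent.H89.AVB.Final8

namespace Pool.Agent.H71.SM

open Pool.Agent.H73.Avr

theorem not_contractible_all {n : ℕ} (hn : 1 ≤ n) {r : ℝ} (h1 : Real.arccos (1 / √3) < r) :
    ¬ ContractibleSpace (AVR (geo n) r) := by
  have hr : 0 < r := lt_of_le_of_lt (Real.arccos_nonneg _) h1
  rcases Nat.even_or_odd n with he | ho
  · obtain ⟨k, hk⟩ := he
    obtain ⟨m, rfl⟩ : ∃ m, n = 2 * m + 2 := ⟨k - 1, by omega⟩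
    rcases lt_or_ge (Real.pi / 2) r with h3 | h3
    · exact not_contractible_even_big m h3
    · rcases lt_or_ge (Real.pi / 3) r with h2 | h2
      · rcases le_total r (Real.arccos (1 / 3)) with h4 | h4
        · exact Pool.Agent.H89.AVB.not_contractible_even_cube m h2 h4
        · exact Pool.Agent.H89.AVB.not_contractible_even_gap m h4 h3
      · exact Pool.Agent.H81.AV.not_contractible_even_low m h1 h2
  · exact Pool.Agent.H73.Avr.not_contractible ho hr

end Pool.Agent.H71.SM
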