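import Pool.Agent.H73.Avr.Prism

/-!
# Small chains, negligible chains and acyclic sets
-/

namespace Pool.Agent.H71.SM

open FreeAbelianGroup Pool.Agent.H73.Avr

variable {X : Type}

/-- negligible chains: sums of degenerate lists and of even multiples -/
def Ng (X : Type) : AddSubgroup (O X) :=
  cl Dg ⊔ (AddMonoidHom.id (O X) + AddMonoidHom.id (O X)).range

/-- chains of `δ`-small lists of points of `Y` -/
def Sml [MetricSpace X] (Y : Set X) (δ : ℝ) : AddSubgroup (O X) :=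
  cl (fun σ => (∀ x ∈ σ, x ∈ Y) ∧ ∀ x ∈ σ, ∀ y ∈ σ, dist x y < δ)

/-- `Y` is acyclic modulo two: small cycles of `Y` bound small chains of `Y` -/
def Acy [MetricSpace X] (Y : Set X) : Prop :=
  ∀ ε > 0, ∃ δ > 0, ∀ c ∈ Sml Y δ, dO c ∈ Ng X → ∃ w ∈ Sml Y ε, dO w - c ∈ Ng X

/-- chains of lists of points of `Y` fixed by `g` -/
def Fxd (Y : Set X) (g : X → X) : AddSubgroup (O X) :=
  cl (fun σ => ∀ x ∈ σ, x ∈ Y ∧ g x = x)

/-- sequences of chains over `Y` with boundary relations; `B` enters at the index `a` -/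
def Sq [MetricSpace X] (Y : Set X) (g : X → X) (B : O X) (ε : ℝ) (a R : ℕ) : Prop :=
  ∃ z : ℕ → O X, (∀ k, z k ∈ Sml Y ε) ∧ dO (z 0) - (if a = 0 then B else 0) ∈ Ng X ∧
    ∀ k < R, dO (z (k + 1)) - (mp g (z k) + z k + if a = k + 1 then B else 0) ∈ Ng X

end Pool.Agent.H71.SM
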