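import Pool.Agent.H71.SM.PhP

/-!
# Module Coe: coercivity of the flux

`B = {len w ≤ R₁}`, `V` its volume (`V > 0` or `NB = 0 < N₀` excludes the case). Pointwise on `B`, for `θ = N₀/(4(V+1))`, `c_U = (2+U)^(-4)`:
`|F - M| ≤ U 1_(|v_e-w_e| < δ) + θ + (1/(4θδc_U)) (v_e-w_e) PhC jS(M w, F w)`: if `|v_e-w_e| ≥ δ`: `(v_e-w_e) PhC = (v_e-w_e) clp ≥ δ` (`chi = 1` since `jb w ≤ 1 + len w ≤ R`; `chi_eq_one`), `jS ≥ c_U (F-M)^2` (`jS_low`), `|D| ≤ θ + D^2/(4θ)`.
Integrate over `B`: `N₀ ≤ U vol(B ∩ {|v_e-w_e| < δ}) + N₀/4 + (1/(4θδc_U)) ∫ ..`; the strip has volume `≤ 2δ (2R₁+1)^(d-1)`-type (it is contained in the box `|w_i| ≤ R₁` for `i ≠ e`, `|w_e - v_e| ≤ δ`: `Real.volume_pi_Icc` or `volume_pi_pi`), `≤ N₀/4` for `δ` small.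
The integrand over all `w` is `≥ 0` (`VPhC`, `jS_nonneg`), continuous with compact support.
-/

set_option autoImplicit false

open MeasureTheory Set Filter Topology Pool.Agent.H25.Kin Pool.Agent.H82.BK Pool.Agent.H82.CM
open Pool.Agent.H48.PL Pool.Agent.H48.PI Pool.Agent.H48.PW Pool.Agent.H48.PD Pool.Agent.H48.PR

namespace Pool.Agent.H71.SM

variable {d : ℕ}

private lemma Coe_jb_le (w : Vec d) : jb w ≤ 1 + len w := by
  have h1 := len_nonneg w
  unfold jb
  apply Real.sqrt_le_iff.2
  refine ⟨by linarith, ?_⟩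
  have h2 := len_sq w
  nlinarith

private lemma Coe_len_cont : Continuous (len : Vec d → ℝ) := by
  have h : Continuous (nsq : Vec d → ℝ) := by
    unfold nsq
    fun_prop
  exact h.sqrt

private lemma Coe_bet_meas (C : ℝ) : Measurable (bet C) := by
  unfold bet
  fun_prop

private lemma Coe_bet'_meas (C : ℝ) : Measurable (bet' C) := by
  unfold bet'
  fun_prop

private lemma Coe_jS_meas {M F : Vec d → ℝ} (hM : Measurable M) (hF : Measurable F) :
    Measurable fun w => jS (M w) (F w) := by
  have h1 := (Coe_bet_meas 2).comp hM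
  have h2 := (Coe_bet_meas 2).comp hF
  have h3 := (Coe_bet_meas 2).comp h1
  have h4 := (Coe_bet_meas 2).comp h2
  have h5 := (Coe_bet'_meas 2).comp h1
  unfold jS
  exact (h3.add (h5.mul (h2.sub h1))).sub h4

private lemma Coe_PhC_meas (e : Fin d) (δ R : ℝ) (v : Vec d) :
    Measurable fun w => PhC e δ R v w := by
  have h1 : Measurable (chi R : Vec d → ℝ) := (chi_cont R).measurable
  have h2 : Measurable fun w : Vec d => clp δ (v e - w e) := by
    unfold clp
    fun_prop
  unfold PhC
  exact h1.mul h2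

/-- the integrand is integrable -/
private lemma Coe_int {δ R U : ℝ} (hδ : 0 < δ) (hR : 1 ≤ R) (e : Fin d) {M F : Vec d → ℝ}
    (hMc : Continuous M) (hFc : Continuous F) (hM0 : ∀ w, 0 ≤ M w) (hMU : ∀ w, M w ≤ U)
    (hF0 : ∀ w, 0 ≤ F w) (hFU : ∀ w, F w ≤ U) (v : Vec d) :
    Integrable fun w => (v e - w e) * PhC e δ R v w * jS (M w) (F w) := by
  have hm : Measurable fun w => (v e - w e) * PhC e δ R v w * jS (M w) (F w) := by
    have h1 : Measurable fun w : Vec d => v e - w e := by fun_prop
    exact (h1.mul (Coe_PhC_meas e δ R v)).mul (Coe_jS_meas hMc.measurable hFc.measurable)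
  -- the bounding function
  have hK : IsCompact (Metric.closedBall (0 : Vec d) (2 * R)) := isCompact_closedBall _ _
  have hb : Integrable (Set.indicator (Metric.closedBall (0 : Vec d) (2 * R))
      fun _ => (len v + 2 * R) * U) :=
    (integrable_indicator_iff hK.measurableSet).2
      (integrableOn_const (hs := hK.measure_lt_top.ne))
  refine hb.mono' hm.aestronglyMeasurable (Eventually.of_forall fun w => ?_)
  have hV := VPhC (d := d) hδ hR e v w
  have hj0 := jS_nonneg (hM0 w) (hF0 w)
  have hj1 : jS (M w) (F w) ≤ U := by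
    refine (jS_up (hM0 w) (hF0 w)).trans ?_
    rw [abs_le]
    constructor
    · linarith [hM0 w, hMU w, hF0 w, hFU w]
    · linarith [hM0 w, hMU w, hF0 w, hFU w]
  rw [Real.norm_eq_abs, abs_of_nonneg (mul_nonneg hV.1 hj0)]
  by_cases hw : w ∈ Metric.closedBall (0 : Vec d) (2 * R)
  · rw [Set.indicator_of_mem hw]
    exact mul_le_mul hV.2 hj1 hj0 (hV.1.trans hV.2)
  · rw [Set.indicator_of_notMem hw]
    have h1 : 2 * R ≤ jb w := by
      rw [Metric.mem_closedBall, dist_zero_right, not_le] at hw
      have h2 : ‖w‖ ≤ len w := (pi_norm_le_iff_of_nonneg (len_nonneg w)).2 fun i => by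
        rw [Real.norm_eq_abs]
        exact abs_coord_le w i
      have h3 : len w ≤ jb w := by
        unfold len jb
        exact Real.sqrt_le_sqrt (by linarith)
      linarith
    have h2 : PhC e δ R v w = 0 := by
      unfold PhC
      rw [chi_eq_zero hR h1, zero_mul]
    rw [h2, mul_zero, zero_mul]

/-- the volume of the strip -/
private lemma Coe_strip (R₁ δ : ℝ) (hR₁ : 0 ≤ R₁) (hδ : 0 < δ) (e : Fin d) (v : Vec d) :
    volume.real ({w : Vec d | len w ≤ R₁} ∩ {w | |v e - w e| < δ}) ≤
      2 * δ * (2 * R₁ + 1) ^ d := by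
  have hsub : {w : Vec d | len w ≤ R₁} ∩ {w | |v e - w e| < δ} ⊆
      Set.Icc (fun i => if i = e then v e - δ else -R₁)
        (fun i => if i = e then v e + δ else R₁) := by
    rintro w ⟨h1, h2⟩
    have h1' : len w ≤ R₁ := h1
    have h2' : |v e - w e| < δ := h2
    rw [abs_lt] at h2'
    constructor
    · intro i
      by_cases hi : i = e
      · subst hi
        simp only [if_true]
        linarith
      · simp only [hi, if_false]
        have := (abs_le.1 (abs_coord_le w i)).1
        linarith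
    · intro i
      by_cases hi : i = e
      · subst hi
        simp only [if_true]
        linarith
      · simp only [hi, if_false]
        have := (abs_le.1 (abs_coord_le w i)).2
        linarith
  have hfin : volume (Set.Icc (fun i : Fin d => if i = e then v e - δ else -R₁)
      (fun i => if i = e then v e + δ else R₁)) ≠ ⊤ := isCompact_Icc.measure_lt_top.ne
  refine (measureReal_mono hsub hfin).trans ?_
  rw [measureReal_def, Real.volume_Icc_pi_toReal]
  · have h3 : ∀ i : Fin d, ((if i = e then v e + δ else R₁) - (if i = e then v e - δ else -R₁))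
        = if i = e then 2 * δ else 2 * R₁ := by
      intro i
      split_ifs
      · ring
      · ring
    rw [Finset.prod_congr rfl fun i _ => h3 i,
      ← Finset.mul_prod_erase Finset.univ _ (Finset.mem_univ e)]
    simp only [if_true]
    refine mul_le_mul_of_nonneg_left ?_ (by positivity)
    have h4 : ∏ i ∈ Finset.univ.erase e, (if i = e then 2 * δ else 2 * R₁) =
        (2 * R₁) ^ (Finset.univ.erase e : Finset (Fin d)).card := by
      rw [← Finset.prod_const]
      refine Finset.prod_congr rfl fun i hi => ?_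
      rw [if_neg (Finset.ne_of_mem_erase hi)]
    rw [h4]
    calc (2 * R₁) ^ (Finset.univ.erase e : Finset (Fin d)).card
        ≤ (2 * R₁ + 1) ^ (Finset.univ.erase e : Finset (Fin d)).card :=
          pow_le_pow_left₀ (by positivity) (by linarith) _
      _ ≤ (2 * R₁ + 1) ^ d := by
          refine pow_le_pow_right₀ (by linarith) ?_
          rw [Finset.card_erase_of_mem (Finset.mem_univ e), Finset.card_univ, Fintype.card_fin]
          omega
  · intro i
    dsimp only
    split_ifs
    · linarith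
    · linarith

theorem coer (R₁ U : ℝ) (hR₁ : 0 ≤ R₁) (hU : 0 ≤ U) {N₀ : ℝ} (hN : 0 < N₀) : ∃ δ c : ℝ, 0 < δ ∧ δ ≤ 1 ∧
    0 < c ∧ ∀ R ≥ R₁ + 1, ∀ (e : Fin d) (M F : Vec d → ℝ), Continuous M → Continuous F →
      (∀ w, 0 ≤ M w) → (∀ w, M w ≤ U) → (∀ w, 0 ≤ F w) → (∀ w, F w ≤ U) → N₀ ≤ NB R₁ M F →
      ∀ v : Vec d, c ≤ ∫ w, (v e - w e) * PhC e δ R v w * jS (M w) (F w) := by
  -- the ball
  set B : Set (Vec d) := {w | len w ≤ R₁} with hB
  have hBm : MeasurableSet B := measurableSet_le Coe_len_cont.measurable measurable_const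
  have hBfin : volume B ≠ ⊤ := by
    have h1 : B ⊆ Metric.closedBall (0 : Vec d) R₁ := by
      intro w hw
      rw [Metric.mem_closedBall, dist_zero_right]
      refine (pi_norm_le_iff_of_nonneg hR₁).2 fun i => ?_
      rw [Real.norm_eq_abs]
      exact (abs_coord_le w i).trans hw
    exact ((measure_mono h1).trans_lt (isCompact_closedBall _ _).measure_lt_top).ne
  set V : ℝ := volume.real B with hV
  have hV0 : 0 ≤ V := measureReal_nonneg
  have hX : 0 < (2 * R₁ + 1) ^ d := by positivity
  set δ : ℝ := min 1 (N₀ / (8 * (U + 1) * (2 * R₁ + 1) ^ d)) with hδdef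
  have hδ0 : 0 < δ := lt_min one_pos (by positivity)
  have hδ1 : δ ≤ 1 := min_le_left _ _
  have hδ2 : U * (2 * δ * (2 * R₁ + 1) ^ d) ≤ N₀ / 4 := by
    have h1 : δ ≤ N₀ / (8 * (U + 1) * (2 * R₁ + 1) ^ d) := min_le_right _ _
    rw [le_div_iff₀ (by positivity)] at h1
    have h2 : 0 ≤ δ * (2 * R₁ + 1) ^ d := by positivity
    nlinarith
  set θ : ℝ := N₀ / (4 * (V + 1)) with hθ
  have hθ0 : 0 < θ := by positivity
  have hθV : θ * V ≤ N₀ / 4 := by
    rw [hθ, div_mul_eq_mul_div, div_le_div_iff₀ (by positivity) (by norm_num)]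
    nlinarith
  have hP : 0 < (2 + U) ^ 4 := by positivity
  set K : ℝ := (2 + U) ^ 4 / (4 * θ * δ) with hK
  have hK0 : 0 < K := by positivity
  refine ⟨δ, N₀ / (2 * K), hδ0, hδ1, by positivity, ?_⟩
  intro R hR e M F hMc hFc hM0 hMU hF0 hFU hNB v
  have hR1 : 1 ≤ R := by linarith
  set g : Vec d → ℝ := fun w => (v e - w e) * PhC e δ R v w * jS (M w) (F w) with hg
  have hgi : Integrable g := Coe_int hδ0 hR1 e hMc hFc hM0 hMU hF0 hFU v
  have hg0 : ∀ w, 0 ≤ g w := fun w =>
    mul_nonneg (VPhC (d := d) hδ0 hR1 e v w).1 (jS_nonneg (hM0 w) (hF0 w))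
  set S : Set (Vec d) := {w | |v e - w e| < δ} with hS
  have hSm : MeasurableSet S := by
    refine measurableSet_lt ?_ measurable_const
    fun_prop
  have hD : ∀ w, |F w - M w| ≤ U := fun w => by
    rw [abs_le]
    constructor
    · linarith [hM0 w, hMU w, hF0 w, hFU w]
    · linarith [hM0 w, hMU w, hF0 w, hFU w]
  -- the pointwise inequality
  have hpt : ∀ w ∈ B, |F w - M w| ≤ S.indicator (fun _ => U) w + θ + K * g w := by
    intro w hw
    have hw' : len w ≤ R₁ := hw
    by_cases hws : w ∈ S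
    · rw [Set.indicator_of_mem hws]
      have := mul_nonneg hK0.le (hg0 w)
      linarith [hD w]
    · rw [Set.indicator_of_notMem hws]
      have h1 : δ ≤ |v e - w e| := by
        have : ¬ |v e - w e| < δ := hws
        exact not_lt.1 this
      have h2 := clp_mul_ge hδ0 h1
      have h3 : chi R w = 1 := chi_eq_one hR1 ((Coe_jb_le w).trans (by linarith))
      have h4 : (v e - w e) * PhC e δ R v w = (v e - w e) * clp δ (v e - w e) := by
        unfold PhC
        rw [h3, one_mul]
      have h5 := jS_low (hM0 w) (hMU w) (hF0 w) (hFU w)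
      have h6 := jS_nonneg (hM0 w) (hF0 w)
      have h7 : δ * jS (M w) (F w) ≤ g w := by
        simp only [hg]
        rw [h4]
        exact mul_le_mul_of_nonneg_right h2 h6
      have h8 : δ * (F w - M w) ^ 2 ≤ (2 + U) ^ 4 * g w := by
        calc δ * (F w - M w) ^ 2 ≤ δ * ((2 + U) ^ 4 * jS (M w) (F w)) :=
              mul_le_mul_of_nonneg_left h5 hδ0.le
          _ = (2 + U) ^ 4 * (δ * jS (M w) (F w)) := by ring
          _ ≤ (2 + U) ^ 4 * g w := mul_le_mul_of_nonneg_left h7 hP.le
      have h9 : |F w - M w| ≤ θ + |F w - M w| ^ 2 / (4 * θ) := by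
        rw [← sub_le_iff_le_add', le_div_iff₀ (by positivity)]
        nlinarith [sq_nonneg (|F w - M w| - 2 * θ)]
      have h10 : |F w - M w| ^ 2 / (4 * θ) ≤ K * g w := by
        rw [sq_abs, hK, div_mul_eq_mul_div, div_le_div_iff₀ (by positivity) (by positivity)]
        calc (F w - M w) ^ 2 * (4 * θ * δ) = (δ * (F w - M w) ^ 2) * (4 * θ) := by ring
          _ ≤ ((2 + U) ^ 4 * g w) * (4 * θ) := mul_le_mul_of_nonneg_right h8 (by positivity)
      linarith
  -- integration
  have hi1 : IntegrableOn (fun w => |F w - M w|) B := by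
    refine Measure.integrableOn_of_bounded hBfin ?_ (M := U) ?_
    · exact (hFc.sub hMc).abs.measurable.aestronglyMeasurable
    · refine Eventually.of_forall fun w => ?_
      rw [Real.norm_eq_abs, abs_abs]
      exact hD w
  have hi2 : IntegrableOn (S.indicator (fun _ => U)) B := by
    refine Measure.integrableOn_of_bounded hBfin ?_ (M := U) ?_
    · exact (measurable_const.indicator hSm).aestronglyMeasurable
    · refine Eventually.of_forall fun w => ?_
      rw [Real.norm_eq_abs]
      by_cases hw : w ∈ S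
      · rw [Set.indicator_of_mem hw, abs_of_nonneg hU]
      · rw [Set.indicator_of_notMem hw, abs_zero]
        exact hU
  have hi3 : IntegrableOn (fun _ : Vec d => θ) B := integrableOn_const (hs := hBfin)
  have hi4 : IntegrableOn (fun w => K * g w) B := (hgi.const_mul K).integrableOn
  have hint : NB R₁ M F ≤ ∫ w in B, (S.indicator (fun _ => U) w + θ + K * g w) := by
    unfold NB
    exact setIntegral_mono_on hi1 ((hi2.add hi3).add hi4) hBm hpt
  have e1 : ∫ w in B, (S.indicator (fun _ => U) w + θ + K * g w) =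
      U * volume.real (B ∩ S) + θ * V + K * ∫ w in B, g w := by
    have a1 : ∫ w in B, (S.indicator (fun _ => U) w + θ + K * g w) =
        (∫ w in B, (S.indicator (fun _ => U) w + θ)) + ∫ w in B, K * g w :=
      integral_add (hi2.add hi3) hi4
    have a2 : ∫ w in B, (S.indicator (fun _ => U) w + θ) =
        (∫ w in B, S.indicator (fun _ => U) w) + ∫ w in B, θ := integral_add hi2 hi3
    rw [a1, a2, integral_const_mul, setIntegral_indicator hSm, setIntegral_const,
      setIntegral_const, smul_eq_mul, smul_eq_mul, mul_comm U, mul_comm θ]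
  have e2 : ∫ w in B, g w ≤ ∫ w, g w :=
    setIntegral_le_integral hgi (Eventually.of_forall hg0)
  have e3 : U * volume.real (B ∩ S) ≤ N₀ / 4 := by
    refine (mul_le_mul_of_nonneg_left ?_ hU).trans hδ2
    exact Coe_strip R₁ δ hR₁ hδ0 e v
  have e4 : K * ∫ w in B, g w ≤ K * ∫ w, g w := mul_le_mul_of_nonneg_left e2 hK0.le
  have e5 : N₀ / 2 ≤ K * ∫ w, g w := by linarith
  rw [div_le_iff₀ (by positivity)]
  linarith

end Pool.Agent.H71.SM
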