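import Pool.Agent.H71.AV.Refl

/-!
# The thickenings of spheres are compact
-/

namespace Pool.Agent.H71.SM

open Pool.Agent.H73.Avr

variable {X : Type}

private theorem cost_add' (d : X → X → ℝ) (π1 π2 : (X × X) →₀ ℝ) :
    cost d (π1 + π2) = cost d π1 + cost d π2 := by
  classical
  unfold cost
  exact Finsupp.sum_add_index' (fun p => by ring) (fun p a b => by ring)

private theorem cost_sum' {ι : Type} (d : X → X → ℝ) (s : Finset ι) (π : ι → (X × X) →₀ ℝ) :
    cost d (∑ i ∈ s, π i) = ∑ i ∈ s, cost d (π i) := by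
  classical
  induction s using Finset.induction_on with
  | empty => simp [cost]
  | insert i s hi ih => rw [Finset.sum_insert hi, Finset.sum_insert hi, cost_add', ih]

private theorem cost_single' (d : X → X → ℝ) (p : X × X) (a : ℝ) :
    cost d (Finsupp.single p a) = a * d p.1 p.2 := by
  unfold cost
  rw [Finsupp.sum_single_index]; ring

private theorem mapDomain_sum_single {Y Z ι : Type} (f : Y → Z) (s : Finset ι) (p : ι → Y)
    (a : ι → ℝ) : Finsupp.mapDomain f (∑ i ∈ s, Finsupp.single (p i) (a i)) =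
      ∑ i ∈ s, Finsupp.single (f (p i)) (a i) := by
  rw [Finsupp.mapDomain_finsetSum]
  simp only [Finsupp.mapDomain_single]

private theorem W1_config_le {n k : ℕ} (x x' : Fin k → Sph n) (a b : Fin k → ℝ)
    (ha : ∀ i, 0 ≤ a i) (hb : ∀ i, 0 ≤ b i) (hsa : ∑ i, a i = 1) (hsb : ∑ i, b i = 1) :
    W1 (geo n) (∑ i, Finsupp.single (x i) (a i)) (∑ i, Finsupp.single (x' i) (b i)) ≤
      ∑ i, min (a i) (b i) * geo n (x i) (x' i) +
        (1 - ∑ i, min (a i) (b i)) * Real.pi := by
  classical
  set c : Fin k → ℝ := fun i => min (a i) (b i) with hc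
  have hc0 : ∀ i, 0 ≤ c i := fun i => le_min (ha i) (hb i)
  have hca : ∀ i, 0 ≤ a i - c i := fun i => sub_nonneg.2 (min_le_left _ _)
  have hcb : ∀ i, 0 ≤ b i - c i := fun i => sub_nonneg.2 (min_le_right _ _)
  set m : ℝ := 1 - ∑ i, c i with hm
  have hma : ∑ i, (a i - c i) = m := by rw [Finset.sum_sub_distrib, hsa]
  have hmb : ∑ i, (b i - c i) = m := by rw [Finset.sum_sub_distrib, hsb]
  have hm0 : 0 ≤ m := by rw [← hma]; exact Finset.sum_nonneg fun i _ => hca i
  have hza : m = 0 → ∀ i, a i - c i = 0 := by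
    intro h0 i
    rw [← hma, Finset.sum_eq_zero_iff_of_nonneg fun i _ => hca i] at h0
    exact h0 i (Finset.mem_univ i)
  have hzb : m = 0 → ∀ i, b i - c i = 0 := by
    intro h0 i
    rw [← hmb, Finset.sum_eq_zero_iff_of_nonneg fun i _ => hcb i] at h0
    exact h0 i (Finset.mem_univ i)
  have hrowa : ∀ i, ∑ j, (a i - c i) * (b j - c j) / m = a i - c i := by
    intro i
    rw [← Finset.sum_div, ← Finset.mul_sum, hmb]
    by_cases h0 : m = 0
    · rw [hza h0 i]; simp
    · field_simp
  have hrowb : ∀ j, ∑ i, (a i - c i) * (b j - c j) / m = b j - c j := by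
    intro j
    rw [← Finset.sum_div, ← Finset.sum_mul, hma]
    by_cases h0 : m = 0
    · rw [hzb h0 j]; simp
    · field_simp
  set π : (Sph n × Sph n) →₀ ℝ := ∑ i, Finsupp.single (x i, x' i) (c i) +
    ∑ i, ∑ j, Finsupp.single (x i, x' j) ((a i - c i) * (b j - c j) / m) with hπ
  have hcoup : IsCoupling π (∑ i, Finsupp.single (x i) (a i))
      (∑ i, Finsupp.single (x' i) (b i)) := by
    refine ⟨?_, ?_, ?_⟩
    · intro p
      rw [hπ, Finsupp.add_apply, Finsupp.finsetSum_apply, Finsupp.finsetSum_apply]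
      refine add_nonneg (Finset.sum_nonneg fun i _ => ?_) (Finset.sum_nonneg fun i _ => ?_)
      · rw [Finsupp.single_apply]
        split_ifs
        · exact hc0 i
        · exact le_rfl
      · rw [Finsupp.finsetSum_apply]
        refine Finset.sum_nonneg fun j _ => ?_
        rw [Finsupp.single_apply]
        split_ifs
        · exact div_nonneg (mul_nonneg (hca i) (hcb j)) hm0
        · exact le_rfl
    · rw [hπ, Finsupp.mapDomain_add, mapDomain_sum_single, Finsupp.mapDomain_finsetSum,
        ← Finset.sum_add_distrib]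
      refine Finset.sum_congr rfl fun i _ => ?_
      rw [mapDomain_sum_single, ← Finsupp.single_finsetSum, hrowa, ← Finsupp.single_add]
      congr 1; ring
    · rw [hπ, Finsupp.mapDomain_add, mapDomain_sum_single, Finset.sum_comm,
        Finsupp.mapDomain_finsetSum, ← Finset.sum_add_distrib]
      refine Finset.sum_congr rfl fun j _ => ?_
      rw [mapDomain_sum_single, ← Finsupp.single_finsetSum, hrowb, ← Finsupp.single_add]
      congr 1; ring
  refine (W1_le (fun x y => geo_nonneg x y) hcoup).trans ?_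
  rw [hπ, cost_add', cost_sum', cost_sum']
  simp only [cost_single', cost_sum']
  refine add_le_add le_rfl ?_
  have h1 : ∀ i j, (a i - c i) * (b j - c j) / m * geo n (x i) (x' j) ≤
      (a i - c i) * (b j - c j) / m * Real.pi := by
    intro i j
    exact mul_le_mul_of_nonneg_left (InnerProductGeometry.angle_le_pi _ _)
      (div_nonneg (mul_nonneg (hca i) (hcb j)) hm0)
  calc ∑ i, ∑ j, (a i - c i) * (b j - c j) / m * geo n (x i) (x' j)
      ≤ ∑ i, ∑ j, (a i - c i) * (b j - c j) / m * Real.pi :=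
        Finset.sum_le_sum fun i _ => Finset.sum_le_sum fun j _ => h1 i j
    _ = m * Real.pi := by
        simp only [← Finset.sum_mul]
        simp only [hrowa, hma]

/-- configurations of `k` points of spread at least `r` with weights -/
private def Cfg (n k : ℕ) (r : ℝ) : Set ((Fin k → Sph n) × (Fin k → ℝ)) :=
  {q | (∀ i j, i ≠ j → r ≤ geo n (q.1 i) (q.1 j)) ∧ q.2 ∈ stdSimplex ℝ (Fin k)}

private theorem continuous_geo (n : ℕ) : Continuous fun q : Sph n × Sph n => geo n q.1 q.2 := by
  have : (fun q : Sph n × Sph n => geo n q.1 q.2) = fun q : Sph n × Sph n =>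
      Real.arccos (inner ℝ (q.1 : EuclideanSpace ℝ (Fin (n + 1)))
        (q.2 : EuclideanSpace ℝ (Fin (n + 1)))) := by
    funext q
    rw [geo, InnerProductGeometry.angle, mem_sphere_zero_iff_norm.1 q.1.2,
      mem_sphere_zero_iff_norm.1 q.2.2]
    simp
  rw [this]
  exact Real.continuous_arccos.comp (by fun_prop)

private theorem isCompact_Cfg (n k : ℕ) (r : ℝ) : IsCompact (Cfg n k r) := by
  have h1 : IsCompact ((Set.univ : Set (Fin k → Sph n)) ×ˢ (stdSimplex ℝ (Fin k))) :=
    isCompact_univ.prod (isCompact_stdSimplex ℝ (Fin k))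
  refine h1.of_isClosed_subset ?_ (fun q hq => ⟨trivial, hq.2⟩)
  have h2 : IsClosed {q : (Fin k → Sph n) × (Fin k → ℝ) |
      ∀ i j, i ≠ j → r ≤ geo n (q.1 i) (q.1 j)} := by
    simp only [Set.ofPred_forall]
    refine isClosed_iInter fun i => isClosed_iInter fun j => isClosed_iInter fun _ => ?_
    refine isClosed_le continuous_const ((continuous_geo n).comp (f := fun q :
      (Fin k → Sph n) × (Fin k → ℝ) => (q.1 i, q.1 j)) (by fun_prop))
  exact h2.inter ((isCompact_stdSimplex ℝ (Fin k)).isClosed.preimage continuous_snd)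

/-- the measure of a configuration -/
private noncomputable def ofCfg {n k : ℕ} {r : ℝ} (q : Cfg n k r) : AVR (geo n) r where
  w := ∑ i, Finsupp.single (q.1.1 i) (q.1.2 i)
  nonneg := by
    classical
    intro x
    rw [Finsupp.finsetSum_apply]
    refine Finset.sum_nonneg fun i _ => ?_
    rw [Finsupp.single_apply]
    split_ifs
    · exact q.2.2.1 i
    · exact le_rfl
  total := by
    classical
    rw [← Finsupp.sum_finsetSum_index (by simp) (by simp)]
    simp only [Finsupp.sum_single_index]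
    exact q.2.2.2
  spread := by
    classical
    have hs : ∀ x ∈ (∑ i, Finsupp.single (q.1.1 i) (q.1.2 i) : Sph n →₀ ℝ).support,
        ∃ i, x = q.1.1 i := by
      intro x hx
      by_contra hcon
      push Not at hcon
      rw [Finsupp.mem_support_iff] at hx
      apply hx
      rw [Finsupp.finsetSum_apply]
      refine Finset.sum_eq_zero fun i _ => ?_
      rw [Finsupp.single_apply, if_neg (fun h => hcon i h.symm)]
    intro x hx y hy hxy
    obtain ⟨i, rfl⟩ := hs x hx
    obtain ⟨j, rfl⟩ := hs y hy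
    exact q.2.1 i j (fun h => hxy (by rw [h]))

private theorem continuous_ofCfg {n k : ℕ} {r : ℝ} :
    Continuous (ofCfg : Cfg n k r → AVR (geo n) r) := by
  refine continuous_def.2 fun V hV => ?_
  rw [isOpen_iff_mem_nhds]
  intro q0 hq0
  obtain ⟨ε, hε, h⟩ := hV _ hq0
  have hcont : Continuous fun q : Cfg n k r =>
      ∑ i, min (q0.1.2 i) (q.1.2 i) * geo n (q0.1.1 i) (q.1.1 i) +
        (1 - ∑ i, min (q0.1.2 i) (q.1.2 i)) * Real.pi := by
    have hg : ∀ i, Continuous fun q : Cfg n k r => geo n (q0.1.1 i) (q.1.1 i) := fun i =>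
      (continuous_geo n).comp (f := fun q : Cfg n k r => (q0.1.1 i, q.1.1 i)) (by fun_prop)
    fun_prop
  have h0 : ∑ i, min (q0.1.2 i) (q0.1.2 i) * geo n (q0.1.1 i) (q0.1.1 i) +
        (1 - ∑ i, min (q0.1.2 i) (q0.1.2 i)) * Real.pi < ε := by
    have hself : ∀ x : Sph n, geo n x x = 0 := by
      intro x
      apply InnerProductGeometry.angle_self
      intro h0
      have := mem_sphere_zero_iff_norm.1 x.2
      rw [h0, norm_zero] at this
      exact zero_ne_one this
    simp only [hself, min_self, mul_zero, Finset.sum_const_zero, zero_add]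
    rw [q0.2.2.2, sub_self, zero_mul]
    exact hε
  have h2 := hcont.continuousAt.eventually (f := fun q : Cfg n k r =>
      ∑ i, min (q0.1.2 i) (q.1.2 i) * geo n (q0.1.1 i) (q.1.1 i) +
        (1 - ∑ i, min (q0.1.2 i) (q.1.2 i)) * Real.pi) (gt_mem_nhds h0)
  filter_upwards [h2] with q hq
  refine h _ (lt_of_le_of_lt ?_ hq)
  exact W1_config_le _ _ _ _ (fun i => q0.2.2.1 i) (fun i => q.2.2.1 i) q0.2.2.2 q.2.2.2

private theorem exists_ofCfg {n : ℕ} {r : ℝ} (μ : AVR (geo n) r) :
    ∃ q : Cfg n μ.w.support.card r, ofCfg q = μ := by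
  classical
  set e := μ.w.support.equivFin with he
  have hinj : ∀ i j, i ≠ j → ((e.symm i : μ.w.support) : Sph n) ≠ (e.symm j : μ.w.support) := by
    intro i j hij h
    exact hij (e.symm.injective (Subtype.ext h))
  refine ⟨⟨(fun i => (e.symm i : μ.w.support), fun i => μ.w (e.symm i : μ.w.support)), ?_, ?_, ?_⟩, ?_⟩
  · intro i j hij
    exact μ.spread _ (e.symm i).2 _ (e.symm j).2 (hinj i j hij)
  · intro i
    exact μ.nonneg _
  · show ∑ i, μ.w ((e.symm i : μ.w.support) : Sph n) = 1
    rw [Equiv.sum_comp e.symm (fun x : μ.w.support => μ.w (x : Sph n))]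
    rw [← μ.total, Finsupp.sum, ← Finset.sum_coe_sort μ.w.support (fun x => μ.w x)]
  · apply AVR.ext
    show ∑ i, Finsupp.single ((e.symm i : μ.w.support) : Sph n) (μ.w (e.symm i : μ.w.support)) = μ.w
    rw [Equiv.sum_comp e.symm (fun x : μ.w.support => Finsupp.single (x : Sph n) (μ.w (x : Sph n)))]
    rw [Finset.sum_coe_sort μ.w.support (fun x => Finsupp.single x (μ.w x))]
    exact Finsupp.sum_single μ.w

theorem avr_compact {n : ℕ} {r : ℝ} (hr : 0 < r) : CompactSpace (AVR (geo n) r) := by
  obtain ⟨p, hp⟩ := exists_packing n hr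
  have h1 : (Set.univ : Set (AVR (geo n) r)) = ⋃ k : Fin (p + 1), Set.range
      (ofCfg : Cfg n k r → AVR (geo n) r) := by
    refine Set.eq_univ_of_forall (fun μ => ?_) |>.symm
    obtain ⟨q, hq⟩ := exists_ofCfg μ
    have hk := hp μ.w.support μ.spread
    exact Set.mem_iUnion.2 ⟨⟨μ.w.support.card, by omega⟩, ⟨q, hq⟩⟩
  refine ⟨?_⟩
  rw [h1]
  refine isCompact_iUnion fun k => ?_
  have : CompactSpace (Cfg n k r) := isCompact_iff_compactSpace.1 (isCompact_Cfg n k r)
  exact isCompact_range continuous_ofCfg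

end Pool.Agent.H71.SM
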