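import Pool.Agent.H71.SM.PotS

/-!
# Module DerS: lower bound for the derivative of the potential, one time slice

`dpot = I₁ - I₂ + I₃` (H48/PL/Defs). `I₁[PhM,bet 2 F] - I₁[PhC,bet 1 F] = ∫ w, (v_e-w_e) PhC (jS (M w) (F x w)) - c(v)`, `c(v) = ∫ w, (v_e-w_e) PhC v w (bet 1 (M w) - bet' 2 (..) bet 2 (M w))` (`jS_eq`); `I₂` is the average over `z ∈ (-1/2,1/2)` of the same expressions at `x - z e`:
`= ∫ y, (∫ w, (v_e-w_e) PhC jS(y,w)) dμ - c(v)` (`sa_loc`, `muD_univ`); the two `c(v)` cancel. `∫ y ∫ w (v_e-w_e) PhC jS ≤ (len v + 2R) L1` (`VPhC`, `jS_up`, `nu_integral`). `|I₃[PhM,..]| + |I₃[PhC,..]| ≤ (1/2) ∫ y, src .. dμ` (`sa_src` with `m` the absolute value of the inner integral, `sa_pl`; `hb1`, `hb2` give the class `SA` of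
`bet' G`). `PGW.vmul` for the weight `(v_e-w_e) Φ`. `0 ≤ ∫ src`. Compare `ED_der` (H48/PV/DerB.lean).
-/

set_option autoImplicit false

open MeasureTheory Set Filter Topology Pool.Agent.H25.Kin Pool.Agent.H82.BK Pool.Agent.H82.CM
open Pool.Agent.H48.PL Pool.Agent.H48.PI Pool.Agent.H48.PW Pool.Agent.H48.PD Pool.Agent.H48.PR

namespace Pool.Agent.H71.SM

variable {d : ℕ} {e : Fin d} {δ R Γ μ : ℝ} {M : Vec d → ℝ} {Cl : ℕ → ℝ} {p : ℕ}
  {F G : Vec d → Vec d → ℝ}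

private lemma ders_FM (hM : ML Cl Γ p M) (h : FS e F G) : SA e fun y w => F y w - M w := by
  refine ⟨h.contF.sub (hM.fb.nice.cont.comp continuous_snd), ?_, fun y w i => by rw [h.perF],
    fun y y' w hy => by rw [h.plF y y' w hy]⟩
  intro N
  obtain ⟨C, hC⟩ := h.decF N
  refine ⟨C + Cl N, fun y w => ?_⟩
  have h1 := hC y w
  have h2 := hM.fb.le N w
  have h3 : |F y w - M w| ≤ |F y w| + M w := by
    have h4 := abs_sub (F y w) (M w)
    rwa [abs_of_nonneg (hM.fb.nonneg w)] at h4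
  calc (1 + ‖w‖) ^ N * |F y w - M w| ≤ (1 + ‖w‖) ^ N * (|F y w| + M w) :=
        mul_le_mul_of_nonneg_left h3 (pow_nonneg (w_pos w).le N)
    _ ≤ C + Cl N := by rw [mul_add]; linarith

private lemma ders_one : PGW fun _ _ : Vec d => (1 : ℝ) :=
  ⟨continuous_const, 0, 1, zero_le_one, fun v w => by simp⟩

theorem dEJ_low (hδ : 0 < δ) (hR : 1 ≤ R) (hM : ML Cl Γ p M) (h : FS e F G)
    (hb1 : FS e (fun x v => bet 1 (F x v)) (fun x v => bet' 1 (F x v) * G x v))
    (hb2 : FS e (fun x v => bet 2 (F x v)) (fun x v => bet' 2 (F x v) * G x v)) (v : Vec d)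
    (hμ : ∫ y, src e δ R M F G v y ∂(muD d) ≤ μ) (x : Vec d) :
    (∫ w, (v e - w e) * PhC e δ R v w * jS (M w) (F x w)) - (len v + 2 * R) * L1 M F - μ ≤
      dEJ e δ R M F G x v := by
  have aB2 : SA e fun x w => bet 2 (F x w) := ⟨hb2.contF, hb2.decF, hb2.perF, hb2.plF⟩
  have aB1 : SA e fun x w => bet 1 (F x w) := ⟨hb1.contF, hb1.decF, hb1.perF, hb1.plF⟩
  have aH2 : SA e fun x w => bet' 2 (F x w) * G x w := ⟨hb2.contG, hb2.decG, hb2.perG, hb2.plG⟩
  have aH1 : SA e fun x w => bet' 1 (F x w) * G x w := ⟨hb1.contG, hb1.decG, hb1.perG, hb1.plG⟩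
  have aJ := SA_jS hM h
  have pC : PGW (PhC e δ R : Vec d → Vec d → ℝ) := PhC_PGW hδ e R
  have pM : PGW (PhM e δ R M) := PhM_PGW hδ e R hM.fb.nice.cont hM.fb.nonneg
  have vC := pC.vmul e
  have vM := pM.vmul e
  -- the three functions
  obtain ⟨a2, ha2⟩ : ∃ a2 : Vec d → ℝ, a2 = fun y => ∫ w, (v e - w e) * PhM e δ R M v w *
      bet 2 (F y w) := ⟨_, rfl⟩
  obtain ⟨a1, ha1⟩ : ∃ a1 : Vec d → ℝ, a1 = fun y => ∫ w, (v e - w e) * PhC e δ R v w *
      bet 1 (F y w) := ⟨_, rfl⟩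
  obtain ⟨J, hJ⟩ : ∃ J : Vec d → ℝ, J = fun y => ∫ w, (v e - w e) * PhC e δ R v w *
      jS (M w) (F y w) := ⟨_, rfl⟩
  obtain ⟨c, hc⟩ : ∃ c : ℝ, c = ∫ w, (v e - w e) * PhC e δ R v w *
      (bet 1 (M w) - bet' 2 (bet 2 (M w)) * bet 2 (M w)) := ⟨_, rfl⟩
  have hJc : ∀ y, J y = a2 y - a1 y + c := by
    intro y
    have i2 := sa_int aB2 vM y v
    have i1 := sa_int aB1 vC y v
    have iJ := sa_int aJ vC y v
    have e1 : c = J y - a2 y + a1 y := by
      rw [hc, hJ, ha2, ha1]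
      have e2 : (fun w => (v e - w e) * PhC e δ R v w *
          (bet 1 (M w) - bet' 2 (bet 2 (M w)) * bet 2 (M w))) = fun w =>
          ((v e - w e) * PhC e δ R v w * jS (M w) (F y w) -
            (v e - w e) * PhM e δ R M v w * bet 2 (F y w)) +
            (v e - w e) * PhC e δ R v w * bet 1 (F y w) := by
        funext w
        rw [jS_eq (hM.fb.nonneg w) (h.nonneg y w)]
        unfold PhM
        ring
      have i3 : Integrable (fun w => (v e - w e) * PhC e δ R v w * jS (M w) (F y w) -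
            (v e - w e) * PhM e δ R M v w * bet 2 (F y w)) := iJ.sub i2
      rw [e2, integral_add i3 i1, integral_sub iJ i2]
    linarith
  have q2 : PlF e a2 := by rw [ha2]; exact sa_pl aB2 vM v
  have q1 : PlF e a1 := by rw [ha1]; exact sa_pl aB1 vC v
  have hJint : ∫ y, J y ∂(muD d) = (∫ y, a2 y ∂(muD d)) - (∫ y, a1 y ∂(muD d)) + c := by
    have e1 : ∫ y, J y ∂(muD d) = ∫ y, (a2 y - a1 y + c) ∂(muD d) :=
      integral_congr_ae (Eventually.of_forall hJc)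
    have i3 : Integrable (fun y => a2 y - a1 y) (muD d) := (pl_int q2).sub (pl_int q1)
    have hfin : IsFiniteMeasure (muD d) := ⟨by rw [muD_univ]; exact ENNReal.one_lt_top⟩
    rw [e1, integral_add i3 (integrable_const c),
      integral_sub (pl_int q2) (pl_int q1), integral_const, measureReal_def, muD_univ]
    simp
  -- the mean of `J`
  have hJup : ∫ y, J y ∂(muD d) ≤ (len v + 2 * R) * L1 M F := by
    have iX := sa_nu aJ vC v
    have e1 : ∫ y, J y ∂(muD d) = ∫ q, (v e - q.1 e) * PhC e δ R v q.1 *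
        jS (M q.1) (F q.2 q.1) ∂(nu d) := by
      rw [hJ]
      exact (Pool.Agent.H15.AV.nu_integral iX).symm
    have iF : Integrable (fun q : Vec d × Vec d => |F q.2 q.1 - M q.1|) (nu d) := by
      have h2 := sa_nu (ders_FM hM h) ders_one v
      simp only [one_mul] at h2
      exact h2.abs
    rw [e1]
    unfold L1
    rw [← integral_const_mul]
    refine integral_mono iX (iF.const_mul _) fun q => ?_
    have k1 := VPhC (d := d) hδ hR e v q.1
    have k2 := jS_nonneg (hM.fb.nonneg q.1) (h.nonneg q.2 q.1)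
    have k3 := jS_up (hM.fb.nonneg q.1) (h.nonneg q.2 q.1)
    exact mul_le_mul k1.2 k3 k2 (k1.1.trans k1.2)
  -- averages
  have l2 : ∫ z in Ioo (-((1 : ℝ) / 2)) (1 / 2), ∫ w, (v e - w e) * PhM e δ R M v w *
      bet 2 (F (x - Pi.single e z) w) = ∫ y, a2 y ∂(muD d) := by
    have := sa_loc q2 x
    rw [ha2] at this ⊢
    exact this
  have l1 : ∫ z in Ioo (-((1 : ℝ) / 2)) (1 / 2), ∫ w, (v e - w e) * PhC e δ R v w *
      bet 1 (F (x - Pi.single e z) w) = ∫ y, a1 y ∂(muD d) := by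
    have := sa_loc q1 x
    rw [ha1] at this ⊢
    exact this
  -- sources
  have r2 := sa_abs (sa_pl aH2 pM v)
  have r1 := sa_abs (sa_pl aH1 pC v)
  have t2 := sa_src (a := fun y => ∫ w, PhM e δ R M v w * (bet' 2 (F y w) * G y w)) r2
      (fun _ => le_rfl) x
  have t1 := sa_src (a := fun y => ∫ w, PhC e δ R v w * (bet' 1 (F y w) * G y w)) r1
      (fun _ => le_rfl) x
  have hS : (∫ y, |∫ w, PhM e δ R M v w * (bet' 2 (F y w) * G y w)| ∂(muD d)) +
      (∫ y, |∫ w, PhC e δ R v w * (bet' 1 (F y w) * G y w)| ∂(muD d)) ≤ μ := by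
    rw [← integral_add (pl_int r2) (pl_int r1)]
    exact hμ
  have n2 : 0 ≤ ∫ y, |∫ w, PhM e δ R M v w * (bet' 2 (F y w) * G y w)| ∂(muD d) :=
    integral_nonneg fun y => abs_nonneg _
  have n1 : 0 ≤ ∫ y, |∫ w, PhC e δ R v w * (bet' 1 (F y w) * G y w)| ∂(muD d) :=
    integral_nonneg fun y => abs_nonneg _
  have z2 : dpot e 1 (PhM e δ R M) (fun y w => bet 2 (F y w))
      (fun y w => bet' 2 (F y w) * G y w) x v = a2 x - (∫ y, a2 y ∂(muD d)) +
      ∫ z in Ioo (-((1 : ℝ) / 2)) (1 / 2), kl 1 z * ∫ w, PhM e δ R M v w *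
        (bet' 2 (F (x - Pi.single e z) w) * G (x - Pi.single e z) w) := by
    unfold dpot
    rw [one_div_one, one_mul, l2, ha2]
  have z1 : dpot e 1 (PhC e δ R) (fun y w => bet 1 (F y w))
      (fun y w => bet' 1 (F y w) * G y w) x v = a1 x - (∫ y, a1 y ∂(muD d)) +
      ∫ z in Ioo (-((1 : ℝ) / 2)) (1 / 2), kl 1 z * ∫ w, PhC e δ R v w *
        (bet' 1 (F (x - Pi.single e z) w) * G (x - Pi.single e z) w) := by
    unfold dpot
    rw [one_div_one, one_mul, l1, ha1]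
  have hJx : ∫ w, (v e - w e) * PhC e δ R v w * jS (M w) (F x w) = a2 x - a1 x + c := by
    rw [← hJc x, hJ]
  have t2' := (abs_le.1 t2).1
  have t1' := (abs_le.1 t1).2
  unfold dEJ
  rw [z2, z1, hJx]
  linarith

end Pool.Agent.H71.SM
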