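import Pool.Agent.H71.SM.PhP

/-!
# Module EDef: continuity, periodicity and derivative of the potential

As `EDefD` of H85/DG: `pot_cont`, `pot_per`, `pot_char` for `bet 2 f`, `bet 1 f` (`bet_sol`, `bet_planar` with `C₀ = 2`, `C₀ = 1`), `PhM_PGW`, `PhC_PGW`.
-/

set_option autoImplicit false

open MeasureTheory Set Filter Topology Pool.Agent.H25.Kin Pool.Agent.H82.BK Pool.Agent.H82.CM
open Pool.Agent.H48.PL Pool.Agent.H48.PI Pool.Agent.H48.PW Pool.Agent.H48.PD Pool.Agent.H48.PR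

namespace Pool.Agent.H71.SM

variable {d : ℕ} {T δ R : ℝ} {Q f : ℝ → Vec d → Vec d → ℝ} {M : Vec d → ℝ}

theorem EJ_cont (hδ : 0 < δ) (hMc : Continuous M) (hM0 : ∀ w, 0 ≤ M w) (hf : IsClassicalSol T Q f)
    (e : Fin d) (R : ℝ) :
    ContinuousOn (unc fun t x v => EJ e δ R M (f t) x v) (Ico 0 T ×ˢ univ) := by
  have h2 := pot_cont (bet_sol (C₀ := 2) two_pos hf) (PhM_PGW hδ e R hMc hM0) e one_pos
  have h1 := pot_cont (bet_sol (C₀ := 1) one_pos hf) (PhC_PGW hδ e R) e one_pos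
  exact h2.sub h1

lemma EJ_per {F : Vec d → Vec d → ℝ} (hF : ∀ x v i, F (x + Pi.single i 1) v = F x v) (e : Fin d)
    (δ R : ℝ) (M : Vec d → ℝ) (x v : Vec d) (i : Fin d) :
    EJ e δ R M F (x + Pi.single i 1) v = EJ e δ R M F x v := by
  have h2 : ∀ (y w : Vec d) (j : Fin d), (fun y w => bet 2 (F y w)) (y + Pi.single j 1) w =
      (fun y w => bet 2 (F y w)) y w := by
    intro y w j
    show bet 2 (F (y + Pi.single j 1) w) = bet 2 (F y w)
    rw [hF]
  have h1 : ∀ (y w : Vec d) (j : Fin d), (fun y w => bet 1 (F y w)) (y + Pi.single j 1) w =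
      (fun y w => bet 1 (F y w)) y w := by
    intro y w j
    show bet 1 (F (y + Pi.single j 1) w) = bet 1 (F y w)
    rw [hF]
  unfold EJ
  rw [pot_per h2, pot_per h1]

theorem EJ_char (hδ : 0 < δ) (hMc : Continuous M) (hM0 : ∀ w, 0 ≤ M w) (hf : IsClassicalSol T Q f)
    {e : Fin d} (hpl : Planar e T f) (R : ℝ) {t : ℝ} (ht : t ∈ Ioo 0 T) (x v : Vec d) :
    HasDerivAt (fun r => EJ e δ R M (f r) (x + r • v) v) (dEJ e δ R M (f t) (Q t) (x + t • v) v) t := by
  have hp2 : Planar e T fun t x v => bet 2 (f t x v) := bet_planar hpl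
  have hp1 : Planar e T fun t x v => bet 1 (f t x v) := bet_planar hpl
  have h2 := pot_char (bet_sol (C₀ := 2) two_pos hf) hp2 (PhM_PGW hδ e R hMc hM0) one_pos ht x v
  have h1 := pot_char (bet_sol (C₀ := 1) one_pos hf) hp1 (PhC_PGW hδ e R) one_pos ht x v
  exact h2.sub h1

end Pool.Agent.H71.SM
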