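import Pool.Agent.H71.SM.GalS
import Pool.Agent.H85.LB.Win
import Pool.Agent.H48.PI.HydU

/-!
# Module LowR: pointwise lower bound on balls, uniformly in time

`window` (H85/LB/Win.lean) with `h = 1/2` for the shifted solutions `g t x v = f t (x + t w) (v + w)`, `len w ≤ R` (`gal_sol`): at `v = 0`, `x = y - t w`: `f t y w = g t (y - t w) 0 ≥ c`. Hypotheses for `g`, with constants depending on `R` only: `Planar e T g`; `UB U' T g`, `U' N = (1+R)^N Cl N` (`1 + ‖v‖ ≤ (1+R)(1+‖v+w‖)`, `Cl N ≥ 0`);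
`Glob m M' (g t)` (H15/AV/Defs): mass `∫ g dν ≥ m` (`nu_integral`, translation in `v`, `∫ dμ = 1`), `∫ g dν, ∫ g nsq dν ≤ M'`, `∫ g log g dν ≤ M'` from `UB U'` (`g ≤ U'(N)/(1+‖v‖)^N`, `g log g ≤ g log (max 1 (U' 0))`); see the proof of `lower_unif` (H85/LB/Top.lean) and H48/PI/HydU.
-/

set_option autoImplicit false

open MeasureTheory Set Filter Topology Pool.Agent.H25.Kin Pool.Agent.H82.BK Pool.Agent.H82.CM
open Pool.Agent.H48.PL Pool.Agent.H48.PI Pool.Agent.H48.PW Pool.Agent.H48.PD Pool.Agent.H48.PR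

namespace Pool.Agent.H71.SM

variable {d : ℕ}

/-- integrals over phase space are bounded by the fibers -/
private lemma LowR_le {G : Vec d × Vec d → ℝ} {M : ℝ} (hM : 0 ≤ M) (h : ∀ x, ∫ v, G (v, x) ≤ M) :
    ∫ q, G q ∂(nu d) ≤ M := by
  by_cases hi : Integrable G (nu d)
  · rw [Pool.Agent.H15.AV.nu_integral hi]
    have h1 : Integrable (fun x => ∫ v, G (v, x)) (muD d) := by
      unfold nu at hi
      exact hi.integral_prod_right
    have h2 : (muD d).real univ = 1 := by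
      unfold muD
      rw [measureReal_def, Measure.restrict_apply_univ, Real.volume_Icc_pi]
      simp
    calc ∫ x, (∫ v, G (v, x)) ∂(muD d) ≤ ∫ _x, M ∂(muD d) :=
          integral_mono h1 (integrable_const _) h
      _ = M := by rw [integral_const, h2, one_smul]
  · rw [integral_undef hi]
    exact hM

private lemma LowR_ge {G : Vec d × Vec d → ℝ} {m : ℝ} (hi : Integrable G (nu d))
    (h : ∀ x, m ≤ ∫ v, G (v, x)) : m ≤ ∫ q, G q ∂(nu d) := by
  rw [Pool.Agent.H15.AV.nu_integral hi]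
  have h1 : Integrable (fun x => ∫ v, G (v, x)) (muD d) := by
    unfold nu at hi
    exact hi.integral_prod_right
  have h2 : (muD d).real univ = 1 := by
    unfold muD
    rw [measureReal_def, Measure.restrict_apply_univ, Real.volume_Icc_pi]
    simp
  calc m = ∫ _x, m ∂(muD d) := by rw [integral_const, h2, one_smul]
    _ ≤ ∫ x, (∫ v, G (v, x)) ∂(muD d) := integral_mono (integrable_const _) h1 h

/-- a slice of a classical solution is integrable over phase space -/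
private lemma LowR_int {T : ℝ} {Q f : ℝ → Vec d → Vec d → ℝ} (hf : IsClassicalSol T Q f) {t : ℝ}
    (ht : t ∈ Ico 0 T) : Integrable (fun q : Vec d × Vec d => f t q.2 q.1) (nu d) := by
  obtain ⟨C, hC⟩ := hf.decay t ht.2 (d + 1)
  have hc0 : Continuous fun q : Vec d × Vec d => f t q.1 q.2 := hf.cont_slice ht
  have hc : Continuous fun q : Vec d × Vec d => f t q.2 q.1 := hc0.comp continuous_swap
  refine integrable_nu (C := C) hc.aestronglyMeasurable fun q => ?_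
  rw [abs_of_nonneg (hf.nonneg t ht _ _)]
  have h1 := hC t ⟨ht.1, le_rfl⟩ q.2 q.1
  have h2 : 0 < (1 + ‖q.1‖) ^ (d + 1) := pow_pos (w_pos _) _
  unfold wt
  rw [← div_eq_mul_inv, le_div_iff₀ h2, mul_comm]
  exact h1

theorem low_R {s γ : ℝ} (hd : 2 ≤ d) (hs : s ∈ Ioo (0 : ℝ) 1) (h0 : 0 ≤ γ + 2 * s)
    (h2 : γ + 2 * s < 2) {b : ℝ → ℝ} (hb : IsKernel d s b) (e : Fin d) (Cl : ℕ → ℝ) {m : ℝ} (hm : 0 < m)
    (R : ℝ) : ∃ c : ℝ, 0 < c ∧ ∀ (T : ℝ) (f : ℝ → Vec d → Vec d → ℝ), SB γ b Cl e T f →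
      (∀ t ∈ Ico 0 T, ∀ x, m ≤ ∫ v, f t x v) →
      ∀ t ∈ Ico 0 T, 1 ≤ t → ∀ x v : Vec d, len v ≤ R → c ≤ f t x v := by
  obtain ⟨R', hR'⟩ : ∃ R' : ℝ, R' = max R 0 := ⟨_, rfl⟩
  have hR0 : 0 ≤ R' := by rw [hR']; exact le_max_right _ _
  have hRR : R ≤ R' := by rw [hR']; exact le_max_left _ _
  obtain ⟨U, hU⟩ : ∃ U : ℕ → ℝ, U = fun N => (1 + R') ^ N * |Cl N| := ⟨_, rfl⟩
  obtain ⟨M₀, hM₀⟩ := hydro_of_U d U
  obtain ⟨M, hM⟩ : ∃ M : ℝ, M = max M₀ 0 := ⟨_, rfl⟩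
  have hM0 : 0 ≤ M := by rw [hM]; exact le_max_right _ _
  have hMM : M₀ ≤ M := by rw [hM]; exact le_max_left _ _
  obtain ⟨c, hc, hwin⟩ := Pool.Agent.H85.LB.window hd hs h0 h2 hb e U hm M (h := 1 / 2)
    (by norm_num) (by norm_num)
  refine ⟨c, hc, fun T f hf hmass t ht ht1 x v hv => ?_⟩
  have hvn : ‖v‖ ≤ R' := (norm_le_len v).trans (hv.trans hRR)
  obtain ⟨g, hg⟩ : ∃ g : ℝ → Vec d → Vec d → ℝ, g = fun t x u => f t (x + t • v) (u + v) := ⟨_, rfl⟩
  have hgs : IsBoltzmannSol γ b T g := by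
    rw [hg]
    exact gal_sol hf.sol v
  have hgp : Planar e T g := by
    intro t ht x y u hxy
    rw [hg]
    refine hf.pla t ht _ _ _ ?_
    simp only [Pi.add_apply, hxy]
  have hgU : ∀ N : ℕ, ∀ t ∈ Ico 0 T, ∀ x u, (1 + ‖u‖) ^ N * g t x u ≤ U N := by
    intro N t ht x u
    have h1 := hf.dec t ht N (x + t • v) (u + v)
    have h3 := hf.sol.nonneg t ht (x + t • v) (u + v)
    have h4 : ‖u‖ ≤ ‖u + v‖ + ‖v‖ := by
      calc ‖u‖ = ‖(u + v) - v‖ := by rw [add_sub_cancel_right]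
        _ ≤ ‖u + v‖ + ‖v‖ := norm_sub_le _ _
    have h5 : 1 + ‖u‖ ≤ (1 + R') * (1 + ‖u + v‖) := by
      have := norm_nonneg (u + v)
      nlinarith
    have h6 : (1 + ‖u‖) ^ N ≤ (1 + R') ^ N * (1 + ‖u + v‖) ^ N := by
      rw [← mul_pow]
      exact pow_le_pow_left₀ (by positivity) h5 N
    rw [hg, hU]
    calc (1 + ‖u‖) ^ N * f t (x + t • v) (u + v)
        ≤ (1 + R') ^ N * (1 + ‖u + v‖) ^ N * f t (x + t • v) (u + v) :=
          mul_le_mul_of_nonneg_right h6 h3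
      _ = (1 + R') ^ N * ((1 + ‖u + v‖) ^ N * f t (x + t • v) (u + v)) := by ring
      _ ≤ (1 + R') ^ N * |Cl N| :=
          mul_le_mul_of_nonneg_left (h1.trans (le_abs_self _)) (by positivity)
  have hgm : ∀ t ∈ Ico 0 T, Pool.Agent.H15.AV.Glob m M (g t) := by
    intro t ht
    have hh := hM₀ T _ g hgs hgU t ht
    refine ⟨?_, ?_, ?_, ?_⟩
    · refine LowR_ge (LowR_int hgs ht) fun y => ?_
      have h3 : ∫ u, g t y u = ∫ u, f t (y + t • v) u := by
        rw [hg]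
        exact integral_add_right_eq_self (fun u => f t (y + t • v) u) v
      show m ≤ ∫ u, g t y u
      rw [h3]
      exact hmass t ht _
    · exact LowR_le hM0 fun y => (hh y).1.trans hMM
    · exact LowR_le hM0 fun y => (hh y).2.1.trans hMM
    · exact LowR_le hM0 fun y => (hh y).2.2.trans hMM
  have h7 := hwin T g hgs hgp hgU hgm t ht (by linarith) (x - t • v) 0 (by
    have h8 : nsq (0 : Vec d) = 0 := by simp [nsq]
    rw [h8]; norm_num)
  rw [hg] at h7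
  simpa using h7

end Pool.Agent.H71.SM
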