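import Pool.Agent.H71.SM.OpF
import Pool.Agent.H71.SM.Coe
import Pool.Agent.H71.SM.DerS
import Pool.Agent.H71.SM.EDef
import Pool.Agent.H71.SM.ErrT
import Pool.Agent.H71.SM.MaxM
import Pool.Agent.H71.SM.LowR
import Pool.Agent.H48.PI.Shift

/-!
# Module Core: smallness in the sup norm, for a general stationary `M`

The constants are chosen in the order `U, R, A, K, cH, ν, N₀, (δ, c₃), lam, ε`, see the header of Defs.
-/

set_option autoImplicit false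

open MeasureTheory Set Filter Topology Pool.Agent.H25.Kin Pool.Agent.H82.BK Pool.Agent.H82.CM
open Pool.Agent.H48.PL Pool.Agent.H48.PI Pool.Agent.H48.PW Pool.Agent.H48.PD Pool.Agent.H48.PR

namespace Pool.Agent.H71.SM

variable {d : ℕ}

private lemma Core_U (Cl : ℕ → ℝ) (p : ℕ) {F : Vec d → ℝ} (hF : FB Cl F) (v : Vec d) :
    F v ≤ ((d : ℝ) + 1) ^ (p + 1) * |Cl (2 * (p + 1))| * Wp (p + 1) v := by
  have h1 := hF.le (2 * (p + 1)) v
  have h2 : F v = F v * (1 + nsq v) ^ (p + 1) * Wp (p + 1) v := by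
    rw [mul_assoc, mul_comm ((1 + nsq v) ^ (p + 1)), Wp_mul, mul_one]
  rw [h2]
  refine mul_le_mul_of_nonneg_right ?_ (Wp_pos _ _).le
  have h3 : (1 + nsq v) ^ (p + 1) ≤ ((d : ℝ) + 1) ^ (p + 1) * (1 + ‖v‖) ^ (2 * (p + 1)) := by
    rw [pow_mul, ← mul_pow]
    exact pow_le_pow_left₀ (by linarith [sq_nonneg' v]) (one_add_sq_le v) _
  have hd : (0 : ℝ) ≤ (d : ℝ) + 1 := by positivity
  calc F v * (1 + nsq v) ^ (p + 1)
      ≤ F v * (((d : ℝ) + 1) ^ (p + 1) * (1 + ‖v‖) ^ (2 * (p + 1))) :=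
        mul_le_mul_of_nonneg_left h3 (hF.nonneg v)
    _ = ((d : ℝ) + 1) ^ (p + 1) * ((1 + ‖v‖) ^ (2 * (p + 1)) * F v) := by ring
    _ ≤ ((d : ℝ) + 1) ^ (p + 1) * |Cl (2 * (p + 1))| :=
        mul_le_mul_of_nonneg_left (h1.trans (le_abs_self _)) (pow_nonneg hd _)

private lemma Core_W (p : ℕ) (v : Vec d) : Wp (p + 1) v * (1 + nsq v) = Wp p v := by
  have h := sq_nonneg' v
  unfold Wp
  rw [pow_succ, mul_inv, mul_assoc, inv_mul_cancel₀ (by positivity), mul_one]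

private lemma Core_int {g : ℝ → ℝ} {α β : ℝ} (hg : ContinuousOn g (Ioo α β)) (hα : α < 0) {t : ℝ}
    (ht0 : 0 ≤ t) (ht : t < β) : HasDerivAt (fun t => ∫ τ in (0 : ℝ)..t, g τ) (g t) t := by
  have hi : IntervalIntegrable g volume 0 t := by
    refine (hg.mono ?_).intervalIntegrable
    rw [uIcc_of_le ht0]
    exact fun s hs => ⟨hα.trans_le hs.1, hs.2.trans_lt ht⟩
  have hm : Ioo α β ∈ 𝓝 t := Ioo_mem_nhds (hα.trans_le ht0) ht
  exact intervalIntegral.integral_hasDerivAt_right hi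
    (hg.stronglyMeasurableAtFilter isOpen_Ioo t ⟨hα.trans_le ht0, ht⟩) (hg.continuousAt hm)

private lemma Core_exp {x : ℝ} (h : |x| ≤ 1) : 1 - 2 * |x| ≤ Real.exp x ∧ Real.exp x ≤ 1 + 2 * |x| := by
  have h1 := abs_le.1 (Real.abs_exp_sub_one_le h)
  constructor <;> linarith [h1.1, h1.2]

/-- the comparison at a touching point -/
private lemma Core_alg {Qs Λ W A K N₀ NBv Il c₃ w n₁ L J A0 : ℝ} (hΛ : 0 < Λ) (hW : 0 < W) (hW1 : W ≤ 1)
    (hw : 0 < w) (hwW : w ≤ W) (hA : 0 ≤ A) (hK : 0 ≤ K) (hIl : 0 ≤ Il) (hL : 0 ≤ L)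
    (h1 : Qs ≤ K * Λ) (h2 : NBv ≤ N₀ → Qs ≤ -((A + 1) * Λ)) (h3 : N₀ ≤ NBv → c₃ ≤ Il)
    (hLc : L * c₃ = A + (K + 1) / w) (hJ : Il * L - n₁ ≤ J) (hA0 : -A + (n₁ + J) ≤ A0) :
    Qs < Λ * W * A0 := by
  have hLW : 0 < Λ * W := mul_pos hΛ hW
  have k1 : Λ * W * (-A + Il * L) ≤ Λ * W * A0 :=
    mul_le_mul_of_nonneg_left (by linarith) hLW.le
  refine lt_of_lt_of_le ?_ k1
  rcases le_total NBv N₀ with h | h
  · have k2 := h2 h
    have k3 : 0 ≤ Λ * W * (Il * L) := by positivity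
    have k4 : Λ * W * A ≤ Λ * A := by
      calc Λ * W * A ≤ Λ * 1 * A := by gcongr
        _ = Λ * A := by ring
    have k5 : Λ * W * (-A + Il * L) = Λ * W * (Il * L) - Λ * W * A := by ring
    have k6 : -((A + 1) * Λ) = -(Λ * A) - Λ := by ring
    linarith
  · have k2 : L * c₃ ≤ Il * L := by
      rw [mul_comm Il]
      exact mul_le_mul_of_nonneg_left (h3 h) hL
    have k3 : (K + 1) / w ≤ -A + Il * L := by linarith
    have k4 : K + 1 ≤ W * (-A + Il * L) := by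
      calc K + 1 = w * ((K + 1) / w) := by field_simp
        _ ≤ W * ((K + 1) / w) := mul_le_mul_of_nonneg_right hwW (by positivity)
        _ ≤ W * (-A + Il * L) := mul_le_mul_of_nonneg_left k3 hW.le
    have k5 : Λ * (K + 1) ≤ Λ * (W * (-A + Il * L)) := mul_le_mul_of_nonneg_left k4 hΛ.le
    have k6 : Λ * W * (-A + Il * L) = Λ * (W * (-A + Il * L)) := by ring
    rw [k6]
    linarith

theorem core_E {s γ : ℝ} (hd : 2 ≤ d) (hs : 0 < s) (h0 : 0 ≤ γ) (hs1 : 2 * s < 1) (h2 : γ + 2 * s < 2)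
    {b : ℝ → ℝ} (hb : IsKernel d s b) (e : Fin d) (Cl : ℕ → ℝ) {m : ℝ} (hm : 0 < m) {p : ℕ}
    (hp : d + 10 ≤ p) {Γ : ℝ} {M : Vec d → ℝ} (hM : ML Cl Γ p M) (hQ : ∀ v, boltzQ γ b M v = 0)
    (HE : ∀ δ R : ℝ, 0 < δ → δ ≤ 1 → 1 ≤ R → ∀ κ > 0, ∃ ε > 0,
      ∀ (T : ℝ) (f : ℝ → Vec d → Vec d → ℝ), SB γ b Cl e T f → ∀ t₀ : ℝ, 0 < t₀ → t₀ + 1 < T →
      Hs (f t₀) - Hs (f (t₀ + 1)) ≤ ε →
      ∃ n : ℝ → ℝ, ContinuousOn n (Ioo 0 T) ∧ (∀ t ∈ Icc t₀ (t₀ + 1), 0 ≤ n t) ∧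
        ∫ t in t₀..(t₀ + 1), n t ≤ κ ∧ ∀ t ∈ Icc t₀ (t₀ + 1), ∀ v : Vec d,
          ∫ y, src e δ R M (f t) (fun y w => boltzQ γ b (f t y) w) v y ∂(muD d) ≤ n t)
    {η : ℝ} (hη : 0 < η) :
    ∃ ε > 0, ∀ (T : ℝ) (f : ℝ → Vec d → Vec d → ℝ), SB γ b Cl e T f →
      (∀ t ∈ Ico 0 T, ∀ x, m ≤ ∫ v, f t x v) → ∀ t₀ : ℝ, 1 ≤ t₀ → t₀ + 1 < T →
      Hs (f t₀) - Hs (f (t₀ + 1)) ≤ ε → (∀ t ∈ Icc t₀ (t₀ + 1), L1 M (f t) ≤ ε) →
      ∀ x v, |f (t₀ + 1) x v - M v| ≤ η * Wp p v := by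
  obtain ⟨C, Ca, cb, HL⟩ := exists_hypL hd hs (by linarith) (by linarith : 0 ≤ γ + 2 * s) (by linarith) hb
  have hMc : Continuous M := hM.fb.nice.cont
  have hM0 := hM.fb.nonneg
  -- the constants
  obtain ⟨U, hUd⟩ : ∃ U : ℝ, U = ((d : ℝ) + 1) ^ (p + 1) * |Cl (2 * (p + 1))| := ⟨_, rfl⟩
  have hU : 0 ≤ U := by rw [hUd]; positivity
  obtain ⟨R, hRd⟩ : ∃ R : ℝ, R = 8 * U / η + 1 := ⟨_, rfl⟩
  have hR1 : 1 ≤ R := by
    rw [hRd]
    have : 0 ≤ 8 * U / η := by positivity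
    linarith
  have hUR : U ≤ η / 8 * (1 + R ^ 2) := by
    have k1 : 8 * U / η ≤ R := by rw [hRd]; linarith
    rw [div_le_iff₀ hη] at k1
    have k2 : R * η ≤ (1 + R ^ 2) * η :=
      mul_le_mul_of_nonneg_right (by nlinarith [sq_nonneg (R - 1)]) hη.le
    linarith
  obtain ⟨A, hAd⟩ : ∃ A : ℝ, A = 16 * U / η := ⟨_, rfl⟩
  have hA : 0 ≤ A := by rw [hAd]; positivity
  have hAe : 2 * U * Real.exp (-A) ≤ η / 8 := by
    have k1 : A + 1 ≤ Real.exp A := Real.add_one_le_exp A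
    have k2 : A * η = 16 * U := by rw [hAd]; field_simp
    rw [Real.exp_neg, ← div_eq_mul_inv, div_le_iff₀ (Real.exp_pos A)]
    have k3 : η / 8 * (A + 1) ≤ η / 8 * Real.exp A := mul_le_mul_of_nonneg_left k1 (by positivity)
    have k4 : η / 8 * (A + 1) = A * η / 8 + η / 8 := by ring
    linarith
  obtain ⟨K, hK, hop⟩ := op_fin HL (by linarith) (by linarith) hp Cl hM.gam (by linarith : (0 : ℝ) ≤ R)
  obtain ⟨cH, hcH, hlow⟩ := low_R hd ⟨hs, by linarith⟩ (by linarith : 0 ≤ γ + 2 * s) h2 hb e Cl hm (R + 2)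
  obtain ⟨ν, hν, hop1⟩ := hop cH hcH (A + 1)
  obtain ⟨δ, c₃, hδ, hδ1, hc₃, hcoer⟩ := coer (d := d) (R + 1) (max (Cl 0) 0) (by linarith)
    (le_max_right _ _) (show 0 < ν * (η / 4) by positivity)
  have hw : 0 < ((1 + R ^ 2) ^ p)⁻¹ := by positivity
  obtain ⟨w, hwd⟩ : ∃ w : ℝ, w = ((1 + R ^ 2) ^ p)⁻¹ := ⟨_, rfl⟩
  rw [← hwd] at hw
  obtain ⟨lam, hlamd⟩ : ∃ lam : ℝ, lam = (A + (K + 1) / w) / c₃ := ⟨_, rfl⟩
  have hlam : 0 ≤ lam := by rw [hlamd]; positivity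
  have hlamc : lam * c₃ = A + (K + 1) / w := by rw [hlamd]; field_simp
  obtain ⟨KR, hKRd⟩ : ∃ KR : ℝ, KR = R + 2 * (R + 2) := ⟨_, rfl⟩
  have hKR : 0 ≤ KR := by rw [hKRd]; linarith
  obtain ⟨κ, hκd⟩ : ∃ κ : ℝ, κ = 1 / (32 * (lam + 1)) := ⟨_, rfl⟩
  have hκ : 0 < κ := by rw [hκd]; positivity
  have hlκ : lam * κ ≤ 1 / 32 := by
    rw [hκd, mul_one_div, div_le_div_iff₀ (by positivity) (by norm_num)]
    linarith
  obtain ⟨ε₁, hε₁, herr⟩ := HE δ (R + 2) hδ hδ1 (by linarith : 1 ≤ R + 2) κ hκ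
  obtain ⟨ε, hεd⟩ : ∃ ε : ℝ, ε = min ε₁ (κ * δ / (KR + 1)) := ⟨_, rfl⟩
  have hε : 0 < ε := by rw [hεd]; exact lt_min hε₁ (by positivity)
  have hεε₁ : ε ≤ ε₁ := by rw [hεd]; exact min_le_left _ _
  have hε2 : ε * (KR + 1) ≤ κ * δ := by
    have : ε ≤ κ * δ / (KR + 1) := by rw [hεd]; exact min_le_right _ _
    rwa [le_div_iff₀ (by positivity)] at this
  have hεδ : ε ≤ κ * δ := le_trans (le_mul_of_one_le_right hε.le (by linarith)) hε2
  have hκδ : κ * δ ≤ κ := mul_le_of_le_one_right hκ.le hδ1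
  have hεκ : ε ≤ κ := hεδ.trans hκδ
  have hεK : KR * ε ≤ κ := by
    have k1 : ε * (KR + 1) = KR * ε + ε := by ring
    linarith
  refine ⟨ε, hε, fun T f hf hmass t₀ ht₀ ht₁ hH hL x v => ?_⟩
  obtain ⟨n, hnc, hn0, hnI, hns⟩ := herr T f hf t₀ (by linarith) ht₁ (hH.trans hεε₁)
  have ht0 : 0 ≤ t₀ := by linarith
  -- the shifted solution
  have hg := boltz_shift hf.sol ht0
  have hgp := planar_shift hf.pla ht0
  have hT1 : (1 : ℝ) < T - t₀ := by linarith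
  have hIcc : ∀ t ∈ Icc (0 : ℝ) 1, t₀ + t ∈ Icc t₀ (t₀ + 1) := fun t ht =>
    ⟨by linarith [ht.1], by linarith [ht.2]⟩
  have hIoo : ∀ t ∈ Icc (0 : ℝ) 1, t₀ + t ∈ Ioo 0 T := fun t ht =>
    ⟨by linarith [ht.1], by linarith [ht.2]⟩
  have hIco : ∀ t ∈ Icc (0 : ℝ) 1, t₀ + t ∈ Ico 0 T := fun t ht =>
    ⟨by linarith [ht.1], by linarith [ht.2]⟩
  have hFB : ∀ t ∈ Icc (0 : ℝ) 1, ∀ x, FB Cl (f (t₀ + t) x) := fun t ht x =>
    ⟨IsClassicalSol.nice hf.sol (hIoo t ht) x, fun v => hf.sol.nonneg _ (hIco t ht) x v,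
      fun N v => hf.dec _ (hIco t ht) N x v⟩
  have hFS : ∀ t ∈ Icc (0 : ℝ) 1, FS e (f (t₀ + t)) (fun x => boltzQ γ b (f (t₀ + t) x)) :=
    fun t ht => fs_of hf.sol hf.pla (hIoo t ht)
  have hL' : ∀ t ∈ Icc (0 : ℝ) 1, L1 M (f (t₀ + t)) ≤ ε := fun t ht => hL _ (hIcc t ht)
  -- the weight
  have hEa : ∀ t ∈ Icc (0 : ℝ) 1, ∀ x v, |lam * EJ e δ (R + 2) M (f (t₀ + t)) x v| ≤ 1 / 32 := by
    intro t ht x v
    have k1 := EJ_abs (R := R + 2) hδ hM (hFS t ht) x v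
    rw [abs_mul, abs_of_nonneg hlam]
    calc lam * |EJ e δ (R + 2) M (f (t₀ + t)) x v| ≤ lam * κ :=
          mul_le_mul_of_nonneg_left (k1.trans ((hL' t ht).trans hεκ)) hlam
      _ ≤ 1 / 32 := hlκ
  have hEo : ∀ t ∈ Icc (0 : ℝ) 1, ∀ x u v, |lam * EJ e δ (R + 2) M (f (t₀ + t)) x u -
      lam * EJ e δ (R + 2) M (f (t₀ + t)) x v| ≤ 1 / 16 * min 1 (len (u - v)) := by
    intro t ht x u v
    have k1 := EJ_osc (R := R + 2) hδ hδ1 hM (hFS t ht) x u v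
    have k0 : 0 ≤ min 1 (len (u - v)) := le_min zero_le_one (len_nonneg _)
    have k2 : 2 / δ * L1 M (f (t₀ + t)) ≤ 2 * κ := by
      calc 2 / δ * L1 M (f (t₀ + t)) ≤ 2 / δ * (κ * δ) :=
            mul_le_mul_of_nonneg_left ((hL' t ht).trans hεδ) (by positivity)
        _ = 2 * κ := by field_simp
    rw [← mul_sub, abs_mul, abs_of_nonneg hlam]
    calc lam * |EJ e δ (R + 2) M (f (t₀ + t)) x u - EJ e δ (R + 2) M (f (t₀ + t)) x v|
        ≤ lam * (2 * κ * min 1 (len (u - v))) :=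
          mul_le_mul_of_nonneg_left (k1.trans (mul_le_mul_of_nonneg_right k2 k0)) hlam
      _ = 2 * (lam * κ) * min 1 (len (u - v)) := by ring
      _ ≤ 1 / 16 * min 1 (len (u - v)) := mul_le_mul_of_nonneg_right (by linarith) k0
  -- the time dependent part
  obtain ⟨n₁, hn₁⟩ : ∃ n₁ : ℝ → ℝ, n₁ = fun τ => lam * (KR * ε + n (t₀ + τ)) := ⟨_, rfl⟩
  have hn₁c : ContinuousOn n₁ (Ioo (-t₀) (T - t₀)) := by
    rw [hn₁]
    refine continuousOn_const.mul (continuousOn_const.add (hnc.comp (by fun_prop) fun τ hτ => ?_))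
    exact ⟨by linarith [hτ.1], by linarith [hτ.2]⟩
  have hn₁0 : ∀ t ∈ Icc (0 : ℝ) 1, 0 ≤ n₁ t := fun t ht => by
    rw [hn₁]
    have := hn0 _ (hIcc t ht)
    positivity
  have hn₁sub : ∀ t ∈ Icc (0 : ℝ) 1, IntervalIntegrable n₁ volume 0 t := fun t ht => by
    refine (hn₁c.mono ?_).intervalIntegrable
    rw [uIcc_of_le ht.1]
    exact fun τ hτ => ⟨by linarith [hτ.1], by linarith [hτ.2, ht.2]⟩
  have hI0 : ∀ t ∈ Icc (0 : ℝ) 1, 0 ≤ ∫ τ in (0 : ℝ)..t, n₁ τ := fun t ht =>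
    intervalIntegral.integral_nonneg ht.1 fun τ hτ => hn₁0 τ ⟨hτ.1, hτ.2.trans ht.2⟩
  have hI1 : ∫ τ in (0 : ℝ)..1, n₁ τ ≤ 1 / 16 := by
    have k1 : ∫ τ in (0 : ℝ)..1, n (t₀ + τ) = ∫ t in t₀..(t₀ + 1), n t := by
      rw [intervalIntegral.integral_comp_add_left (f := n), add_zero]
    have k2 : IntervalIntegrable (fun τ => n (t₀ + τ)) volume 0 1 := by
      have k3 : ContinuousOn (fun τ => n (t₀ + τ)) (uIcc 0 1) := by
        rw [uIcc_of_le zero_le_one]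
        exact hnc.comp (by fun_prop) fun τ hτ => hIoo τ hτ
      exact k3.intervalIntegrable
    have k4 : ∫ τ in (0 : ℝ)..1, n₁ τ = lam * (KR * ε + ∫ t in t₀..(t₀ + 1), n t) := by
      rw [hn₁, intervalIntegral.integral_const_mul,
        intervalIntegral.integral_add intervalIntegrable_const k2, intervalIntegral.integral_const, k1]
      simp
    rw [k4]
    calc lam * (KR * ε + ∫ t in t₀..(t₀ + 1), n t) ≤ lam * (κ + κ) :=
          mul_le_mul_of_nonneg_left (by linarith) hlam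
      _ = 2 * (lam * κ) := by ring
      _ ≤ 1 / 16 := by linarith
  -- the barrier
  obtain ⟨B, hBd⟩ : ∃ B : ℝ → ℝ, B = fun t => (η / 2 + 2 * U * Real.exp (-(A * t))) *
    Real.exp (∫ τ in (0 : ℝ)..t, n₁ τ) := ⟨_, rfl⟩
  obtain ⟨B', hB'd⟩ : ∃ B' : ℝ → ℝ, B' = fun t => (2 * U * (Real.exp (-(A * t)) * -A)) *
    Real.exp (∫ τ in (0 : ℝ)..t, n₁ τ) + (η / 2 + 2 * U * Real.exp (-(A * t))) *
    (Real.exp (∫ τ in (0 : ℝ)..t, n₁ τ) * n₁ t) := ⟨_, rfl⟩
  have hBder : ∀ t ∈ Icc (0 : ℝ) 1, HasDerivAt B (B' t) t := by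
    intro t ht
    have k1 := Core_int hn₁c (by linarith) ht.1 (by linarith [ht.2] : t < T - t₀)
    have k2 : HasDerivAt (fun t : ℝ => -(A * t)) (-A) t := by
      have := ((hasDerivAt_id' t).const_mul A).fun_neg
      simpa using this
    have k3 := ((k2.exp).const_mul (2 * U)).const_add (η / 2)
    rw [hBd, hB'd]
    exact k3.mul k1.exp
  have hB1 : ∀ t ∈ Icc (0 : ℝ) 1, η / 2 ≤ B t := by
    intro t ht
    rw [hBd]
    have k1 : 1 ≤ Real.exp (∫ τ in (0 : ℝ)..t, n₁ τ) := Real.one_le_exp (hI0 t ht)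
    have k2 : 0 ≤ 2 * U * Real.exp (-(A * t)) := by positivity
    calc η / 2 ≤ η / 2 + 2 * U * Real.exp (-(A * t)) := by linarith
      _ ≤ (η / 2 + 2 * U * Real.exp (-(A * t))) * Real.exp (∫ τ in (0 : ℝ)..t, n₁ τ) :=
        le_mul_of_one_le_right (by positivity) k1
  have hBB : ∀ t ∈ Icc (0 : ℝ) 1, -A * B t + B t * n₁ t ≤ B' t := by
    intro t ht
    rw [hBd, hB'd]
    have k1 := Real.exp_pos (∫ τ in (0 : ℝ)..t, n₁ τ)
    have k2 : 0 ≤ A * (η / 2) * Real.exp (∫ τ in (0 : ℝ)..t, n₁ τ) := by positivity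
    show -A * ((η / 2 + 2 * U * Real.exp (-(A * t))) * Real.exp (∫ τ in (0 : ℝ)..t, n₁ τ)) +
      (η / 2 + 2 * U * Real.exp (-(A * t))) * Real.exp (∫ τ in (0 : ℝ)..t, n₁ τ) * n₁ t ≤
      (2 * U * (Real.exp (-(A * t)) * -A)) *
    Real.exp (∫ τ in (0 : ℝ)..t, n₁ τ) + (η / 2 + 2 * U * Real.exp (-(A * t))) *
    (Real.exp (∫ τ in (0 : ℝ)..t, n₁ τ) * n₁ t)
    generalize Real.exp (∫ τ in (0 : ℝ)..t, n₁ τ) = X at k2 ⊢
    generalize Real.exp (-(A * t)) = Y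
    have k3 : (2 * U * (Y * -A)) * X + (η / 2 + 2 * U * Y) * (X * n₁ t) -
        (-A * ((η / 2 + 2 * U * Y) * X) + (η / 2 + 2 * U * Y) * X * n₁ t) = A * (η / 2) * X := by ring
    linarith
  have hDU : ∀ t ∈ Icc (0 : ℝ) 1, ∀ x v, |f (t₀ + t) x v - M v| ≤ U * Wp (p + 1) v := by
    intro t ht x v
    have k1 := Core_U Cl p (hFB t ht x) v
    have k2 := Core_U Cl p hM.fb v
    rw [← hUd] at k1 k2
    have k3 := (hFB t ht x).nonneg v
    have k4 := hM0 v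
    rw [abs_le]
    constructor <;> linarith
  have key := max_M (f := fun t => f (t₀ + t)) hg p hMc
    (fun N => ⟨Cl N, fun v => by rw [abs_of_nonneg (hM0 v)]; exact hM.fb.le N v⟩)
    (T₁ := 1) one_pos hT1
    (E := fun t x v => lam * EJ e δ (R + 2) M (f (t₀ + t)) x v)
    (DE := fun t x v => lam * dEJ e δ (R + 2) M (f (t₀ + t))
      (fun x => boltzQ γ b (f (t₀ + t) x)) x v)
    (continuousOn_const.mul ((EJ_cont hδ hMc hM0 hg e (R + 2)).mono
      (prod_mono_left fun t ht => ⟨ht.1, ht.2.trans_lt hT1⟩)))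
    (fun t ht x v i => by
      show lam * EJ e δ (R + 2) M (f (t₀ + t)) (x + Pi.single i 1) v =
        lam * EJ e δ (R + 2) M (f (t₀ + t)) x v
      rw [EJ_per (hf.sol.periodic _ (hIco t ht))])
    ⟨1 / 32, fun t ht x v => hEa t ht x v⟩
    (fun t ht x v => (EJ_char hδ hMc hM0 hg hgp (R + 2) ⟨ht.1, ht.2.trans_lt hT1⟩ x v).const_mul lam)
    (B := B) (B' := B') (fun t ht => (hBder t ht).continuousAt.continuousWithinAt)
    (fun t ht => lt_of_lt_of_le (by positivity) (hB1 t ht))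
    (fun t ht => hBder t ⟨ht.1.le, ht.2⟩)
    (fun t ht' y u σ hσ heq hle => by
      have ht : t ∈ Icc (0 : ℝ) 1 := ⟨ht'.1.le, ht'.2⟩
      obtain ⟨E, hE⟩ : ∃ E : Vec d → ℝ, E = fun u => lam * EJ e δ (R + 2) M (f (t₀ + t)) y u := ⟨_, rfl⟩
      have hEu : ∀ u, lam * EJ e δ (R + 2) M (f (t₀ + t)) y u = E u := fun u => by rw [hE]
      have heq' : σ * (f (t₀ + t) y u - M u) = B t * Wp p u * Real.exp (E u) := by
        rw [← hEu]; exact heq
      have hle' : ∀ z, |f (t₀ + t) y z - M z| ≤ B t * Wp p z * Real.exp (E z) := fun z => by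
        rw [← hEu]; exact hle z
      obtain ⟨Λ, hΛd⟩ : ∃ Λ : ℝ, Λ = B t * Real.exp (E u) := ⟨_, rfl⟩
      have hW := Wp_pos p u
      have hW1 := Wp_le_one p u
      have hEb : |E u| ≤ 1 / 32 := by rw [← hEu]; exact hEa t ht y u
      have hΛ : η / 4 ≤ Λ := by
        have k1 := (Core_exp (x := E u) (by linarith)).1
        have k2 : (15 : ℝ) / 16 ≤ Real.exp (E u) := by linarith
        rw [hΛd]
        calc η / 4 ≤ η / 2 * (15 / 16) := by linarith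
          _ ≤ B t * Real.exp (E u) := mul_le_mul (hB1 t ht) k2 (by norm_num)
            ((by positivity : (0 : ℝ) ≤ η / 2).trans (hB1 t ht))
      have hΛ0 : 0 < Λ := lt_of_lt_of_le (by positivity) hΛ
      have heqΛ : σ * (f (t₀ + t) y u - M u) = Λ * Wp p u := by rw [heq', hΛd]; ring
      have habs : |f (t₀ + t) y u - M u| = Λ * Wp p u := by
        rw [← heqΛ]
        rcases hσ with rfl | rfl
        · rw [one_mul] at heqΛ ⊢
          exact abs_of_nonneg (by rw [heqΛ]; positivity)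
        · rw [neg_one_mul] at heqΛ ⊢
          rw [← abs_neg]
          exact abs_of_nonneg (by rw [heqΛ]; positivity)
      -- the velocity is bounded
      have hv : len u ≤ R := by
        by_contra hcon
        push Not at hcon
        have k1 := hDU t ht y u
        have k2 : R ^ 2 ≤ nsq u := by
          rw [← len_sq]
          exact pow_le_pow_left₀ (by linarith) hcon.le 2
        have k3 : U * Wp (p + 1) u ≤ η / 8 * Wp p u := by
          rw [← Core_W p u]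
          have k4 := (Wp_pos (p + 1) u).le
          calc U * Wp (p + 1) u ≤ η / 8 * (1 + R ^ 2) * Wp (p + 1) u :=
                mul_le_mul_of_nonneg_right hUR k4
            _ ≤ η / 8 * (1 + nsq u) * Wp (p + 1) u := by gcongr
            _ = η / 8 * (Wp (p + 1) u * (1 + nsq u)) := by ring
        have k5 : η / 4 * Wp p u ≤ Λ * Wp p u := mul_le_mul_of_nonneg_right hΛ hW.le
        rw [habs] at k1
        have k6 : 0 < η * Wp p u := mul_pos hη hW
        linarith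
      have hwW : w ≤ Wp p u := by
        rw [hwd]
        unfold Wp
        have k2 : nsq u ≤ R ^ 2 := by
          rw [← len_sq]
          exact pow_le_pow_left₀ (len_nonneg u) hv 2
        have k3 := sq_nonneg' u
        exact inv_anti₀ (by positivity) (pow_le_pow_left₀ (by positivity) (by linarith) p)
      -- the touching condition
      have hTQ : TQ Cl p Λ M (f (t₀ + t) y) u := by
        refine ⟨hFB t ht y, hΛ0.le, fun z => ?_⟩
        have k1 := hle' z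
        have k2 : |E z - E u| ≤ 1 / 16 * min 1 (len (z - u)) := by
          rw [← hEu, ← hEu]; exact hEo t ht y z u
        have k0 : 0 ≤ min 1 (len (z - u)) := le_min zero_le_one (len_nonneg _)
        have k01 : min 1 (len (z - u)) ≤ 1 := min_le_left _ _
        have k3 : Real.exp (E z - E u) ≤ 1 + min 1 (len (z - u)) := by
          have := (Core_exp (x := E z - E u) (by linarith)).2
          linarith
        have k4 : B t * Wp p z * Real.exp (E z) = Λ * Wp p z * Real.exp (E z - E u) := by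
          rw [hΛd, Real.exp_sub]
          have := (Real.exp_pos (E u)).ne'
          field_simp
        rw [k4] at k1
        exact k1.trans (mul_le_mul_of_nonneg_left k3 (mul_nonneg hΛ0.le (Wp_pos p z).le))
      have hlow' : ∀ z, len z ≤ R + 2 → cH ≤ f (t₀ + t) y z := fun z hz =>
        hlow T f hf hmass _ (hIco t ht) (by linarith [ht.1]) y z hz
      obtain ⟨q1, q2⟩ := hop1 Λ M (f (t₀ + t) y) hM u hv hTQ hlow' (hQ u) σ hσ heqΛ
      -- the derivative of the potential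
      have hFSt := hFS t ht
      have hb1 := bet_fs one_pos hf.sol hf.pla (hIoo t ht) hFSt
      have hb2 := bet_fs two_pos hf.sol hf.pla (hIoo t ht) hFSt
      have k5 := dEJ_low hδ (by linarith : 1 ≤ R + 2) hM hFSt hb1 hb2 u
        (hns _ (hIcc t ht) u) y
      obtain ⟨Il, hIl⟩ : ∃ Il : ℝ, Il = ∫ w, (u e - w e) * PhC e δ (R + 2) u w *
        jS (M w) (f (t₀ + t) y w) := ⟨_, rfl⟩
      rw [← hIl] at k5
      have hIl0 : 0 ≤ Il := by
        rw [hIl]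
        refine integral_nonneg fun w => mul_nonneg (VPhC hδ (by linarith) e u w).1 ?_
        exact jS_nonneg (hM0 w) ((hFB t ht y).nonneg w)
      have hUl : ∀ g : Vec d → ℝ, FB Cl g → ∀ w, g w ≤ max (Cl 0) 0 := fun g hg w => by
        have := hg.le 0 w
        rw [pow_zero, one_mul] at this
        exact this.trans (le_max_left _ _)
      have hIl3 : ν * (η / 4) ≤ NB (R + 1) M (f (t₀ + t) y) → c₃ ≤ Il := fun hN => by
        rw [hIl]
        exact hcoer (R + 2) (by linarith) e M (f (t₀ + t) y) hMc (hFB t ht y).nice.cont hM0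
          (hUl M hM.fb) (hFB t ht y).nonneg (hUl _ (hFB t ht y)) hN u
      have hJ : Il * lam - n₁ t ≤ lam * dEJ e δ (R + 2) M (f (t₀ + t))
          (fun x => boltzQ γ b (f (t₀ + t) x)) y u := by
        have j1 : (len u + 2 * (R + 2)) * L1 M (f (t₀ + t)) ≤ KR * ε := by
          rw [hKRd]
          exact mul_le_mul (by linarith) (hL' t ht) (L1_nonneg _ _) (by linarith)
        have j2 := mul_le_mul_of_nonneg_left k5 hlam
        have j3 := mul_le_mul_of_nonneg_left j1 hlam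
        have j4 : n₁ t = lam * (KR * ε + n (t₀ + t)) := by rw [hn₁]
        rw [j4]
        have j5 : lam * (Il - (len u + 2 * (R + 2)) * L1 M (f (t₀ + t)) - n (t₀ + t)) =
          Il * lam - lam * ((len u + 2 * (R + 2)) * L1 M (f (t₀ + t))) - lam * n (t₀ + t) := by ring
        rw [j5] at j2
        linarith
      have hBp : 0 < B t := lt_of_lt_of_le (by positivity) (hB1 t ht)
      have hA0 : -A + (n₁ t + lam * dEJ e δ (R + 2) M (f (t₀ + t))
          (fun x => boltzQ γ b (f (t₀ + t) x)) y u) ≤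
          (B' t + B t * (lam * dEJ e δ (R + 2) M (f (t₀ + t))
          (fun x => boltzQ γ b (f (t₀ + t) x)) y u)) / B t := by
        rw [le_div_iff₀ hBp]
        have j1 := hBB t ht
        generalize lam * dEJ e δ (R + 2) M (f (t₀ + t))
          (fun x => boltzQ γ b (f (t₀ + t) x)) y u = J
        have j2 : (-A + (n₁ t + J)) * B t = -A * B t + B t * n₁ t + B t * J := by ring
        linarith
      have fin := Core_alg hΛ0 hW hW1 hw hwW hA hK hIl0 hlam q1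
        (fun hN => q2 (hN.trans (mul_le_mul_of_nonneg_left hΛ hν.le))) hIl3 hlamc hJ hA0
      show σ * boltzQ γ b (f (t₀ + t) y) u < Wp p u * Real.exp (lam * EJ e δ (R + 2) M (f (t₀ + t)) y u) *
        (B' t + B t * (lam * dEJ e δ (R + 2) M (f (t₀ + t)) (fun x => boltzQ γ b (f (t₀ + t) x)) y u))
      refine fin.trans_le (le_of_eq ?_)
      rw [hEu, hΛd]
      field_simp)
    (fun y u => by
      have ht : (0 : ℝ) ∈ Icc (0 : ℝ) 1 := ⟨le_rfl, zero_le_one⟩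
      have k1 := hDU 0 ht y u
      have k2 : Wp (p + 1) u ≤ Wp p u := by
        rw [← Core_W p u]
        exact le_mul_of_one_le_right (Wp_pos _ _).le (by linarith [sq_nonneg' u])
      have k3 : (15 : ℝ) / 16 ≤ Real.exp (lam * EJ e δ (R + 2) M (f (t₀ + 0)) y u) := by
        have k4 := hEa 0 ht y u
        have := (Core_exp (x := lam * EJ e δ (R + 2) M (f (t₀ + 0)) y u) (by linarith)).1
        linarith
      have k5 : B 0 = η / 2 + 2 * U := by
        rw [hBd]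
        simp
      have hW := Wp_pos p u
      show |f (t₀ + 0) y u - M u| < B 0 * Wp p u * Real.exp (lam * EJ e δ (R + 2) M (f (t₀ + 0)) y u)
      rw [k5]
      have k6 : U * Wp (p + 1) u ≤ U * Wp p u := mul_le_mul_of_nonneg_left k2 hU
      have k7 : (η / 2 + 2 * U) * Wp p u * (15 / 16) ≤ (η / 2 + 2 * U) * Wp p u *
        Real.exp (lam * EJ e δ (R + 2) M (f (t₀ + 0)) y u) :=
        mul_le_mul_of_nonneg_left k3 (by positivity)
      have k8 : 0 < η * Wp p u := mul_pos hη hW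
      have k9 : 0 ≤ U * Wp p u := mul_nonneg hU hW.le
      have k10 : (η / 2 + 2 * U) * Wp p u * (15 / 16) = 15 / 32 * (η * Wp p u) + 15 / 8 * (U * Wp p u) := by
        ring
      linarith)
    1 ⟨zero_le_one, le_rfl⟩ x v
  have ht : (1 : ℝ) ∈ Icc (0 : ℝ) 1 := ⟨zero_le_one, le_rfl⟩
  have k1 := (Core_exp (x := lam * EJ e δ (R + 2) M (f (t₀ + 1)) x v) (by
    have := hEa 1 ht x v
    linarith)).2
  have k2 := hEa 1 ht x v
  have k3 := hI0 1 ht
  have k4 := (Core_exp (x := ∫ τ in (0 : ℝ)..1, n₁ τ) (by rw [abs_of_nonneg k3]; linarith)).2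
  rw [abs_of_nonneg k3] at k4
  have hW := Wp_pos p v
  have k5 : B 1 ≤ 5 / 8 * η * (9 / 8) := by
    rw [hBd]
    show (η / 2 + 2 * U * Real.exp (-(A * 1))) * Real.exp (∫ τ in (0 : ℝ)..1, n₁ τ) ≤ _
    rw [mul_one]
    exact mul_le_mul (by linarith) (by linarith) (Real.exp_pos _).le (by positivity)
  have k6 : Real.exp (lam * EJ e δ (R + 2) M (f (t₀ + 1)) x v) ≤ 17 / 16 := by linarith
  refine key.le.trans ?_
  calc B 1 * Wp p v * Real.exp (lam * EJ e δ (R + 2) M (f (t₀ + 1)) x v)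
      ≤ 5 / 8 * η * (9 / 8) * Wp p v * (17 / 16) := by
        have := (lt_of_lt_of_le (by positivity) (hB1 1 ht) : (0 : ℝ) < B 1).le
        gcongr
    _ ≤ η * Wp p v := by
        have k7 : 0 < η * Wp p v := mul_pos hη hW
        have k8 : 5 / 8 * η * (9 / 8) * Wp p v * (17 / 16) = 765 / 1024 * (η * Wp p v) := by ring
        linarith

theorem core_S {s γ : ℝ} (hd : 2 ≤ d) (hs : 0 < s) (h1 : 1 ≤ γ) (h2 : γ + 2 * s < 2) {b : ℝ → ℝ}
    (hb : IsKernel d s b) (e : Fin d) (Cl : ℕ → ℝ) {m : ℝ} (hm : 0 < m) {p : ℕ} (hp : d + 10 ≤ p) {Γ : ℝ}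
    {M : Vec d → ℝ} (hM : ML Cl Γ p M) (hQ : ∀ v, boltzQ γ b M v = 0) {η : ℝ} (hη : 0 < η) :
    ∃ ε > 0, ∀ (T : ℝ) (f : ℝ → Vec d → Vec d → ℝ), SB γ b Cl e T f →
      (∀ t ∈ Ico 0 T, ∀ x, m ≤ ∫ v, f t x v) → ∀ t₀ : ℝ, 1 ≤ t₀ → t₀ + 1 < T →
      Hs (f t₀) - Hs (f (t₀ + 1)) ≤ ε → (∀ t ∈ Icc t₀ (t₀ + 1), L1 M (f t) ≤ ε) →
      ∀ x v, |f (t₀ + 1) x v - M v| ≤ η * Wp p v := by
  refine core_E hd hs (by linarith) (by linarith) h2 hb e Cl hm hp hM hQ (fun δ R hδ hδ1 hR κ hκ => ?_) hη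
  obtain ⟨ε, hε, h⟩ := err_t (Γ := Γ) (p := p) hd hs h1 h2 hb e Cl hδ hδ1 hR hκ
  exact ⟨ε, hε, fun T f hf t₀ ht₀ ht₁ hH => h M hM T f hf t₀ ht₀ ht₁ hH⟩

end Pool.Agent.H71.SM
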