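import Pool.Agent.H48.CV.Defs
import Pool.Agent.H48.PW.EWDef
import Pool.Agent.H48.PI.EDer

/-!
# Block P2 of THEOREM G (MP_c15324_an): smallness in `L¹(dx dv)` gives smallness in the sup norm

`M` is a Maxwellian (only `boltzQ M = 0`, decay and a Lipschitz bound are used), `f` a plane symmetric solution with uniform bounds, `D = f - M`, `∫∫ |D| ≤ ε` on `[0,1]` (time shifted), entropy drop `≤ ε`.

BARRIER. `|D(t,x,v)| < B(t) W_p(v) exp(λ J(t,x,v))`, `B(t) = (η/2 + 2U exp(-A t)) exp(∫_0^t n)`.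
POTENTIAL. `bet 1 = bet 2 ∘ bet 2`, so the Bregman distance `jS m r = bet 2 s₀ + bet' 2 s₀ (s - s₀) - bet 2 s`, `s = bet 2 r`, `s₀ = bet 2 m`, satisfies `c (r-m)² ≤ jS m r ≤ |r-m|` and is, for `m = M(w)`, of the form `const(w) + bet' 2 s₀ (bet 2 r) - bet 1 r`:
`J = pot[PhM](bet 2 f) - pot[PhC](bet 1 f)`, `PhC = chi_R(w) clp((v_e-w_e)/δ)`, `PhM = PhC bet' 2 (bet 2 (M w))`. Along the characteristics `dJ/dt ≥ ∫ (v_e-w_e) PhC jS(M w, f(x,w)) dw - C(v) ∫∫|D| - n(t)`.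
TOUCHING POINT (`±D(v) = Λ W(v)`, `|D(u)| ≤ Λ W(u) (1 + min(1,|u-v|))`, `|v| ≤ R`): `±Q(f)(v) ≤ K Λ - κ ∫_(ρ ≤ |h| ≤ 1/2) |h|^(-d-2s) E(v+h) dh`, `E = Λ W (1+min) ∓ D`.
If `∫_(|u| ≤ R+1) |D(x,u)| du ≤ N₀` the last integral is `≥ c Λ ρ^(-2s)` and wins (`ρ` small), otherwise `λ dJ/dt ≥ λ c(N₀)` wins (`λ` large). `|D| ≤ U W_(p+1)` excludes `|v| > R`.
-/

set_option autoImplicit false

open MeasureTheory Set Filter Topology Pool.Agent.H25.Kin Pool.Agent.H82.BK Pool.Agent.H82.CM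
open Pool.Agent.H48.PL Pool.Agent.H48.PI Pool.Agent.H48.PW Pool.Agent.H48.PD Pool.Agent.H48.PR

namespace Pool.Agent.H71.SM

variable {d : ℕ}

/-- the clamped function `t/δ` -/
noncomputable def clp (δ t : ℝ) : ℝ := max (-1) (min 1 (t / δ))

/-- the weight `chi_R(w) clp((v_e-w_e)/δ)` -/
noncomputable def PhC (e : Fin d) (δ R : ℝ) (v w : Vec d) : ℝ := chi R w * clp δ (v e - w e)

/-- the weight `PhC bet' 2 (bet 2 (M w))` -/
noncomputable def PhM (e : Fin d) (δ R : ℝ) (M : Vec d → ℝ) (v w : Vec d) : ℝ :=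
  PhC e δ R v w * bet' 2 (bet 2 (M w))

/-- the Bregman distance of `bet 2` at `bet 2 m`, `bet 2 r` -/
noncomputable def jS (m r : ℝ) : ℝ :=
  bet 2 (bet 2 m) + bet' 2 (bet 2 m) * (bet 2 r - bet 2 m) - bet 2 (bet 2 r)

/-- the potential -/
noncomputable def EJ (e : Fin d) (δ R : ℝ) (M : Vec d → ℝ) (F : Vec d → Vec d → ℝ) (x v : Vec d) : ℝ :=
  pot e 1 (PhM e δ R M) (fun y w => bet 2 (F y w)) x v -
    pot e 1 (PhC e δ R) (fun y w => bet 1 (F y w)) x v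

/-- its derivative along the characteristics -/
noncomputable def dEJ (e : Fin d) (δ R : ℝ) (M : Vec d → ℝ) (F G : Vec d → Vec d → ℝ) (x v : Vec d) :
    ℝ :=
  dpot e 1 (PhM e δ R M) (fun y w => bet 2 (F y w)) (fun y w => bet' 2 (F y w) * G y w) x v -
    dpot e 1 (PhC e δ R) (fun y w => bet 1 (F y w)) (fun y w => bet' 1 (F y w) * G y w) x v

/-- the collision terms of the derivative -/
noncomputable def src (e : Fin d) (δ R : ℝ) (M : Vec d → ℝ) (F G : Vec d → Vec d → ℝ) (v y : Vec d) :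
    ℝ :=
  |∫ w, PhM e δ R M v w * (bet' 2 (F y w) * G y w)| + |∫ w, PhC e δ R v w * (bet' 1 (F y w) * G y w)|

/-- the distance in `L¹(dx dv)` -/
noncomputable def L1 (M : Vec d → ℝ) (F : Vec d → Vec d → ℝ) : ℝ := ∫ q, |F q.2 q.1 - M q.1| ∂(nu d)

/-- the distance in `L¹(dv)` on a ball -/
noncomputable def NB (R : ℝ) (M : Vec d → ℝ) (F : Vec d → ℝ) : ℝ :=
  ∫ w in {w : Vec d | len w ≤ R}, |F w - M w|

/-- a function with the bounds `Cl` and a Lipschitz bound -/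
structure ML (Cl : ℕ → ℝ) (Γ : ℝ) (p : ℕ) (M : Vec d → ℝ) : Prop where
  fb : FB Cl M
  gam : 0 ≤ Γ
  lip : ∀ v h, |M (v + h) - M v| ≤ Γ * min 1 (len h) ^ (1 : ℝ) * (Wp (p + 2) v + Wp (p + 2) (v + h))

/-- the situation at a touching point -/
structure TQ (Cl : ℕ → ℝ) (p : ℕ) (Λ : ℝ) (M F : Vec d → ℝ) (v : Vec d) : Prop where
  fb : FB Cl F
  lam : 0 ≤ Λ
  dif : ∀ u, |F u - M u| ≤ Λ * Wp p u * (1 + min 1 (len (u - v)))

/-- the gap -/
noncomputable def gap (p : ℕ) (Λ : ℝ) (D : Vec d → ℝ) (v u : Vec d) : ℝ :=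
  Λ * Wp p u * (1 + min 1 (len (u - v))) - D u

/-- plane symmetric solutions with uniform bounds -/
structure SB (γ : ℝ) (b : ℝ → ℝ) (Cl : ℕ → ℝ) (e : Fin d) (T : ℝ) (f : ℝ → Vec d → Vec d → ℝ) :
    Prop where
  sol : IsBoltzmannSol γ b T f
  pla : Planar e T f
  dec : ∀ t ∈ Ico 0 T, ∀ (N : ℕ) (x v : Vec d), (1 + ‖v‖) ^ N * f t x v ≤ Cl N

end Pool.Agent.H71.SM
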