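import Pool.Agent.H71.SM.Defs

/-!
# Module Dis: lower bound of the dissipation at a touching point

`S = {ρ ≤ len h ≤ 2ρ} ⊂ Sh ρ` (`2ρ ≤ 1/4`), `vol S = c_d ρ^d`, `c_d > 0` (`S = ρ • {1 ≤ len ≤ 2}`, `Measure.addHaar_smul`; the set `{1 ≤ len ≤ 2}` has interior points). On `S`: `gap ≥ Λ Wp(v+h) - |D(v+h)|`, `Wp p (v+h) ≥ w = (1+(R+1)^2)^(-p)` (`nsq (v+h) ≤ (R+1)^2`), `len h ^ (-d-2s) ≥ (2ρ)^(-d-2s)`, `gap ≥ 0` everywhere. So
`∫_(Sh ρ) len^(-d-2s) gap ≥ (2ρ)^(-d-2s) (Λ w c_d ρ^d - ∫_(len u ≤ R+1) |D|) ≥ (2ρ)^(-d-2s) Λ w c_d ρ^d/2` for `c₁ = w c_d/2`. `c₂ = 2^(-d-2s) w c_d/2`. Real integrals over `S` (`D` continuous, bounded), then `ofReal_integral_eq_lintegral_ofReal`.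
-/

set_option autoImplicit false

open MeasureTheory Set Filter Topology Pool.Agent.H25.Kin Pool.Agent.H82.BK Pool.Agent.H82.CM
open Pool.Agent.H48.PL Pool.Agent.H48.PI Pool.Agent.H48.PW Pool.Agent.H48.PD Pool.Agent.H48.PR

namespace Pool.Agent.H71.SM

variable {d : ℕ}

private def Dis_A (d : ℕ) : Set (Vec d) := {h | 1 ≤ len h ∧ len h ≤ 2}

private theorem Dis_meas {a b : ℝ} : MeasurableSet {h : Vec d | a ≤ len h ∧ len h ≤ b} :=
  (measurableSet_le measurable_const continuous_len.measurable).inter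
    (measurableSet_le continuous_len.measurable measurable_const)

private theorem Dis_compact (r : ℝ) : IsCompact {u : Vec d | len u ≤ r} := by
  refine Metric.isCompact_of_isClosed_isBounded (isClosed_le continuous_len continuous_const) ?_
  refine (Metric.isBounded_closedBall (x := (0 : Vec d)) (r := r)).subset fun u hu => ?_
  rw [mem_closedBall_zero_iff]
  exact (norm_le_len u).trans hu

open scoped Pointwise in
private theorem Dis_scale {ρ : ℝ} (hρ : 0 < ρ) :
    {h : Vec d | ρ ≤ len h ∧ len h ≤ 2 * ρ} = ρ • Dis_A d := by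
  ext h
  rw [Set.mem_smul_set_iff_inv_smul_mem₀ hρ.ne']
  unfold Dis_A
  simp only [mem_ofPred_eq]
  rw [len_smul (inv_nonneg.2 hρ.le)]
  constructor
  · rintro ⟨h1, h2⟩
    constructor
    · rw [inv_mul_eq_div, le_div_iff₀ hρ]; linarith
    · rw [inv_mul_eq_div, div_le_iff₀ hρ]; linarith
  · rintro ⟨h1, h2⟩
    rw [inv_mul_eq_div, le_div_iff₀ hρ] at h1
    rw [inv_mul_eq_div, div_le_iff₀ hρ] at h2
    exact ⟨by linarith, by linarith⟩

private theorem Dis_fin : volume (Dis_A d) ≠ ⊤ :=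
  ((measure_mono (fun _ h => h.2)).trans_lt (Dis_compact 2).measure_lt_top).ne

private theorem Dis_pos (hd : 1 ≤ d) : 0 < volume (Dis_A d) := by
  have ho : IsOpen {h : Vec d | 1 < len h ∧ len h < 2} :=
    (isOpen_lt continuous_const continuous_len).inter (isOpen_lt continuous_len continuous_const)
  have hne : ({h : Vec d | 1 < len h ∧ len h < 2}).Nonempty := by
    refine ⟨Pi.single ⟨0, by omega⟩ (3 / 2), ?_⟩
    have h1 : len (Pi.single (⟨0, by omega⟩ : Fin d) (3 / 2 : ℝ) : Vec d) = 3 / 2 := by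
      unfold len nsq
      rw [Finset.sum_eq_single (⟨0, by omega⟩ : Fin d)]
      · rw [Pi.single_eq_same, Real.sqrt_sq (by norm_num)]
      · intro b _ hb
        rw [Pi.single_eq_of_ne hb]
        norm_num
      · intro h
        exact absurd (Finset.mem_univ _) h
    show 1 < len _ ∧ len _ < 2
    rw [h1]
    norm_num
  exact (ho.measure_pos volume hne).trans_le (measure_mono fun h hh => ⟨hh.1.le, hh.2.le⟩)

open scoped Pointwise in
private theorem Dis_vol {ρ : ℝ} (hρ : 0 < ρ) :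
    (volume {h : Vec d | ρ ≤ len h ∧ len h ≤ 2 * ρ}).toReal = ρ ^ d * (volume (Dis_A d)).toReal := by
  rw [Dis_scale hρ, Measure.addHaar_smul, ENNReal.toReal_mul, ENNReal.toReal_ofReal (abs_nonneg _),
    abs_of_nonneg (by positivity)]
  congr 2
  simp

private theorem Dis_ofReal {α : Type*} [MeasurableSpace α] {μ : Measure α} {g : α → ℝ}
    (hg : Integrable g μ) : ENNReal.ofReal (∫ x, g x ∂μ) ≤ ∫⁻ x, ENNReal.ofReal (g x) ∂μ := by
  refine ENNReal.ofReal_le_of_le_toReal ?_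
  rw [integral_eq_lintegral_pos_part_sub_lintegral_neg_part hg]
  have : 0 ≤ (∫⁻ a, ENNReal.ofReal (-g a) ∂μ).toReal := ENNReal.toReal_nonneg
  linarith

theorem dis_low (hd : 1 ≤ d) (p : ℕ) {R : ℝ} (hR : 0 ≤ R) {s : ℝ} (hs : 0 < s) : ∃ c₁ c₂ : ℝ, 0 < c₁ ∧
    0 < c₂ ∧ ∀ ρ : ℝ, 0 < ρ → ρ ≤ 1 / 8 → ∀ (Λ κ : ℝ), 0 ≤ Λ → 0 ≤ κ → ∀ (D : Vec d → ℝ) (v : Vec d),
      Continuous D → len v ≤ R → (∀ u, |D u| ≤ Λ * Wp p u * (1 + min 1 (len (u - v)))) →
      ∫ u in {u : Vec d | len u ≤ R + 1}, |D u| ≤ c₁ * ρ ^ d * Λ →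
      ENNReal.ofReal (κ * (c₂ * ρ ^ (-(2 * s)) * Λ)) ≤
        ∫⁻ h in Pool.Agent.H48.NE.Sh ρ,
          ENNReal.ofReal (κ * (len h ^ (-(d : ℝ) - 2 * s) * gap p Λ D v (v + h))) := by
  obtain ⟨V, hV⟩ : ∃ V : ℝ, V = (volume (Dis_A d)).toReal := ⟨_, rfl⟩
  have hV0 : 0 < V := by
    rw [hV]
    exact ENNReal.toReal_pos (Dis_pos hd).ne' Dis_fin
  obtain ⟨w, hw⟩ : ∃ w : ℝ, w = ((1 + (R + 1) ^ 2) ^ p)⁻¹ := ⟨_, rfl⟩
  have hw0 : 0 < w := by rw [hw]; positivity
  refine ⟨w * V / 2, 2 ^ (-(d : ℝ) - 2 * s) * (w * V / 2), by positivity, by positivity, ?_⟩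
  intro ρ hρ hρ8 Λ κ hΛ hκ D v hD hv hdif hint
  obtain ⟨S, hS⟩ : ∃ S : Set (Vec d), S = {h : Vec d | ρ ≤ len h ∧ len h ≤ 2 * ρ} := ⟨_, rfl⟩
  have hSm : MeasurableSet S := by rw [hS]; exact Dis_meas
  obtain ⟨c, hc⟩ : ∃ c : ℝ, c = (2 * ρ) ^ (-(d : ℝ) - 2 * s) := ⟨_, rfl⟩
  have hc0 : 0 < c := by rw [hc]; positivity
  have hSsub : S ⊆ Pool.Agent.H48.NE.Sh ρ := by
    intro h hh
    rw [hS] at hh
    exact ⟨hh.1, by linarith [hh.2]⟩
  -- pointwise bounds on S
  have hgap0 : ∀ h : Vec d, 0 ≤ gap p Λ D v (v + h) := by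
    intro h
    unfold gap
    linarith [le_abs_self (D (v + h)), hdif (v + h)]
  have hball : ∀ h ∈ S, len (v + h) ≤ R + 1 := by
    intro h hh
    rw [hS] at hh
    linarith [len_add_le v h, hh.2]
  have hWw : ∀ h ∈ S, w ≤ Wp p (v + h) := by
    intro h hh
    have h1 := hball h hh
    have h2 : nsq (v + h) ≤ (R + 1) ^ 2 := by
      rw [← len_sq]
      exact pow_le_pow_left₀ (len_nonneg _) h1 2
    rw [hw]
    unfold Wp
    have h3 := sq_nonneg' (v + h)
    exact inv_anti₀ (by positivity) (pow_le_pow_left₀ (by linarith) (by linarith) p)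
  have hpt : ∀ h ∈ S, κ * (c * (Λ * w - |D (v + h)|)) ≤
      κ * (len h ^ (-(d : ℝ) - 2 * s) * gap p Λ D v (v + h)) := by
    intro h hh
    have hh' := hh
    rw [hS] at hh'
    refine mul_le_mul_of_nonneg_left ?_ hκ
    have h1 : Λ * w - |D (v + h)| ≤ gap p Λ D v (v + h) := by
      unfold gap
      have h2 : Λ * w ≤ Λ * Wp p (v + h) := mul_le_mul_of_nonneg_left (hWw h hh) hΛ
      have h3 : 0 ≤ min 1 (len (v + h - v)) := le_min zero_le_one (len_nonneg _)
      have h4 : 0 ≤ Λ * Wp p (v + h) := mul_nonneg hΛ (Wp_pos _ _).le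
      have h5 : Λ * Wp p (v + h) * 1 ≤ Λ * Wp p (v + h) * (1 + min 1 (len (v + h - v))) :=
        mul_le_mul_of_nonneg_left (by linarith) h4
      linarith [le_abs_self (D (v + h))]
    have h6 : c ≤ len h ^ (-(d : ℝ) - 2 * s) := by
      rw [hc]
      refine Real.rpow_le_rpow_of_nonpos (lt_of_lt_of_le hρ hh'.1) hh'.2 ?_
      have : (0 : ℝ) ≤ d := Nat.cast_nonneg d
      linarith
    calc c * (Λ * w - |D (v + h)|) ≤ c * gap p Λ D v (v + h) := mul_le_mul_of_nonneg_left h1 hc0.le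
      _ ≤ len h ^ (-(d : ℝ) - 2 * s) * gap p Λ D v (v + h) :=
          mul_le_mul_of_nonneg_right h6 (hgap0 h)
  -- integrability
  have hBc := Dis_compact (d := d) (R + 1)
  have hDa : Continuous fun u : Vec d => |D u| := hD.abs
  have hDB : IntegrableOn (fun u : Vec d => |D u|) {u : Vec d | len u ≤ R + 1} :=
    hDa.continuousOn.integrableOn_compact hBc
  have hBm : MeasurableSet {u : Vec d | len u ≤ R + 1} := hBc.isClosed.measurableSet
  have hSfin : volume S ≠ ⊤ := by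
    have h1 : S ⊆ {u : Vec d | len u ≤ 2 * ρ} := by
      intro h hh
      rw [hS] at hh
      exact hh.2
    exact ((measure_mono h1).trans_lt (Dis_compact (2 * ρ)).measure_lt_top).ne
  have hSc : S ⊆ {u : Vec d | len u ≤ 2 * ρ} := by
    intro h hh
    rw [hS] at hh
    exact hh.2
  have hDv : Continuous fun h : Vec d => |D (v + h)| := (hD.comp (continuous_const.add continuous_id)).abs
  have hDS : IntegrableOn (fun h : Vec d => |D (v + h)|) S :=
    (hDv.continuousOn.integrableOn_compact (Dis_compact (2 * ρ))).mono_set hSc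
  have hcS : IntegrableOn (fun _ : Vec d => Λ * w) S := integrableOn_const hSfin
  have hgi : IntegrableOn (fun h : Vec d => κ * (c * (Λ * w - |D (v + h)|))) S :=
    ((hcS.sub hDS).const_mul c).const_mul κ
  -- the translated integral
  have htr : ∫ h in S, |D (v + h)| ≤ w * V / 2 * ρ ^ d * Λ := by
    refine le_trans ?_ hint
    rw [← integral_indicator hSm, ← integral_indicator hBm,
      ← integral_add_left_eq_self (fun u => ({u : Vec d | len u ≤ R + 1}).indicator (fun u => |D u|) u) v]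
    refine integral_mono (hDS.integrable_indicator hSm) ?_ fun h => ?_
    · exact (hDB.integrable_indicator hBm).comp_add_left v
    · show S.indicator (fun h : Vec d => |D (v + h)|) h ≤
        ({u : Vec d | len u ≤ R + 1}).indicator (fun u => |D u|) (v + h)
      by_cases hh : h ∈ S
      · rw [indicator_of_mem hh, indicator_of_mem (show v + h ∈ {u : Vec d | len u ≤ R + 1} from
          hball h hh)]
      · rw [indicator_of_notMem hh]
        exact indicator_nonneg (fun u _ => abs_nonneg (D u)) _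
  have hval : ∫ h in S, κ * (c * (Λ * w - |D (v + h)|)) =
      κ * (c * (Λ * w * (ρ ^ d * V) - ∫ h in S, |D (v + h)|)) := by
    rw [integral_const_mul, integral_const_mul, integral_sub hcS hDS, setIntegral_const,
      smul_eq_mul]
    have h1 : volume.real S = ρ ^ d * V := by
      rw [hS, hV]
      exact Dis_vol hρ
    rw [h1]
    ring
  calc ENNReal.ofReal (κ * (2 ^ (-(d : ℝ) - 2 * s) * (w * V / 2) * ρ ^ (-(2 * s)) * Λ))
      ≤ ENNReal.ofReal (∫ h in S, κ * (c * (Λ * w - |D (v + h)|))) := by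
        refine ENNReal.ofReal_le_ofReal ?_
        rw [hval]
        refine mul_le_mul_of_nonneg_left ?_ hκ
        have h1 : c * (Λ * w * (ρ ^ d * V) - w * V / 2 * ρ ^ d * Λ) ≤
            c * (Λ * w * (ρ ^ d * V) - ∫ h in S, |D (v + h)|) :=
          mul_le_mul_of_nonneg_left (by linarith) hc0.le
        refine le_trans (le_of_eq ?_) h1
        have h2 : ρ ^ (-(d : ℝ) - 2 * s) * ρ ^ d = ρ ^ (-(2 * s)) := by
          rw [← Real.rpow_natCast ρ d, ← Real.rpow_add hρ]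
          congr 1
          ring
        rw [hc, Real.mul_rpow (by norm_num) hρ.le, ← h2]
        ring
    _ ≤ ∫⁻ h in S, ENNReal.ofReal (κ * (c * (Λ * w - |D (v + h)|))) := Dis_ofReal hgi
    _ ≤ ∫⁻ h in S, ENNReal.ofReal (κ * (len h ^ (-(d : ℝ) - 2 * s) * gap p Λ D v (v + h))) :=
        setLIntegral_mono' hSm fun h hh => ENNReal.ofReal_le_ofReal (hpt h hh)
    _ ≤ ∫⁻ h in Pool.Agent.H48.NE.Sh ρ,
          ENNReal.ofReal (κ * (len h ^ (-(d : ℝ) - 2 * s) * gap p Λ D v (v + h))) :=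
        lintegral_mono_set hSsub

end Pool.Agent.H71.SM
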