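import Pool.Agent.H71.SM.Acy

/-!
# A set with two components is not acyclic
-/

namespace Pool.Agent.H71.SM

open FreeAbelianGroup Pool.Agent.H73.Avr

variable {X : Type}

private def em : List X → ZMod 2
  | [] => 1
  | (_ :: _) => 0

private def sg (ind : X → ZMod 2) : List X → ZMod 2
  | [] => 0
  | [x] => ind x
  | (_ :: _ :: _) => 0

private noncomputable def emO : O X →+ ZMod 2 := lift em

private noncomputable def sgO (ind : X → ZMod 2) : O X →+ ZMod 2 := lift (sg ind)

private theorem emO_of (σ : List X) : emO (of σ) = em σ := lift_apply_of _ _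

private theorem sgO_of (ind : X → ZMod 2) (σ : List X) : sgO ind (of σ) = sg ind σ :=
  lift_apply_of _ _

private theorem emO_cns (x : X) (u : O X) : emO (cns x u) = 0 := by
  have : (emO (X := X)).comp (cns x) = 0 := by
    apply FreeAbelianGroup.lift_ext
    intro σ
    show emO (cns x (of σ)) = 0
    rw [cns_of, emO_of]
    rfl
  exact DFunLike.congr_fun this u

private theorem sgO_cns (ind : X → ZMod 2) (x : X) (u : O X) :
    sgO ind (cns x u) = ind x * emO u := by
  have : (sgO ind).comp (cns x) = (AddMonoidHom.mulLeft (ind x)).comp (emO (X := X)) := by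
    apply FreeAbelianGroup.lift_ext
    intro σ
    show sgO ind (cns x (of σ)) = ind x * emO (of σ)
    rw [cns_of, sgO_of, emO_of]
    cases σ with
    | nil => show ind x = ind x * 1; rw [mul_one]
    | cons y τ => show (0 : ZMod 2) = ind x * 0; rw [mul_zero]
  exact DFunLike.congr_fun this u

private theorem emO_dl (x : X) (τ : List X) : emO (dl (x :: τ)) = em τ := by
  show emO (of τ - cns x (dl τ)) = em τ
  rw [map_sub, emO_of, emO_cns, sub_zero]

private theorem sgO_dl (ind : X → ZMod 2) (x : X) (τ : List X) :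
    sgO ind (dl (x :: τ)) = sg ind τ - ind x * emO (dl τ) := by
  show sgO ind (of τ - cns x (dl τ)) = _
  rw [map_sub, sgO_of, sgO_cns]

private theorem sgO_Ng (ind : X → ZMod 2) {y : O X} (hy : y ∈ Ng X) : sgO ind y = 0 := by
  obtain ⟨u, hu, v, hv, rfl⟩ := AddSubgroup.mem_sup.1 hy
  have h1 : sgO ind u ∈ (⊥ : AddSubgroup (ZMod 2)) := by
    refine map_mem_of_cl (sgO ind) (fun σ hσ => ?_) hu
    obtain ⟨l, x, r, rfl⟩ := hσ
    rw [AddSubgroup.mem_bot, sgO_of]
    cases l with
    | nil => rfl
    | cons z l =>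
      cases l with
      | nil => rfl
      | cons z' l => rfl
  obtain ⟨t, rfl⟩ := hv
  rw [AddSubgroup.mem_bot] at h1
  rw [map_add, h1, zero_add]
  show sgO ind (t + t) = 0
  rw [map_add]
  exact CharTwo.add_self_eq_zero _

theorem acy_disc {X : Type} [MetricSpace X] [CompactSpace X] {Y : Set X} (hY : IsClosed Y)
    (hA : Acy Y) {h : X → ℝ} (hc : Continuous h) (hne : ∀ y ∈ Y, h y ≠ 0) {a b : X}
    (ha : a ∈ Y) (hb : b ∈ Y) (hpa : 0 < h a) (hpb : h b < 0) : False := by
  classical
  obtain ⟨x0, hx0, hmin⟩ := hY.isCompact.exists_isMinOn ⟨a, ha⟩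
    (continuous_abs.comp hc).continuousOn
  have hm : 0 < |h x0| := abs_pos.2 (hne x0 hx0)
  have hle : ∀ y ∈ Y, |h x0| ≤ |h y| := fun y hy => hmin hy
  obtain ⟨ε, hε, huc⟩ := Metric.uniformContinuous_iff.1
    (CompactSpace.uniformContinuous_of_continuous hc) |h x0| hm
  obtain ⟨δ, hδ, hw⟩ := hA ε hε
  have hsa : of [a] ∈ Sml Y δ := by
    refine of_mem_cl ⟨fun x hx => ?_, fun x hx y hy => ?_⟩
    · rw [List.mem_singleton.1 hx]; exact ha
    · rw [List.mem_singleton.1 hx, List.mem_singleton.1 hy, dist_self]; exact hδ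
  have hsb : of [b] ∈ Sml Y δ := by
    refine of_mem_cl ⟨fun x hx => ?_, fun x hx y hy => ?_⟩
    · rw [List.mem_singleton.1 hx]; exact hb
    · rw [List.mem_singleton.1 hx, List.mem_singleton.1 hy, dist_self]; exact hδ
  have hd : ∀ x : X, dO (of [x]) = of [] := by
    intro x
    rw [dO_of]
    show of ([] : List X) - cns x (0 : O X) = of []
    rw [map_zero, sub_zero]
  obtain ⟨w, hwS, hwN⟩ := hw (of [a] - of [b]) (AddSubgroup.sub_mem _ hsa hsb) (by
    rw [map_sub, hd, hd, sub_self]
    exact AddSubgroup.zero_mem _)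
  let ind : X → ZMod 2 := fun x => if 0 < h x then 1 else 0
  have h1 := sgO_Ng ind hwN
  have h2 : (sgO ind).comp dO w ∈ (⊥ : AddSubgroup (ZMod 2)) := by
    refine map_mem_of_cl ((sgO ind).comp dO) (fun σ hσ => ?_) hwS
    rw [AddSubgroup.mem_bot]
    show sgO ind (dO (of σ)) = 0
    rw [dO_of]
    cases σ with
    | nil => show sgO ind (0 : O X) = 0; rw [map_zero]
    | cons x τ =>
      rw [sgO_dl]
      cases τ with
      | nil =>
        show (0 : ZMod 2) - ind x * emO (0 : O X) = 0
        rw [map_zero, mul_zero, sub_zero]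
      | cons y ρ =>
        rw [emO_dl]
        cases ρ with
        | nil =>
          show ind y - ind x * 1 = 0
          rw [mul_one, sub_eq_zero]
          have hxY := hσ.1 x (List.mem_cons_self)
          have hyY := hσ.1 y (List.mem_cons_of_mem _ List.mem_cons_self)
          have hd1 := huc (hσ.2 x List.mem_cons_self y
            (List.mem_cons_of_mem _ List.mem_cons_self))
          rw [Real.dist_eq] at hd1
          have hx1 := hle x hxY
          have hy1 := hle y hyY
          have hd2 := abs_lt.1 hd1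
          show (if 0 < h y then (1 : ZMod 2) else 0) = if 0 < h x then 1 else 0
          by_cases hx2 : 0 < h x
          · rw [abs_of_pos hx2] at hx1
            rw [if_pos hx2, if_pos (by linarith)]
          · have hx3 : h x ≤ 0 := not_lt.1 hx2
            rw [abs_of_nonpos hx3] at hx1
            rw [if_neg hx2, if_neg (by
              intro hy2
              rw [abs_of_pos hy2] at hy1
              linarith)]
        | cons z ρ =>
          show (0 : ZMod 2) - ind x * 0 = 0
          rw [mul_zero, sub_zero]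
  rw [AddSubgroup.mem_bot] at h2
  have h3 : sgO ind (dO w) = 0 := h2
  rw [map_sub, h3, map_sub, sgO_of, sgO_of] at h1
  have ea : sg ind [a] = 1 := if_pos hpa
  have eb : sg ind [b] = 0 := if_neg (by linarith)
  rw [ea, eb] at h1
  exact absurd h1 (by decide)

end Pool.Agent.H71.SM
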