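import Pool.Agent.H87.PE.Ren
import Pool.Agent.H82.CM.LowK
import Pool.Agent.H48.PD.Itg

/-!
# Module ErrG: renormalised collision terms against bounded Lipschitz functions, `0 ≤ γ`

As H87/PE/Ren.lean, for densities with bounded moments. `Lam = bet' C₀ (G) ψ`, `G = g + δ gau`.
`∫ kx (ψ' - ψ)² ≤ K A² ∫∫ G G |v-w|^(γ+2)` (`|v' - v|² = |v-w|² (1 - cos θ)/2`), `∫_{Hfᶜ} kx ≤ K ∫∫ G G |v-w|^γ`,
`∫_{Hf} kx (bet' G' - bet' G)² ≤ 9 (Pc + K ∫∫ G G |v-w|^γ)` (`bet_sq`, `coer`). All the double integrals are bounded by the moments.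
-/

set_option autoImplicit false

open MeasureTheory Set Filter Topology Pool.Agent.H25.Kin Pool.Agent.H82.BK Pool.Agent.H82.CM
open Pool.Agent.H48.PL Pool.Agent.H48.PI Pool.Agent.H48.PD Pool.Agent.H87.PE
open Pool.Agent.H15.AV (gau UNice)

namespace Pool.Agent.H71.SM

variable {d : ℕ} {s γ C Ca cb : ℝ} {b : ℝ → ℝ}

/-! ### Moments -/

private lemma errg_nn (v : Vec d) : 0 ≤ nsq v := sq_nonneg' v

private lemma errg_jj (v w : Vec d) : 1 ≤ jb v * jb w := by
  have h1 := one_le_jb v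
  have h2 := one_le_jb w
  nlinarith

private lemma errg_len (v w : Vec d) : len (v - w) ≤ 2 * (jb v * jb w) := by
  have h0 := errg_jj v w
  have h1 : jb v ^ 2 = 1 + nsq v := Real.sq_sqrt (by linarith [errg_nn v])
  have h2 : jb w ^ 2 = 1 + nsq w := Real.sq_sqrt (by linarith [errg_nn w])
  have h4 := errg_nn v
  have h5 := errg_nn w
  have h6 : nsq (v - w) ≤ 2 * nsq v + 2 * nsq w := by
    have h7 := nsq_par v w
    have h8 := errg_nn (v + w)
    linarith
  unfold len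
  refine Real.sqrt_le_iff.2 ⟨by linarith, h6.trans ?_⟩
  have h3 : (2 * (jb v * jb w)) ^ 2 = 4 * ((1 + nsq v) * (1 + nsq w)) := by
    rw [← h1, ← h2]
    ring
  rw [h3]
  nlinarith [mul_nonneg h4 h5]

private lemma errg_pow {t : ℝ} (h0 : 0 ≤ t) (h4 : t ≤ 4) (v w : Vec d) :
    len (v - w) ^ t ≤ 16 * (jb v ^ 4 * jb w ^ 4) := by
  have h1 := errg_jj v w
  have h2 := errg_len v w
  have h3 : (1 : ℝ) ≤ 2 * (jb v * jb w) := by linarith
  calc len (v - w) ^ t ≤ (2 * (jb v * jb w)) ^ t := Real.rpow_le_rpow (len_nonneg _) h2 h0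
    _ ≤ (2 * (jb v * jb w)) ^ (4 : ℝ) := Real.rpow_le_rpow_of_exponent_le h3 h4
    _ = (2 * (jb v * jb w)) ^ (4 : ℕ) := by
        rw [← Real.rpow_natCast]
        norm_num
    _ = _ := by ring

/-- the majorant -/
private noncomputable def errgM (G : Vec d → ℝ) (q : Vec d × Vec d) : ℝ :=
  (G q.1 * jb q.1 ^ 4) * (G q.2 * jb q.2 ^ 4)

private lemma errg_gau (v : Vec d) : 0 < gau v ∧ gau v ≤ 1 := by
  refine ⟨Real.exp_pos _, ?_⟩
  unfold gau
  rw [← Real.exp_zero]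
  exact Real.exp_le_exp.2 (by linarith [sq_nonneg' v])

private lemma errg_gauFB : ∃ Cl : ℕ → ℝ, FB Cl (gau (d := d)) := by
  have hm := Pool.Agent.H15.AV.nice_gau (d := d)
  have h0 : ∀ N, ∃ a, ∀ v : Vec d, (1 + ‖v‖) ^ N * ‖gau v‖ ≤ a := hm.rd
  choose a0 ha0 using h0
  refine ⟨a0, hm, fun v => (errg_gau v).1.le, fun N v => ?_⟩
  have h1 := ha0 N v
  rwa [Real.norm_eq_abs, abs_of_pos (errg_gau v).1] at h1

private lemma errg_reg (Cg : ℕ → ℝ) : ∃ X : ℝ, 0 ≤ X ∧ ∀ g : Vec d → ℝ, FB Cg g →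
    ∀ δ : ℝ, 0 < δ → δ ≤ 1 → Integrable (errgM fun v => g v + δ * gau v) ∧
      ∫ q, errgM (fun v => g v + δ * gau v) q ≤ X := by
  obtain ⟨K, hK, hm⟩ := mom_le d Cg 4
  obtain ⟨Cl, hg0⟩ := errg_gauFB (d := d)
  obtain ⟨K', hK', hm'⟩ := mom_le d Cl 4
  obtain ⟨j1, j2⟩ := hm' _ hg0
  refine ⟨(K + K') * (K + K'), by positivity, fun g hg δ hδ hδ1 => ?_⟩
  obtain ⟨i1, i2⟩ := hm g hg
  have e : (fun v : Vec d => (g v + δ * gau v) * jb v ^ 4) =
      fun v => g v * jb v ^ 4 + δ * (gau v * jb v ^ 4) := by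
    funext v
    ring
  have i3 : Integrable fun v : Vec d => (g v + δ * gau v) * jb v ^ 4 := by
    rw [e]
    exact i1.add (j1.const_mul δ)
  have h0 : 0 ≤ ∫ v : Vec d, (g v + δ * gau v) * jb v ^ 4 :=
    integral_nonneg fun v => mul_nonneg
      (add_nonneg (hg.nonneg v) (mul_nonneg hδ.le (errg_gau v).1.le)) (pow_nonneg (jb_pos v).le 4)
  have h1 : ∫ v : Vec d, (g v + δ * gau v) * jb v ^ 4 ≤ K + K' := by
    rw [e, integral_add i1 (j1.const_mul δ), integral_const_mul]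
    have h2 : 0 ≤ ∫ v : Vec d, gau v * jb v ^ 4 :=
      integral_nonneg fun v => mul_nonneg (errg_gau v).1.le (pow_nonneg (jb_pos v).le 4)
    have h3 := mul_le_mul_of_nonneg_right hδ1 h2
    linarith
  refine ⟨i3.mul_prod i3, ?_⟩
  have h4 : ∫ p : Vec d × Vec d, errgM (fun v => g v + δ * gau v) p =
      (∫ v : Vec d, (g v + δ * gau v) * jb v ^ 4) * ∫ v : Vec d, (g v + δ * gau v) * jb v ^ 4 :=
    integral_prod_mul (fun v : Vec d => (g v + δ * gau v) * jb v ^ 4)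
      (fun v => (g v + δ * gau v) * jb v ^ 4)
  rw [h4]
  exact mul_le_mul h1 h1 h0 (by positivity)

private lemma errgM_nn {G : Vec d → ℝ} (h0 : ∀ v, 0 ≤ G v) (q : Vec d × Vec d) : 0 ≤ errgM G q :=
  mul_nonneg (mul_nonneg (h0 _) (pow_nonneg (jb_pos _).le 4))
    (mul_nonneg (h0 _) (pow_nonneg (jb_pos _).le 4))

private lemma errgM_le {G : Vec d → ℝ} (h0 : ∀ v, 0 ≤ G v) {t : ℝ} (ht : 0 ≤ t) (ht4 : t ≤ 4)
    (v w : Vec d) : G v * G w * len (v - w) ^ t ≤ 16 * errgM G (v, w) := by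
  have h1 := mul_le_mul_of_nonneg_left (errg_pow ht ht4 v w) (mul_nonneg (h0 v) (h0 w))
  refine h1.trans (le_of_eq ?_)
  unfold errgM
  ring

private lemma errg_GG (H : Hyp d γ s b C Ca) (h0 : 0 ≤ γ) {G : Vec d → ℝ} (hG : RD G)
    (hGc : Continuous G) (hG0 : ∀ v, 0 ≤ G v) (hM : Integrable (errgM G)) :
    GG γ G ≤ 16 * ∫ q, errgM G q := by
  unfold GG
  rw [← integral_const_mul]
  refine integral_mono (GG_int H hG hGc) (hM.const_mul 16) fun q => ?_
  exact errgM_le hG0 h0 (by have := H.g2; linarith) q.1 q.2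

/-! ### Fubini -/

private lemma errg_fub (H : Hyp d γ s b C Ca) {ε : ℝ} (hε : 0 < ε) {G : Vec d → ℝ} (hG : RD G)
    (hGc : Continuous G) {X : Vec d × Vec d × Vec d → ℝ} (hX : Measurable X) (hB : PB X)
    {S : Set (Vec d × Vec d × Vec d)} (hS : MeasurableSet S) :
    Integrable (fun q : Vec d × Vec d => G q.1 * G q.2 *
      ∫ σ in {σ : Vec d | (q.1, q.2, σ) ∈ S}, kerB γ b ε q.1 q.2 σ * X (q.1, q.2, σ) ∂(surf d)) ∧
    ∫ p in S, kx γ b ε G p * X p ∂(mu3 d) =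
      ∫ q : Vec d × Vec d, G q.1 * G q.2 *
        ∫ σ in {σ : Vec d | (q.1, q.2, σ) ∈ S}, kerB γ b ε q.1 q.2 σ * X (q.1, q.2, σ)
          ∂(surf d) := by
  have i := (kx_int H hε hG hGc hX hB).indicator hS
  have h3 : MeasurePreserving (MeasurableEquiv.prodAssoc (α := Vec d) (β := Vec d) (γ := Vec d))
      (((volume : Measure (Vec d)).prod volume).prod (surf d)) (mu3 d) :=
    measurePreserving_prodAssoc _ _ _
  have i2 := h3.integrable_comp_of_integrable i
  have e0 := h3.integral_comp' (S.indicator fun p : Vec d × Vec d × Vec d => kx γ b ε G p * X p)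
  have ei : (fun q : Vec d × Vec d => ∫ σ, ((S.indicator fun p : Vec d × Vec d × Vec d =>
      kx γ b ε G p * X p) ∘
      (MeasurableEquiv.prodAssoc (α := Vec d) (β := Vec d) (γ := Vec d))) (q, σ) ∂(surf d)) =
      fun q : Vec d × Vec d => G q.1 * G q.2 *
        ∫ σ in {σ : Vec d | (q.1, q.2, σ) ∈ S}, kerB γ b ε q.1 q.2 σ * X (q.1, q.2, σ)
          ∂(surf d) := by
    funext q
    have hSq : MeasurableSet {σ : Vec d | (q.1, q.2, σ) ∈ S} :=
      (measurable_const.prodMk (measurable_const.prodMk measurable_id)) hS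
    rw [← integral_const_mul, ← integral_indicator hSq]
    refine integral_congr_ae (Eventually.of_forall fun σ => ?_)
    change S.indicator (fun p : Vec d × Vec d × Vec d => kx γ b ε G p * X p) (q.1, q.2, σ) =
      {σ : Vec d | (q.1, q.2, σ) ∈ S}.indicator
        (fun σ => G q.1 * G q.2 * (kerB γ b ε q.1 q.2 σ * X (q.1, q.2, σ))) σ
    by_cases hm : (q.1, q.2, σ) ∈ S
    · rw [indicator_of_mem hm, indicator_of_mem (show σ ∈ {σ : Vec d | (q.1, q.2, σ) ∈ S} from hm)]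
      unfold kx
      ring
    · rw [indicator_of_notMem hm,
        indicator_of_notMem (show σ ∉ {σ : Vec d | (q.1, q.2, σ) ∈ S} from hm)]
  have i3 := i2.integral_prod_left
  have e2 := integral_prod _ i2
  rw [ei] at i3 e2
  refine ⟨i3, ?_⟩
  rw [← integral_indicator hS]
  exact e0.symm.trans e2

private lemma errg_ne (hd : 1 ≤ d) : ∀ᵐ p ∂(volume : Measure (Vec d × Vec d)), p.1 ≠ p.2 := by
  have hne : Nonempty (Fin d) := ⟨⟨0, by omega⟩⟩
  have hs : MeasurableSet {p : Vec d × Vec d | p.1 ≠ p.2} :=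
    (isClosed_eq continuous_fst continuous_snd).measurableSet.compl
  refine (Measure.ae_prod_iff_ae_ae hs).2 (Eventually.of_forall fun v => ?_)
  have : (volume : Measure (Vec d)) {v} = 0 := measure_singleton v
  filter_upwards [compl_mem_ae_iff.2 this] with w hw h
  exact hw h.symm

private lemma errg_maj (H : Hyp d γ s b C Ca) {ε : ℝ} (hε : 0 < ε) {G : Vec d → ℝ} (hG : RD G)
    (hGc : Continuous G) {X : Vec d × Vec d × Vec d → ℝ} (hX : Measurable X) (hB : PB X)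
    {S : Set (Vec d × Vec d × Vec d)} (hS : MeasurableSet S) {M : Vec d × Vec d → ℝ}
    (hM : Integrable M) (hle : ∀ v w : Vec d, v ≠ w → G v * G w *
      ∫ σ in {σ : Vec d | (v, w, σ) ∈ S}, kerB γ b ε v w σ * X (v, w, σ) ∂(surf d) ≤ M (v, w)) :
    ∫ p in S, kx γ b ε G p * X p ∂(mu3 d) ≤ ∫ q, M q := by
  obtain ⟨i1, e1⟩ := errg_fub H hε hG hGc hX hB hS
  rw [e1]
  refine integral_mono_ae i1 hM ?_
  filter_upwards [errg_ne H.hd1] with q hq
  exact hle q.1 q.2 hq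

/-! ### The two pieces -/

private lemma errg_inc (H : Hyp d γ s b C Ca) (hγ : 0 ≤ γ) : ∃ K : ℝ, 0 ≤ K ∧
    ∀ G : Vec d → ℝ, RD G → Continuous G → (∀ v, 0 ≤ G v) → Integrable (errgM G) →
    ∀ ε : ℝ, 0 < ε → ∀ A : ℝ, 0 ≤ A → ∀ ψ : Vec d → ℝ, Continuous ψ → (∀ v, |ψ v| ≤ A) →
    (∀ w w', |ψ w - ψ w'| ≤ A * len (w - w')) →
    ∫ p, kx γ b ε G p * (ψ (post p.1 p.2.1 p.2.2) - ψ p.1) ^ 2 ∂(mu3 d) ≤
      K * A ^ 2 * ∫ q, errgM G q := by
  obtain ⟨K, hK0, hK⟩ := ker_small H (τ := 1) H.hs1 le_rfl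
  refine ⟨16 * (K * 2 ^ (1 - s)), by positivity, ?_⟩
  intro G hG hGc h0 hM ε hε A hA ψ hψc hψA hψ
  have hXm : Measurable fun p : Vec d × Vec d × Vec d =>
      (ψ (post p.1 p.2.1 p.2.2) - ψ p.1) ^ 2 := by
    have hp : Measurable fun p : Vec d × Vec d × Vec d => post p.1 p.2.1 p.2.2 :=
      continuous_post.measurable
    exact ((hψc.measurable.comp hp).sub (hψc.measurable.comp measurable_fst)).pow_const 2
  have hXB : PB fun p : Vec d × Vec d × Vec d => (ψ (post p.1 p.2.1 p.2.2) - ψ p.1) ^ 2 := by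
    refine ⟨0, (2 * A) ^ 2, sq_nonneg _, fun v w σ _ => ?_⟩
    rw [pow_zero, mul_one, abs_of_nonneg (sq_nonneg _)]
    have h4 := abs_le.1 (hψA (post v w σ))
    have h5 := abs_le.1 (hψA v)
    exact sq_le_sq' (by linarith) (by linarith)
  have e2 := errg_maj H hε hG hGc hXm hXB MeasurableSet.univ
    (M := fun p => 16 * (K * 2 ^ (1 - s)) * A ^ 2 * errgM G p) (hM.const_mul _) ?_
  · rw [Measure.restrict_univ] at e2
    refine e2.trans (le_of_eq ?_)
    rw [integral_const_mul]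
  · intro v w hvw
    have hGG : 0 ≤ G v * G w := mul_nonneg (h0 v) (h0 w)
    have hset : {σ : Vec d | (v, w, σ) ∈ (univ : Set (Vec d × Vec d × Vec d))} = univ := by
      ext σ
      simp
    rw [hset, Measure.restrict_univ]
    obtain ⟨hi, hb⟩ := hK ε hε v w hvw 2 two_pos
    have hS : (surf d).restrict {σ : Vec d | 1 - cosTh v w σ ≤ 2} = surf d := by
      refine Measure.restrict_eq_self_of_ae_mem ?_
      filter_upwards [surf_ae] with σ hσ
      have h4 := (abs_le.1 (abs_cosTh_le (v := v) (w := w) hσ)).1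
      show 1 - cosTh v w σ ≤ 2
      linarith
    unfold IntegrableOn at hi
    rw [hS] at hi hb
    simp only [Real.rpow_one] at hi hb
    have hlen := len_nonneg (v - w)
    have hle : ∫ σ, kerB γ b ε v w σ * (ψ (post v w σ) - ψ v) ^ 2 ∂(surf d) ≤
        ∫ σ, A ^ 2 * len (v - w) ^ 2 * (kerB γ b ε v w σ * (1 - cosTh v w σ)) ∂(surf d) := by
      refine integral_mono_of_nonneg ?_ (hi.const_mul _) ?_
      · filter_upwards [surf_ae] with σ hσ
        exact mul_nonneg (kerB_nonneg (γ := γ) H.bd hε (v := v) (w := w) hσ) (sq_nonneg _)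
      · filter_upwards [surf_ae] with σ hσ
        have hk0 := kerB_nonneg (γ := γ) H.bd hε (v := v) (w := w) hσ
        have hy := one_sub_cosTh_nonneg (v := v) (w := w) hσ
        have e1 := hψ (post v w σ) v
        have e3 : (ψ (post v w σ) - ψ v) ^ 2 ≤ A ^ 2 * (len (v - w) ^ 2 * (1 - cosTh v w σ)) := by
          have h5 : (ψ (post v w σ) - ψ v) ^ 2 ≤ (A * len (post v w σ - v)) ^ 2 := by
            rw [← sq_abs]
            exact pow_le_pow_left₀ (abs_nonneg _) e1 2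
          have h6 : len (post v w σ - v) ^ 2 = len (v - w) ^ 2 * ((1 - cosTh v w σ) / 2) := by
            rw [len_sq, len_sq]
            exact nsq_post_sub hvw hσ
          have h7 : (A * len (post v w σ - v)) ^ 2 =
              A ^ 2 * (len (v - w) ^ 2 * ((1 - cosTh v w σ) / 2)) := by
            rw [mul_pow, h6]
          rw [h7] at h5
          refine h5.trans (mul_le_mul_of_nonneg_left ?_ (sq_nonneg A))
          exact mul_le_mul_of_nonneg_left (by linarith) (sq_nonneg _)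
        calc kerB γ b ε v w σ * (ψ (post v w σ) - ψ v) ^ 2
            ≤ kerB γ b ε v w σ * (A ^ 2 * (len (v - w) ^ 2 * (1 - cosTh v w σ))) :=
              mul_le_mul_of_nonneg_left e3 hk0
          _ = _ := by ring
    rw [integral_const_mul] at hle
    have h8 : ∫ σ, kerB γ b ε v w σ * (ψ (post v w σ) - ψ v) ^ 2 ∂(surf d) ≤
        A ^ 2 * len (v - w) ^ 2 * (K * len (v - w) ^ γ * 2 ^ (1 - s)) :=
      hle.trans (mul_le_mul_of_nonneg_left hb (by positivity))
    have hl0 : 0 < len (v - w) := len_pos (sub_ne_zero.2 hvw)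
    have h9 : len (v - w) ^ 2 * len (v - w) ^ γ = len (v - w) ^ (γ + 2) := by
      rw [Real.rpow_add hl0, mul_comm]
      norm_num
    have h10 := mul_le_mul_of_nonneg_left h8 hGG
    refine h10.trans ?_
    have h11 := errgM_le h0 (t := γ + 2) (by linarith) (by have := H.g2; linarith) v w
    calc G v * G w * (A ^ 2 * len (v - w) ^ 2 * (K * len (v - w) ^ γ * 2 ^ (1 - s)))
        = (K * 2 ^ (1 - s) * A ^ 2) * (G v * G w * (len (v - w) ^ 2 * len (v - w) ^ γ)) := by ring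
      _ = (K * 2 ^ (1 - s) * A ^ 2) * (G v * G w * len (v - w) ^ (γ + 2)) := by rw [h9]
      _ ≤ (K * 2 ^ (1 - s) * A ^ 2) * (16 * errgM G (v, w)) :=
          mul_le_mul_of_nonneg_left h11 (by positivity)
      _ = _ := by ring

private lemma errg_neg (H : Hyp d γ s b C Ca) (hγ : 0 ≤ γ) : ∃ K : ℝ, 0 ≤ K ∧
    ∀ G : Vec d → ℝ, RD G → Continuous G → (∀ v, 0 ≤ G v) → Integrable (errgM G) →
    ∀ ε : ℝ, 0 < ε → ∫ p in (Hf d)ᶜ, kx γ b ε G p ∂(mu3 d) ≤ K * ∫ q, errgM G q := by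
  obtain ⟨K, hK0, hK⟩ := ker_large H
  refine ⟨16 * K, by positivity, fun G hG hGc hG0 hM ε hε => ?_⟩
  have hXB : PB fun _ : Vec d × Vec d × Vec d => (1 : ℝ) :=
    ⟨0, 1, zero_le_one, fun v w σ _ => by simp⟩
  have e2 := errg_maj H hε hG hGc (X := fun _ => (1 : ℝ)) measurable_const hXB
    (Hf_meas (d := d)).compl (M := fun p => 16 * K * errgM G p) (hM.const_mul _) ?_
  · simp only [mul_one] at e2
    refine e2.trans (le_of_eq ?_)
    rw [integral_const_mul]
  · intro v w hvw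
    have hGG : 0 ≤ G v * G w := mul_nonneg (hG0 v) (hG0 w)
    have hset : {σ : Vec d | (v, w, σ) ∈ (Hf d)ᶜ} = {σ : Vec d | cosTh v w σ < 0} := by
      ext σ
      show ¬ (0 ≤ cosTh v w σ) ↔ cosTh v w σ < 0
      exact not_le
    rw [hset]
    simp only [mul_one]
    obtain ⟨hi, hb⟩ := hK ε hε v w hvw 1 one_pos
    have hsub : {σ : Vec d | cosTh v w σ < 0} ⊆ {σ : Vec d | 1 ≤ 1 - cosTh v w σ} := by
      intro σ hσ
      have h5 : cosTh v w σ < 0 := hσ
      show 1 ≤ 1 - cosTh v w σ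
      linarith
    have h6 : ∫ σ in {σ : Vec d | cosTh v w σ < 0}, kerB γ b ε v w σ ∂(surf d) ≤
        ∫ σ in {σ : Vec d | 1 ≤ 1 - cosTh v w σ}, kerB γ b ε v w σ ∂(surf d) := by
      refine setIntegral_mono_set hi ?_ (Eventually.of_forall hsub)
      have h7 : ∀ᵐ σ ∂(surf d), 0 ≤ kerB γ b ε v w σ := by
        filter_upwards [surf_ae] with σ hσ
        exact kerB_nonneg (γ := γ) H.bd hε (v := v) (w := w) hσ
      exact ae_restrict_of_ae h7
    rw [Real.one_rpow, mul_one] at hb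
    have h8 := mul_le_mul_of_nonneg_left (h6.trans hb) hGG
    have h9 := errgM_le hG0 (t := γ) hγ (by have := H.g2; linarith) v w
    calc G v * G w * ∫ σ in {σ : Vec d | cosTh v w σ < 0}, kerB γ b ε v w σ ∂(surf d)
        ≤ G v * G w * (K * len (v - w) ^ γ) := h8
      _ = K * (G v * G w * len (v - w) ^ γ) := by ring
      _ ≤ K * (16 * errgM G (v, w)) := mul_le_mul_of_nonneg_left h9 hK0
      _ = _ := by ring

private lemma errg_weak (H : Hyp d γ s b C Ca) {ε : ℝ} (hε : 0 < ε) {G : Vec d → ℝ} (hG : RD G)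
    (hGc : Continuous G) {φ : Vec d → ℝ} (hφ : PG φ) (hφm : Measurable φ) :
    ∫ v, boltzCut γ b ε G v * φ v = (1 / 2) * ∫ p, kx γ b ε G p * dX φ p ∂(mu3 d) :=
  weak_cut H.hd H.g1 H.g2 H.bm H.bd H.β0 hε hG hGc hφ hφm

private lemma errg_PG {φ : Vec d → ℝ} {A : ℝ} (h : ∀ v, |φ v| ≤ A) : PG φ := by
  refine ⟨0, A, fun v => ?_⟩
  rw [pow_zero, mul_one, Real.norm_eq_abs]
  exact h v

private lemma errg_PB {X : Vec d × Vec d × Vec d → ℝ} {A : ℝ} (hA : 0 ≤ A) (h : ∀ p, |X p| ≤ A) :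
    PB X := ⟨0, A, hA, fun v w σ _ => by rw [pow_zero, mul_one]; exact h _⟩

/-- the square of the increment of a bounded function -/
private lemma errg_sq (H : Hyp d γ s b C Ca) {ε : ℝ} (hε : 0 < ε) {G : Vec d → ℝ} (hG : RD G)
    (hGc : Continuous G) (hG0 : ∀ v, 0 ≤ G v) {L : Vec d → ℝ} {A : ℝ} (hL : ∀ v, |L v| ≤ A)
    (hLm : Measurable L) :
    ∫ p, kx γ b ε G p * dX L p ^ 2 ∂(mu3 d) ≤
      4 * ∫ p, kx γ b ε G p * (L (post p.1 p.2.1 p.2.2) - L p.1) ^ 2 ∂(mu3 d) := by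
  have hA : 0 ≤ A := (abs_nonneg _).trans (hL 0)
  have mpost := (continuous_post (d := d)).measurable
  have mpost' := (continuous_post' (d := d)).measurable
  have mv : Measurable fun p : Vec d × Vec d × Vec d => p.1 := measurable_fst
  have mw : Measurable fun p : Vec d × Vec d × Vec d => p.2.1 := measurable_fst.comp measurable_snd
  have m1 : Measurable fun p : Vec d × Vec d × Vec d => (L (post p.1 p.2.1 p.2.2) - L p.1) ^ 2 :=
    ((hLm.comp mpost).sub (hLm.comp mv)).pow_const 2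
  have m2 : Measurable fun p : Vec d × Vec d × Vec d => (L (post' p.1 p.2.1 p.2.2) - L p.2.1) ^ 2 :=
    ((hLm.comp mpost').sub (hLm.comp mw)).pow_const 2
  have hsq : ∀ x y : Vec d, (L x - L y) ^ 2 ≤ (2 * A) ^ 2 := by
    intro x y
    have h1 := abs_le.1 (hL x)
    have h2 := abs_le.1 (hL y)
    have h3 : |L x - L y| ≤ 2 * A := by
      rw [abs_le]
      constructor <;> linarith
    calc (L x - L y) ^ 2 = |L x - L y| ^ 2 := (sq_abs _).symm
      _ ≤ (2 * A) ^ 2 := pow_le_pow_left₀ (abs_nonneg _) h3 2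
  have B1 : PB fun p : Vec d × Vec d × Vec d => (L (post p.1 p.2.1 p.2.2) - L p.1) ^ 2 :=
    errg_PB (A := (2 * A) ^ 2) (by positivity) fun p => by
      rw [abs_of_nonneg (sq_nonneg _)]; exact hsq _ _
  have B2 : PB fun p : Vec d × Vec d × Vec d => (L (post' p.1 p.2.1 p.2.2) - L p.2.1) ^ 2 :=
    errg_PB (A := (2 * A) ^ 2) (by positivity) fun p => by
      rw [abs_of_nonneg (sq_nonneg _)]; exact hsq _ _
  have i1 := kx_int H hε hG hGc m1 B1
  have i2 := kx_int H hε hG hGc m2 B2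
  have e : ∫ p, kx γ b ε G p * (L (post' p.1 p.2.1 p.2.2) - L p.2.1) ^ 2 ∂(mu3 d) =
      ∫ p, kx γ b ε G p * (L (post p.1 p.2.1 p.2.2) - L p.1) ^ 2 ∂(mu3 d) := by
    rw [← exch_sw H ε hGc.measurable m1]
    refine integral_congr_ae (Eventually.of_forall fun p => ?_)
    obtain ⟨v, w, σ⟩ := p
    have hp : post w v (-σ) = post' v w σ := by
      have hl : len (w - v) = len (v - w) := by
        have h : nsq (w - v) = nsq (v - w) := by
          unfold nsq
          exact Finset.sum_congr rfl fun i _ => by simp only [Pi.sub_apply]; ring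
        unfold len
        rw [h]
      unfold post post'
      rw [hl, smul_neg, add_comm w v, ← sub_eq_add_neg]
    simp only [exch]
    rw [hp]
  have hk := kx_nonneg H hε hG0
  have step : ∫ p, kx γ b ε G p * dX L p ^ 2 ∂(mu3 d) ≤
      ∫ p, (2 * (kx γ b ε G p * (L (post p.1 p.2.1 p.2.2) - L p.1) ^ 2) +
        2 * (kx γ b ε G p * (L (post' p.1 p.2.1 p.2.2) - L p.2.1) ^ 2)) ∂(mu3 d) := by
    refine integral_mono_of_nonneg ?_ ((i1.const_mul 2).add (i2.const_mul 2)) ?_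
    · filter_upwards [hk] with p hp
      exact mul_nonneg hp (sq_nonneg _)
    · filter_upwards [hk] with p hp
      have h1 : dX L p ^ 2 ≤ 2 * (L (post p.1 p.2.1 p.2.2) - L p.1) ^ 2 +
          2 * (L (post' p.1 p.2.1 p.2.2) - L p.2.1) ^ 2 := by
        unfold dX
        nlinarith [sq_nonneg ((L (post p.1 p.2.1 p.2.2) - L p.1) -
          (L (post' p.1 p.2.1 p.2.2) - L p.2.1))]
      have h2 := mul_le_mul_of_nonneg_left h1 hp
      linarith
  rw [integral_add (i1.const_mul 2) (i2.const_mul 2), integral_const_mul, integral_const_mul, e] at step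
  linarith

/-- the increments of the renormalization -/
private lemma errg_inc2 (H : Hyp d γ s b C Ca) (h0 : 0 ≤ γ) : ∃ K : ℝ, 0 ≤ K ∧
    ∀ C₀ : ℝ, 0 < C₀ → ∀ G : Vec d → ℝ, Gd G → Integrable (errgM G) → ∀ ε : ℝ, 0 < ε →
    ∀ A : ℝ, 0 ≤ A → ∀ ψ : Vec d → ℝ, Continuous ψ → (∀ v, |ψ v| ≤ A) →
    (∀ w w', |ψ w - ψ w'| ≤ A * len (w - w')) →
    ∫ p, kx γ b ε G p * (bet' C₀ (G (post p.1 p.2.1 p.2.2)) * ψ (post p.1 p.2.1 p.2.2) -
        bet' C₀ (G p.1) * ψ p.1) ^ 2 ∂(mu3 d) ≤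
      A ^ 2 * (18 * Pc γ b ε G + K * (∫ q, errgM G q)) := by
  obtain ⟨K₁, hK₁, hinc⟩ := errg_inc H h0
  obtain ⟨K₂, hK₂, hcoer⟩ := coer H
  obtain ⟨K₃, hK₃, hneg⟩ := errg_neg H h0
  refine ⟨2 * K₁ + 288 * K₂ + 2 * K₃, by positivity, ?_⟩
  intro C₀ hC₀ G hG hM ε hε A hA ψ hc hψA hψ
  have hG0 : ∀ v, 0 ≤ G v := fun v => (hG.pos v).le
  have mpost := (continuous_post (d := d)).measurable
  have mv : Measurable fun p : Vec d × Vec d × Vec d => p.1 := measurable_fst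
  have hbm : Measurable fun v => bet' C₀ (G v) := by
    unfold bet'
    exact ((measurable_const.div (hG.cont.measurable.const_add C₀))).pow_const 2
  have hbc0 : ∀ v, 0 ≤ bet' C₀ (G v) := fun v => bet_nonneg _ _
  have hbc1 : ∀ v, bet' C₀ (G v) ≤ 1 := fun v => bet_le_one hC₀ (hG0 v)
  -- the two pieces
  set X : Vec d × Vec d × Vec d → ℝ := fun p =>
    (bet' C₀ (G (post p.1 p.2.1 p.2.2)) - bet' C₀ (G p.1)) ^ 2 with hX
  set Y : Vec d × Vec d × Vec d → ℝ := fun p => (ψ (post p.1 p.2.1 p.2.2) - ψ p.1) ^ 2 with hY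
  have mX : Measurable X := ((hbm.comp mpost).sub (hbm.comp mv)).pow_const 2
  have mY : Measurable Y := ((hc.measurable.comp mpost).sub (hc.measurable.comp mv)).pow_const 2
  have hX1 : ∀ p, X p ≤ 1 := by
    intro p
    have a1 := hbc0 (post p.1 p.2.1 p.2.2)
    have a2 := hbc1 (post p.1 p.2.1 p.2.2)
    have a3 := hbc0 p.1
    have a4 := hbc1 p.1
    simp only [hX]
    nlinarith
  have hX0 : ∀ p, 0 ≤ X p := fun p => sq_nonneg _
  have hY0 : ∀ p, 0 ≤ Y p := fun p => sq_nonneg _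
  have hY1 : ∀ p, Y p ≤ (2 * A) ^ 2 := by
    intro p
    have h1 := abs_le.1 (hψA (post p.1 p.2.1 p.2.2))
    have h2 := abs_le.1 (hψA p.1)
    have h3 : |ψ (post p.1 p.2.1 p.2.2) - ψ p.1| ≤ 2 * A := by
      rw [abs_le]
      constructor <;> linarith
    calc Y p = |ψ (post p.1 p.2.1 p.2.2) - ψ p.1| ^ 2 := (sq_abs _).symm
      _ ≤ (2 * A) ^ 2 := pow_le_pow_left₀ (abs_nonneg _) h3 2
  have iX : Integrable (fun p => kx γ b ε G p * X p) (mu3 d) :=
    kx_int H hε hG.rd hG.cont mX (errg_PB (A := 1) zero_le_one fun p => by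
      rw [abs_of_nonneg (hX0 p)]; exact hX1 p)
  have iY : Integrable (fun p => kx γ b ε G p * Y p) (mu3 d) :=
    kx_int H hε hG.rd hG.cont mY (errg_PB (A := (2 * A) ^ 2) (by positivity) fun p => by
      rw [abs_of_nonneg (hY0 p)]; exact hY1 p)
  have hk := kx_nonneg H hε hG0
  have step : ∫ p, kx γ b ε G p * (bet' C₀ (G (post p.1 p.2.1 p.2.2)) *
        ψ (post p.1 p.2.1 p.2.2) - bet' C₀ (G p.1) * ψ p.1) ^ 2 ∂(mu3 d) ≤
      ∫ p, (2 * A ^ 2 * (kx γ b ε G p * X p) + 2 * (kx γ b ε G p * Y p)) ∂(mu3 d) := by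
    refine integral_mono_of_nonneg ?_ ((iX.const_mul _).add (iY.const_mul 2)) ?_
    · filter_upwards [hk] with p hp
      exact mul_nonneg hp (sq_nonneg _)
    · filter_upwards [hk] with p hp
      have h1 : (bet' C₀ (G (post p.1 p.2.1 p.2.2)) * ψ (post p.1 p.2.1 p.2.2) -
          bet' C₀ (G p.1) * ψ p.1) ^ 2 ≤ 2 * A ^ 2 * X p + 2 * Y p := by
        have e : bet' C₀ (G (post p.1 p.2.1 p.2.2)) * ψ (post p.1 p.2.1 p.2.2) -
            bet' C₀ (G p.1) * ψ p.1 =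
            (bet' C₀ (G (post p.1 p.2.1 p.2.2)) - bet' C₀ (G p.1)) * ψ (post p.1 p.2.1 p.2.2) +
              bet' C₀ (G p.1) * (ψ (post p.1 p.2.1 p.2.2) - ψ p.1) := by ring
        rw [e]
        set u := bet' C₀ (G (post p.1 p.2.1 p.2.2)) - bet' C₀ (G p.1) with hu
        set z := ψ (post p.1 p.2.1 p.2.2) with hz
        set y := ψ (post p.1 p.2.1 p.2.2) - ψ p.1 with hy
        set c := bet' C₀ (G p.1) with hcd
        have c0 : 0 ≤ c := hbc0 _
        have c1 : c ≤ 1 := hbc1 _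
        have z1 : z ^ 2 ≤ A ^ 2 := by
          rw [← sq_abs]
          exact pow_le_pow_left₀ (abs_nonneg _) (hψA _) 2
        have c2 : c ^ 2 ≤ 1 := pow_le_one₀ c0 c1
        have eX : X p = u ^ 2 := rfl
        have eY : Y p = y ^ 2 := rfl
        rw [eX, eY]
        have q1 : (u * z) ^ 2 ≤ A ^ 2 * u ^ 2 := by
          have := mul_le_mul_of_nonneg_right z1 (sq_nonneg u)
          calc (u * z) ^ 2 = z ^ 2 * u ^ 2 := by ring
            _ ≤ _ := this
        have q2 : (c * y) ^ 2 ≤ y ^ 2 := by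
          have := mul_le_mul_of_nonneg_right c2 (sq_nonneg y)
          calc (c * y) ^ 2 = c ^ 2 * y ^ 2 := by ring
            _ ≤ 1 * y ^ 2 := this
            _ = y ^ 2 := one_mul _
        nlinarith [sq_nonneg (u * z - c * y)]
      have h2 := mul_le_mul_of_nonneg_left h1 hp
      linarith
  rw [integral_add (iX.const_mul _) (iY.const_mul 2), integral_const_mul, integral_const_mul] at step
  have bY : ∫ p, kx γ b ε G p * Y p ∂(mu3 d) ≤ K₁ * A ^ 2 * (∫ q, errgM G q) :=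
    hinc G hG.rd hG.cont hG0 hM ε hε A hA ψ hc hψA hψ
  have hXS : 0 ≤ (∫ q, errgM G q) := integral_nonneg (errgM_nn hG0)
  have hGG : GG γ G ≤ 16 * (∫ q, errgM G q) := errg_GG H h0 hG.rd hG.cont hG0 hM
  -- the coercive piece
  have bX : ∫ p, kx γ b ε G p * X p ∂(mu3 d) ≤
      9 * (Pc γ b ε G + K₂ * (16 * (∫ q, errgM G q))) + K₃ * (∫ q, errgM G q) := by
    rw [← integral_add_compl Hf_meas iX]
    obtain ⟨ic, hc1⟩ := hcoer ε hε G hG
    have p1 : ∫ p in Hf d, kx γ b ε G p * X p ∂(mu3 d) ≤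
        ∫ p in Hf d, 9 * (kerB γ b ε p.1 p.2.1 p.2.2 *
          (G p.2.1 * (Real.sqrt (G (post p.1 p.2.1 p.2.2)) - Real.sqrt (G p.1)) ^ 2)) ∂(mu3 d) := by
      refine integral_mono_ae iX.integrableOn (ic.const_mul 9) (ae_restrict_of_ae ?_)
      filter_upwards [ae_good H.hd1] with p hp
      obtain ⟨v, w, σ⟩ := p
      have hkb : 0 ≤ kerB γ b ε v w σ := kerB_nonneg H.bd hε hp.2
      have h4 := bet_sq hC₀ (hG0 v) (hG0 (post v w σ))
      have h5 := mul_le_mul_of_nonneg_left h4 (mul_nonneg hkb (hG0 w))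
      show kerB γ b ε v w σ * (G w * G v) *
          (bet' C₀ (G (post v w σ)) - bet' C₀ (G v)) ^ 2 ≤
        9 * (kerB γ b ε v w σ *
          (G w * (Real.sqrt (G (post v w σ)) - Real.sqrt (G v)) ^ 2))
      calc kerB γ b ε v w σ * (G w * G v) * (bet' C₀ (G (post v w σ)) - bet' C₀ (G v)) ^ 2
          = kerB γ b ε v w σ * G w *
            (G v * (bet' C₀ (G (post v w σ)) - bet' C₀ (G v)) ^ 2) := by ring
        _ ≤ _ := h5
        _ = _ := by ring
    rw [integral_const_mul] at p1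
    have ik : Integrable (fun p => kx γ b ε G p) (mu3 d) := by
      have := kx_int H hε hG.rd hG.cont (measurable_const (a := (1 : ℝ)))
        (errg_PB (A := 1) zero_le_one fun _ => by simp)
      simpa using this
    have p2 : ∫ p in (Hf d)ᶜ, kx γ b ε G p * X p ∂(mu3 d) ≤
        ∫ p in (Hf d)ᶜ, kx γ b ε G p ∂(mu3 d) := by
      refine integral_mono_ae iX.integrableOn ik.integrableOn (ae_restrict_of_ae ?_)
      filter_upwards [hk] with p hp
      exact mul_le_of_le_one_right hp (hX1 p)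
    have p3 := hneg G hG.rd hG.cont hG0 hM ε hε
    have p4 : K₂ * GG γ G ≤ K₂ * (16 * (∫ q, errgM G q)) := mul_le_mul_of_nonneg_left hGG hK₂
    linarith
  have f1 := mul_le_mul_of_nonneg_left bX (by positivity : (0 : ℝ) ≤ 2 * A ^ 2)
  have f2 : 2 * A ^ 2 * (9 * (Pc γ b ε G + K₂ * (16 * (∫ q, errgM G q))) + K₃ * (∫ q, errgM G q)) +
      2 * (K₁ * A ^ 2 * (∫ q, errgM G q)) =
      A ^ 2 * (18 * Pc γ b ε G + (2 * K₁ + 288 * K₂ + 2 * K₃) * (∫ q, errgM G q)) := by ring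
  linarith

/-- the estimate at the cut-off level -/
private lemma errg_cut (H : Hyp d γ s b C Ca) (h0 : 0 ≤ γ) : ∃ K : ℝ, 0 ≤ K ∧
    ∀ e₀ : ℝ, 0 < e₀ → e₀ ≤ 1 → ∀ C₀ : ℝ, 0 < C₀ → ∀ G : Vec d → ℝ, Gd G → Integrable (errgM G) →
    ∀ ε : ℝ, 0 < ε → ∀ A : ℝ, 0 ≤ A → ∀ ψ : Vec d → ℝ, Continuous ψ → (∀ v, |ψ v| ≤ A) →
    (∀ w w', |ψ w - ψ w'| ≤ A * len (w - w')) →
    2 * |∫ v, boltzCut γ b ε G v * (bet' C₀ (G v) * ψ v)| ≤
      A * ((1 / e₀ + K) * Pc γ b ε G + e₀ * K * (∫ q, errgM G q)) := by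
  obtain ⟨K, hK, hinc⟩ := errg_inc2 H h0
  refine ⟨K + 18, by positivity, ?_⟩
  intro e₀ he₀ he₁ C₀ hC₀ G hG hM ε hε A hA ψ hc hψA hψ
  have hG0 : ∀ v, 0 ≤ G v := fun v => (hG.pos v).le
  have hPc : 0 ≤ Pc γ b ε G := Pc_nonneg H hε hG
  have hXS : 0 ≤ (∫ q, errgM G q) := integral_nonneg (errgM_nn hG0)
  rcases hA.eq_or_lt with hA0 | hA0
  · have hz : ∀ v, ψ v = 0 := fun v => by
      have := hψA v
      rw [← hA0] at this
      exact abs_eq_zero.1 (le_antisymm this (abs_nonneg _))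
    have : ∫ v, boltzCut γ b ε G v * (bet' C₀ (G v) * ψ v) = 0 := by
      simp only [hz, mul_zero, integral_zero]
    rw [this, ← hA0]
    simp
  · have hbm : Measurable fun v => bet' C₀ (G v) := by
      unfold bet'
      exact ((measurable_const.div (hG.cont.measurable.const_add C₀))).pow_const 2
    set L : Vec d → ℝ := fun v => bet' C₀ (G v) * ψ v with hL
    have hLm : Measurable L := hbm.mul hc.measurable
    have hLA : ∀ v, |L v| ≤ A := by
      intro v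
      simp only [hL]
      rw [abs_mul, abs_of_nonneg (bet_nonneg _ _)]
      calc bet' C₀ (G v) * |ψ v| ≤ 1 * A :=
            mul_le_mul (bet_le_one hC₀ (hG0 v)) (hψA v) (abs_nonneg _) zero_le_one
        _ = A := one_mul A
    have hLP : PG L := errg_PG hLA
    have hw := errg_weak H hε hG.rd hG.cont hLP hLm
    have a1 := cs_cut H hε hG hLP hLm MeasurableSet.univ (fun _ _ _ _ _ => by simp)
      (lam := e₀ / A) (by positivity)
    simp only [Measure.restrict_univ] at a1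
    have a2 := errg_sq H hε hG.rd hG.cont hG0 hLA hLm
    have a3 := hinc C₀ hC₀ G hG hM ε hε A hA ψ hc hψA hψ
    have a4 : 2 * |∫ v, boltzCut γ b ε G v * L v| =
        |∫ p, kx γ b ε G p * dX L p ∂(mu3 d)| := by
      rw [hw, abs_mul, abs_of_pos (by norm_num : (0 : ℝ) < 1 / 2)]
      ring
    rw [a4]
    have a5 : ∫ p, kx γ b ε G p * dX L p ^ 2 ∂(mu3 d) ≤
        4 * (A ^ 2 * (18 * Pc γ b ε G + K * (∫ q, errgM G q))) := by
      refine a2.trans (mul_le_mul_of_nonneg_left a3 (by norm_num))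
    have a6 := mul_le_mul_of_nonneg_left a5 (by positivity : (0 : ℝ) ≤ e₀ / A / 4)
    have a7 : e₀ / A / 4 * (4 * (A ^ 2 * (18 * Pc γ b ε G + K * (∫ q, errgM G q)))) =
        A * (e₀ * 18 * Pc γ b ε G + e₀ * K * (∫ q, errgM G q)) := by
      field_simp
    have a8 : 1 / (e₀ / A) * Pc γ b ε G = A * (1 / e₀ * Pc γ b ε G) := by
      field_simp
    have a9 : A * (e₀ * 18 * Pc γ b ε G + e₀ * K * (∫ q, errgM G q)) +
        A * (1 / e₀ * Pc γ b ε G) ≤
        A * ((1 / e₀ + (K + 18)) * Pc γ b ε G + e₀ * (K + 18) * (∫ q, errgM G q)) := by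
      rw [← mul_add]
      refine mul_le_mul_of_nonneg_left ?_ hA
      have q1 : e₀ * 18 * Pc γ b ε G ≤ (K + 18) * Pc γ b ε G := by
        refine mul_le_mul_of_nonneg_right ?_ hPc
        linarith
      have q2 : e₀ * K * (∫ q, errgM G q) ≤ e₀ * (K + 18) * (∫ q, errgM G q) := by
        refine mul_le_mul_of_nonneg_right ?_ hXS
        have := mul_le_mul_of_nonneg_left (by linarith : K ≤ K + 18) he₀.le
        exact this
      linarith
    rw [a8] at a1
    rw [a7] at a6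
    linarith

/-- the condition `2s < 1` is not needed -/
theorem err_lip1 (HL : HypL d γ s b C Ca cb) (h0 : 0 ≤ γ) (Cg : ℕ → ℝ) :
    ∃ K X : ℝ, 0 ≤ K ∧ 0 ≤ X ∧ ∀ ε : ℝ, 0 < ε → ε ≤ 1 → ∀ (A C₀ : ℝ) (Cl : ℕ → ℝ), 0 ≤ A → 0 < C₀ →
      ∀ η > 0, ∃ δ₀ > 0, ∀ δ ∈ Ioc (0 : ℝ) δ₀, ∀ g : Vec d → ℝ, UNice Cl g → FB Cg g →
      ∀ ψ : Vec d → ℝ, Continuous ψ → (∀ w, |ψ w| ≤ A) → (∀ w w', |ψ w - ψ w'| ≤ A * len (w - w')) →
      |∫ w, ψ w * (bet' C₀ (g w) * boltzQ γ b g w)| ≤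
        A * ((1 / ε + K) * Dn γ b δ g + ε * X) + η := by
  have H := HL.H
  obtain ⟨K, hK, hcut⟩ := errg_cut H h0
  obtain ⟨X, hX, hreg⟩ := errg_reg (d := d) Cg
  refine ⟨K, K * X, hK, mul_nonneg hK hX, fun e₀ he₀ he₁ A C₀ Cl hA hC₀ η hη => ?_⟩
  obtain ⟨D, hD, hdec⟩ := Pool.Agent.H15.AV.boltzCut_decay_unif H Cl (d + 1)
  have hI0 : 0 ≤ ∫ z, wt d z := integral_nonneg fun z => wt_nonneg z
  set B : ℝ := A * (1 / e₀ + K) + 2 with hB
  have hB0 : 0 < B := by positivity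
  set η' : ℝ := η / B with hη'
  have hη'0 : 0 < η' := div_pos hη hB0
  have hηB : B * η' = η := by
    rw [hη']
    field_simp
  obtain ⟨δa, hδa, hδah, htra⟩ := tra H Cl (2 * A) hη'0
  obtain ⟨δb, hδb, hδbh, hPc⟩ := Pc_lim H Cl hη'0
  set Z : ℝ := 2 / C₀ * A * D * (∫ z, wt d z) with hZ
  have hZ0 : 0 ≤ Z := by positivity
  refine ⟨min (min δa δb) (η' / (Z + 1)), lt_min (lt_min hδa hδb) (by positivity), ?_⟩
  intro δ hδ g hg hgF ψ hc hψA hψ
  have hd0 : 0 < δ := hδ.1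
  have hda : δ ≤ δa := hδ.2.trans ((min_le_left _ _).trans (min_le_left _ _))
  have hdb : δ ≤ δb := hδ.2.trans ((min_le_left _ _).trans (min_le_right _ _))
  have hde : δ ≤ η' / (Z + 1) := hδ.2.trans (min_le_right _ _)
  have hdZ : δ * Z ≤ η' := by
    rw [le_div_iff₀ (by linarith)] at hde
    nlinarith
  have hd1 : δ ≤ 1 := by linarith
  obtain ⟨hMi, hMX⟩ := hreg g hgF δ hd0 hd1
  have hG := gd_reg hg hd0 hd1
  have hG0 : ∀ v, 0 ≤ g v + δ * gau v := fun v => (hG.pos v).le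
  have hbm : ∀ f : Vec d → ℝ, Measurable f → Measurable fun v => bet' C₀ (f v) := by
    intro f hf
    unfold bet'
    exact ((measurable_const.div (hf.const_add C₀))).pow_const 2
  set L : Vec d → ℝ := fun v => bet' C₀ (g v + δ * gau v) * ψ v with hL
  have hLm : Measurable L := (hbm _ hG.cont.measurable).mul hc.measurable
  have hLA : ∀ v, |L v| ≤ A := by
    intro v
    simp only [hL]
    rw [abs_mul, abs_of_nonneg (bet_nonneg _ _)]
    calc bet' C₀ (g v + δ * gau v) * |ψ v| ≤ 1 * A :=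
          mul_le_mul (bet_le_one hC₀ (hG0 v)) (hψA v) (abs_nonneg _) zero_le_one
      _ = A := one_mul A
  have hLP : PG L := errg_PG hLA
  have hlin : ∀ v, |L v - L 0| ≤ 2 * A * (1 + ‖v‖) := by
    intro v
    have q1 := abs_le.1 (hLA v)
    have q2 := abs_le.1 (hLA 0)
    have q3 : |L v - L 0| ≤ 2 * A := by
      rw [abs_le]
      constructor <;> linarith
    have q4 : 2 * A * 1 ≤ 2 * A * (1 + ‖v‖) :=
      mul_le_mul_of_nonneg_left (one_le_w v) (by positivity)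
    linarith
  obtain ⟨hDn, hev⟩ := hPc δ ⟨hd0, hdb⟩ g hg
  have hlim := (boltz_weak_tendsto H hg.nice hLP hLm).abs
  -- the estimate with the regularized renormalization
  have hmain : |∫ v, boltzQ γ b g v * L v| ≤
      A * ((1 / e₀ + K) * Dn γ b δ g + e₀ * (K * X)) + (A * (1 / e₀ + K) * η' + η') := by
    refine le_of_tendsto hlim ?_
    filter_upwards [hev, self_mem_nhdsWithin] with ε hPε hε
    have hε0 : 0 < ε := hε
    have t1 := htra δ ⟨hd0, hda⟩ g hg L hLm hlin ε hε0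
    have t2 := hcut e₀ he₀ he₁ C₀ hC₀ _ hG hMi ε hε0 A hA ψ hc hψA hψ
    have s1 : (1 / e₀ + K) * Pc γ b ε (fun v => g v + δ * gau v) ≤
        (1 / e₀ + K) * Dn γ b δ g + (1 / e₀ + K) * η' := by
      have := mul_le_mul_of_nonneg_left hPε (by positivity : (0 : ℝ) ≤ 1 / e₀ + K)
      linarith
    have s2 : e₀ * K * (∫ q, errgM (fun v => g v + δ * gau v) q) ≤ e₀ * (K * X) := by
      have := mul_le_mul_of_nonneg_left hMX (by positivity : (0 : ℝ) ≤ e₀ * K)
      linarith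
    have s3 : A * ((1 / e₀ + K) * Pc γ b ε (fun v => g v + δ * gau v) +
        e₀ * K * (∫ q, errgM (fun v => g v + δ * gau v) q)) ≤
        A * ((1 / e₀ + K) * Dn γ b δ g + e₀ * (K * X)) + A * ((1 / e₀ + K) * η') := by
      rw [← mul_add]
      refine mul_le_mul_of_nonneg_left ?_ hA
      linarith
    linarith
  -- back to `bet' (g)`
  have hQd : ∀ v, |boltzQ γ b g v| ≤ D * wt d v := by
    intro v
    refine le_of_tendsto (boltz_tendsto H hg.nice v).abs ?_
    filter_upwards [self_mem_nhdsWithin] with ε hε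
    exact hdec g hg ε hε v
  have hQm : Measurable fun v => boltzQ γ b g v := by
    refine measurable_of_tendsto_metrizable' (𝓝[>] (0 : ℝ)) (f := fun ε v => boltzCut γ b ε g v)
      (fun ε => (boltzCut_meas H.bm hg.nice.cont ε).measurable) ?_
    rw [tendsto_pi_nhds]
    exact fun v => boltz_tendsto H hg.nice v
  have iQ : ∀ F : Vec d → ℝ, Measurable F → (∀ v, |F v| ≤ A) →
      Integrable fun v => boltzQ γ b g v * F v := by
    intro F hF hFA
    refine (integrable_wt.const_mul (D * A)).mono' (hQm.mul hF).aestronglyMeasurable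
      (Eventually.of_forall fun v => ?_)
    rw [norm_mul, Real.norm_eq_abs, Real.norm_eq_abs]
    calc |boltzQ γ b g v| * |F v| ≤ (D * wt d v) * A :=
          mul_le_mul (hQd v) (hFA v) (abs_nonneg _) (mul_nonneg hD (wt_nonneg v))
      _ = D * A * wt d v := by ring
  set L' : Vec d → ℝ := fun v => bet' C₀ (g v) * ψ v with hL'
  have hLm' : Measurable L' := (hbm _ hg.nice.cont.measurable).mul hc.measurable
  have hLA' : ∀ v, |L' v| ≤ A := by
    intro v
    simp only [hL']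
    rw [abs_mul, abs_of_nonneg (bet_nonneg _ _)]
    calc bet' C₀ (g v) * |ψ v| ≤ 1 * A :=
          mul_le_mul (bet_le_one hC₀ (hg.nonneg v)) (hψA v) (abs_nonneg _) zero_le_one
      _ = A := one_mul A
  have hdiff : |(∫ v, boltzQ γ b g v * L' v) - ∫ v, boltzQ γ b g v * L v| ≤ η' := by
    rw [← integral_sub (iQ L' hLm' hLA') (iQ L hLm hLA), ← Real.norm_eq_abs]
    have hb : ∀ v, ‖boltzQ γ b g v * L' v - boltzQ γ b g v * L v‖ ≤
        (δ * (2 / C₀ * A * D)) * wt d v := by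
      intro v
      obtain ⟨g0, g1⟩ := errg_gau v
      have q0 : 0 ≤ δ * gau v := mul_nonneg hd0.le g0.le
      have q1 := bet_lip hC₀ (hg.nonneg v) (hG0 v)
      have q2 : |g v - (g v + δ * gau v)| ≤ δ := by
        have : g v - (g v + δ * gau v) = -(δ * gau v) := by ring
        rw [this, abs_neg, abs_of_nonneg q0]
        exact mul_le_of_le_one_right hd0.le g1
      have q3 : |L' v - L v| ≤ 2 / C₀ * δ * A := by
        have e : L' v - L v = (bet' C₀ (g v) - bet' C₀ (g v + δ * gau v)) * ψ v := by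
          simp only [hL, hL']
          ring
        rw [e, abs_mul]
        have q4 : |bet' C₀ (g v) - bet' C₀ (g v + δ * gau v)| ≤ 2 / C₀ * δ :=
          q1.trans (mul_le_mul_of_nonneg_left q2 (by positivity))
        exact mul_le_mul q4 (hψA v) (abs_nonneg _) (by positivity)
      have e2 : boltzQ γ b g v * L' v - boltzQ γ b g v * L v =
          boltzQ γ b g v * (L' v - L v) := by ring
      rw [e2, norm_mul, Real.norm_eq_abs, Real.norm_eq_abs]
      calc |boltzQ γ b g v| * |L' v - L v| ≤ (D * wt d v) * (2 / C₀ * δ * A) :=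
            mul_le_mul (hQd v) q3 (abs_nonneg _) (mul_nonneg hD (wt_nonneg v))
        _ = _ := by ring
    refine (norm_integral_le_of_norm_le (integrable_wt.const_mul _)
      (Eventually.of_forall hb)).trans ?_
    rw [integral_const_mul]
    calc δ * (2 / C₀ * A * D) * ∫ z, wt d z = δ * Z := by rw [hZ]; ring
      _ ≤ η' := hdZ
  have efin : ∫ w, ψ w * (bet' C₀ (g w) * boltzQ γ b g w) =
      ∫ v, boltzQ γ b g v * L' v := by
    refine integral_congr_ae (Eventually.of_forall fun v => ?_)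
    simp only [hL']
    ring
  rw [efin]
  have k1 : |∫ v, boltzQ γ b g v * L' v| ≤
      |(∫ v, boltzQ γ b g v * L' v) - ∫ v, boltzQ γ b g v * L v| +
        |∫ v, boltzQ γ b g v * L v| := by
    have := abs_add_le ((∫ v, boltzQ γ b g v * L' v) - ∫ v, boltzQ γ b g v * L v)
      (∫ v, boltzQ γ b g v * L v)
    rwa [sub_add_cancel] at this
  have k2 : B * η' = A * (1 / e₀ + K) * η' + 2 * η' := by
    rw [hB]
    ring
  linarith

theorem err_lip0 (HL : HypL d γ s b C Ca cb) (h0 : 0 ≤ γ) (_hs : 2 * s < 1) (_h2 : γ + 2 * s ≤ 2)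
    (Cg : ℕ → ℝ) :
    ∃ K X : ℝ, 0 ≤ K ∧ 0 ≤ X ∧ ∀ ε : ℝ, 0 < ε → ε ≤ 1 → ∀ (A C₀ : ℝ) (Cl : ℕ → ℝ), 0 ≤ A → 0 < C₀ →
      ∀ η > 0, ∃ δ₀ > 0, ∀ δ ∈ Ioc (0 : ℝ) δ₀, ∀ g : Vec d → ℝ, UNice Cl g → FB Cg g →
      ∀ ψ : Vec d → ℝ, Continuous ψ → (∀ w, |ψ w| ≤ A) → (∀ w w', |ψ w - ψ w'| ≤ A * len (w - w')) →
      |∫ w, ψ w * (bet' C₀ (g w) * boltzQ γ b g w)| ≤
        A * ((1 / ε + K) * Dn γ b δ g + ε * X) + η :=
  err_lip1 HL h0 Cg

end Pool.Agent.H71.SM
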