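import Pool.Agent.H71.SM.Defs
import Pool.Agent.H48.PI.Blk
import Pool.Agent.H87.PZ.Fin
import Pool.Agent.H48.PG.RegB

/-!
# Module ErrR: renormalised collision terms against bounded Lipschitz functions

Two cases. `a ≤ 2s`: `m` from `exists_GE` (H48/PG/RegB.lean), `err_rg` (H87/PZ/Fin.lean or H15/G1/Blk.lean) with `τ = 1`, any `v₀`: `CuspBT 1 a v₀ A ψ` holds since `1 + len (w - v₀) ^ (a-1) ≥ 1`. `2s < a`: `err_ren` (H48/PI/Blk.lean): `|ψ w - ψ w'| ≤ min (2A) (A len) ≤ 2A len ^ a` (use it with `2A`).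
The integrands are equal up to the order of the factors. `XT a m 1 g`, `XS a g univ` are `≤ X` for `FB Cg g`: `|V|^(1+a) ⟨V⟩^m ≤ C (1+‖v‖)^3 (1+‖w‖)^3`, `om ≤ 1`, `RR ≤ C (1+‖v‖)(1+‖w‖)`; `g v g w ≤ Cg(..)^2 wt wt ..` (`mom_le`, H48/PD, or directly). Choose `K, X` as maxima over the two cases (or `rcases` at the beginning).
-/

set_option autoImplicit false

open MeasureTheory Set Filter Topology Pool.Agent.H25.Kin Pool.Agent.H82.BK Pool.Agent.H82.CM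
open Pool.Agent.H48.PL Pool.Agent.H48.PI Pool.Agent.H48.PW Pool.Agent.H48.PD Pool.Agent.H48.PR

namespace Pool.Agent.H71.SM

variable {d : ℕ} {s a C Ca cb : ℝ} {b : ℝ → ℝ}

private lemma errr_nn (v : Vec d) : 0 ≤ nsq v := sq_nonneg' v

private lemma errr_jj (v w : Vec d) : 1 ≤ jb v * jb w := by
  have h1 := one_le_jb v
  have h2 := one_le_jb w
  nlinarith

private lemma errr_sqrt {x : ℝ} (v w : Vec d) (hx : x ≤ 2 * ((1 + nsq v) * (1 + nsq w))) :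
    Real.sqrt x ≤ 2 * (jb v * jb w) := by
  have h0 := errr_jj v w
  refine Real.sqrt_le_iff.2 ⟨by linarith, hx.trans ?_⟩
  have h1 : jb v ^ 2 = 1 + nsq v := Real.sq_sqrt (by linarith [errr_nn v])
  have h2 : jb w ^ 2 = 1 + nsq w := Real.sq_sqrt (by linarith [errr_nn w])
  have h3 : (2 * (jb v * jb w)) ^ 2 = 4 * ((1 + nsq v) * (1 + nsq w)) := by
    rw [← h1, ← h2]
    ring
  rw [h3]
  have h4 := errr_nn v
  have h5 := errr_nn w
  have h6 : 0 ≤ (1 + nsq v) * (1 + nsq w) := by positivity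
  linarith

private lemma errr_dist (v w : Vec d) : nsq (v - w) ≤ 2 * nsq v + 2 * nsq w := by
  have h1 := nsq_par v w
  have h2 := errr_nn (v + w)
  linarith

private lemma errr_RR (v w : Vec d) : RR v w ≤ 2 * (jb v * jb w) := by
  refine errr_sqrt v w ?_
  have h4 := errr_nn v
  have h5 := errr_nn w
  nlinarith [mul_nonneg h4 h5]

private lemma errr_jb (v w : Vec d) : jb (v - w) ≤ 2 * (jb v * jb w) := by
  refine errr_sqrt v w ?_
  have h4 := errr_nn v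
  have h5 := errr_nn w
  have h6 := errr_dist v w
  nlinarith [mul_nonneg h4 h5]

private lemma errr_len (v w : Vec d) : len (v - w) ≤ 2 * (jb v * jb w) :=
  (len_le_jb _).trans (errr_jb v w)

private lemma errr_pw {B x y t u : ℝ} (hB : 1 ≤ B) (hx0 : 0 ≤ x) (hx : x ≤ B) (hy0 : 0 ≤ y)
    (hy : y ≤ B) (ht : 0 ≤ t) (hu : 0 ≤ u) (htu : t + u ≤ 3) : x ^ t * y ^ u ≤ B ^ (3 : ℕ) := by
  calc x ^ t * y ^ u ≤ B ^ t * B ^ u :=
        mul_le_mul (Real.rpow_le_rpow hx0 hx ht) (Real.rpow_le_rpow hy0 hy hu)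
          (Real.rpow_nonneg hy0 _) (Real.rpow_nonneg (by linarith) _)
    _ = B ^ (t + u) := (Real.rpow_add (by linarith) _ _).symm
    _ ≤ B ^ (3 : ℝ) := Real.rpow_le_rpow_of_exponent_le hB htu
    _ = B ^ (3 : ℕ) := by
        rw [← Real.rpow_natCast]
        norm_num

private lemma errr_int (Cg : ℕ → ℝ) : ∃ X : ℝ, 0 ≤ X ∧ ∀ g : Vec d → ℝ, FB Cg g →
    ∀ h : Vec d × Vec d → ℝ, (∀ p, 0 ≤ h p) → (∀ p, h p ≤ (2 * (jb p.1 * jb p.2)) ^ 3) →
    ∫ p, g p.1 * g p.2 * h p ≤ X := by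
  obtain ⟨K, hK, hm⟩ := mom_le d Cg 3
  refine ⟨8 * K ^ 2, by positivity, fun g hg h h0 h1 => ?_⟩
  obtain ⟨i1, i2⟩ := hm g hg
  have hi := i1.mul_prod i1
  have h0' : 0 ≤ ∫ v, g v * jb v ^ 3 :=
    integral_nonneg fun v => mul_nonneg (hg.nonneg v) (pow_nonneg (jb_pos v).le 3)
  have h2 : ∫ p : Vec d × Vec d, g p.1 * g p.2 * h p ≤
      ∫ p : Vec d × Vec d, 8 * ((g p.1 * jb p.1 ^ 3) * (g p.2 * jb p.2 ^ 3)) := by
    refine integral_mono_of_nonneg (Eventually.of_forall fun p => ?_) (hi.const_mul 8)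
      (Eventually.of_forall fun p => ?_)
    · exact mul_nonneg (mul_nonneg (hg.nonneg _) (hg.nonneg _)) (h0 p)
    · have h3 := mul_le_mul_of_nonneg_left (h1 p) (mul_nonneg (hg.nonneg p.1) (hg.nonneg p.2))
      refine h3.trans (le_of_eq ?_)
      show g p.1 * g p.2 * (2 * (jb p.1 * jb p.2)) ^ 3 =
        8 * ((g p.1 * jb p.1 ^ 3) * (g p.2 * jb p.2 ^ 3))
      ring
  refine h2.trans ?_
  have h4 : ∫ p : Vec d × Vec d, (g p.1 * jb p.1 ^ 3) * (g p.2 * jb p.2 ^ 3) =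
      (∫ v, g v * jb v ^ 3) * ∫ v, g v * jb v ^ 3 :=
    integral_prod_mul (fun v => g v * jb v ^ 3) (fun v => g v * jb v ^ 3)
  rw [integral_const_mul, h4, sq]
  have h5 := mul_le_mul i2 i2 h0' hK
  linarith

private lemma errr_XS {a : ℝ} (ha : 0 ≤ a) (ha1 : a ≤ 1) (Cg : ℕ → ℝ) : ∃ X : ℝ, 0 ≤ X ∧
    ∀ g : Vec d → ℝ, FB Cg g → XS a g univ ≤ X := by
  obtain ⟨X, hX, h⟩ := errr_int (d := d) Cg
  refine ⟨X, hX, fun g hg => ?_⟩
  unfold XS dens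
  rw [Measure.restrict_univ]
  refine h g hg (fun p => len (p.1 - p.2) ^ (1 + a) * RR p.1 p.2 ^ a) (fun p => ?_) fun p => ?_
  · exact mul_nonneg (Real.rpow_nonneg (len_nonneg _) _) (Real.rpow_nonneg (Real.sqrt_nonneg _) _)
  · exact errr_pw (by linarith [errr_jj p.1 p.2]) (len_nonneg _) (errr_len _ _)
      (Real.sqrt_nonneg _) (errr_RR _ _) (by linarith) ha (by linarith)

private lemma errr_XT {a m : ℝ} (ha : 0 ≤ a) (hm : 0 ≤ m) (hm1 : a + m < 1) (Cg : ℕ → ℝ) :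
    ∃ X : ℝ, 0 ≤ X ∧ ∀ g : Vec d → ℝ, FB Cg g → XT a m 1 g ≤ X := by
  obtain ⟨X, hX, h⟩ := errr_int (d := d) Cg
  refine ⟨X, hX, fun g hg => ?_⟩
  unfold XT
  have e1 : (fun p : Vec d × Vec d => g p.1 * g p.2 * (len (p.1 - p.2) ^ (1 + a) *
      jb (p.1 - p.2) ^ m) * om m 1 (RR p.1 p.2)) = fun p => g p.1 * g p.2 *
      ((len (p.1 - p.2) ^ (1 + a) * jb (p.1 - p.2) ^ m) * om m 1 (RR p.1 p.2)) := by
    funext p
    ring
  have hom : ∀ p : Vec d × Vec d, 0 ≤ om m 1 (RR p.1 p.2) ∧ om m 1 (RR p.1 p.2) ≤ 1 := by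
    intro p
    have h1 : 0 ≤ min 1 (RR p.1 p.2 / 1) := le_min zero_le_one (by
      rw [div_one]
      exact Real.sqrt_nonneg _)
    exact ⟨Real.rpow_nonneg h1 _, Real.rpow_le_one h1 (min_le_left _ _) (by linarith)⟩
  have hL : ∀ p : Vec d × Vec d, 0 ≤ len (p.1 - p.2) ^ (1 + a) * jb (p.1 - p.2) ^ m := fun p =>
    mul_nonneg (Real.rpow_nonneg (len_nonneg _) _) (Real.rpow_nonneg (jb_pos _).le _)
  rw [e1]
  refine h g hg (fun p => (len (p.1 - p.2) ^ (1 + a) * jb (p.1 - p.2) ^ m) *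
    om m 1 (RR p.1 p.2)) (fun p => mul_nonneg (hL p) (hom p).1) fun p => ?_
  refine (mul_le_of_le_one_right (hL p) (hom p).2).trans ?_
  exact errr_pw (by linarith [errr_jj p.1 p.2]) (len_nonneg _) (errr_len _ _)
      (jb_pos _).le (errr_jb _ _) (by linarith) hm (by linarith)

private lemma errr_cusp {a A : ℝ} (hA : 0 ≤ A) {ψ : Vec d → ℝ} (hc : Continuous ψ)
    (h0 : ∀ w, |ψ w| ≤ A) (h1 : ∀ w w', |ψ w - ψ w'| ≤ A * len (w - w')) (v₀ : Vec d) :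
    Pool.Agent.H15.G1.CuspBT 1 a v₀ A ψ := by
  refine ⟨hc, h0, fun w w' _ => (h1 w w').trans ?_⟩
  refine mul_le_mul_of_nonneg_left ?_ hA
  rw [Real.rpow_one]
  have h2 := Real.rpow_nonneg (len_nonneg (w - v₀)) (a - 1)
  exact le_mul_of_one_le_right (len_nonneg _) (by linarith)

private lemma errr_hol {a A : ℝ} (ha : 0 ≤ a) (ha1 : a ≤ 1) (hA : 0 ≤ A) {ψ : Vec d → ℝ}
    (h0 : ∀ w, |ψ w| ≤ A) (h1 : ∀ w w', |ψ w - ψ w'| ≤ A * len (w - w')) (w w' : Vec d) :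
    |ψ w - ψ w'| ≤ 2 * A * len (w - w') ^ a := by
  have hl := len_nonneg (w - w')
  rcases le_or_gt (len (w - w')) 1 with h | h
  · have h2 : len (w - w') ≤ len (w - w') ^ a := by
      rcases hl.eq_or_lt with h3 | h3
      · rw [← h3]
        exact Real.rpow_nonneg le_rfl _
      · calc len (w - w') = len (w - w') ^ (1 : ℝ) := (Real.rpow_one _).symm
          _ ≤ len (w - w') ^ a := Real.rpow_le_rpow_of_exponent_ge h3 h ha1
    have h3 := mul_le_mul_of_nonneg_left h2 hA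
    have h4 := h1 w w'
    have h5 : 0 ≤ A * len (w - w') ^ a := mul_nonneg hA (Real.rpow_nonneg hl _)
    linarith
  · have h2 : 1 ≤ len (w - w') ^ a := Real.one_le_rpow h.le ha
    have h3 : |ψ w - ψ w'| ≤ 2 * A := by
      have h4 := abs_sub (ψ w) (ψ w')
      have h5 := h0 w
      have h6 := h0 w'
      linarith
    have h7 := mul_le_mul_of_nonneg_left h2 (by linarith : 0 ≤ 2 * A)
    linarith

theorem err_lip (HL : HypL d (1 + a) s b C Ca cb) (ha : 0 ≤ a) (ha1 : a + 2 * s < 1) (Cg : ℕ → ℝ) :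
    ∃ K X : ℝ, 0 ≤ K ∧ 0 ≤ X ∧ ∀ ε : ℝ, 0 < ε → ε ≤ 1 → ∀ (A C₀ : ℝ) (Cl : ℕ → ℝ), 0 ≤ A → 0 < C₀ →
      ∀ η > 0, ∃ δ₀ > 0, ∀ δ ∈ Ioc (0 : ℝ) δ₀, ∀ g : Vec d → ℝ, Pool.Agent.H15.AV.UNice Cl g → FB Cg g →
      ∀ ψ : Vec d → ℝ, Continuous ψ → (∀ w, |ψ w| ≤ A) → (∀ w w', |ψ w - ψ w'| ≤ A * len (w - w')) →
      |∫ w, ψ w * (bet' C₀ (g w) * boltzQ (1 + a) b g w)| ≤
        A * ((1 / ε + K) * Dn (1 + a) b δ g + ε * X) + η := by
  have hs := HL.H.hs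
  have ha11 : a ≤ 1 := by linarith
  rcases le_or_gt a (2 * s) with hcase | hcase
  · obtain ⟨m, E⟩ := Pool.Agent.H48.PG.exists_GE hs ha hcase ha1
    obtain ⟨K, hK, hr⟩ := Pool.Agent.H87.PZ.err_rg HL E (by linarith : s < 1) le_rfl ha11
    obtain ⟨X, hX, hXT⟩ := errr_XT (d := d) (m := m) ha (by linarith [E.hm]) E.hm1 Cg
    refine ⟨K, K * X, hK, mul_nonneg hK hX, fun ε hε hε1 A C₀ Cl hA hC₀ η hη => ?_⟩
    obtain ⟨δ₀, hδ₀, h⟩ := hr ε hε hε1 A C₀ Cl hC₀ η hη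
    refine ⟨δ₀, hδ₀, fun δ hδ g hg hgF ψ hψ h0 h1 => ?_⟩
    have h2 := h δ hδ g hg 0 A hA le_rfl ψ (errr_cusp hA hψ h0 h1 0)
    have e1 : (∫ w, ψ w * (bet' C₀ (g w) * boltzQ (1 + a) b g w)) =
        ∫ w, bet' C₀ (g w) * boltzQ (1 + a) b g w * ψ w := by
      congr 1
      funext w
      ring
    rw [e1]
    refine h2.trans ?_
    have h3 : ε * K * XT a m 1 g ≤ ε * (K * X) := by
      have := mul_le_mul_of_nonneg_left (hXT g hgF) (mul_nonneg hε.le hK)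
      linarith
    have h4 := mul_le_mul_of_nonneg_left h3 hA
    linarith
  · obtain ⟨K, hK, hr⟩ := err_ren HL hcase ha11
    obtain ⟨X, hX, hXS⟩ := errr_XS (d := d) ha ha11 Cg
    refine ⟨2 * K + 2, 4 * K * X, by positivity, by positivity,
      fun ε hε hε1 A C₀ Cl hA hC₀ η hη => ?_⟩
    have hp : 0 < 1 + 2 * ε := by linarith
    obtain ⟨ε', hε'⟩ : ∃ ε' : ℝ, ε' = 2 * ε / (1 + 2 * ε) := ⟨_, rfl⟩
    have hε'0 : 0 < ε' := by rw [hε']; positivity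
    have hε'1 : ε' ≤ 1 := by
      rw [hε', div_le_one hp]
      linarith
    have hε'2 : ε' ≤ 2 * ε := by
      rw [hε']
      exact div_le_self (by linarith) (by linarith)
    have hε'3 : 2 * (1 / ε' + K) = 1 / ε + (2 * K + 2) := by
      rw [hε']
      field_simp
      ring
    obtain ⟨δ₀, hδ₀, h⟩ := hr ε' hε'0 hε'1 (2 * A) C₀ Cl hC₀ η hη
    refine ⟨δ₀, hδ₀, fun δ hδ g hg hgF ψ hψ h0 h1 => ?_⟩
    have h2 := h δ hδ g hg (2 * A) (by linarith) le_rfl ψ (fun w => (h0 w).trans (by linarith))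
      (errr_hol ha ha11 hA h0 h1)
    have e1 : (∫ w, ψ w * (bet' C₀ (g w) * boltzQ (1 + a) b g w)) =
        ∫ w, bet' C₀ (g w) * boltzQ (1 + a) b g w * ψ w := by
      congr 1
      funext w
      ring
    rw [e1]
    refine h2.trans ?_
    have h3 : ε' * K * XS a g univ ≤ 2 * ε * K * X := by
      have h4 := mul_le_mul_of_nonneg_left (hXS g hgF) (mul_nonneg hε'0.le hK)
      have h5 := mul_le_mul_of_nonneg_right hε'2 (mul_nonneg hK hX)
      linarith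
    have h6 := mul_le_mul_of_nonneg_left h3 (by linarith : 0 ≤ 2 * A)
    have h7 : 2 * A * ((1 / ε' + K) * Dn (1 + a) b δ g + ε' * K * XS a g univ) + η =
        A * ((2 * (1 / ε' + K)) * Dn (1 + a) b δ g) + 2 * A * (ε' * K * XS a g univ) + η := by
      ring
    rw [h7, hε'3]
    linarith

end Pool.Agent.H71.SM
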