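import Pool.Agent.H71.SM.Core
import Pool.Agent.H71.SM.MxA

/-!
# Module Fin: block P2 (`sup_smooth` of H48/CV/Iface.lean)
-/

set_option autoImplicit false

open MeasureTheory Set Filter Topology Pool.Agent.H25.Kin Pool.Agent.H82.BK Pool.Agent.H82.CM
open Pool.Agent.H48.PL Pool.Agent.H48.PI Pool.Agent.H48.PW Pool.Agent.H48.PD Pool.Agent.H48.PR

namespace Pool.Agent.H71.SM

variable {d : ℕ}

theorem sup_smooth {s γ : ℝ} (hd : 2 ≤ d) (hs : 0 < s) (h1 : 1 ≤ γ) (h2 : γ + 2 * s < 2) {b : ℝ → ℝ}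
    (hb : IsKernel d s b) (e : Fin d) (Cl : ℕ → ℝ) {m : ℝ} (hm : 0 < m) {a k : ℝ} (ha : 0 < a)
    (hk : 0 < k) (u : Vec d) (p : ℕ) {η : ℝ} (hη : 0 < η) :
    ∃ ε > 0, ∀ (T : ℝ) (f : ℝ → Vec d → Vec d → ℝ), Pool.Agent.H48.CV.PB γ b Cl m e T f → ∀ t₀ : ℝ,
      1 ≤ t₀ → t₀ + 1 < T → Pool.Agent.H48.PI.Hs (f t₀) - Pool.Agent.H48.PI.Hs (f (t₀ + 1)) ≤ ε →
      (∀ t ∈ Icc t₀ (t₀ + 1), ∫ q, |f t q.2 q.1 - Pool.Agent.H48.NE.mx a k u q.1| ∂(nu d) ≤ ε) →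
      ∀ x v, |f (t₀ + 1) x v - Pool.Agent.H48.NE.mx a k u v| ≤ η * Wp p v := by
  obtain ⟨Cm, Γ, hM⟩ := mx_ML ha hk u (max p (d + 10))
  obtain ⟨C2, hC2⟩ : ∃ C2 : ℕ → ℝ, C2 = fun N => max (Cl N) (Cm N) := ⟨_, rfl⟩
  have hM2 : ML C2 Γ (max p (d + 10)) (Pool.Agent.H48.NE.mx a k u) := by
    refine ⟨⟨hM.fb.nice, hM.fb.nonneg, fun N v => (hM.fb.le N v).trans ?_⟩, hM.gam, hM.lip⟩
    rw [hC2]
    exact le_max_right _ _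
  obtain ⟨ε, hε, h⟩ := core_S hd hs h1 h2 hb e C2 hm (le_max_right p (d + 10)) hM2
    (fun v => (Pool.Agent.H48.NE.mx_Q ha hk γ b u v).1) hη
  refine ⟨ε, hε, fun T f hf t₀ ht₀ ht₁ hH hL x v => ?_⟩
  have h3 := h T f ⟨hf.sol, hf.pla, fun t ht N x v => (hf.dec t ht N x v).trans (by
    rw [hC2]
    exact le_max_left _ _)⟩ hf.mass t₀ ht₀ ht₁ hH hL x v
  refine h3.trans (mul_le_mul_of_nonneg_left ?_ hη.le)
  unfold Wp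
  have hv := sq_nonneg' v
  exact inv_anti₀ (by positivity) (pow_le_pow_right₀ (by linarith) (le_max_left _ _))

end Pool.Agent.H71.SM
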