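import Pool.Agent.H71.SM.Defs
import Pool.Agent.H48.PR.Gal
import Pool.Agent.H25.PN.CmpL

/-!
# Module GalS: Galilean shift of a solution

`g t x v = f t (x + t w) (v + w)`. `unc g = unc f ∘ L`, `L (t,x,v) = (t, x + t w, v + w)`, which is affine: `L = A + const`, `A (t,x,v) = (t, x + t w, v)` a continuous linear map with `‖A‖ ≤ 1 + ‖w‖`; `L` maps `Ico 0 T ×ˢ univ` and `Ioo 0 T ×ˢ univ` to themselves.
* `isCont`, `isC2`: composition. `periodic`: `x + single i 1 + t w = (x + t w) + single i 1`. `decay`: `1 + ‖v‖ ≤ (1+‖w‖) (1 + ‖v+w‖)`.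
* `decay12`: on the open set `Ioo 0 T ×ˢ univ`: `fderiv (unc g) z = (fderiv (unc f) (L z)).comp A`, so `‖fderiv (unc g) z‖ ≤ ‖A‖ ‖fderiv (unc f) (L z)‖`, and the second derivative `‖fderiv (fderiv (unc g)) z‖ ≤ ‖A‖^2 ‖..‖` (the map `l ↦ l.comp A` is continuous linear: `ContinuousLinearMap.compL` or `ContinuousLinearMap.precomp`; both formulas hold near `z`).
* `solves`: `transport g t x v = fderiv (unc f) (t, x + t w, v + w) (A (1, v, 0)) = fderiv (unc f) (..) (1, v + w, 0) = transport f t (x + t w) (v + w)`; `boltzQ_trn` (H48/PR/Gal.lean). See H48/PI/Shift.lean (`sol_shift`) and H25/PN (`sol_pull`) for similar proofs.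
-/

set_option autoImplicit false

open MeasureTheory Set Filter Topology Pool.Agent.H25.Kin Pool.Agent.H82.BK Pool.Agent.H82.CM
open Pool.Agent.H48.PL Pool.Agent.H48.PI Pool.Agent.H48.PW Pool.Agent.H48.PD Pool.Agent.H48.PR

namespace Pool.Agent.H71.SM

variable {d : ℕ} {γ T : ℝ} {b : ℝ → ℝ} {f : ℝ → Vec d → Vec d → ℝ}

/-- the linear part of the shift -/
private noncomputable def galsL (w : Vec d) : ℝ × Vec d × Vec d →L[ℝ] ℝ × Vec d × Vec d :=
  (ContinuousLinearMap.fst ℝ ℝ (Vec d × Vec d)).prod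
    (((ContinuousLinearMap.fst ℝ (Vec d) (Vec d)).comp (ContinuousLinearMap.snd ℝ ℝ (Vec d × Vec d)) +
      (ContinuousLinearMap.fst ℝ ℝ (Vec d × Vec d)).smulRight w).prod
      ((ContinuousLinearMap.snd ℝ (Vec d) (Vec d)).comp
        (ContinuousLinearMap.snd ℝ ℝ (Vec d × Vec d))))

private lemma galsL_apply (w : Vec d) (t : ℝ) (x v : Vec d) :
    galsL w (t, x, v) = (t, x + t • w, v) := rfl

/-- the function shifted in the velocity -/
private def galsG (f : ℝ → Vec d → Vec d → ℝ) (w : Vec d) : ℝ × Vec d × Vec d → ℝ :=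
  fun q => unc f (q + ((0 : ℝ), (0 : Vec d), w))

private lemma gals_unc (f : ℝ → Vec d → Vec d → ℝ) (w : Vec d) :
    unc (fun t x v => f t (x + t • w) (v + w)) = fun p => galsG f w (galsL w p) := by
  funext p
  obtain ⟨t, x, v⟩ := p
  rw [galsL_apply]
  change f t (x + t • w) (v + w) = f (t + 0) (x + t • w + 0) (v + w)
  rw [add_zero, add_zero]

private lemma gals_add (w : Vec d) (t : ℝ) (x v : Vec d) :
    (t, x, v) + ((0 : ℝ), (0 : Vec d), w) = (t, x, v + w) := by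
  rw [Prod.mk_add_mk, Prod.mk_add_mk, add_zero, add_zero]

private lemma gals_fderiv (f : ℝ → Vec d → Vec d → ℝ) (w : Vec d) :
    fderiv ℝ (galsG f w) = fun q => fderiv ℝ (unc f) (q + ((0 : ℝ), (0 : Vec d), w)) := by
  funext q
  unfold galsG
  rw [fderiv_comp_add_right]

private lemma gals_derivs (f : ℝ → Vec d → Vec d → ℝ) (w : Vec d) (t : ℝ) (x v : Vec d) :
    derivs (galsG f w) (t, x, v) = derivs12 f t x (v + w) := by
  unfold derivs12 derivs
  rw [gals_fderiv, fderiv_comp_add_right, gals_add]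
  change ‖fderiv ℝ (unc f) ((t, x, v) + ((0 : ℝ), (0 : Vec d), w))‖ + _ = _
  rw [gals_add]

private lemma gals_C2 (hf : IsBoltzmannSol γ b T f) (w : Vec d) :
    ContDiffOn ℝ 2 (galsG f w) (Ioo (0 : ℝ) T ×ˢ (univ : Set (Vec d × Vec d))) := by
  have h1 : ContDiff ℝ 2 fun q : ℝ × Vec d × Vec d => q + ((0 : ℝ), (0 : Vec d), w) := by fun_prop
  have h2 : MapsTo (fun q : ℝ × Vec d × Vec d => q + ((0 : ℝ), (0 : Vec d), w))
      (Ioo (0 : ℝ) T ×ˢ (univ : Set (Vec d × Vec d))) (Ioo (0 : ℝ) T ×ˢ univ) := by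
    rintro ⟨t, x, v⟩ hq
    have h3 : (t, x, v) + ((0 : ℝ), (0 : Vec d), w) = (t, x, v + w) := gals_add w t x v
    change (t, x, v) + ((0 : ℝ), (0 : Vec d), w) ∈ _
    rw [h3]
    exact ⟨hq.1, mem_univ _⟩
  exact hf.isC2.comp h1.contDiffOn h2

private lemma gals_norm (v w : Vec d) : 1 + ‖v‖ ≤ (1 + ‖w‖) * (1 + ‖v + w‖) := by
  have h1 : ‖v‖ ≤ ‖v + w‖ + ‖w‖ := by
    have h2 := norm_sub_le (v + w) w
    rwa [add_sub_cancel_right] at h2
  have h3 := norm_nonneg w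
  have h4 := norm_nonneg (v + w)
  nlinarith [mul_nonneg h3 h4]

theorem gal_sol (hf : IsBoltzmannSol γ b T f) (w : Vec d) :
    IsBoltzmannSol γ b T (fun t x v => f t (x + t • w) (v + w)) := by
  have hU : IsOpen (Ioo (0 : ℝ) T ×ˢ (univ : Set (Vec d × Vec d))) := isOpen_Ioo.prod isOpen_univ
  refine ⟨?_, ?_, ?_, ?_, ?_, ?_, ?_⟩
  · exact fun t ht x v => hf.nonneg t ht _ _
  · intro t ht x v i
    have h1 : x + Pi.single i 1 + t • w = x + t • w + Pi.single i 1 := add_right_comm _ _ _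
    change f t (x + Pi.single i 1 + t • w) (v + w) = f t (x + t • w) (v + w)
    rw [h1]
    exact hf.periodic t ht _ _ i
  · have h1 : Continuous fun p : ℝ × Vec d × Vec d => (p.1, p.2.1 + p.1 • w, p.2.2 + w) := by
      fun_prop
    have h2 : ContinuousOn (fun p : ℝ × Vec d × Vec d => unc f (p.1, p.2.1 + p.1 • w, p.2.2 + w))
        (Ico 0 T ×ˢ univ) := by
      refine ContinuousOn.comp (t := Ico 0 T ×ˢ univ) hf.isCont h1.continuousOn ?_
      intro q hq
      exact ⟨hq.1, mem_univ _⟩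
    exact h2
  · unfold C2On
    rw [gals_unc]
    refine (gals_C2 hf w).comp (galsL w).contDiff.contDiffOn ?_
    rintro ⟨t, x, v⟩ hq
    rw [galsL_apply]
    exact ⟨hq.1, mem_univ _⟩
  · intro T₁ hT₁ N
    obtain ⟨C, hC⟩ := hf.decay T₁ hT₁ N
    refine ⟨(1 + ‖w‖) ^ N * C, fun t ht x v => ?_⟩
    have h1 := hC t ht (x + t • w) (v + w)
    have h2 : 0 ≤ f t (x + t • w) (v + w) := hf.nonneg t ⟨ht.1, ht.2.trans_lt hT₁⟩ _ _
    have h3 : (1 + ‖v‖) ^ N ≤ (1 + ‖w‖) ^ N * (1 + ‖v + w‖) ^ N := by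
      rw [← mul_pow]
      exact pow_le_pow_left₀ (by positivity) (gals_norm v w) N
    calc (1 + ‖v‖) ^ N * f t (x + t • w) (v + w)
        ≤ ((1 + ‖w‖) ^ N * (1 + ‖v + w‖) ^ N) * f t (x + t • w) (v + w) :=
          mul_le_mul_of_nonneg_right h3 h2
      _ = (1 + ‖w‖) ^ N * ((1 + ‖v + w‖) ^ N * f t (x + t • w) (v + w)) := by ring
      _ ≤ (1 + ‖w‖) ^ N * C := mul_le_mul_of_nonneg_left h1 (by positivity)
  · intro T₀ hT₀ T₁ hT₁ N
    obtain ⟨C, hC⟩ := hf.decay12 T₀ hT₀ T₁ hT₁ N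
    refine ⟨((1 + ‖w‖) ^ N * (‖galsL w‖ + ‖galsL w‖ ^ 2)) * C, fun t ht x v => ?_⟩
    have h1 := hC t ht (x + t • w) (v + w)
    have hp : galsL w (t, x, v) ∈ Ioo (0 : ℝ) T ×ˢ (univ : Set (Vec d × Vec d)) := by
      rw [galsL_apply]
      exact ⟨⟨lt_of_lt_of_le hT₀ ht.1, ht.2.trans_lt hT₁⟩, mem_univ _⟩
    have h2 : derivs12 (fun t x v => f t (x + t • w) (v + w)) t x v ≤
        (‖galsL w‖ + ‖galsL w‖ ^ 2) * derivs12 f t (x + t • w) (v + w) := by
      have h3 := Pool.Agent.H25.PN.derivs_cmp (galsL w) hU (gals_C2 hf w) hp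
      rw [galsL_apply, gals_derivs] at h3
      have h4 : derivs12 (fun t x v => f t (x + t • w) (v + w)) t x v =
          derivs (fun p => galsG f w (galsL w p)) (t, x, v) := by
        unfold derivs12
        rw [gals_unc]
      rw [h4]
      exact h3
    have h3 : (1 + ‖v‖) ^ N ≤ (1 + ‖w‖) ^ N * (1 + ‖v + w‖) ^ N := by
      rw [← mul_pow]
      exact pow_le_pow_left₀ (by positivity) (gals_norm v w) N
    have h5 : 0 ≤ derivs12 (fun t x v => f t (x + t • w) (v + w)) t x v :=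
      add_nonneg (norm_nonneg _) (ContinuousLinearMap.opNorm_nonneg _)
    have h6 : 0 ≤ ‖galsL w‖ + ‖galsL w‖ ^ 2 := add_nonneg (norm_nonneg _) (sq_nonneg _)
    calc (1 + ‖v‖) ^ N * derivs12 (fun t x v => f t (x + t • w) (v + w)) t x v
        ≤ ((1 + ‖w‖) ^ N * (1 + ‖v + w‖) ^ N) *
          ((‖galsL w‖ + ‖galsL w‖ ^ 2) * derivs12 f t (x + t • w) (v + w)) :=
          mul_le_mul h3 h2 h5 (by positivity)
      _ = ((1 + ‖w‖) ^ N * (‖galsL w‖ + ‖galsL w‖ ^ 2)) *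
          ((1 + ‖v + w‖) ^ N * derivs12 f t (x + t • w) (v + w)) := by ring
      _ ≤ ((1 + ‖w‖) ^ N * (‖galsL w‖ + ‖galsL w‖ ^ 2)) * C :=
          mul_le_mul_of_nonneg_left h1 (mul_nonneg (by positivity) h6)
  · intro t ht x v
    have hp : galsL w (t, x, v) ∈ Ioo (0 : ℝ) T ×ˢ (univ : Set (Vec d × Vec d)) := by
      rw [galsL_apply]
      exact ⟨ht, mem_univ _⟩
    have h1 := Pool.Agent.H25.PN.fderiv_cmp (galsL w) hU (gals_C2 hf w) hp ((1 : ℝ), v, (0 : Vec d))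
    rw [galsL_apply, galsL_apply, gals_fderiv, one_smul] at h1
    have h2 := hf.solves t ht (x + t • w) (v + w)
    unfold transport at h2 ⊢
    rw [gals_unc, h1]
    change fderiv ℝ (unc f) ((t, x + t • w, v) + ((0 : ℝ), (0 : Vec d), w)) (1, v + w, 0) =
      boltzQ γ b (fun u => f t (x + t • w) (u + w)) v
    rw [gals_add, h2, boltzQ_trn]

end Pool.Agent.H71.SM
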