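import Pool.Agent.H71.SM.Defs

/-!
# Module Gen: slices, averages over the torus, the kernel `kl`

Public copies of the private lemmas of H48/PV/DerB.lean, and `kl_zero`.
-/

set_option autoImplicit false

open MeasureTheory Set Filter Topology Pool.Agent.H25.Kin Pool.Agent.H82.BK Pool.Agent.H82.CM
open Pool.Agent.H48.PL Pool.Agent.H48.PI Pool.Agent.H48.PW Pool.Agent.H48.PD Pool.Agent.H48.PR

namespace Pool.Agent.H71.SM

variable {d : ℕ} {e : Fin d}

/-- continuous planar periodic functions with rapid decay in the velocity -/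
structure SA (e : Fin d) (A : Vec d → Vec d → ℝ) : Prop where
  cont : Continuous fun p : Vec d × Vec d => A p.1 p.2
  dec : RX A
  per : ∀ x v i, A (x + Pi.single i 1) v = A x v
  pl : ∀ x y v, x e = y e → A x v = A y v

lemma sa_bd {A : Vec d → Vec d → ℝ} (hA : SA e A) {Φ : Vec d → Vec d → ℝ} (hΦ : PGW Φ)
    (v : Vec d) : ∃ C, ∀ x w, |Φ v w * A x w| ≤ C * wt d w := by
  obtain ⟨N, K, hK0, hK⟩ := hΦ.le
  obtain ⟨C, hC⟩ := hA.dec (N + (d + 1))
  refine ⟨K * (1 + ‖v‖) ^ N * C, fun x w => ?_⟩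
  have hw : 0 < 1 + ‖w‖ := w_pos w
  have hv : 0 < 1 + ‖v‖ := w_pos v
  have h2 := hC x w
  rw [abs_mul]
  unfold wt
  rw [← div_eq_mul_inv, le_div_iff₀ (by positivity)]
  calc |Φ v w| * |A x w| * (1 + ‖w‖) ^ (d + 1)
      ≤ (K * ((1 + ‖v‖) ^ N * (1 + ‖w‖) ^ N)) * |A x w| * (1 + ‖w‖) ^ (d + 1) := by
        have := hK v w
        gcongr
    _ = K * (1 + ‖v‖) ^ N * ((1 + ‖w‖) ^ (N + (d + 1)) * |A x w|) := by rw [pow_add]; ring
    _ ≤ K * (1 + ‖v‖) ^ N * C := by gcongr

lemma sa_wc {A : Vec d → Vec d → ℝ} (hA : SA e A) {Φ : Vec d → Vec d → ℝ} (hΦ : PGW Φ)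
    (x v : Vec d) : Continuous fun w => Φ v w * A x w :=
  (hΦ.cont.comp (by fun_prop : Continuous fun w : Vec d => (v, w))).mul
    (hA.cont.comp (by fun_prop : Continuous fun w : Vec d => (x, w)))

lemma sa_int {A : Vec d → Vec d → ℝ} (hA : SA e A) {Φ : Vec d → Vec d → ℝ} (hΦ : PGW Φ)
    (x v : Vec d) : Integrable fun w => Φ v w * A x w := by
  obtain ⟨C, hC⟩ := sa_bd hA hΦ v
  exact (integrable_wt.const_mul C).mono' (sa_wc hA hΦ x v).aestronglyMeasurable
    (Eventually.of_forall fun w => hC x w)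

lemma sa_nu {A : Vec d → Vec d → ℝ} (hA : SA e A) {Φ : Vec d → Vec d → ℝ} (hΦ : PGW Φ)
    (v : Vec d) : Integrable (fun p : Vec d × Vec d => Φ v p.1 * A p.2 p.1) (nu d) := by
  obtain ⟨C, hC⟩ := sa_bd hA hΦ v
  have hc : Continuous fun p : Vec d × Vec d => Φ v p.1 * A p.2 p.1 :=
    (hΦ.cont.comp (by fun_prop : Continuous fun p : Vec d × Vec d => (v, p.1))).mul
      (hA.cont.comp (by fun_prop : Continuous fun p : Vec d × Vec d => (p.2, p.1)))
  exact integrable_nu hc.aestronglyMeasurable fun p => hC p.2 p.1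

lemma sa_pl {A : Vec d → Vec d → ℝ} (hA : SA e A) {Φ : Vec d → Vec d → ℝ} (hΦ : PGW Φ)
    (v : Vec d) : PlF e fun x => ∫ w, Φ v w * A x w := by
  obtain ⟨C, hC⟩ := sa_bd hA hΦ v
  refine ⟨?_, ?_, ?_⟩
  · refine continuous_of_dominated (bound := fun w => C * wt d w) ?_ ?_
      (integrable_wt.const_mul _) ?_
    · intro x
      exact (sa_wc hA hΦ x v).aestronglyMeasurable
    · intro x
      exact Eventually.of_forall fun w => hC x w
    · refine Eventually.of_forall fun w => ?_
      exact continuous_const.mul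
        (hA.cont.comp (by fun_prop : Continuous fun x : Vec d => (x, w)))
  · intro x i
    congr 1
    funext w
    rw [hA.per]
  · intro x y hxy
    congr 1
    funext w
    rw [hA.pl x y w hxy]

lemma sa_loc {B : Vec d → ℝ} (hB : PlF e B) (x : Vec d) :
    loc e 1 B x = ∫ y, B y ∂(muD d) := by
  obtain ⟨C, hC⟩ := pl_bdd hB
  have hfin : IsFiniteMeasure ((volume : Measure ℝ).restrict (Ioo (-(1 / 2)) (1 / 2))) :=
    ⟨by rw [Measure.restrict_apply_univ]; exact measure_Ioo_lt_top⟩
  have hi : Integrable (fun z : ℝ => B (x - Pi.single e z))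
      (volume.restrict (Ioo (-(1 / 2)) (1 / 2))) := by
    have hc : Continuous fun z : ℝ => x - (Pi.single e z : Vec d) :=
      continuous_const.sub (continuous_single (A := fun _ : Fin d => ℝ) e)
    exact Integrable.of_bound (hB.cont.comp hc).aestronglyMeasurable C
      (Eventually.of_forall fun z => hC _)
  have hv : (∫ _z in Ioo (-(1 / 2) : ℝ) (1 / 2), C) = C := by
    rw [setIntegral_const, Real.volume_real_Ioo_of_le (by norm_num)]
    norm_num
  have hm : (∫ _y : Vec d, C ∂(muD d)) = C := by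
    rw [integral_const, measureReal_def, muD_univ]
    simp
  have h1 : PlF e fun y => C - B y :=
    ⟨continuous_const.sub hB.cont, fun x i => by rw [hB.per], fun x y h => by rw [hB.pl x y h]⟩
  have h2 : PlF e fun y => C + B y :=
    ⟨continuous_const.add hB.cont, fun x i => by rw [hB.per], fun x y h => by rw [hB.pl x y h]⟩
  have e1 := loc_le h1 (fun y => by have := (abs_le.mp (hC y)).2; linarith) one_pos le_rfl x
  have e2 := loc_le h2 (fun y => by have := (abs_le.mp (hC y)).1; linarith) one_pos le_rfl x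
  unfold loc at e1 e2 ⊢
  rw [integral_sub (integrable_const _) hi, integral_sub (integrable_const _) (pl_int hB), hv,
    hm] at e1
  rw [integral_add (integrable_const _) hi, integral_add (integrable_const _) (pl_int hB), hv,
    hm] at e2
  linarith

lemma sa_kl {B : Vec d → ℝ} (hB : PlF e B) (x : Vec d) :
    Integrable (fun z : ℝ => kl 1 z * B (x - Pi.single e z))
      (volume.restrict (Ioo (-(1 / 2)) (1 / 2))) := by
  obtain ⟨C, hC⟩ := pl_bdd hB
  have hfin : IsFiniteMeasure ((volume : Measure ℝ).restrict (Ioo (-(1 / 2)) (1 / 2))) :=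
    ⟨by rw [Measure.restrict_apply_univ]; exact measure_Ioo_lt_top⟩
  have hc : Continuous fun z : ℝ => x - (Pi.single e z : Vec d) :=
    continuous_const.sub (continuous_single (A := fun _ : Fin d => ℝ) e)
  refine Integrable.of_bound ((kl_meas 1).aestronglyMeasurable.mul
    (hB.cont.comp hc).aestronglyMeasurable) (1 / 2 * C) ?_
  filter_upwards [ae_restrict_mem measurableSet_Ioo] with z hz
  rw [norm_mul, Real.norm_eq_abs, Real.norm_eq_abs]
  exact mul_le_mul (kl_abs one_pos hz) (hC _) (abs_nonneg _) (by norm_num)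

/-- `|∫ k a| ≤ (1/2) ∫ m dμ` if `|a| ≤ m` -/
lemma sa_src {a m : Vec d → ℝ} (hm : PlF e m) (h : ∀ x, |a x| ≤ m x) (x : Vec d) :
    |∫ z in Ioo (-((1 : ℝ) / 2)) (1 / 2), kl 1 z * a (x - Pi.single e z)| ≤
      1 / 2 * ∫ y, m y ∂(muD d) := by
  have hc : Continuous fun z : ℝ => x - (Pi.single e z : Vec d) :=
    continuous_const.sub (continuous_single (A := fun _ : Fin d => ℝ) e)
  have hfin : IsFiniteMeasure ((volume : Measure ℝ).restrict (Ioo (-(1 / 2)) (1 / 2))) :=
    ⟨by rw [Measure.restrict_apply_univ]; exact measure_Ioo_lt_top⟩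
  obtain ⟨C, hC⟩ := pl_bdd hm
  have him : Integrable (fun z : ℝ => m (x - Pi.single e z))
      (volume.restrict (Ioo (-(1 / 2)) (1 / 2))) :=
    Integrable.of_bound (hm.cont.comp hc).aestronglyMeasurable C
      (Eventually.of_forall fun z => hC _)
  rw [← sa_loc hm x]
  have h1 : ‖∫ z in Ioo (-(1 / 2) : ℝ) (1 / 2), kl 1 z * a (x - Pi.single e z)‖ ≤
        ∫ z in Ioo (-(1 / 2) : ℝ) (1 / 2), 1 / 2 * m (x - Pi.single e z) := by
    refine norm_integral_le_of_norm_le (him.const_mul _) ?_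
    filter_upwards [ae_restrict_mem measurableSet_Ioo] with z hz
    have h3 : |kl 1 z| ≤ 1 / 2 := kl_abs one_pos hz
    rw [norm_mul, Real.norm_eq_abs, Real.norm_eq_abs]
    exact mul_le_mul h3 (h _) (abs_nonneg _) (by norm_num)
  rw [integral_const_mul, Real.norm_eq_abs] at h1
  exact h1

lemma sa_abs {a : Vec d → ℝ} (ha : PlF e a) : PlF e fun x => |a x| :=
  ⟨ha.cont.abs, fun x i => by rw [ha.per], fun x y h => by rw [ha.pl x y h]⟩


/-- the kernel has mean zero -/
lemma kl_zero : ∫ z in Ioo (-((1 : ℝ) / 2)) (1 / 2), kl 1 z = 0 := by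
  have h0 : ∫ z in Ioo (-((1 : ℝ) / 2)) (1 / 2), kl 1 z = ∫ z in (-(1 / 2) : ℝ)..(1 / 2), kl 1 z := by
    rw [intervalIntegral.integral_of_le (by norm_num), ← integral_Ioc_eq_integral_Ioo]
  have hi : ∀ a b : ℝ, IntervalIntegrable (kl 1) volume a b := by
    intro a b
    unfold kl
    refine IntervalIntegrable.sub ?_ (Continuous.intervalIntegrable (by fun_prop) _ _)
    refine (intervalIntegrable_const (c := (1 / 2 : ℝ))).mono_fun
      (Measurable.ite measurableSet_Iio measurable_const measurable_const).aestronglyMeasurable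
      (Eventually.of_forall fun z => ?_)
    show ‖(if z < 0 then -(1 / 2) else 1 / 2 : ℝ)‖ ≤ ‖(1 / 2 : ℝ)‖
    split_ifs <;> simp
  have h1 : ∫ z in (-(1 / 2) : ℝ)..0, kl 1 z = ∫ z in (-(1 / 2) : ℝ)..0, (-(1 / 2) - z) := by
    refine intervalIntegral.integral_congr_ae ?_
    have : ∀ᵐ z : ℝ, z ≠ 0 := by simp [ae_iff]
    filter_upwards [this] with z hz hz1
    rw [uIoc_of_le (by norm_num)] at hz1
    unfold kl
    rw [if_pos (lt_of_le_of_ne hz1.2 hz), div_one]
  have h2 : ∫ z in (0 : ℝ)..(1 / 2), kl 1 z = ∫ z in (0 : ℝ)..(1 / 2), (1 / 2 - z) := by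
    refine intervalIntegral.integral_congr fun z hz => ?_
    rw [uIcc_of_le (by norm_num)] at hz
    unfold kl
    rw [if_neg (not_lt.2 hz.1), div_one]
  rw [h0, ← intervalIntegral.integral_add_adjacent_intervals (hi _ 0) (hi 0 _), h1, h2]
  rw [intervalIntegral.integral_sub (by simp) (by simp), intervalIntegral.integral_sub (by simp) (by simp)]
  simp only [intervalIntegral.integral_const, integral_id, smul_eq_mul]
  norm_num

end Pool.Agent.H71.SM
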