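import Pool.Agent.H71.SM.Acy

/-!
# An acyclic set carries no loop of odd winding number
-/

namespace Pool.Agent.H71.SM

open FreeAbelianGroup Pool.Agent.H73.Avr

open Classical in
/-- one on lists of two points, one with `A`, the other with `B` -/
private noncomputable def crs {X : Type} (A B : X → Prop) : List X → ZMod 2
  | [x, y] => if (A x ∧ B y) ∨ (A y ∧ B x) then 1 else 0
  | _ => 0

/-- additive extension of `crs` -/
private noncomputable def crsL {X : Type} (A B : X → Prop) : O X →+ ZMod 2 := lift (crs A B)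

private theorem crsL_of {X : Type} (A B : X → Prop) (σ : List X) :
    crsL A B (of σ) = crs A B σ := lift_apply_of _ _

private theorem crs_nil {X : Type} (A B : X → Prop) : crs A B [] = 0 := rfl

private theorem crs_one {X : Type} (A B : X → Prop) (x : X) : crs A B [x] = 0 := rfl

open Classical in
private theorem crs_two {X : Type} (A B : X → Prop) (x y : X) :
    crs A B [x, y] = if (A x ∧ B y) ∨ (A y ∧ B x) then 1 else 0 := rfl

private theorem crs_long {X : Type} (A B : X → Prop) (x y z : X) (r : List X) :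
    crs A B (x :: y :: z :: r) = 0 := rfl

private theorem crsL_cns {X : Type} (A B : X → Prop) (x y z : X) (u : O X) :
    crsL A B (cns x (cns y (cns z u))) = 0 := by
  have : (crsL A B).comp ((cns x).comp ((cns y).comp (cns z))) = 0 := by
    apply FreeAbelianGroup.lift_ext
    intro σ
    show crsL A B (of (x :: y :: z :: σ)) = 0
    rw [crsL_of, crs_long]
  exact DFunLike.congr_fun this u

private theorem crsL_Ng {X : Type} {A B : X → Prop} (hAB : ∀ x, A x → ¬ B x) {y : O X}
    (hy : y ∈ Ng X) : crsL A B y = 0 := by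
  obtain ⟨a, ha, b, hb, rfl⟩ := AddSubgroup.mem_sup.1 hy
  have h1 : crsL A B a ∈ (⊥ : AddSubgroup (ZMod 2)) := by
    refine map_mem_of_cl (crsL A B) (p := Dg) ?_ ha
    rintro _ ⟨l, x, r, rfl⟩
    rw [AddSubgroup.mem_bot, crsL_of]
    cases l with
    | nil =>
      cases r with
      | nil =>
        show crs A B [x, x] = 0
        rw [crs_two, if_neg]
        rintro (⟨h1, h2⟩ | ⟨h1, h2⟩)
        · exact hAB x h1 h2
        · exact hAB x h1 h2
      | cons z r => exact crs_long A B x x z r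
    | cons z l =>
      cases l with
      | nil => exact crs_long A B z x x r
      | cons z' l =>
        cases l with
        | nil => exact crs_long A B z z' x (x :: r)
        | cons z'' l => exact crs_long A B z z' z'' (l ++ x :: x :: r)
  have h2 : crsL A B b = 0 := by
    obtain ⟨u, rfl⟩ := hb
    show crsL A B (u + u) = 0
    rw [map_add]
    exact CharTwo.add_self_eq_zero _
  rw [map_add, AddSubgroup.mem_bot.1 h1, h2, add_zero]

/-- the crossing number of a boundary of small lists vanishes -/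
private theorem crsL_dO {X : Type} [MetricSpace X] {Y : Set X} {ε : ℝ} {A B : X → Prop}
    (hAB : ∀ x, A x → ¬ B x)
    (hsm : ∀ x ∈ Y, ∀ y ∈ Y, ∀ z ∈ Y, dist x y < ε → dist x z < ε → dist y z < ε →
      A x → B y → A z ∨ B z) {w : O X} (hw : w ∈ Sml Y ε) : crsL A B (dO w) = 0 := by
  have h1 : (crsL A B).comp dO w ∈ (⊥ : AddSubgroup (ZMod 2)) := by
    refine map_mem_of_cl ((crsL A B).comp dO) ?_ hw
    rintro σ ⟨hσY, hσd⟩
    show crsL A B (dO (of σ)) ∈ (⊥ : AddSubgroup (ZMod 2))
    rw [AddSubgroup.mem_bot, dO_of]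
    match σ, hσY, hσd with
    | [], _, _ =>
      show crsL A B 0 = 0
      exact map_zero _
    | [x], _, _ =>
      show crsL A B (of [] - cns x 0) = 0
      rw [map_zero, sub_zero, crsL_of]
      rfl
    | [x, y], _, _ =>
      show crsL A B (of [y] - cns x (of [] - cns y 0)) = 0
      rw [map_zero, sub_zero, cns_of, map_sub, crsL_of, crsL_of]
      show (0 : ZMod 2) - 0 = 0
      rw [sub_zero]
    | [x, y, z], hY, hd =>
      show crsL A B (of [y, z] - cns x (of [z] - cns y (of [] - cns z 0))) = 0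
      rw [map_zero, sub_zero, cns_of, map_sub, map_sub (cns x), cns_of, cns_of, map_sub, crsL_of,
        crsL_of, crsL_of, crs_two, crs_two, crs_two]
      have hx := hY x (by simp)
      have hy := hY y (by simp)
      have hz := hY z (by simp)
      have hxy := hd x (by simp) y (by simp)
      have hyx := hd y (by simp) x (by simp)
      have hxz := hd x (by simp) z (by simp)
      have hzx := hd z (by simp) x (by simp)
      have hyz := hd y (by simp) z (by simp)
      have hzy := hd z (by simp) y (by simp)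
      have a1 := hsm x hx y hy z hz hxy hxz hyz
      have a2 := hsm x hx z hz y hy hxz hxy hzy
      have a3 := hsm y hy x hx z hz hyx hyz hxz
      have a4 := hsm y hy z hz x hx hyz hyx hzx
      have a5 := hsm z hz x hx y hy hzx hzy hxy
      have a6 := hsm z hz y hy x hx hzy hzx hyx
      have b1 := hAB x
      have b2 := hAB y
      have b3 := hAB z
      have c1 : (1 : ZMod 2) - (1 - 0) = 0 := by decide
      have c2 : (1 : ZMod 2) - (0 - 1) = 0 := by decide
      have c3 : (0 : ZMod 2) - (1 - 1) = 0 := by decide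
      have c4 : (0 : ZMod 2) - (0 - 0) = 0 := by decide
      by_cases p1 : A x <;> by_cases p2 : A y <;> by_cases p3 : A z <;> by_cases q1 : B x <;>
        by_cases q2 : B y <;> by_cases q3 : B z <;> simp_all
    | x :: y :: z :: t :: r, _, _ =>
      show crsL A B (of (y :: z :: t :: r) - cns x (of (z :: t :: r) -
        cns y (of (t :: r) - cns z (dl (t :: r))))) = 0
      simp only [map_sub, cns_of, crsL_cns, crsL_of, crs_long, sub_zero]
  exact AddSubgroup.mem_bot.1 h1

/-- a fine chain along a path -/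
private theorem path_chain {X : Type} [MetricSpace X] {Y : Set X} {δ : ℝ} (hδ : 0 < δ)
    {γ : ℝ → X} (hγ : Continuous γ) (hγY : ∀ t, γ t ∈ Y) (f : O X →+ ZMod 2) (ψ : X → ZMod 2)
    (hf : ∀ s t, dist (γ s) (γ t) < δ → f (of [γ s, γ t]) = ψ (γ t) - ψ (γ s)) :
    ∃ c ∈ Sml Y δ, dO c = of [γ 1] - of [γ 0] ∧ f c = ψ (γ 1) - ψ (γ 0) := by
  have huc := isCompact_Icc.uniformContinuousOn_of_continuous (s := Set.Icc (0 : ℝ) 1)
    hγ.continuousOn
  obtain ⟨η, hη, hη2⟩ := Metric.uniformContinuousOn_iff.1 huc δ hδ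
  obtain ⟨N, hN⟩ := exists_nat_one_div_lt hη
  have hN0 : (0 : ℝ) < (N : ℝ) + 1 := by positivity
  have hst : ∀ k ∈ Finset.range (N + 1), dist (γ ((k : ℝ) / (N + 1)))
      (γ (((k + 1 : ℕ) : ℝ) / (N + 1))) < δ := by
    intro k hk
    have hk' : k + 1 ≤ N + 1 := Finset.mem_range.1 hk
    have hk2 : ((k + 1 : ℕ) : ℝ) ≤ (N : ℝ) + 1 := by exact_mod_cast hk'
    have hk3 : (k : ℝ) ≤ (N : ℝ) + 1 := by push_cast at hk2; linarith
    refine hη2 _ ⟨by positivity, (div_le_one hN0).2 hk3⟩ _ ⟨by positivity, (div_le_one hN0).2 hk2⟩ ?_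
    rw [Real.dist_eq, ← sub_div, abs_div, abs_of_pos hN0]
    have : |(k : ℝ) - ((k + 1 : ℕ) : ℝ)| = 1 := by
      push_cast
      rw [sub_add_cancel_left, abs_neg, abs_one]
    rw [this]
    exact hN
  have e1 : ((N + 1 : ℕ) : ℝ) / (N + 1) = 1 := by
    push_cast
    exact div_self hN0.ne'
  have e0 : ((0 : ℕ) : ℝ) / (N + 1) = 0 := by
    push_cast
    exact zero_div _
  refine ⟨∑ k ∈ Finset.range (N + 1), of [γ ((k : ℝ) / (N + 1)),
    γ (((k + 1 : ℕ) : ℝ) / (N + 1))], ?_, ?_, ?_⟩
  · refine AddSubgroup.sum_mem _ fun k hk => of_mem_cl ?_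
    have h1 := hst k hk
    constructor
    · intro x hx
      simp only [List.mem_cons, List.not_mem_nil, or_false] at hx
      rcases hx with rfl | rfl
      · exact hγY _
      · exact hγY _
    · intro x hx y hy
      simp only [List.mem_cons, List.not_mem_nil, or_false] at hx hy
      rcases hx with rfl | rfl <;> rcases hy with rfl | rfl
      · rw [dist_self]; exact hδ
      · exact h1
      · rw [dist_comm]; exact h1
      · rw [dist_self]; exact hδ
  · rw [map_sum]
    have h1 : ∀ k ∈ Finset.range (N + 1), dO (of [γ ((k : ℝ) / (N + 1)),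
        γ (((k + 1 : ℕ) : ℝ) / (N + 1))]) = of [γ (((k + 1 : ℕ) : ℝ) / (N + 1))] -
        of [γ ((k : ℝ) / (N + 1))] := by
      intro k _
      rw [dO_of]
      show of [_] - cns _ (of [] - cns _ 0) = _
      rw [map_zero, sub_zero, cns_of]
    rw [Finset.sum_congr rfl h1,
      Finset.sum_range_sub (fun k : ℕ => (of [γ ((k : ℝ) / (N + 1))] : O X)) (N + 1), e1, e0]
  · rw [map_sum]
    have h1 : ∀ k ∈ Finset.range (N + 1), f (of [γ ((k : ℝ) / (N + 1)),
        γ (((k + 1 : ℕ) : ℝ) / (N + 1))]) = ψ (γ (((k + 1 : ℕ) : ℝ) / (N + 1))) -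
        ψ (γ ((k : ℝ) / (N + 1))) := fun k hk => hf _ _ (hst k hk)
    rw [Finset.sum_congr rfl h1,
      Finset.sum_range_sub (fun k : ℕ => ψ (γ ((k : ℝ) / (N + 1)))) (N + 1), e1, e0]

theorem acy_loop {X : Type} [MetricSpace X] [CompactSpace X] {Y : Set X} (hY : IsClosed Y)
    (hA : Acy Y) {T h : X → ℝ} (hTc : Continuous T) (hhc : Continuous h)
    (hne : ∀ y ∈ Y, T y = 0 → h y ≠ 0) (pth : Fin 4 → ℝ → X) (hpc : ∀ i, Continuous (pth i))
    (hpY : ∀ i t, pth i t ∈ Y) (hglue : ∀ i, pth i 1 = pth (i + 1) 0)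
    (h0 : ∀ t, 0 < h (pth 0 t)) (hs : |h (pth 0 0)| < T (pth 0 0))
    (he : |h (pth 0 1)| < -T (pth 0 1)) (hl : ∀ i, i ≠ 0 → ∀ t, h (pth i t) < |T (pth i t)|) :
    False := by
  classical
  -- a lower bound for `max |T| |h|` on `Y`
  obtain ⟨y0, hy0, hmin⟩ := hY.isCompact.exists_isMinOn ⟨pth 0 0, hpY 0 0⟩
    (hTc.abs.max hhc.abs).continuousOn
  set c : ℝ := max |T y0| |h y0| with hc
  have hcpos : 0 < c := by
    by_contra hcon
    push Not at hcon
    have h1 : |T y0| ≤ 0 := (le_max_left _ _).trans hcon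
    have h2 : |h y0| ≤ 0 := (le_max_right _ _).trans hcon
    exact hne y0 hy0 (abs_nonpos_iff.1 h1) (abs_nonpos_iff.1 h2)
  have hcle : ∀ y ∈ Y, c ≤ max |T y| |h y| := fun y hy => hmin hy
  obtain ⟨ε1, hε1, hT1⟩ := Metric.uniformContinuous_iff.1
    (CompactSpace.uniformContinuous_of_continuous hTc) c hcpos
  obtain ⟨ε2, hε2, hh1⟩ := Metric.uniformContinuous_iff.1
    (CompactSpace.uniformContinuous_of_continuous hhc) c hcpos
  set ε : ℝ := min ε1 ε2 with hε
  have hεpos : 0 < ε := lt_min hε1 hε2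
  have hT2 : ∀ x y, dist x y < ε → |T x - T y| < c := fun x y hxy => by
    have := hT1 (lt_of_lt_of_le hxy (min_le_left _ _))
    rwa [Real.dist_eq] at this
  have hh2 : ∀ x y, dist x y < ε → |h x - h y| < c := fun x y hxy => by
    have := hh1 (lt_of_lt_of_le hxy (min_le_right _ _))
    rwa [Real.dist_eq] at this
  let A : X → Prop := fun x => |h x| ≤ T x
  let B : X → Prop := fun x => |T x| < h x
  have hAB : ∀ x, A x → ¬ B x := by
    intro x h1 h2
    have h1' : |h x| ≤ T x := h1
    have h2' : |T x| < h x := h2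
    have := le_abs_self (h x)
    have := le_abs_self (T x)
    linarith
  have hAc : ∀ x ∈ Y, A x → c ≤ T x := by
    intro x hx h1
    have h1' : |h x| ≤ T x := h1
    have h2 := hcle x hx
    have h3 : |T x| = T x := abs_of_nonneg ((abs_nonneg _).trans h1')
    rw [h3, max_eq_left h1'] at h2
    exact h2
  have hBc : ∀ x ∈ Y, B x → c ≤ h x := by
    intro x hx h1
    have h1' : |T x| < h x := h1
    have h2 := hcle x hx
    have h3 : |h x| = h x := abs_of_nonneg ((abs_nonneg _).trans h1'.le)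
    rw [h3, max_eq_right h1'.le] at h2
    exact h2
  -- a point near one with `A` has positive `T`
  have key : ∀ z, 0 < T z → 0 < h z → A z ∨ B z := by
    intro z h1 h2
    rcases le_or_gt (h z) (T z) with h3 | h3
    · left; show |h z| ≤ T z; rwa [abs_of_pos h2]
    · right; show |T z| < h z; rwa [abs_of_pos h1]
  have hsm : ∀ x ∈ Y, ∀ y ∈ Y, ∀ z ∈ Y, dist x y < ε → dist x z < ε → dist y z < ε →
      A x → B y → A z ∨ B z := by
    intro x hx y hy z _ _ hxz hyz h1 h2
    have h3 := hAc x hx h1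
    have h4 := hBc y hy h2
    have h5 := abs_lt.1 (hT2 x z hxz)
    have h6 := abs_lt.1 (hh2 y z hyz)
    exact key z (by linarith) (by linarith)
  obtain ⟨δ, hδ, hδ2⟩ := hA ε hεpos
  have hδ' : 0 < min δ ε := lt_min hδ hεpos
  let ψ : X → ZMod 2 := fun x => if A x then 1 else 0
  -- the four chains
  have hch0 : ∃ c ∈ Sml Y (min δ ε), dO c = of [pth 0 1] - of [pth 0 0] ∧
      crsL A B c = ψ (pth 0 1) - ψ (pth 0 0) := by
    refine path_chain hδ' (hpc 0) (hpY 0) (crsL A B) ψ ?_
    intro s t hst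
    have hst' : dist (pth 0 s) (pth 0 t) < ε := lt_of_lt_of_le hst (min_le_right _ _)
    have hts' : dist (pth 0 t) (pth 0 s) < ε := by rwa [dist_comm]
    have k1 : A (pth 0 s) → A (pth 0 t) ∨ B (pth 0 t) := by
      intro h1
      have h3 := hAc _ (hpY 0 s) h1
      have h5 := abs_lt.1 (hT2 _ _ hst')
      exact key _ (by linarith) (h0 t)
    have k2 : A (pth 0 t) → A (pth 0 s) ∨ B (pth 0 s) := by
      intro h1
      have h3 := hAc _ (hpY 0 t) h1
      have h5 := abs_lt.1 (hT2 _ _ hts')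
      exact key _ (by linarith) (h0 s)
    have b1 := hAB (pth 0 s)
    have b2 := hAB (pth 0 t)
    rw [crsL_of, crs_two]
    show _ = (if A (pth 0 t) then (1 : ZMod 2) else 0) - (if A (pth 0 s) then 1 else 0)
    have c1 : (0 : ZMod 2) = 1 - 1 := by decide
    have c2 : (1 : ZMod 2) = 0 - 1 := by decide
    by_cases p1 : A (pth 0 s) <;> by_cases p2 : A (pth 0 t)
    · rw [if_pos p1, if_pos p2, if_neg]
      · exact c1
      · rintro (⟨_, h2⟩ | ⟨_, h2⟩)
        · exact b2 p2 h2
        · exact b1 p1 h2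
    · rw [if_pos p1, if_neg p2, if_pos]
      · exact c2
      · exact Or.inl ⟨p1, (k1 p1).resolve_left p2⟩
    · rw [if_neg p1, if_pos p2, if_pos, sub_zero]
      exact Or.inr ⟨p2, (k2 p2).resolve_left p1⟩
    · rw [if_neg p1, if_neg p2, if_neg, sub_zero]
      rintro (⟨h1, _⟩ | ⟨h1, _⟩)
      · exact p1 h1
      · exact p2 h1
  have hchi : ∀ i, i ≠ 0 → ∃ c ∈ Sml Y (min δ ε), dO c = of [pth i 1] - of [pth i 0] ∧
      crsL A B c = 0 - 0 := by
    intro i hi
    refine path_chain hδ' (hpc i) (hpY i) (crsL A B) (fun _ => 0) ?_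
    intro s t _
    rw [crsL_of, crs_two, sub_zero, if_neg]
    have hB : ∀ t, ¬ B (pth i t) := by
      intro t h1
      exact absurd (hl i hi t) (not_lt.2 (le_of_lt h1))
    rintro (⟨_, h2⟩ | ⟨_, h2⟩)
    · exact hB _ h2
    · exact hB _ h2
  obtain ⟨c0, hc0, d0, f0⟩ := hch0
  obtain ⟨c1, hc1, d1, f1⟩ := hchi 1 (by decide)
  obtain ⟨c2, hc2, d2, f2⟩ := hchi 2 (by decide)
  obtain ⟨c3, hc3, d3, f3⟩ := hchi 3 (by decide)
  have hle : Sml Y (min δ ε) ≤ Sml Y δ := by
    unfold Sml cl
    refine AddSubgroup.closure_mono ?_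
    rintro _ ⟨σ, ⟨h1, h2⟩, rfl⟩
    exact ⟨σ, ⟨h1, fun x hx y hy => lt_of_lt_of_le (h2 x hx y hy) (min_le_left _ _)⟩, rfl⟩
  have g0 : pth 0 1 = pth 1 0 := hglue 0
  have g1 : pth 1 1 = pth 2 0 := hglue 1
  have g2 : pth 2 1 = pth 3 0 := hglue 2
  have g3 : pth 3 1 = pth 0 0 := hglue 3
  have hcyc : dO (c0 + c1 + c2 + c3) = 0 := by
    rw [map_add, map_add, map_add, d0, d1, d2, d3, g0, g1, g2, g3]
    abel
  have hmem : c0 + c1 + c2 + c3 ∈ Sml Y δ :=
    hle (add_mem (add_mem (add_mem hc0 hc1) hc2) hc3)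
  obtain ⟨w, hw, hwc⟩ := hδ2 _ hmem (by rw [hcyc]; exact zero_mem _)
  have r1 := crsL_Ng hAB hwc
  rw [map_sub, crsL_dO hAB hsm hw, map_add, map_add, map_add, f0, f1, f2, f3] at r1
  have q0 : ψ (pth 0 0) = 1 := if_pos (show |h (pth 0 0)| ≤ T (pth 0 0) from hs.le)
  have q1 : ψ (pth 0 1) = 0 := by
    refine if_neg ?_
    intro h1
    have h1' : |h (pth 0 1)| ≤ T (pth 0 1) := h1
    have := abs_nonneg (h (pth 0 1))
    linarith
  rw [q0, q1] at r1
  exact absurd r1 (by decide)

end Pool.Agent.H71.SM
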