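import Pool.Agent.H71.SM.Compact

/-!
# The thickening of the sphere is metrizable
-/

namespace Pool.Agent.H71.SM

open Pool.Agent.H73.Avr Pool.Agent.H71.AV

section aux

variable {n : ℕ}

private theorem mz_ri_add (f g : Sph n → ℝ) (w : Sph n →₀ ℝ) :
    ri (f + g) w = ri f w + ri g w := by
  unfold ri
  rw [← Finsupp.sum_add]
  refine Finsupp.sum_congr fun x _ => ?_
  rw [Pi.add_apply]; ring

private theorem mz_ri_smul (c : ℝ) (f : Sph n → ℝ) (w : Sph n →₀ ℝ) :
    ri (c • f) w = c * ri f w := by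
  unfold ri
  rw [Finsupp.mul_sum]
  refine Finsupp.sum_congr fun x _ => ?_
  rw [Pi.smul_apply, smul_eq_mul]; ring

private noncomputable def mzR (n k : ℕ) : Submodule ℝ (Sph n → ℝ) :=
  Submodule.span ℝ {f | ∃ m, m ≤ k ∧ ∃ φ : Fin m → Fin (n + 1), f = rmon φ}

private theorem mzR_mono {k l : ℕ} (hkl : k ≤ l) : mzR n k ≤ mzR n l := by
  apply Submodule.span_mono
  rintro f ⟨m, hm, φ, rfl⟩
  exact ⟨m, by omega, φ, rfl⟩

private noncomputable def mzl (y x : Sph n) : ℝ := ∑ i, x.1 i * y.1 i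

private theorem mzl_eq_inner (y x : Sph n) : mzl y x = inner ℝ x.1 y.1 := by
  rw [PiLp.inner_apply]
  unfold mzl
  refine Finset.sum_congr rfl fun i _ => ?_
  simp [mul_comm]

private theorem mzl_self (x : Sph n) : mzl x x = 1 := by
  rw [mzl_eq_inner, real_inner_self_eq_norm_sq, mem_sphere_zero_iff_norm.1 x.2, one_pow]

private theorem mzl_ne_one {x y : Sph n} (hxy : x ≠ y) : mzl y x ≠ 1 := by
  rw [mzl_eq_inner]
  intro h
  apply hxy
  apply Subtype.ext
  exact (inner_eq_one_iff_of_norm_eq_one (mem_sphere_zero_iff_norm.1 x.2)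
    (mem_sphere_zero_iff_norm.1 y.2)).1 h

private theorem mzl_mul_mem (y : Sph n) {k : ℕ} {w : Sph n → ℝ} (hw : w ∈ mzR n k) :
    mzl y * w ∈ mzR n (k + 1) := by
  unfold mzR at hw
  induction hw using Submodule.span_induction with
  | mem f hf =>
    obtain ⟨m, hm, φ, rfl⟩ := hf
    have : mzl y * rmon φ = ∑ i, (y.1 i) • rmon (Fin.cons i φ : Fin (m + 1) → Fin (n + 1)) := by
      funext x
      rw [Finset.sum_apply, Pi.mul_apply]
      unfold mzl
      rw [Finset.sum_mul]
      refine Finset.sum_congr rfl fun i _ => ?_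
      rw [Pi.smul_apply, smul_eq_mul, rmon, rmon, Fin.prod_univ_succ (n := m)]
      simp only [Fin.cons_zero, Fin.cons_succ]
      ring
    rw [this]
    exact Submodule.sum_mem _ fun i _ => Submodule.smul_mem _ _ (Submodule.subset_span
      ⟨m + 1, by omega, _, rfl⟩)
  | zero => rw [mul_zero]; exact Submodule.zero_mem _
  | add f g _ _ hf hg => rw [mul_add]; exact Submodule.add_mem _ hf hg
  | smul c f _ hf => rw [mul_smul_comm]; exact Submodule.smul_mem _ _ hf

private theorem mz_prod_mem (s : Finset (Sph n)) :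
    (fun x : Sph n => ∏ y ∈ s, (1 - mzl y x)) ∈ mzR n s.card := by
  classical
  induction s using Finset.induction_on with
  | empty =>
    refine Submodule.subset_span ⟨0, le_refl _, Fin.elim0, ?_⟩
    funext x
    simp [rmon]
  | insert y s hy ih =>
    rw [Finset.card_insert_of_notMem hy]
    have : (fun x : Sph n => ∏ y ∈ insert y s, (1 - mzl y x)) =
        (fun x : Sph n => ∏ y ∈ s, (1 - mzl y x)) -
          mzl y * (fun x : Sph n => ∏ y ∈ s, (1 - mzl y x)) := by
      funext x
      simp only [Pi.sub_apply, Pi.mul_apply, Finset.prod_insert hy]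
      ring
    rw [this]
    exact Submodule.sub_mem _ (mzR_mono (Nat.le_succ _) ih) (mzl_mul_mem y ih)

private theorem mz_eq_of_mem {k : ℕ} {v w : Sph n →₀ ℝ}
    (hm : ∀ m ≤ k, ∀ φ : Fin m → Fin (n + 1), ri (rmon φ) v = ri (rmon φ) w)
    {f : Sph n → ℝ} (hf : f ∈ mzR n k) : ri f v = ri f w := by
  unfold mzR at hf
  induction hf using Submodule.span_induction with
  | mem f hf =>
    obtain ⟨m, hm', φ, rfl⟩ := hf
    exact hm m hm' φ
  | zero => simp [ri]
  | add f g _ _ hf hg => rw [mz_ri_add, mz_ri_add, hf, hg]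
  | smul c f _ hf => rw [mz_ri_smul, mz_ri_smul, hf]

private theorem mz_ri_point {S : Finset (Sph n)} {w : Sph n →₀ ℝ} (hS : w.support ⊆ S)
    {x0 : Sph n} {f : Sph n → ℝ} (hf : ∀ x ∈ S, x ≠ x0 → f x = 0) :
    ri f w = w x0 * f x0 := by
  classical
  unfold ri
  rw [Finsupp.sum]
  by_cases h0 : w x0 = 0
  · rw [h0, zero_mul]
    refine Finset.sum_eq_zero fun x hx => ?_
    have hx' := Finsupp.mem_support_iff.1 hx
    rw [hf x (hS hx) (by rintro rfl; exact hx' h0), mul_zero]
  · rw [Finset.sum_eq_single x0]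
    · intro x hx hne
      rw [hf x (hS hx) hne, mul_zero]
    · intro h
      exact absurd (Finsupp.mem_support_iff.2 h0) h

end aux

theorem eq_of_moments {n : ℕ} {r : ℝ} {p : ℕ} (μ ν : AVR (geo n) r)
    (hμ : μ.w.support.card ≤ p) (hν : ν.w.support.card ≤ p)
    (hm : ∀ m ≤ 2 * p, ∀ φ : Fin m → Fin (n + 1), ri (rmon φ) μ.w = ri (rmon φ) ν.w) :
    μ = ν := by
  classical
  apply AVR.ext
  ext x0
  set S : Finset (Sph n) := μ.w.support ∪ ν.w.support with hS
  have hcard : S.card ≤ 2 * p := by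
    have h1 := Finset.card_union_le μ.w.support ν.w.support
    rw [← hS] at h1
    omega
  by_cases hx0 : x0 ∈ S
  · set f : Sph n → ℝ := fun x => ∏ y ∈ S.erase x0, (1 - mzl y x) with hf
    have hfm : f ∈ mzR n (2 * p) := by
      refine mzR_mono ?_ (mz_prod_mem (S.erase x0))
      exact (Finset.card_le_card (Finset.erase_subset _ _)).trans hcard
    have hf0 : f x0 ≠ 0 := by
      rw [hf]
      refine Finset.prod_ne_zero_iff.2 fun y hy => ?_
      rw [Finset.mem_erase] at hy
      exact sub_ne_zero.2 (mzl_ne_one (Ne.symm hy.1)).symm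
    have hfz : ∀ x ∈ S, x ≠ x0 → f x = 0 := by
      intro x hx hne
      rw [hf]
      exact Finset.prod_eq_zero (Finset.mem_erase.2 ⟨hne, hx⟩) (by rw [mzl_self, sub_self])
    have h3 := mz_eq_of_mem hm hfm
    rw [mz_ri_point (S := S) (hS ▸ Finset.subset_union_left) hfz,
      mz_ri_point (S := S) (hS ▸ Finset.subset_union_right) hfz] at h3
    exact mul_right_cancel₀ hf0 h3
  · rw [hS, Finset.mem_union, not_or] at hx0
    rw [Finsupp.notMem_support_iff.1 hx0.1, Finsupp.notMem_support_iff.1 hx0.2]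

theorem avr_metrizable {n : ℕ} {r : ℝ} (hr : 0 < r) :
    TopologicalSpace.MetrizableSpace (AVR (geo n) r) := by
  classical
  obtain ⟨p, hp⟩ := exists_packing n hr
  have : CompactSpace (AVR (geo n) r) := avr_compact hr
  set f : AVR (geo n) r → ((Σ m : Fin (2 * p + 1), (Fin m.1 → Fin (n + 1))) → ℝ) :=
    fun μ J => ri (rmon J.2) μ.w with hf
  have hfc : Continuous f := continuous_pi fun J => continuous_rmon J.2
  have hinj : Function.Injective f := by
    intro μ ν h
    refine eq_of_moments (p := p) μ ν (hp _ fun x hx y hy hxy => μ.spread x hx y hy hxy)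
      (hp _ fun x hx y hy hxy => ν.spread x hx y hy hxy) ?_
    intro m hm φ
    exact congrFun h ⟨⟨m, by omega⟩, φ⟩
  exact (hfc.isClosedEmbedding hinj).isEmbedding.metrizableSpace

end Pool.Agent.H71.SM
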