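import Pool.Agent.H71.SM.CutR
import Pool.Agent.H71.SM.Dis
import Pool.Agent.H48.NE.DomN

/-!
# Module OpF: the collision operator at a touching point

`K₁` from `opR`, `K = K₁ (1+Γ)`. `x = 0` gives the first bounds. For the second ones: `κ` from `domN` (`R`, `cH`), `c₁, c₂` from `dis_low`, `ρ ≤ 1/8` so small that `κ c₂ ρ^(-2s) ≥ K + A` (`ρ^(-2s) → ∞`), `ν = c₁ ρ^d`. `domN` (with `H = F`, `E = gap ≥ 0`, `ε ≤ ρ^2`) and `dis_low` (`D = ±(F-M)`, the integral of `|D|` over `len u ≤ R+1` is `NB (R+1) M F`) give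
`ofReal (κ c₂ ρ^(-2s) Λ) ≤ DsN`, so `opR` with `x = κ c₂ ρ^(-2s) Λ`, `ε₀ = ρ^2`.
-/

set_option autoImplicit false

open MeasureTheory Set Filter Topology Pool.Agent.H25.Kin Pool.Agent.H82.BK Pool.Agent.H82.CM
open Pool.Agent.H48.PL Pool.Agent.H48.PI Pool.Agent.H48.PW Pool.Agent.H48.PD Pool.Agent.H48.PR

namespace Pool.Agent.H71.SM

variable {d : ℕ} {γ s C Ca cb : ℝ} {b : ℝ → ℝ}

private lemma opF_len_cont : Continuous (len : Vec d → ℝ) := continuous_sq.sqrt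

private lemma opF_gap_meas {D : Vec d → ℝ} (hD : Continuous D) (p : ℕ) (Λ : ℝ) (v : Vec d) :
    Measurable (gap p Λ D v) := by
  have h1 : Continuous (fun u : Vec d => len (u - v)) :=
    opF_len_cont.comp (continuous_id.sub continuous_const)
  have h2 : Continuous (gap p Λ D v) := by
    unfold gap
    exact ((continuous_const.mul (Wp_cont p)).mul
      (continuous_const.add (continuous_const.min h1))).sub hD
  exact h2.measurable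

theorem op_fin (HL : HypL d γ s b C Ca cb) (h0 : 0 ≤ γ) (hs : 2 * s < 1) {p : ℕ} (hp : d + 10 ≤ p)
    (Cl : ℕ → ℝ) {Γ R : ℝ} (hΓ : 0 ≤ Γ) (hR : 0 ≤ R) : ∃ K : ℝ, 0 ≤ K ∧ ∀ cH : ℝ, 0 < cH → ∀ A : ℝ,
      ∃ ν : ℝ, 0 < ν ∧ ∀ (Λ : ℝ) (M F : Vec d → ℝ), ML Cl Γ p M → ∀ v : Vec d, len v ≤ R →
      TQ Cl p Λ M F v → (∀ u, len u ≤ R + 2 → cH ≤ F u) → boltzQ γ b M v = 0 →
      ∀ σ : ℝ, (σ = 1 ∨ σ = -1) → σ * (F v - M v) = Λ * Wp p v →
        σ * boltzQ γ b F v ≤ K * Λ ∧ (NB (R + 1) M F ≤ ν * Λ → σ * boltzQ γ b F v ≤ -(A * Λ)) := by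
  obtain ⟨K₁, hK₁, hop⟩ := opR HL h0 hs hp Cl R
  have hK0 : 0 ≤ K₁ * (1 + Γ) := by positivity
  refine ⟨K₁ * (1 + Γ), hK0, fun cH hcH A => ?_⟩
  have hs0 : 0 < s := HL.H.hs
  obtain ⟨κ, hκ, hdom⟩ := Pool.Agent.H48.NE.domN HL hs h0 R hcH
  obtain ⟨c₁, c₂, hc₁, hc₂, hlow⟩ := dis_low (d := d) HL.H.hd1 p hR hs0
  have ht : Tendsto (fun ρ : ℝ => ρ ^ (-(2 * s))) (𝓝[>] 0) atTop :=
    tendsto_rpow_neg_nhdsGT_zero (by linarith)
  have hev : ∀ᶠ ρ : ℝ in 𝓝[>] 0, (K₁ * (1 + Γ) + A) / (κ * c₂) ≤ ρ ^ (-(2 * s)) ∧ ρ ∈ Ioo (0 : ℝ) (1 / 8) :=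
    (ht.eventually_ge_atTop _).and (Ioo_mem_nhdsGT (by norm_num))
  obtain ⟨ρ, hρ1, hρ0, hρ8⟩ := hev.exists
  rw [div_le_iff₀ (mul_pos hκ hc₂)] at hρ1
  refine ⟨c₁ * ρ ^ d, by positivity, fun Λ M F hM v hv hT hF hQ σ hσ htou => ?_⟩
  have hMc : Continuous M := hM.fb.nice.cont
  have hFc : Continuous F := hT.fb.nice.cont
  have hΛ := hT.lam
  have hx0 : 0 ≤ κ * (c₂ * ρ ^ (-(2 * s)) * Λ) := by
    have := Real.rpow_nonneg hρ0.le (-(2 * s))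
    positivity
  have hfin : K₁ * (1 + Γ) * Λ - κ * (c₂ * ρ ^ (-(2 * s)) * Λ) ≤ -(A * Λ) := by
    nlinarith [mul_le_mul_of_nonneg_right hρ1 hΛ]
  have hz : ∀ (D : Vec d → ℝ) (ε : ℝ), 0 < ε → ε ≤ 1 →
      ENNReal.ofReal 0 ≤ Pool.Agent.H48.NE.DsN γ b ε F (gap p Λ D v) v := by
    intro D ε _ _
    simp
  have hbig : ∀ D : Vec d → ℝ, Continuous D → (∀ u, |D u| = |F u - M u|) →
      NB (R + 1) M F ≤ c₁ * ρ ^ d * Λ → ∀ ε : ℝ, 0 < ε → ε ≤ ρ ^ 2 →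
      ENNReal.ofReal (κ * (c₂ * ρ ^ (-(2 * s)) * Λ)) ≤
        Pool.Agent.H48.NE.DsN γ b ε F (gap p Λ D v) v := by
    intro D hDc hD hN ε hε hερ
    have hdif : ∀ u, |D u| ≤ Λ * Wp p u * (1 + min 1 (len (u - v))) := fun u => by
      rw [hD u]; exact hT.dif u
    have hint : ∫ u in {u : Vec d | len u ≤ R + 1}, |D u| ≤ c₁ * ρ ^ d * Λ := by
      simp_rw [hD]
      exact hN
    refine (hlow ρ hρ0 hρ8.le Λ κ hΛ hκ.le D v hDc hv hdif hint).trans ?_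
    refine hdom ρ hρ0 (by linarith) ε hε hερ F (gap p Λ D v) hFc.measurable hT.fb.nonneg
      (opF_gap_meas hDc p Λ v) (fun u => ?_) v hv hF
    unfold gap
    linarith [hdif u, le_abs_self (D u)]
  rcases hσ with rfl | rfl
  · rw [one_mul] at htou ⊢
    constructor
    · have h := (hop Γ Λ M F hM v hv hT 0 le_rfl 1 one_pos).1 htou (hz _)
      rw [hQ] at h
      linarith
    · intro hN
      have h := (hop Γ Λ M F hM v hv hT _ hx0 (ρ ^ 2) (by positivity)).1 htou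
        (hbig _ (hFc.sub hMc) (fun u => rfl) hN)
      rw [hQ] at h
      linarith
  · have htou' : M v - F v = Λ * Wp p v := by linarith
    constructor
    · have h := (hop Γ Λ M F hM v hv hT 0 le_rfl 1 one_pos).2 htou' (hz _)
      rw [hQ] at h
      linarith
    · intro hN
      have h := (hop Γ Λ M F hM v hv hT _ hx0 (ρ ^ 2) (by positivity)).2 htou'
        (hbig _ (hMc.sub hFc) (fun u => abs_sub_comm _ _) hN)
      rw [hQ] at h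
      linarith

end Pool.Agent.H71.SM
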