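import Pool.Agent.H71.SM.PhP
import Pool.Agent.H71.SM.Gen

/-!
# Module PotS: the potential is small and Lipschitz in the velocity

* `A y w = jS (M w) (F y w)` is of the class `SA e` (`Gen`): continuous, periodic, planar, `|A| ≤ |F - M| ≤ F + M` (`jS_nonneg`, `jS_up`), rapid decay from `h.decF` and `hM.fb.le`. The same for `bet 2 F`, `bet 1 F` (`0 ≤ bet C r ≤ r`).
* `EJ = ∫ kl (∫ w, PhC v w jS)(x - z e)`: `jS_eq`, linearity (`sa_int`, `sa_kl`), and the term `∫ w, PhC v w (bet 1 (M w) - bet' 2 (..) bet 2 (M w))` does not depend on `z`: `kl_zero`. (Lemma `EJ_eq`; it is also used in DerS.)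
* `EJ_abs`: `|PhC| ≤ 1`, `sa_src` with `m y = ∫ w, |F y w - M w|` or `∫ w, jS ..` (class `PlF`, `sa_pl` with the weight `1`), `∫ m dμ ≤ L1` (`nu_integral`, `sa_nu`). `EJ_osc`: the same with the weight `PhC u w - PhC v w`, `PhC_osc`; the factor `1/2` of `sa_src` is not needed.
-/

set_option autoImplicit false

open MeasureTheory Set Filter Topology Pool.Agent.H25.Kin Pool.Agent.H82.BK Pool.Agent.H82.CM
open Pool.Agent.H48.PL Pool.Agent.H48.PI Pool.Agent.H48.PW Pool.Agent.H48.PD Pool.Agent.H48.PR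

namespace Pool.Agent.H71.SM

variable {d : ℕ} {e : Fin d} {δ R Γ : ℝ} {M : Vec d → ℝ} {Cl : ℕ → ℝ} {p : ℕ}
  {F G : Vec d → Vec d → ℝ}

private lemma PotS_bet_cont {X : Type*} [TopologicalSpace X] {C : ℝ} (hC : 0 < C) {u : X → ℝ}
    (hu : Continuous u) (h0 : ∀ x, 0 ≤ u x) : Continuous fun x => bet C (u x) := by
  unfold bet
  refine (continuous_const.mul hu).div (continuous_const.add hu) fun x => ?_
  have := h0 x
  exact (by linarith : (0 : ℝ) < C + u x).ne'

private lemma PotS_bet'_cont {X : Type*} [TopologicalSpace X] {C : ℝ} (hC : 0 < C) {u : X → ℝ}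
    (hu : Continuous u) (h0 : ∀ x, 0 ≤ u x) : Continuous fun x => bet' C (u x) := by
  unfold bet'
  refine (continuous_const.div (continuous_const.add hu) fun x => ?_).pow 2
  have := h0 x
  exact (by linarith : (0 : ℝ) < C + u x).ne'

private lemma PotS_jS_cont {X : Type*} [TopologicalSpace X] {m r : X → ℝ} (hm : Continuous m)
    (hm0 : ∀ x, 0 ≤ m x) (hr : Continuous r) (hr0 : ∀ x, 0 ≤ r x) :
    Continuous fun x => jS (m x) (r x) := by
  unfold jS
  have h2 : (0 : ℝ) < 2 := by norm_num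
  have a1 : Continuous fun x => bet 2 (m x) := PotS_bet_cont h2 hm hm0
  have a2 : Continuous fun x => bet 2 (r x) := PotS_bet_cont h2 hr hr0
  have b1 : ∀ x, 0 ≤ bet 2 (m x) := fun x => bet_nonneg h2 (hm0 x)
  have b2 : ∀ x, 0 ≤ bet 2 (r x) := fun x => bet_nonneg h2 (hr0 x)
  exact ((PotS_bet_cont h2 a1 b1).add ((PotS_bet'_cont h2 a1 b1).mul (a2.sub a1))).sub
    (PotS_bet_cont h2 a2 b2)

private lemma PotS_Mc (hM : ML Cl Γ p M) : Continuous M := hM.fb.nice.cont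

private lemma PotS_SA_abs (hM : ML Cl Γ p M) (h : FS e F G) : SA e fun y w => |F y w - M w| := by
  refine ⟨(h.contF.sub ((PotS_Mc hM).comp continuous_snd)).abs, fun N => ?_, ?_, ?_⟩
  · obtain ⟨C, hC⟩ := h.decF N
    refine ⟨C + Cl N, fun x v => ?_⟩
    have h1 := hC x v
    have h2 := hM.fb.le N v
    have h3 : |F x v - M v| ≤ |F x v| + M v := by
      have := abs_sub (F x v) (M v)
      rwa [abs_of_nonneg (hM.fb.nonneg v)] at this
    have h4 : 0 ≤ (1 + ‖v‖) ^ N := pow_nonneg (w_pos v).le N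
    rw [abs_abs]
    nlinarith [mul_le_mul_of_nonneg_left h3 h4]
  · intro x v i
    simp only [h.perF]
  · intro x y v hxy
    simp only [h.plF x y v hxy]

private lemma PotS_SA_bet {C : ℝ} (hC0 : 0 < C) (h : FS e F G) : SA e fun y w => bet C (F y w) := by
  refine ⟨PotS_bet_cont hC0 h.contF fun q => h.nonneg q.1 q.2, fun N => ?_, ?_, ?_⟩
  · obtain ⟨K, hK⟩ := h.decF N
    refine ⟨K, fun x v => ?_⟩
    refine (mul_le_mul_of_nonneg_left ?_ (pow_nonneg (w_pos v).le N)).trans (hK x v)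
    rw [abs_of_nonneg (bet_nonneg hC0 (h.nonneg x v)), abs_of_nonneg (h.nonneg x v)]
    exact bet_le hC0 (h.nonneg x v)
  · intro x v i
    simp only [h.perF]
  · intro x y v hxy
    simp only [h.plF x y v hxy]

/-- `jS (M w) (F y w)` is of the class `SA` -/
lemma SA_jS (hM : ML Cl Γ p M) (h : FS e F G) : SA e fun y w => jS (M w) (F y w) := by
  refine ⟨PotS_jS_cont ((PotS_Mc hM).comp continuous_snd) (fun q => hM.fb.nonneg q.2) h.contF
    (fun q => h.nonneg q.1 q.2), fun N => ?_, ?_, ?_⟩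
  · obtain ⟨K, hK⟩ := (PotS_SA_abs hM h).dec N
    refine ⟨K, fun x v => ?_⟩
    refine (mul_le_mul_of_nonneg_left ?_ (pow_nonneg (w_pos v).le N)).trans (hK x v)
    rw [abs_abs, abs_of_nonneg (jS_nonneg (hM.fb.nonneg v) (h.nonneg x v))]
    exact jS_up (hM.fb.nonneg v) (h.nonneg x v)
  · intro x v i
    simp only [h.perF]
  · intro x y v hxy
    simp only [h.plF x y v hxy]

private lemma PotS_PGW_const (K : ℝ) : PGW (fun _ _ : Vec d => K) := by
  refine ⟨continuous_const, 0, |K|, abs_nonneg _, fun v w => ?_⟩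
  simp

private lemma PotS_pl_const (e : Fin d) (c : ℝ) : PlF e fun _ : Vec d => c :=
  ⟨continuous_const, fun _ _ => rfl, fun _ _ _ => rfl⟩

private lemma PotS_aux (hM : ML Cl Γ p M) (h : FS e F G) {K : ℝ} (hK : 0 ≤ K) {a : Vec d → ℝ}
    (ha : ∀ y, |a y| ≤ ∫ w, K * jS (M w) (F y w)) (x : Vec d) :
    |∫ z in Ioo (-((1 : ℝ) / 2)) (1 / 2), kl 1 z * a (x - Pi.single e z)| ≤
      K * ∫ q, |F q.2 q.1 - M q.1| ∂(nu d) := by
  have hc := PotS_PGW_const (d := d) K
  have hJ := SA_jS hM h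
  have hA := PotS_SA_abs hM h
  have h1 := sa_src (sa_pl hJ hc (0 : Vec d)) ha x
  have i1 := sa_nu hJ hc (0 : Vec d)
  have i2 := sa_nu hA hc (0 : Vec d)
  have h2 : ∫ y, (∫ w, K * jS (M w) (F y w)) ∂(muD d) =
      ∫ q, K * jS (M q.1) (F q.2 q.1) ∂(nu d) := (Pool.Agent.H15.AV.nu_integral i1).symm
  have h3 : ∫ q, K * jS (M q.1) (F q.2 q.1) ∂(nu d) ≤ ∫ q, K * |F q.2 q.1 - M q.1| ∂(nu d) := by
    refine integral_mono i1 i2 fun q => ?_
    exact mul_le_mul_of_nonneg_left (jS_up (hM.fb.nonneg _) (h.nonneg _ _)) hK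
  have h4 : ∫ q, K * |F q.2 q.1 - M q.1| ∂(nu d) = K * ∫ q, |F q.2 q.1 - M q.1| ∂(nu d) :=
    integral_const_mul _ _
  have h5 : 0 ≤ ∫ q, |F q.2 q.1 - M q.1| ∂(nu d) := integral_nonneg fun _ => abs_nonneg _
  have h6 := mul_nonneg hK h5
  rw [h2] at h1
  linarith

private lemma PotS_inner (hδ : 0 < δ) (hM : ML Cl Γ p M) (h : FS e F G) (v y : Vec d) :
    ∫ w, PhC e δ R v w * jS (M w) (F y w) =
      (∫ w, PhM e δ R M v w * bet 2 (F y w)) - (∫ w, PhC e δ R v w * bet 1 (F y w)) +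
        ∫ w, PhC e δ R v w * (bet 1 (M w) - bet' 2 (bet 2 (M w)) * bet 2 (M w)) := by
  have p1 := PhC_PGW (d := d) hδ e R
  have p2 := PhM_PGW (R := R) hδ e (PotS_Mc hM) hM.fb.nonneg
  have i1 := sa_int (SA_jS hM h) p1 y v
  have i2 := sa_int (PotS_SA_bet (by norm_num : (0 : ℝ) < 2) h) p2 y v
  have i3 := sa_int (PotS_SA_bet (by norm_num : (0 : ℝ) < 1) h) p1 y v
  have e1 : ∀ w, PhC e δ R v w * jS (M w) (F y w) =
      PhM e δ R M v w * bet 2 (F y w) - PhC e δ R v w * bet 1 (F y w) +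
        PhC e δ R v w * (bet 1 (M w) - bet' 2 (bet 2 (M w)) * bet 2 (M w)) := by
    intro w
    rw [jS_eq (hM.fb.nonneg w) (h.nonneg y w)]
    unfold PhM
    ring
  have i4 : Integrable fun w => PhC e δ R v w *
      (bet 1 (M w) - bet' 2 (bet 2 (M w)) * bet 2 (M w)) := by
    refine ((i1.sub i2).add i3).congr (Eventually.of_forall fun w => ?_)
    show PhC e δ R v w * jS (M w) (F y w) - PhM e δ R M v w * bet 2 (F y w) +
      PhC e δ R v w * bet 1 (F y w) = _
    rw [e1 w]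
    ring
  have i5 : Integrable fun w => PhM e δ R M v w * bet 2 (F y w) -
      PhC e δ R v w * bet 1 (F y w) := i2.sub i3
  rw [← integral_sub i2 i3, ← integral_add i5 i4]
  exact integral_congr_ae (Eventually.of_forall e1)

theorem EJ_eq (hδ : 0 < δ) (hM : ML Cl Γ p M) (h : FS e F G) (x v : Vec d) :
    EJ e δ R M F x v = ∫ z in Ioo (-((1 : ℝ) / 2)) (1 / 2),
      kl 1 z * ∫ w, PhC e δ R v w * jS (M w) (F (x - Pi.single e z) w) := by
  have p1 := PhC_PGW (d := d) hδ e R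
  have p2 := PhM_PGW (R := R) hδ e (PotS_Mc hM) hM.fb.nonneg
  have q2 := sa_kl (sa_pl (PotS_SA_bet (by norm_num : (0 : ℝ) < 2) h) p2 v) x
  have q1 := sa_kl (sa_pl (PotS_SA_bet (by norm_num : (0 : ℝ) < 1) h) p1 v) x
  have q0 := sa_kl (PotS_pl_const e
    (∫ w, PhC e δ R v w * (bet 1 (M w) - bet' 2 (bet 2 (M w)) * bet 2 (M w)))) x
  have e1 : ∀ z : ℝ, kl 1 z * (∫ w, PhC e δ R v w * jS (M w) (F (x - Pi.single e z) w)) =
      kl 1 z * (∫ w, PhM e δ R M v w * bet 2 (F (x - Pi.single e z) w)) -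
        kl 1 z * (∫ w, PhC e δ R v w * bet 1 (F (x - Pi.single e z) w)) +
        kl 1 z * (∫ w, PhC e δ R v w * (bet 1 (M w) - bet' 2 (bet 2 (M w)) * bet 2 (M w))) := by
    intro z
    have h1 := PotS_inner (R := R) hδ hM h v (x - (Pi.single e z : Vec d))
    rw [h1]
    ring
  have e2 : (∫ z in Ioo (-((1 : ℝ) / 2)) (1 / 2),
      kl 1 z * ∫ w, PhC e δ R v w * jS (M w) (F (x - Pi.single e z) w)) =
      ∫ z in Ioo (-((1 : ℝ) / 2)) (1 / 2),
        (kl 1 z * (∫ w, PhM e δ R M v w * bet 2 (F (x - Pi.single e z) w)) -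
        kl 1 z * (∫ w, PhC e δ R v w * bet 1 (F (x - Pi.single e z) w)) +
        kl 1 z * (∫ w, PhC e δ R v w * (bet 1 (M w) - bet' 2 (bet 2 (M w)) * bet 2 (M w)))) :=
    integral_congr_ae (Eventually.of_forall e1)
  have q3 : Integrable (fun z : ℝ =>
      kl 1 z * (∫ w, PhM e δ R M v w * bet 2 (F (x - Pi.single e z) w)) -
        kl 1 z * (∫ w, PhC e δ R v w * bet 1 (F (x - Pi.single e z) w)))
      (volume.restrict (Ioo (-(1 / 2)) (1 / 2))) := q2.sub q1
  rw [e2, integral_add q3 q0, integral_sub q2 q1, integral_mul_const, kl_zero, zero_mul,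
    add_zero]
  rfl

lemma L1_nonneg (M : Vec d → ℝ) (F : Vec d → Vec d → ℝ) : 0 ≤ L1 M F :=
  integral_nonneg fun _ => abs_nonneg _

theorem EJ_abs (hδ : 0 < δ) (hM : ML Cl Γ p M) (h : FS e F G) (x v : Vec d) :
    |EJ e δ R M F x v| ≤ L1 M F := by
  have p1 := PhC_PGW (d := d) hδ e R
  rw [EJ_eq hδ hM h x v]
  have h1 := PotS_aux hM h (K := 1) zero_le_one
    (a := fun y => ∫ w, PhC e δ R v w * jS (M w) (F y w)) (fun y => ?_) x
  · rw [one_mul] at h1
    exact h1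
  · have i1 := sa_int (SA_jS hM h) p1 y v
    have i2 := sa_int (SA_jS hM h) (PotS_PGW_const (d := d) 1) y v
    have h2 : ‖∫ w, PhC e δ R v w * jS (M w) (F y w)‖ ≤ ∫ w, 1 * jS (M w) (F y w) := by
      refine norm_integral_le_of_norm_le i2 (Eventually.of_forall fun w => ?_)
      rw [norm_mul, Real.norm_eq_abs, Real.norm_eq_abs,
        abs_of_nonneg (jS_nonneg (hM.fb.nonneg w) (h.nonneg y w))]
      exact mul_le_mul_of_nonneg_right (PhC_abs e δ R v w)
        (jS_nonneg (hM.fb.nonneg w) (h.nonneg y w))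
    exact h2

theorem EJ_osc (hδ : 0 < δ) (hδ1 : δ ≤ 1) (hM : ML Cl Γ p M) (h : FS e F G) (x u v : Vec d) :
    |EJ e δ R M F x u - EJ e δ R M F x v| ≤ 2 / δ * L1 M F * min 1 (len (u - v)) := by
  have p1 := PhC_PGW (d := d) hδ e R
  have qu := sa_kl (sa_pl (SA_jS hM h) p1 u) x
  have qv := sa_kl (sa_pl (SA_jS hM h) p1 v) x
  have hK : 0 ≤ 2 / δ * min 1 (len (u - v)) :=
    mul_nonneg (by positivity) (le_min zero_le_one (len_nonneg _))
  rw [EJ_eq hδ hM h x u, EJ_eq hδ hM h x v]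
  have e1 : (∫ z in Ioo (-((1 : ℝ) / 2)) (1 / 2),
      kl 1 z * ∫ w, PhC e δ R u w * jS (M w) (F (x - Pi.single e z) w)) -
      (∫ z in Ioo (-((1 : ℝ) / 2)) (1 / 2),
      kl 1 z * ∫ w, PhC e δ R v w * jS (M w) (F (x - Pi.single e z) w)) =
      ∫ z in Ioo (-((1 : ℝ) / 2)) (1 / 2), kl 1 z *
        ((∫ w, PhC e δ R u w * jS (M w) (F (x - Pi.single e z) w)) -
          ∫ w, PhC e δ R v w * jS (M w) (F (x - Pi.single e z) w)) := by
    rw [← integral_sub qu qv]
    refine integral_congr_ae (Eventually.of_forall fun z => ?_)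
    show _ = _
    ring
  rw [e1]
  have h1 := PotS_aux hM h hK
    (a := fun y => (∫ w, PhC e δ R u w * jS (M w) (F y w)) -
      ∫ w, PhC e δ R v w * jS (M w) (F y w)) (fun y => ?_) x
  · have h2 : 2 / δ * min 1 (len (u - v)) * (∫ q, |F q.2 q.1 - M q.1| ∂(nu d)) =
        2 / δ * L1 M F * min 1 (len (u - v)) := by
      unfold L1
      ring
    rw [h2] at h1
    exact h1
  · have i1 := sa_int (SA_jS hM h) p1 y u
    have i2 := sa_int (SA_jS hM h) p1 y v
    have i3 := sa_int (SA_jS hM h) (PotS_PGW_const (d := d) (2 / δ * min 1 (len (u - v)))) y v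
    have h2 : ‖∫ w, (PhC e δ R u w * jS (M w) (F y w) - PhC e δ R v w * jS (M w) (F y w))‖ ≤
        ∫ w, 2 / δ * min 1 (len (u - v)) * jS (M w) (F y w) := by
      refine norm_integral_le_of_norm_le i3 (Eventually.of_forall fun w => ?_)
      rw [← sub_mul, norm_mul, Real.norm_eq_abs, Real.norm_eq_abs,
        abs_of_nonneg (jS_nonneg (hM.fb.nonneg w) (h.nonneg y w))]
      exact mul_le_mul_of_nonneg_right (PhC_osc hδ hδ1 u v w)
        (jS_nonneg (hM.fb.nonneg w) (h.nonneg y w))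
    rw [integral_sub i1 i2] at h2
    exact h2

end Pool.Agent.H71.SM
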