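import Pool.Agent.H71.AV.Refl

/-!
# The equatorial two-sphere in a sphere of even dimension
-/

namespace Pool.Agent.H71.SM

open Pool.Agent.H73.Avr Pool.Agent.H71.AV

/-- the linear inclusion of the first three coordinates -/
noncomputable def linc (m : ℕ) (y : EuclideanSpace ℝ (Fin (2 + 1))) :
    EuclideanSpace ℝ (Fin (2 * m + 2 + 1)) :=
  WithLp.toLp 2 (fun i => if h : i.val < 3 then y ⟨i.val, h⟩ else 0)

theorem linc_apply (m : ℕ) (y : EuclideanSpace ℝ (Fin (2 + 1))) (i : Fin (2 * m + 2 + 1)) :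
    linc m y i = if h : i.val < 3 then y ⟨i.val, h⟩ else 0 := rfl

theorem linc_apply_lt (m : ℕ) (y : EuclideanSpace ℝ (Fin (2 + 1))) (i : Fin (2 * m + 2 + 1))
    (h : i.val < 3) : linc m y i = y ⟨i.val, h⟩ := by
  rw [linc_apply, dif_pos h]

theorem linc_apply_ge (m : ℕ) (y : EuclideanSpace ℝ (Fin (2 + 1))) (i : Fin (2 * m + 2 + 1))
    (h : 3 ≤ i.val) : linc m y i = 0 := by
  rw [linc_apply, dif_neg (by omega)]

theorem inner_linc (m : ℕ) (x y : EuclideanSpace ℝ (Fin (2 + 1))) :
    inner ℝ (linc m x) (linc m y) = inner ℝ x y := by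
  rw [PiLp.inner_apply, PiLp.inner_apply]
  symm
  refine Fintype.sum_of_injective
    (fun i : Fin (2 + 1) => (⟨i.val, by omega⟩ : Fin (2 * m + 2 + 1))) ?_ _ _ ?_ ?_
  · intro i j hij
    exact Fin.ext (by simpa using congrArg Fin.val hij)
  · intro i hi
    have h3 : 3 ≤ i.val := by
      by_contra hlt
      exact hi ⟨⟨i.val, by omega⟩, rfl⟩
    rw [linc_apply_ge m x i h3, linc_apply_ge m y i h3]
    simp
  · intro i
    rw [linc_apply_lt m x _ i.isLt, linc_apply_lt m y _ i.isLt]

theorem norm_linc (m : ℕ) (x : EuclideanSpace ℝ (Fin (2 + 1))) : ‖linc m x‖ = ‖x‖ := by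
  have h1 := inner_linc m x x
  rw [real_inner_self_eq_norm_sq, real_inner_self_eq_norm_sq] at h1
  exact (sq_eq_sq₀ (norm_nonneg _) (norm_nonneg _)).1 h1

/-- the inclusion of the two-sphere as the points whose coordinates `3, 4, ...` vanish -/
noncomputable def inc (m : ℕ) (y : Sph 2) : Sph (2 * m + 2) :=
  ⟨linc m y.1, by rw [mem_sphere_zero_iff_norm, norm_linc, mem_sphere_zero_iff_norm.1 y.2]⟩

theorem inc_val (m : ℕ) (y : Sph 2) : (inc m y).1 = linc m y.1 := rfl

theorem inc_apply (m : ℕ) (y : Sph 2) (i : Fin (2 * m + 2 + 1)) :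
    (inc m y).1 i = if h : i.val < 3 then y.1 ⟨i.val, h⟩ else 0 := rfl

theorem inc_apply_lt (m : ℕ) (y : Sph 2) (i : Fin (2 * m + 2 + 1)) (h : i.val < 3) :
    (inc m y).1 i = y.1 ⟨i.val, h⟩ := linc_apply_lt m y.1 i h

theorem inc_apply_ge (m : ℕ) (y : Sph 2) (i : Fin (2 * m + 2 + 1)) (h : 3 ≤ i.val) :
    (inc m y).1 i = 0 := linc_apply_ge m y.1 i h

theorem geo_inc (m : ℕ) (x y : Sph 2) : geo (2 * m + 2) (inc m x) (inc m y) = geo 2 x y := by
  unfold geo InnerProductGeometry.angle
  rw [inc_val, inc_val, inner_linc, norm_linc, norm_linc]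

theorem inc_injective (m : ℕ) : Function.Injective (inc m) := by
  intro x y hxy
  apply Subtype.ext
  ext i
  have h1 : (inc m x).1 ⟨i.val, by omega⟩ = (inc m y).1 ⟨i.val, by omega⟩ := by rw [hxy]
  rw [inc_apply_lt m x _ i.isLt, inc_apply_lt m y _ i.isLt] at h1
  exact h1

/-- a point whose coordinates `3, 4, ...` vanish lies on the two-sphere -/
theorem exists_inc (m : ℕ) (x : Sph (2 * m + 2))
    (hx : ∀ i : Fin (2 * m + 2 + 1), 3 ≤ i.val → x.1 i = 0) : ∃ y : Sph 2, inc m y = x := by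
  set z : EuclideanSpace ℝ (Fin (2 + 1)) :=
    WithLp.toLp 2 (fun i => x.1 ⟨i.val, by omega⟩) with hz
  have hzx : linc m z = x.1 := by
    ext i
    by_cases h : i.val < 3
    · rw [linc_apply_lt m z i h]
    · rw [linc_apply_ge m z i (by omega), hx i (by omega)]
  have hn : ‖z‖ = 1 := by
    rw [← norm_linc m z, hzx, mem_sphere_zero_iff_norm.1 x.2]
  exact ⟨⟨z, by rw [mem_sphere_zero_iff_norm, hn]⟩, Subtype.ext hzx⟩

/-- push forward of a point of the thickening of the two-sphere -/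
noncomputable def push (m : ℕ) {r : ℝ} (ν : AVR (geo 2) r) : AVR (geo (2 * m + 2)) r where
  w := ν.w.mapDomain (inc m)
  nonneg := by
    classical
    intro x
    rw [Finsupp.mapDomain, Finsupp.sum, Finsupp.finsetSum_apply]
    refine Finset.sum_nonneg fun y _ => ?_
    rw [Finsupp.single_apply]
    split_ifs
    · exact ν.nonneg y
    · exact le_rfl
  total := by
    rw [Finsupp.sum_mapDomain_index (by simp) (by simp)]
    exact ν.total
  spread := by
    classical
    intro x hx y hy hxy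
    rw [Finsupp.mapDomain_support_of_injective (inc_injective m), Finset.mem_image] at hx hy
    obtain ⟨x', hx', rfl⟩ := hx
    obtain ⟨y', hy', rfl⟩ := hy
    rw [geo_inc]
    exact ν.spread x' hx' y' hy' (fun h => hxy (by rw [h]))

theorem push_w (m : ℕ) {r : ℝ} (ν : AVR (geo 2) r) : (push m ν).w = ν.w.mapDomain (inc m) := rfl

theorem push_apply (m : ℕ) {r : ℝ} (ν : AVR (geo 2) r) (y : Sph 2) :
    (push m ν).w (inc m y) = ν.w y := by
  rw [push_w]
  exact Finsupp.mapDomain_apply (inc_injective m) _ _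

theorem push_apply_of_notMem (m : ℕ) {r : ℝ} (ν : AVR (geo 2) r) (x : Sph (2 * m + 2))
    (hx : ∀ y, inc m y ≠ x) : (push m ν).w x = 0 := by
  rw [push_w]
  refine Finsupp.mapDomain_of_notMem_range _ _ ?_
  rintro ⟨y, hy⟩
  exact hx y hy

theorem push_injective (m : ℕ) {r : ℝ} : Function.Injective (push m (r := r)) := by
  intro μ ν h
  apply AVR.ext
  ext y
  rw [← push_apply m μ y, h, push_apply]

/-- the support of a push forward lies on the two-sphere -/
theorem push_support (m : ℕ) {r : ℝ} (ν : AVR (geo 2) r) :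
    ∀ x ∈ (push m ν).w.support, ∃ y ∈ ν.w.support, inc m y = x := by
  classical
  intro x hx
  rw [push_w, Finsupp.mapDomain_support_of_injective (inc_injective m), Finset.mem_image] at hx
  exact hx

theorem push_support_coord (m : ℕ) {r : ℝ} (ν : AVR (geo 2) r) :
    ∀ x ∈ (push m ν).w.support, ∀ i : Fin (2 * m + 2 + 1), 3 ≤ i.val → x.1 i = 0 := by
  intro x hx i hi
  obtain ⟨y, _, rfl⟩ := push_support m ν x hx
  exact inc_apply_ge m y i hi

theorem push_continuous (m : ℕ) {r : ℝ} : Continuous (push m (r := r)) := by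
  refine continuous_def.2 fun V hV μ hμ => ?_
  obtain ⟨ε, hε, h⟩ := hV _ hμ
  refine ⟨ε, hε, fun ν hν => h _ ?_⟩
  obtain ⟨π, ⟨h0, h1, h2⟩, hc⟩ := exists_coupling_lt hν
  have hcoup : IsCoupling (π.mapDomain (Prod.map (inc m) (inc m))) (push m μ).w (push m ν).w := by
    classical
    refine ⟨?_, ?_, ?_⟩
    · intro p
      rw [Finsupp.mapDomain, Finsupp.sum, Finsupp.finsetSum_apply]
      refine Finset.sum_nonneg fun y _ => ?_
      rw [Finsupp.single_apply]
      split_ifs
      · exact h0 y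
      · exact le_rfl
    · rw [push_w, ← h1, ← Finsupp.mapDomain_comp, ← Finsupp.mapDomain_comp]
      rfl
    · rw [push_w, ← h2, ← Finsupp.mapDomain_comp, ← Finsupp.mapDomain_comp]
      rfl
  refine lt_of_le_of_lt (W1_le geo_nonneg hcoup) ?_
  have : cost (geo (2 * m + 2)) (π.mapDomain (Prod.map (inc m) (inc m))) = cost (geo 2) π := by
    unfold cost
    rw [Finsupp.sum_mapDomain_index]
    · simp only [Prod.map_fst, Prod.map_snd, geo_inc]
    · intro b; simp
    · intro b m1 m2; ring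
  rw [this]; exact hc

theorem continuous_push (m : ℕ) {r : ℝ} : Continuous (push m (r := r)) := push_continuous m

theorem ri_push (m : ℕ) {r : ℝ} (f : Sph (2 * m + 2) → ℝ) (ν : AVR (geo 2) r) :
    ri f (push m ν).w = ri (fun y => f (inc m y)) ν.w := by
  unfold ri
  rw [push_w, Finsupp.sum_mapDomain_index]
  · intro b; simp
  · intro b m1 m2; ring

/-- a measure supported on the two-sphere is a push forward -/
theorem exists_restrict (m : ℕ) {r : ℝ} (μ : AVR (geo (2 * m + 2)) r)
    (hs : ∀ x ∈ μ.w.support, ∀ i : Fin (2 * m + 2 + 1), 3 ≤ i.val → x.1 i = 0) :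
    ∃ ν : AVR (geo 2) r, push m ν = μ := by
  have hrange : (↑μ.w.support : Set (Sph (2 * m + 2))) ⊆ Set.range (inc m) := by
    intro x hx
    obtain ⟨y, hy⟩ := exists_inc m x (hs x hx)
    exact ⟨y, hy⟩
  set w : Sph 2 →₀ ℝ := Finsupp.comapDomain (inc m) μ.w (inc_injective m).injOn with hw
  have hwm : w.mapDomain (inc m) = μ.w :=
    Finsupp.mapDomain_comapDomain (inc m) (inc_injective m) μ.w hrange
  have hwa : ∀ y, w y = μ.w (inc m y) := fun y => Finsupp.comapDomain_apply _ _ _ _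
  have htot : (w.sum fun _ a => a) = 1 := by
    have h1 := μ.total
    rw [← hwm, Finsupp.sum_mapDomain_index (by simp) (by simp)] at h1
    exact h1
  have hspread : ∀ x ∈ w.support, ∀ y ∈ w.support, x ≠ y → r ≤ geo 2 x y := by
    intro x hx y hy hxy
    rw [Finsupp.mem_support_iff, hwa] at hx hy
    rw [← geo_inc m]
    exact μ.spread _ (Finsupp.mem_support_iff.2 hx) _ (Finsupp.mem_support_iff.2 hy)
      (fun h => hxy (inc_injective m h))
  refine ⟨⟨w, fun y => ?_, htot, hspread⟩, ?_⟩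
  · rw [hwa]; exact μ.nonneg _
  · apply AVR.ext
    exact hwm

end Pool.Agent.H71.SM
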