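import Pool.Agent.H71.AV.Refl

/-!
# Rotations of the last coordinates and the equatorial two-sphere
-/

namespace Pool.Agent.H71.SM

open Pool.Agent.H73.Avr Pool.Agent.H71.AV

/-- linear rotation by `θ` in the coordinate planes `(3, 4)`, `(5, 6)`, ...; the coordinates
`0, 1, 2` are kept -/
noncomputable def lrho (m : ℕ) (θ : ℝ) (x : EuclideanSpace ℝ (Fin (2 * m + 2 + 1))) :
    EuclideanSpace ℝ (Fin (2 * m + 2 + 1)) :=
  WithLp.toLp 2 (fun i => if h3 : i.val < 3 then x i
    else if ho : i.val % 2 = 1 then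
      Real.cos θ * x i - Real.sin θ * x ⟨i.val + 1, by omega⟩
    else Real.sin θ * x ⟨i.val - 1, by omega⟩ + Real.cos θ * x i)

/-- coordinates as a function of a natural number -/
private noncomputable def co (m : ℕ) (x : EuclideanSpace ℝ (Fin (2 * m + 2 + 1))) (j : ℕ) : ℝ :=
  if h : j < 2 * m + 2 + 1 then x ⟨j, h⟩ else 0

private theorem co_val (m : ℕ) (x : EuclideanSpace ℝ (Fin (2 * m + 2 + 1)))
    (i : Fin (2 * m + 2 + 1)) : co m x i.val = x i := by
  unfold co
  rw [dif_pos i.2]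

private theorem lrho_apply (m : ℕ) (θ : ℝ) (x : EuclideanSpace ℝ (Fin (2 * m + 2 + 1)))
    (i : Fin (2 * m + 2 + 1)) : lrho m θ x i = if h3 : i.val < 3 then x i
    else if ho : i.val % 2 = 1 then
      Real.cos θ * x i - Real.sin θ * x ⟨i.val + 1, by omega⟩
    else Real.sin θ * x ⟨i.val - 1, by omega⟩ + Real.cos θ * x i := rfl

private theorem co_lrho_low (m : ℕ) (θ : ℝ) (x : EuclideanSpace ℝ (Fin (2 * m + 2 + 1)))
    {j : ℕ} (hj : j < 3) : co m (lrho m θ x) j = co m x j := by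
  unfold co
  split_ifs with h
  · rw [lrho_apply, dif_pos hj]
  · rfl

private theorem co_lrho_odd (m : ℕ) (θ : ℝ) (x : EuclideanSpace ℝ (Fin (2 * m + 2 + 1)))
    {j : ℕ} (hj : j < m) : co m (lrho m θ x) (2 * j + 3) =
      Real.cos θ * co m x (2 * j + 3) - Real.sin θ * co m x (2 * j + 4) := by
  unfold co
  rw [dif_pos (by omega), dif_pos (by omega), dif_pos (by omega), lrho_apply,
    dif_neg (by simp), dif_pos (by show (2 * j + 3) % 2 = 1; omega)]

private theorem co_lrho_even (m : ℕ) (θ : ℝ) (x : EuclideanSpace ℝ (Fin (2 * m + 2 + 1)))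
    {j : ℕ} (hj : j < m) : co m (lrho m θ x) (2 * j + 4) =
      Real.sin θ * co m x (2 * j + 3) + Real.cos θ * co m x (2 * j + 4) := by
  unfold co
  rw [dif_pos (by omega), dif_pos (by omega), dif_pos (by omega), lrho_apply,
    dif_neg (by simp), dif_neg (by show ¬(2 * j + 4) % 2 = 1; omega)]
  rfl

private theorem sum_split (m : ℕ) (f : ℕ → ℝ) :
    ∑ i ∈ Finset.range (2 * m + 2 + 1), f i =
      f 0 + f 1 + f 2 + ∑ j ∈ Finset.range m, (f (2 * j + 3) + f (2 * j + 4)) := by
  induction m with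
  | zero =>
    rw [Finset.sum_range_succ, Finset.sum_range_succ, Finset.sum_range_succ]
    simp
  | succ m ih =>
    rw [Finset.sum_range_succ _ m]
    have : 2 * (m + 1) + 2 + 1 = (2 * m + 2 + 1) + 1 + 1 := by ring
    rw [this, Finset.sum_range_succ, Finset.sum_range_succ, ih]
    ring

private theorem inner_co (m : ℕ) (x y : EuclideanSpace ℝ (Fin (2 * m + 2 + 1))) :
    inner ℝ x y = co m x 0 * co m y 0 + co m x 1 * co m y 1 + co m x 2 * co m y 2 +
      ∑ j ∈ Finset.range m, (co m x (2 * j + 3) * co m y (2 * j + 3) +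
        co m x (2 * j + 4) * co m y (2 * j + 4)) := by
  rw [PiLp.inner_apply]
  have h1 : ∀ i : Fin (2 * m + 2 + 1), inner ℝ (x i) (y i) =
      (fun j : ℕ => co m x j * co m y j) i.val := fun i => by
    show inner ℝ (x i) (y i) = co m x i.val * co m y i.val
    rw [co_val, co_val]
    simp [mul_comm]
  rw [Finset.sum_congr rfl fun i _ => h1 i,
    Fin.sum_univ_eq_sum_range (fun j : ℕ => co m x j * co m y j) (2 * m + 2 + 1), sum_split]

theorem inner_lrho (m : ℕ) (θ : ℝ) (x y : EuclideanSpace ℝ (Fin (2 * m + 2 + 1))) :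
    inner ℝ (lrho m θ x) (lrho m θ y) = inner ℝ x y := by
  rw [inner_co, inner_co, co_lrho_low m θ x (by norm_num : 0 < 3),
    co_lrho_low m θ x (by norm_num : 1 < 3), co_lrho_low m θ x (by norm_num : 2 < 3),
    co_lrho_low m θ y (by norm_num : 0 < 3), co_lrho_low m θ y (by norm_num : 1 < 3),
    co_lrho_low m θ y (by norm_num : 2 < 3)]
  congr 1
  refine Finset.sum_congr rfl fun j hj => ?_
  have hj' := Finset.mem_range.1 hj
  rw [co_lrho_odd m θ x hj', co_lrho_odd m θ y hj', co_lrho_even m θ x hj',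
    co_lrho_even m θ y hj']
  have hs := Real.sin_sq_add_cos_sq θ
  linear_combination (co m x (2 * j + 3) * co m y (2 * j + 3) +
    co m x (2 * j + 4) * co m y (2 * j + 4)) * hs

theorem norm_lrho (m : ℕ) (θ : ℝ) (x : EuclideanSpace ℝ (Fin (2 * m + 2 + 1))) :
    ‖lrho m θ x‖ = ‖x‖ := by
  have h1 := inner_lrho m θ x x
  rw [real_inner_self_eq_norm_sq, real_inner_self_eq_norm_sq] at h1
  exact (sq_eq_sq₀ (norm_nonneg _) (norm_nonneg _)).1 h1

/-- rotation of the sphere -/
noncomputable def rho (m : ℕ) (θ : ℝ) (x : Sph (2 * m + 2)) : Sph (2 * m + 2) :=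
  ⟨lrho m θ x.1, by rw [mem_sphere_zero_iff_norm, norm_lrho, mem_sphere_zero_iff_norm.1 x.2]⟩

theorem geo_rho (m : ℕ) (θ : ℝ) (x y : Sph (2 * m + 2)) :
    geo (2 * m + 2) (rho m θ x) (rho m θ y) = geo (2 * m + 2) x y := by
  unfold geo InnerProductGeometry.angle
  show Real.arccos (inner ℝ (lrho m θ x.1) (lrho m θ y.1) / (‖lrho m θ x.1‖ * ‖lrho m θ y.1‖)) = _
  rw [inner_lrho, norm_lrho, norm_lrho]

private theorem ext_co {m : ℕ} {x y : EuclideanSpace ℝ (Fin (2 * m + 2 + 1))}
    (h0 : ∀ j < 3, co m x j = co m y j)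
    (h1 : ∀ j < m, co m x (2 * j + 3) = co m y (2 * j + 3))
    (h2 : ∀ j < m, co m x (2 * j + 4) = co m y (2 * j + 4)) : x = y := by
  ext i
  rw [← co_val m x i, ← co_val m y i]
  have hi := i.2
  rcases lt_or_ge i.val 3 with h | h
  · exact h0 _ h
  · rcases Nat.even_or_odd i.val with ⟨k, hk⟩ | ⟨k, hk⟩
    · have h3 : i.val = 2 * (k - 2) + 4 := by omega
      rw [h3]
      exact h2 _ (by omega)
    · have h3 : i.val = 2 * (k - 1) + 3 := by omega
      rw [h3]
      exact h1 _ (by omega)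

theorem rho_rho (m : ℕ) (θ θ' : ℝ) (x : Sph (2 * m + 2)) :
    rho m θ (rho m θ' x) = rho m (θ + θ') x := by
  apply Subtype.ext
  show lrho m θ (lrho m θ' x.1) = lrho m (θ + θ') x.1
  refine ext_co (fun j hj => ?_) (fun j hj => ?_) (fun j hj => ?_)
  · rw [co_lrho_low _ _ _ hj, co_lrho_low _ _ _ hj, co_lrho_low _ _ _ hj]
  · rw [co_lrho_odd _ _ _ hj, co_lrho_odd _ _ _ hj, co_lrho_odd _ _ _ hj, co_lrho_even _ _ _ hj,
      Real.cos_add, Real.sin_add]
    ring
  · rw [co_lrho_even _ _ _ hj, co_lrho_even _ _ _ hj, co_lrho_odd _ _ _ hj, co_lrho_even _ _ _ hj,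
      Real.cos_add, Real.sin_add]
    ring

theorem rho_two_pi (m : ℕ) (x : Sph (2 * m + 2)) : rho m (2 * Real.pi) x = x := by
  apply Subtype.ext
  show lrho m (2 * Real.pi) x.1 = x.1
  refine ext_co (fun j hj => ?_) (fun j hj => ?_) (fun j hj => ?_)
  · rw [co_lrho_low _ _ _ hj]
  · rw [co_lrho_odd _ _ _ hj, Real.cos_two_pi, Real.sin_two_pi]
    ring
  · rw [co_lrho_even _ _ _ hj, Real.cos_two_pi, Real.sin_two_pi]
    ring

/-- measures invariant under a small rotation live on the equatorial two-sphere -/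
theorem supp_of_rho (m : ℕ) {θ r : ℝ} (hθ : 0 < θ) (hθr : θ < r) (hθπ : θ ≤ Real.pi)
    (μ : AVR (geo (2 * m + 2)) r) (hinv : ∀ x, μ.w (rho m θ x) = μ.w x) :
    ∀ x ∈ μ.w.support, ∀ i : Fin (2 * m + 2 + 1), 3 ≤ i.val → x.1 i = 0 := by
  intro x hx
  set B : ℝ := ∑ j ∈ Finset.range m, (co m x.1 (2 * j + 3) * co m x.1 (2 * j + 3) +
        co m x.1 (2 * j + 4) * co m x.1 (2 * j + 4)) with hB
  have hnx : ‖x.1‖ = 1 := mem_sphere_zero_iff_norm.1 x.2
  have hxx : inner ℝ x.1 x.1 = (1 : ℝ) := by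
    rw [real_inner_self_eq_norm_sq, hnx]
    norm_num
  have hA := inner_co m x.1 x.1
  rw [hxx, ← hB] at hA
  have hin : inner ℝ x.1 (lrho m θ x.1) = 1 - (1 - Real.cos θ) * B := by
    rw [inner_co, co_lrho_low m θ x.1 (by norm_num : 0 < 3),
      co_lrho_low m θ x.1 (by norm_num : 1 < 3), co_lrho_low m θ x.1 (by norm_num : 2 < 3)]
    have h1 : ∑ j ∈ Finset.range m, (co m x.1 (2 * j + 3) * co m (lrho m θ x.1) (2 * j + 3) +
        co m x.1 (2 * j + 4) * co m (lrho m θ x.1) (2 * j + 4)) = Real.cos θ * B := by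
      rw [hB, Finset.mul_sum]
      refine Finset.sum_congr rfl fun j hj => ?_
      have hj' := Finset.mem_range.1 hj
      rw [co_lrho_odd m θ x.1 hj', co_lrho_even m θ x.1 hj']
      ring
    rw [h1]
    linarith
  have hcos : Real.cos θ < 1 := by
    have := Real.cos_lt_cos_of_nonneg_of_le_pi le_rfl hθπ hθ
    rwa [Real.cos_zero] at this
  have hB0 : 0 ≤ B := Finset.sum_nonneg fun j _ => add_nonneg (mul_self_nonneg _)
    (mul_self_nonneg _)
  have hB1 : B ≤ 1 := by
    have h0 := mul_self_nonneg (co m x.1 0)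
    have h1 := mul_self_nonneg (co m x.1 1)
    have h2 := mul_self_nonneg (co m x.1 2)
    linarith
  have hBz : B = 0 := by
    by_contra hne
    have hpos : 0 < B := lt_of_le_of_ne hB0 (Ne.symm hne)
    have hneq : x ≠ rho m θ x := by
      intro h
      have h1 : lrho m θ x.1 = x.1 := (congrArg Subtype.val h).symm
      rw [h1, hxx] at hin
      have : 0 < (1 - Real.cos θ) * B := mul_pos (by linarith) hpos
      linarith
    have hmem : rho m θ x ∈ μ.w.support := by
      rw [Finsupp.mem_support_iff, hinv]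
      exact Finsupp.mem_support_iff.1 hx
    have h2 := μ.spread x hx _ hmem hneq
    have h3 : geo (2 * m + 2) x (rho m θ x) ≤ θ := by
      unfold geo InnerProductGeometry.angle
      show Real.arccos (inner ℝ x.1 (lrho m θ x.1) / (‖x.1‖ * ‖lrho m θ x.1‖)) ≤ θ
      rw [norm_lrho, hnx, hin, mul_one, div_one]
      calc Real.arccos (1 - (1 - Real.cos θ) * B) ≤ Real.arccos (Real.cos θ) := by
            apply Real.arccos_le_arccos
            nlinarith
        _ = θ := Real.arccos_cos hθ.le hθπ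
    linarith
  intro i hi
  have hall := (Finset.sum_eq_zero_iff_of_nonneg (fun j _ => add_nonneg (mul_self_nonneg _)
    (mul_self_nonneg _))).1 (hB ▸ hBz)
  have hi2 := i.2
  rw [← co_val m x.1 i]
  rcases Nat.even_or_odd i.val with ⟨k, hk⟩ | ⟨k, hk⟩
  · have h3 : i.val = 2 * (k - 2) + 4 := by omega
    have h4 := hall (k - 2) (Finset.mem_range.2 (by omega))
    rw [h3]
    exact mul_self_eq_zero.1 (by
      have h0 := mul_self_nonneg (co m x.1 (2 * (k - 2) + 3))
      have h1 := mul_self_nonneg (co m x.1 (2 * (k - 2) + 4))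
      linarith)
  · have h3 : i.val = 2 * (k - 1) + 3 := by omega
    have h4 := hall (k - 1) (Finset.mem_range.2 (by omega))
    rw [h3]
    exact mul_self_eq_zero.1 (by
      have h0 := mul_self_nonneg (co m x.1 (2 * (k - 1) + 3))
      have h1 := mul_self_nonneg (co m x.1 (2 * (k - 1) + 4))
      linarith)

end Pool.Agent.H71.SM
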