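import Pool.Agent.H71.SM.Step

/-!
# The Smith theorem for an involution
-/

namespace Pool.Agent.H71.SM

open FreeAbelianGroup Pool.Agent.H73.Avr

section aux

variable {X : Type}

private theorem cl_mono {p q : List X → Prop} (h : ∀ σ, p σ → q σ) {y : O X} (hy : y ∈ cl p) :
    y ∈ cl q :=
  map_mem_of_cl (S := cl q) (AddMonoidHom.id (O X)) (fun σ hσ => of_mem_cl (h σ hσ)) hy

private theorem eq_of_cl {A : Type} [AddCommGroup A] {p : List X → Prop} (f f' : O X →+ A)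
    (h : ∀ σ, p σ → f (of σ) = f' (of σ)) {y : O X} (hy : y ∈ cl p) : f y = f' y := by
  have h1 := map_mem_of_cl (S := (⊥ : AddSubgroup A)) (f - f')
    (fun σ hσ => by
      rw [AddSubgroup.mem_bot]
      show f (of σ) - f' (of σ) = 0
      rw [h σ hσ, sub_self]) hy
  rw [AddSubgroup.mem_bot] at h1
  exact sub_eq_zero.1 h1

private theorem mp_fix_eq {p : List X → Prop} {g : X → X} (h : ∀ σ, p σ → ∀ x ∈ σ, g x = x)
    {y : O X} (hy : y ∈ cl p) : mp g y = y := by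
  refine eq_of_cl (mp g) (AddMonoidHom.id (O X)) (fun σ hσ => ?_) hy
  show mp g (of σ) = of σ
  rw [mp_of]
  congr 1
  have : σ.map g = σ.map id := List.map_congr_left fun x hx => h σ hσ x hx
  rw [this, List.map_id]

private theorem mp_mp_eq {p : List X → Prop} {g : X → X} (h : ∀ σ, p σ → ∀ x ∈ σ, g (g x) = x)
    {y : O X} (hy : y ∈ cl p) : mp g (mp g y) = y := by
  refine eq_of_cl ((mp g).comp (mp g)) (AddMonoidHom.id (O X)) (fun σ hσ => ?_) hy
  show mp g (mp g (of σ)) = of σ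
  rw [mp_of, mp_of, List.map_map]
  congr 1
  have : σ.map (g ∘ g) = σ.map id := List.map_congr_left fun x hx => h σ hσ x hx
  rw [this, List.map_id]

variable [MetricSpace X]

private theorem Sml_mono {Y Z : Set X} {δ ε : ℝ} (hZ : Z ⊆ Y) (h : δ ≤ ε) {y : O X}
    (hy : y ∈ Sml Z δ) : y ∈ Sml Y ε :=
  cl_mono (fun _ hσ => ⟨fun x hx => hZ (hσ.1 x hx),
    fun x hx z hz => lt_of_lt_of_le (hσ.2 x hx z hz) h⟩) hy

private theorem mp_Sml {Y : Set X} {δ ε : ℝ} {g : X → X} (hgY : ∀ y ∈ Y, g y ∈ Y)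
    (h : ∀ x y : X, dist x y < δ → dist (g x) (g y) < ε) {y : O X} (hy : y ∈ Sml Y δ) :
    mp g y ∈ Sml Y ε := by
  refine map_mem_of_cl (mp g) (fun σ hσ => ?_) hy
  rw [mp_of]
  refine of_mem_cl ⟨fun x hx => ?_, fun x hx z hz => ?_⟩
  · obtain ⟨a, ha, rfl⟩ := List.mem_map.1 hx
    exact hgY a (hσ.1 a ha)
  · obtain ⟨a, ha, rfl⟩ := List.mem_map.1 hx
    obtain ⟨b, hb, rfl⟩ := List.mem_map.1 hz
    exact h a b (hσ.2 a ha b hb)

end aux

section tower

variable {X : Type}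

/-- common zeros in `Y` of the first functions -/
private def Yj (Y : Set X) (F : ℕ → X → ℝ) : ℕ → Set X
  | 0 => Y
  | (j + 1) => {y | y ∈ Yj Y F j ∧ F j y = 0}

private theorem mem_Yj (Y : Set X) (F : ℕ → X → ℝ) (j : ℕ) (y : X) :
    y ∈ Yj Y F j ↔ y ∈ Y ∧ ∀ i < j, F i y = 0 := by
  induction j with
  | zero =>
    refine ⟨fun h => ⟨h, fun i hi => absurd hi (Nat.not_lt_zero i)⟩, fun h => h.1⟩
  | succ j ih =>
    constructor
    · rintro ⟨h1, h2⟩
      refine ⟨(ih.1 h1).1, fun i hi => ?_⟩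
      rcases Nat.lt_succ_iff_lt_or_eq.1 hi with h | rfl
      · exact (ih.1 h1).2 i h
      · exact h2
    · rintro ⟨h1, h2⟩
      exact ⟨ih.2 ⟨h1, fun i hi => h2 i (Nat.lt_succ_of_lt hi)⟩, h2 j (Nat.lt_succ_self j)⟩

private theorem closed_Yj [TopologicalSpace X] {Y : Set X} (hY : IsClosed Y) {F : ℕ → X → ℝ}
    {m : ℕ} (hFc : ∀ j < m, Continuous (F j)) : ∀ j ≤ m, IsClosed (Yj Y F j) := by
  intro j
  induction j with
  | zero => intro _; exact hY
  | succ j ih =>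
    intro hj
    have h1 : IsClosed {y : X | F j y = 0} := isClosed_eq (hFc j hj) continuous_const
    exact (ih (Nat.le_of_succ_le hj)).inter h1

variable [MetricSpace X] [CompactSpace X]

/-- elimination of the first functions -/
private theorem elim {Y : Set X} (hY : IsClosed Y)
    {g : X → X} (hgc : Continuous g) (hgY : ∀ y ∈ Y, g y ∈ Y) (hgg : ∀ y ∈ Y, g (g y) = y)
    (m : ℕ) (F : ℕ → X → ℝ) (hFc : ∀ j < m, Continuous (F j))
    (hFg : ∀ j < m, ∀ y ∈ Y, F j (g y) = -F j y) :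
    ∀ j ≤ m, ∀ ε > 0, ∃ δ > 0, ∀ (a R : ℕ) (B : O X), B ∈ Fxd Y g → Sq Y g B δ a R →
      Sq (Yj Y F j) g B ε (a + j) R := by
  intro j
  induction j with
  | zero =>
    intro _ ε hε
    exact ⟨ε, hε, fun a R B _ h => h⟩
  | succ j ih =>
    intro hj ε hε
    have hjm : j < m := hj
    have hstab : ∀ y ∈ Yj Y F j, g y ∈ Yj Y F j := by
      intro y hy
      rw [mem_Yj] at hy ⊢
      refine ⟨hgY y hy.1, fun i hi => ?_⟩
      rw [hFg i (hi.trans hjm) y hy.1, hy.2 i hi, neg_zero]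
    have hsub : ∀ y ∈ Yj Y F j, y ∈ Y := fun y hy => ((mem_Yj Y F j y).1 hy).1
    obtain ⟨δ1, hδ1, h1⟩ := sq_step (closed_Yj hY hFc j (Nat.le_of_succ_le hj)) hgc hstab
      (fun y hy => hgg y (hsub y hy)) (hFc j hjm) (fun y hy => hFg j hjm y (hsub y hy)) hε
    obtain ⟨δ, hδ, h2⟩ := ih (Nat.le_of_succ_le hj) δ1 hδ1
    refine ⟨δ, hδ, fun a R B hB hS => ?_⟩
    have hB' : B ∈ Fxd (Yj Y F j) g := by
      refine cl_mono (fun σ hσ x hx => ⟨?_, (hσ x hx).2⟩) hB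
      rw [mem_Yj]
      refine ⟨(hσ x hx).1, fun i hi => ?_⟩
      have h3 := hFg i (hi.trans hjm) x (hσ x hx).1
      rw [(hσ x hx).2] at h3
      linarith
    exact h1 (a + j) R B hB' (h2 a R B hB hS)

omit [CompactSpace X] in
/-- the boundary of `(1 + g) z` is negligible if that of `z` is `(1 + g) y` -/
private theorem cyc_next {Y : Set X} {g : X → X} (hgg : ∀ y ∈ Y, g (g y) = y) {δ : ℝ} {y z : O X}
    (hy : y ∈ Sml Y δ) (hz : dO z - (mp g y + y) ∈ Ng X) : dO (mp g z + z) ∈ Ng X := by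
  have h2 : mp g (mp g y) = y := mp_mp_eq (fun σ hσ x hx => hgg x (hσ.1 x hx)) hy
  have e : dO (mp g z + z) = mp g (dO z - (mp g y + y)) + (dO z - (mp g y + y)) + (y + y) +
      (mp g y + mp g y) := by
    rw [map_add, dO_mp, map_sub, map_add, h2]
    abel
  rw [e]
  exact (Ng X).add_mem ((Ng X).add_mem ((Ng X).add_mem (mp_Ng g hz) hz) (add_self_Ng y))
    (add_self_Ng _)

/-- filling -/
private theorem fill {Y : Set X} {g : X → X} (hgc : Continuous g) (hgY : ∀ y ∈ Y, g y ∈ Y)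
    (hgg : ∀ y ∈ Y, g (g y) = y) (hA : Acy Y) :
    ∀ (R : ℕ), ∀ ε > 0, ∃ δ > 0, ∀ B ∈ Sml Y δ, B ∈ Fxd Y g → dO B ∈ Ng X →
      Sq Y g B ε 0 R := by
  intro R
  induction R with
  | zero =>
    intro ε hε
    obtain ⟨δ, hδ, h⟩ := hA ε hε
    refine ⟨δ, hδ, fun B hB _ hd => ?_⟩
    obtain ⟨w, hw, h1⟩ := h B hB hd
    refine ⟨fun k => if k = 0 then w else 0, fun k => ?_, ?_, fun k hk => absurd hk (by omega)⟩
    · dsimp only
      split_ifs
      · exact hw
      · exact AddSubgroup.zero_mem _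
    · simpa using h1
  | succ R ih =>
    intro ε hε
    obtain ⟨δ1, hδ1, h⟩ := hA ε hε
    have huc := CompactSpace.uniformContinuous_of_continuous hgc
    obtain ⟨δ2, hδ2, hu⟩ := Metric.uniformContinuous_iff.1 huc δ1 hδ1
    obtain ⟨δ, hδ, h3⟩ := ih (min ε (min δ1 δ2)) (lt_min hε (lt_min hδ1 hδ2))
    refine ⟨δ, hδ, fun B hB hBf hd => ?_⟩
    obtain ⟨z, hz, hz0, hzk⟩ := h3 B hB hBf hd
    -- the chain to be filled
    have hc1 : mp g (z R) + z R ∈ Sml Y δ1 := by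
      refine (Sml Y δ1).add_mem ?_ (Sml_mono (fun _ h => h)
        ((min_le_right _ _).trans (min_le_left _ _)) (hz R))
      exact mp_Sml hgY (fun x y hxy => hu hxy)
        (Sml_mono (fun _ h => h) ((min_le_right _ _).trans (min_le_right _ _)) (hz R))
    have hc2 : dO (mp g (z R) + z R) ∈ Ng X := by
      rcases Nat.eq_zero_or_pos R with rfl | hR
      · rw [if_pos rfl] at hz0
        have hgB : mp g B = B := mp_fix_eq (fun σ hσ x hx => (hσ x hx).2) hBf
        have e : dO (mp g (z 0) + z 0) = mp g (dO (z 0) - B) + (dO (z 0) - B) + (B + B) := by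
          rw [map_add, dO_mp, map_sub, hgB]
          abel
        rw [e]
        exact (Ng X).add_mem ((Ng X).add_mem (mp_Ng g hz0) hz0) (add_self_Ng B)
      · obtain ⟨k, rfl⟩ : ∃ k, R = k + 1 := ⟨R - 1, by omega⟩
        have h4 := hzk k (by omega)
        rw [if_neg (by omega), add_zero] at h4
        exact cyc_next hgg (hz k) h4
    obtain ⟨w, hw, hw1⟩ := h _ hc1 hc2
    refine ⟨fun k => if k = R + 1 then w else z k, fun k => ?_, ?_, fun k hk => ?_⟩
    · dsimp only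
      split_ifs
      · exact hw
      · exact Sml_mono (fun _ h => h) (min_le_left _ _) (hz k)
    · dsimp only
      rw [if_neg (by omega)]
      exact hz0
    · dsimp only
      rcases Nat.lt_succ_iff_lt_or_eq.1 hk with h5 | rfl
      · rw [if_neg (by omega), if_neg (by omega : ¬ k = R + 1)]
        exact hzk k h5
      · rw [if_pos rfl, if_neg (by omega : ¬ k = k + 1), if_neg (by omega), add_zero]
        exact hw1

end tower

theorem smith_step {X : Type} [MetricSpace X] [CompactSpace X] {Y : Set X} (hY : IsClosed Y)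
    {g : X → X} (hgc : Continuous g) (hgY : ∀ y ∈ Y, g y ∈ Y) (hgg : ∀ y ∈ Y, g (g y) = y)
    (m : ℕ) (F : ℕ → X → ℝ) (hFc : ∀ j < m, Continuous (F j))
    (hFg : ∀ j < m, ∀ y ∈ Y, F j (g y) = -F j y)
    (hF0 : ∀ y ∈ Y, (∀ j < m, F j y = 0) → g y = y) (hA : Acy Y) :
    Acy {y | y ∈ Y ∧ g y = y} := by
  intro ε hε
  obtain ⟨δA, hδA, hEl⟩ := elim hY hgc hgY hgg m F hFc hFg m le_rfl ε hε
  obtain ⟨δ, hδ, hFi⟩ := fill hgc hgY hgg hA m δA hδA
  refine ⟨δ, hδ, fun c hc hd => ?_⟩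
  have hc1 : c ∈ Sml Y δ := Sml_mono (fun y hy => hy.1) le_rfl hc
  have hc2 : c ∈ Fxd Y g := cl_mono (fun σ hσ x hx => hσ.1 x hx) hc
  have hZ : Yj Y F m ⊆ {y | y ∈ Y ∧ g y = y} := by
    intro y hy
    have h1 := (mem_Yj Y F m y).1 hy
    exact ⟨h1.1, hF0 y h1.1 h1.2⟩
  obtain ⟨z, hz, hz0, hzk⟩ := hEl 0 m c hc2 (hFi c hc1 hc2 hd)
  rcases Nat.eq_zero_or_pos m with hm | hm
  · refine ⟨z 0, Sml_mono hZ le_rfl (hz 0), ?_⟩
    rw [if_pos (by omega)] at hz0
    exact hz0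
  · obtain ⟨k, rfl⟩ : ∃ k, m = k + 1 := ⟨m - 1, by omega⟩
    refine ⟨z (k + 1), Sml_mono hZ le_rfl (hz (k + 1)), ?_⟩
    have h1 := hzk k (by omega)
    rw [if_pos (by omega)] at h1
    have h2 : mp g (z k) = z k :=
      mp_fix_eq (fun σ hσ x hx => (hZ (hσ.1 x hx)).2) (hz k)
    rw [h2] at h1
    have e : dO (z (k + 1)) - c = dO (z (k + 1)) - (z k + z k + c) + (z k + z k) := by abel
    rw [e]
    exact (Ng X).add_mem h1 (add_self_Ng _)

end Pool.Agent.H71.SM
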