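import Pool.Agent.H71.SM.Acy

/-!
# An acyclic set carries no two-sphere of odd degree
-/

namespace Pool.Agent.H71.SM

open FreeAbelianGroup Pool.Agent.H73.Avr

/-- crossing of two labels -/
private def cE (a b : Fin 4) : ZMod 2 := if (a = 0 ∧ b = 1) ∨ (a = 1 ∧ b = 0) then 1 else 0

/-- rainbow triples of labels -/
private def tE (a b c : Fin 4) : ZMod 2 :=
  if a ≠ 3 ∧ b ≠ 3 ∧ c ≠ 3 ∧ a ≠ b ∧ b ≠ c ∧ a ≠ c then 1 else 0

private theorem tE_left : ∀ a b : Fin 4, tE a a b = 0 := by decide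

private theorem tE_right : ∀ a b : Fin 4, tE a b b = 0 := by decide

private theorem cE_self : ∀ a : Fin 4, cE a a = 0 := by decide

private theorem tE_four : ∀ a b c d : Fin 4,
    (0 ∈ [a, b, c, d] → 1 ∈ [a, b, c, d] → 2 ∈ [a, b, c, d] → 3 ∉ [a, b, c, d]) →
    tE b c d - (tE a c d - (tE a b d - tE a b c)) = 0 := by decide

private theorem tE_three : ∀ a b c : Fin 4,
    (0 ∈ [a, b, c] → 1 ∈ [a, b, c] → 3 ∉ [a, b, c]) →
    tE a b c = cE b c - (cE a c - cE a b) := by decide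

private theorem tE_low : ∀ a b c : Fin 4, a ≠ 2 → b ≠ 2 → c ≠ 2 → tE a b c = 0 := by decide

private theorem cE_one : ∀ a b : Fin 4, a ≠ 1 → b ≠ 1 → cE a b = 0 := by decide

private theorem cE_zero : ∀ a b : Fin 4, a ≠ 0 → b ≠ 0 → cE a b = 0 := by decide

private theorem cE_diff : ∀ a b : Fin 4, a ≠ 2 → a ≠ 3 → b ≠ 2 → b ≠ 3 →
    cE a b = (if b = 0 then 1 else 0) - (if a = 0 then 1 else 0) := by decide

variable {X : Type}

private def c2 (L : X → Fin 4) : List X → ZMod 2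
  | [x, y] => cE (L x) (L y)
  | _ => 0

private def t3 (L : X → Fin 4) : List X → ZMod 2
  | [x, y, z] => tE (L x) (L y) (L z)
  | _ => 0

private noncomputable def c2L (L : X → Fin 4) : O X →+ ZMod 2 := lift (c2 L)

private noncomputable def t3L (L : X → Fin 4) : O X →+ ZMod 2 := lift (t3 L)

private theorem c2L_of (L : X → Fin 4) (σ : List X) : c2L L (of σ) = c2 L σ := lift_apply_of _ _

private theorem t3L_of (L : X → Fin 4) (σ : List X) : t3L L (of σ) = t3 L σ := lift_apply_of _ _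

private theorem t3L_cns (L : X → Fin 4) (x y z t : X) (u : O X) :
    t3L L (cns x (cns y (cns z (cns t u)))) = 0 := by
  have : (t3L L).comp ((cns x).comp ((cns y).comp ((cns z).comp (cns t)))) = 0 := by
    apply FreeAbelianGroup.lift_ext
    intro σ
    show t3L L (of (x :: y :: z :: t :: σ)) = 0
    rw [t3L_of]
    rfl
  exact DFunLike.congr_fun this u

private theorem c2L_Ng (L : X → Fin 4) {y : O X} (hy : y ∈ Ng X) : c2L L y = 0 := by
  obtain ⟨a, ha, b, hb, rfl⟩ := AddSubgroup.mem_sup.1 hy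
  have h1 : c2L L a ∈ (⊥ : AddSubgroup (ZMod 2)) := by
    refine map_mem_of_cl (c2L L) (p := Dg) ?_ ha
    rintro _ ⟨l, x, r, rfl⟩
    rw [AddSubgroup.mem_bot, c2L_of]
    cases l with
    | nil =>
      cases r with
      | nil => exact cE_self _
      | cons z r => rfl
    | cons z l =>
      cases l with
      | nil => rfl
      | cons z' l => cases l <;> rfl
  have h2 : c2L L b = 0 := by
    obtain ⟨u, rfl⟩ := hb
    show c2L L (u + u) = 0
    rw [map_add]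
    exact CharTwo.add_self_eq_zero _
  rw [map_add, AddSubgroup.mem_bot.1 h1, h2, add_zero]

private theorem t3L_Ng (L : X → Fin 4) {y : O X} (hy : y ∈ Ng X) : t3L L y = 0 := by
  obtain ⟨a, ha, b, hb, rfl⟩ := AddSubgroup.mem_sup.1 hy
  have h1 : t3L L a ∈ (⊥ : AddSubgroup (ZMod 2)) := by
    refine map_mem_of_cl (t3L L) (p := Dg) ?_ ha
    rintro _ ⟨l, x, r, rfl⟩
    rw [AddSubgroup.mem_bot, t3L_of]
    cases l with
    | nil =>
      cases r with
      | nil => rfl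
      | cons z r =>
        cases r with
        | nil => exact tE_left _ _
        | cons z' r => rfl
    | cons z l =>
      cases l with
      | nil =>
        cases r with
        | nil => exact tE_right _ _
        | cons z' r => rfl
      | cons z' l =>
        cases l with
        | nil => rfl
        | cons z'' l => cases l <;> rfl
  have h2 : t3L L b = 0 := by
    obtain ⟨u, rfl⟩ := hb
    show t3L L (u + u) = 0
    rw [map_add]
    exact CharTwo.add_self_eq_zero _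
  rw [map_add, AddSubgroup.mem_bot.1 h1, h2, add_zero]

private theorem t3L_dO [MetricSpace X] {Y : Set X} {ε : ℝ} {L : X → Fin 4}
    (hL : ∀ σ : List X, (∀ x ∈ σ, x ∈ Y) → (∀ x ∈ σ, ∀ y ∈ σ, dist x y < ε) →
      ∀ x ∈ σ, ∀ y ∈ σ, ∀ z ∈ σ, ∀ t ∈ σ, L x = 0 → L y = 1 → L z = 2 → L t ≠ 3)
    {w : O X} (hw : w ∈ Sml Y ε) : t3L L (dO w) = 0 := by
  have h1 : (t3L L).comp dO w ∈ (⊥ : AddSubgroup (ZMod 2)) := by
    refine map_mem_of_cl ((t3L L).comp dO) ?_ hw
    rintro σ ⟨hσY, hσd⟩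
    show t3L L (dO (of σ)) ∈ (⊥ : AddSubgroup (ZMod 2))
    rw [AddSubgroup.mem_bot, dO_of]
    match σ, hσY, hσd with
    | [], _, _ =>
      show t3L L 0 = 0
      exact map_zero _
    | [x], _, _ =>
      show t3L L (of [] - cns x 0) = 0
      rw [map_zero, sub_zero, t3L_of]
      rfl
    | [x, y], _, _ =>
      show t3L L (of [y] - cns x (of [] - cns y 0)) = 0
      rw [map_zero, sub_zero, cns_of, map_sub, t3L_of, t3L_of]
      show (0 : ZMod 2) - 0 = 0
      rw [sub_zero]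
    | [x, y, z], _, _ =>
      show t3L L (of [y, z] - cns x (of [z] - cns y (of [] - cns z 0))) = 0
      rw [map_zero, sub_zero, cns_of, map_sub, map_sub (cns x), cns_of, cns_of, map_sub, t3L_of,
        t3L_of, t3L_of]
      show (0 : ZMod 2) - (0 - 0) = 0
      rw [sub_zero, sub_zero]
    | [x, y, z, t], hY, hd =>
      show t3L L (of [y, z, t] - cns x (of [z, t] - cns y (of [t] - cns z (of [] - cns t 0)))) = 0
      rw [map_zero, sub_zero, cns_of]
      simp only [map_sub, cns_of, t3L_of]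
      show tE (L y) (L z) (L t) - (tE (L x) (L z) (L t) - (tE (L x) (L y) (L t) -
        tE (L x) (L y) (L z))) = 0
      refine tE_four _ _ _ _ ?_
      intro h0 h1 h2 h3
      have key := hL [x, y, z, t] hY hd
      have e : ∀ k : Fin 4, k ∈ [L x, L y, L z, L t] → ∃ p ∈ [x, y, z, t], L p = k := by
        intro k hk
        have hk' : k ∈ List.map L [x, y, z, t] := hk
        obtain ⟨p, hp, hpk⟩ := List.mem_map.1 hk'
        exact ⟨p, hp, hpk⟩
      obtain ⟨p0, hp0, e0⟩ := e 0 h0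
      obtain ⟨p1, hp1, e1⟩ := e 1 h1
      obtain ⟨p2, hp2, e2⟩ := e 2 h2
      obtain ⟨p3, hp3, e3⟩ := e 3 h3
      exact key p0 hp0 p1 hp1 p2 hp2 p3 hp3 e0 e1 e2 e3
    | x :: y :: z :: t :: s :: r, _, _ =>
      show t3L L (of (y :: z :: t :: s :: r) - cns x (of (z :: t :: s :: r) -
        cns y (of (t :: s :: r) - cns z (of (s :: r) - cns t (dl (s :: r)))))) = 0
      simp only [map_sub, cns_of, t3L_cns, t3L_of]
      show (0 : ZMod 2) - (0 - (0 - (0 - 0))) = 0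
      simp
  exact AddSubgroup.mem_bot.1 h1

/-- the grid triangles of a map of the square -/
private noncomputable def G (U : ℕ → ℕ → X) (M : ℕ) : O X :=
  ∑ i ∈ Finset.range M, ∑ j ∈ Finset.range M,
    (of [U i j, U (i + 1) j, U (i + 1) (j + 1)] + of [U i j, U i (j + 1), U (i + 1) (j + 1)])

/-- the boundary chain of the grid -/
private noncomputable def bG (U : ℕ → ℕ → X) (M : ℕ) : O X :=
  ∑ j ∈ Finset.range M, (of [U M j, U M (j + 1)] - of [U 0 j, U 0 (j + 1)]) +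
    ∑ i ∈ Finset.range M, (of [U i M, U (i + 1) M] - of [U i 0, U (i + 1) 0])

private theorem dO_three (x y z : X) :
    dO (of [x, y, z]) = of [y, z] - (of [x, z] - of [x, y]) := by
  rw [dO_of]
  show of [y, z] - cns x (of [z] - cns y (of [] - cns z 0)) = _
  rw [map_zero, sub_zero, cns_of, map_sub, cns_of, cns_of]

private theorem two_mem (u : O X) : u + u ∈ Ng X :=
  AddSubgroup.mem_sup_right ⟨u, rfl⟩

private theorem dO_G (U : ℕ → ℕ → X) (M : ℕ) : dO (G U M) - bG U M ∈ Ng X := by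
  have h1 : bG U M = ∑ i ∈ Finset.range M, ∑ j ∈ Finset.range M,
      ((of [U (i + 1) j, U (i + 1) (j + 1)] - of [U i j, U i (j + 1)]) +
        (of [U i (j + 1), U (i + 1) (j + 1)] - of [U i j, U (i + 1) j])) := by
    simp only [Finset.sum_add_distrib]
    unfold bG
    congr 1
    · rw [Finset.sum_comm]
      refine Finset.sum_congr rfl fun j _ => ?_
      exact (Finset.sum_range_sub (fun i : ℕ => (of [U i j, U i (j + 1)] : O X)) M).symm
    · refine Finset.sum_congr rfl fun i _ => ?_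
      exact (Finset.sum_range_sub (fun j : ℕ => (of [U i j, U (i + 1) j] : O X)) M).symm
  rw [h1]
  unfold G
  rw [map_sum, ← Finset.sum_sub_distrib]
  refine AddSubgroup.sum_mem _ fun i _ => ?_
  rw [map_sum, ← Finset.sum_sub_distrib]
  refine AddSubgroup.sum_mem _ fun j _ => ?_
  rw [map_add, dO_three, dO_three]
  have h2 := two_mem (of [U i j, U i (j + 1)] + of [U i j, U (i + 1) j] -
    of [U i j, U (i + 1) (j + 1)] : O X)
  convert h2 using 1
  abel

theorem acy_sphere [MetricSpace X] [CompactSpace X] {Y : Set X} (hY : IsClosed Y)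
    (hA : Acy Y) {f : Fin 3 → X → ℝ} (hfc : ∀ k, Continuous (f k))
    (hne : ∀ y ∈ Y, ∃ k, f k y ≠ 0) (U D : ℝ → ℝ → X)
    (hUc : Continuous fun p : ℝ × ℝ => U p.1 p.2) (hDc : Continuous fun p : ℝ × ℝ => D p.1 p.2)
    (hUY : ∀ u v, U u v ∈ Y) (hDY : ∀ u v, D u v ∈ Y)
    (hb1 : ∀ v, U 0 v = D 0 v) (hb2 : ∀ v, U 1 v = D 1 v)
    (hb3 : ∀ u, U u 0 = D u 0) (hb4 : ∀ u, U u 1 = D u 1)
    (hU2 : ∀ u v, 0 ≤ f 2 (U u v)) (hD2 : ∀ u v, f 2 (D u v) ≤ 0)
    (hs1 : ∀ v, 0 ≤ f 0 (U 1 v)) (hs2 : ∀ v, 0 ≤ f 1 (U 1 v))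
    (he1 : f 0 (U 1 0) ≤ 0) (he2 : f 1 (U 1 1) ≤ 0)
    (hs3 : ∀ u, f 1 (U u 1) ≤ 0) (hs4 : ∀ v, f 0 (U 0 v) ≤ 0) (hs5 : ∀ u, f 0 (U u 0) ≤ 0) :
    False := by
  classical
  -- a lower bound for the maximum
  obtain ⟨y0, hy0, hmin⟩ := hY.isCompact.exists_isMinOn ⟨U 0 0, hUY 0 0⟩
    (((hfc 0).abs.max (hfc 1).abs).max (hfc 2).abs).continuousOn
  set c : ℝ := max (max |f 0 y0| |f 1 y0|) |f 2 y0| with hc
  have hcpos : 0 < c := by
    by_contra hcon
    push Not at hcon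
    have h0 : |f 0 y0| ≤ 0 := ((le_max_left _ _).trans (le_max_left _ _)).trans hcon
    have h1 : |f 1 y0| ≤ 0 := ((le_max_right _ _).trans (le_max_left _ _)).trans hcon
    have h2 : |f 2 y0| ≤ 0 := (le_max_right _ _).trans hcon
    obtain ⟨k, hk⟩ := hne y0 hy0
    fin_cases k
    · exact hk (abs_nonpos_iff.1 h0)
    · exact hk (abs_nonpos_iff.1 h1)
    · exact hk (abs_nonpos_iff.1 h2)
  have hcle : ∀ y ∈ Y, c ≤ max (max |f 0 y| |f 1 y|) |f 2 y| := fun y hy => hmin hy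
  have huc : ∀ k, ∃ ε > 0, ∀ x y, dist x y < ε → |f k x - f k y| < c := by
    intro k
    obtain ⟨ε, hε, h⟩ := Metric.uniformContinuous_iff.1
      (CompactSpace.uniformContinuous_of_continuous (hfc k)) c hcpos
    refine ⟨ε, hε, fun x y hxy => ?_⟩
    have := h hxy
    rwa [Real.dist_eq] at this
  obtain ⟨ε0, hε0, hf0⟩ := huc 0
  obtain ⟨ε1, hε1, hf1⟩ := huc 1
  obtain ⟨ε2, hε2, hf2⟩ := huc 2
  set ε : ℝ := min (min ε0 ε1) ε2 with hε
  have hεpos : 0 < ε := lt_min (lt_min hε0 hε1) hε2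
  have hg0 : ∀ x y, dist x y < ε → |f 0 x - f 0 y| < c := fun x y hxy =>
    hf0 x y (lt_of_lt_of_le hxy ((min_le_left _ _).trans (min_le_left _ _)))
  have hg1 : ∀ x y, dist x y < ε → |f 1 x - f 1 y| < c := fun x y hxy =>
    hf1 x y (lt_of_lt_of_le hxy ((min_le_left _ _).trans (min_le_right _ _)))
  have hg2 : ∀ x y, dist x y < ε → |f 2 x - f 2 y| < c := fun x y hxy =>
    hf2 x y (lt_of_lt_of_le hxy (min_le_right _ _))
  -- labels
  let L : X → Fin 4 := fun x =>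
    if |f 1 x| ≤ f 0 x ∧ |f 2 x| ≤ f 0 x then 0
    else if |f 0 x| ≤ f 1 x ∧ |f 2 x| ≤ f 1 x then 1
    else if |f 0 x| ≤ f 2 x ∧ |f 1 x| ≤ f 2 x then 2 else 3
  have hL0 : ∀ x ∈ Y, L x = 0 → c ≤ f 0 x := by
    intro x hx h
    by_cases h1 : |f 1 x| ≤ f 0 x ∧ |f 2 x| ≤ f 0 x
    · have h2 := hcle x hx
      have h3 : |f 0 x| = f 0 x := abs_of_nonneg ((abs_nonneg _).trans h1.1)
      rw [h3, max_eq_left h1.1, max_eq_left h1.2] at h2
      exact h2
    · exfalso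
      have h' : (if |f 1 x| ≤ f 0 x ∧ |f 2 x| ≤ f 0 x then (0 : Fin 4)
        else if |f 0 x| ≤ f 1 x ∧ |f 2 x| ≤ f 1 x then 1
        else if |f 0 x| ≤ f 2 x ∧ |f 1 x| ≤ f 2 x then 2 else 3) = 0 := h
      rw [if_neg h1] at h'
      split_ifs at h' <;> exact absurd h' (by decide)
  have hL1 : ∀ x ∈ Y, L x = 1 → c ≤ f 1 x := by
    intro x hx h
    have h' : (if |f 1 x| ≤ f 0 x ∧ |f 2 x| ≤ f 0 x then (0 : Fin 4)
        else if |f 0 x| ≤ f 1 x ∧ |f 2 x| ≤ f 1 x then 1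
        else if |f 0 x| ≤ f 2 x ∧ |f 1 x| ≤ f 2 x then 2 else 3) = 1 := h
    by_cases h1 : |f 0 x| ≤ f 1 x ∧ |f 2 x| ≤ f 1 x
    · have h2 := hcle x hx
      have h3 : |f 1 x| = f 1 x := abs_of_nonneg ((abs_nonneg _).trans h1.1)
      rw [h3, max_eq_right h1.1, max_eq_left h1.2] at h2
      exact h2
    · exfalso
      rw [if_neg h1] at h'
      split_ifs at h' <;> exact absurd h' (by decide)
  have hL2 : ∀ x ∈ Y, L x = 2 → c ≤ f 2 x := by
    intro x hx h
    have h' : (if |f 1 x| ≤ f 0 x ∧ |f 2 x| ≤ f 0 x then (0 : Fin 4)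
        else if |f 0 x| ≤ f 1 x ∧ |f 2 x| ≤ f 1 x then 1
        else if |f 0 x| ≤ f 2 x ∧ |f 1 x| ≤ f 2 x then 2 else 3) = 2 := h
    by_cases h1 : |f 0 x| ≤ f 2 x ∧ |f 1 x| ≤ f 2 x
    · have h2 := hcle x hx
      have h3 : |f 2 x| = f 2 x := abs_of_nonneg ((abs_nonneg _).trans h1.1)
      rw [h3, max_eq_right (max_le h1.1 h1.2)] at h2
      exact h2
    · exfalso
      rw [if_neg h1] at h'
      split_ifs at h' <;> exact absurd h' (by decide)
  have hL3 : ∀ x, 0 ≤ f 0 x → 0 ≤ f 1 x → 0 ≤ f 2 x → L x ≠ 3 := by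
    intro x h0 h1 h2 h
    have h' : (if |f 1 x| ≤ f 0 x ∧ |f 2 x| ≤ f 0 x then (0 : Fin 4)
        else if |f 0 x| ≤ f 1 x ∧ |f 2 x| ≤ f 1 x then 1
        else if |f 0 x| ≤ f 2 x ∧ |f 1 x| ≤ f 2 x then 2 else 3) = 3 := h
    rw [abs_of_nonneg h0, abs_of_nonneg h1, abs_of_nonneg h2] at h'
    split_ifs at h' with p1 p2 p3
    · exact absurd h' (by decide)
    · exact absurd h' (by decide)
    · exact absurd h' (by decide)
    · rw [not_and_or, not_le, not_le] at p1 p2 p3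
      rcases p1 with p1 | p1 <;> rcases p2 with p2 | p2 <;> rcases p3 with p3 | p3 <;> linarith
  have hfour : ∀ σ : List X, (∀ x ∈ σ, x ∈ Y) → (∀ x ∈ σ, ∀ y ∈ σ, dist x y < ε) →
      ∀ x ∈ σ, ∀ y ∈ σ, ∀ z ∈ σ, ∀ t ∈ σ, L x = 0 → L y = 1 → L z = 2 → L t ≠ 3 := by
    intro σ hσ hd x hx y hy z hz t ht ex ey ez
    have a0 := hL0 x (hσ x hx) ex
    have a1 := hL1 y (hσ y hy) ey
    have a2 := hL2 z (hσ z hz) ez
    have b0 := abs_lt.1 (hg0 x t (hd x hx t ht))
    have b1 := abs_lt.1 (hg1 y t (hd y hy t ht))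
    have b2 := abs_lt.1 (hg2 z t (hd z hz t ht))
    exact hL3 t (by linarith) (by linarith) (by linarith)
  obtain ⟨δ, hδ, hδ2⟩ := hA ε hεpos
  have hδ' : 0 < min δ ε := lt_min hδ hεpos
  -- the grid
  have huni : ∀ V : ℝ → ℝ → X, Continuous (fun p : ℝ × ℝ => V p.1 p.2) → ∃ η > 0,
      ∀ u v u' v' : ℝ, u ∈ Set.Icc (0 : ℝ) 1 → v ∈ Set.Icc (0 : ℝ) 1 → u' ∈ Set.Icc (0 : ℝ) 1 →
        v' ∈ Set.Icc (0 : ℝ) 1 → |u - u'| < η → |v - v'| < η → dist (V u v) (V u' v') < min δ ε := by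
    intro V hV
    have huc := (isCompact_Icc.prod isCompact_Icc).uniformContinuousOn_of_continuous
      (s := Set.Icc (0 : ℝ) 1 ×ˢ Set.Icc (0 : ℝ) 1) hV.continuousOn
    obtain ⟨η, hη, hη2⟩ := Metric.uniformContinuousOn_iff.1 huc _ hδ'
    refine ⟨η, hη, fun u v u' v' hu hv hu' hv' h1 h2 => ?_⟩
    refine hη2 (u, v) ⟨hu, hv⟩ (u', v') ⟨hu', hv'⟩ ?_
    rw [Prod.dist_eq]
    exact max_lt (by rwa [Real.dist_eq]) (by rwa [Real.dist_eq])
  obtain ⟨ηU, hηU, hU⟩ := huni U hUc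
  obtain ⟨ηD, hηD, hD⟩ := huni D hDc
  obtain ⟨N, hN⟩ := exists_nat_one_div_lt (lt_min hηU hηD)
  set M : ℕ := N + 1 with hM
  have hM0 : (0 : ℝ) < (M : ℝ) := by rw [hM]; push_cast; positivity
  have hMN : 1 / (M : ℝ) < min ηU ηD := by rw [hM]; push_cast; exact hN
  have hin : ∀ i : ℕ, i ≤ M → ((i : ℝ) / M) ∈ Set.Icc (0 : ℝ) 1 := by
    intro i hi
    refine ⟨by positivity, (div_le_one hM0).2 (by exact_mod_cast hi)⟩
  have hstep : ∀ i : ℕ, |((i : ℝ) / M) - (((i + 1 : ℕ) : ℝ) / M)| < min ηU ηD := by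
    intro i
    rw [← sub_div, abs_div, abs_of_pos hM0]
    have : |(i : ℝ) - ((i + 1 : ℕ) : ℝ)| = 1 := by
      push_cast
      rw [sub_add_cancel_left, abs_neg, abs_one]
    rw [this]
    exact hMN
  have hstay : ∀ i : ℕ, |((i : ℝ) / M) - ((i : ℝ) / M)| < min ηU ηD := by
    intro i
    rw [sub_self, abs_zero]
    exact lt_min hηU hηD
  have hst' : ∀ i : ℕ, |(((i + 1 : ℕ) : ℝ) / M) - ((i : ℝ) / M)| < min ηU ηD := by
    intro i
    rw [abs_sub_comm]
    exact hstep i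
  let PU : ℕ → ℕ → X := fun i j => U ((i : ℝ) / M) ((j : ℝ) / M)
  let PD : ℕ → ℕ → X := fun i j => D ((i : ℝ) / M) ((j : ℝ) / M)
  -- distances in the grid squares
  have hgrid : ∀ (V : ℝ → ℝ → X) (η : ℝ), min ηU ηD ≤ η →
      (∀ u v u' v' : ℝ, u ∈ Set.Icc (0 : ℝ) 1 → v ∈ Set.Icc (0 : ℝ) 1 → u' ∈ Set.Icc (0 : ℝ) 1 →
        v' ∈ Set.Icc (0 : ℝ) 1 → |u - u'| < η → |v - v'| < η →
        dist (V u v) (V u' v') < min δ ε) →
      ∀ i < M, ∀ j < M, ∀ a a' b b' : ℕ, a ≤ 1 → a' ≤ 1 → b ≤ 1 → b' ≤ 1 →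
        dist (V (((i + a : ℕ) : ℝ) / M) (((j + b : ℕ) : ℝ) / M))
          (V (((i + a' : ℕ) : ℝ) / M) (((j + b' : ℕ) : ℝ) / M)) < min δ ε := by
    intro V η hη hV i hi j hj a a' b b' ha ha' hb hb'
    have hd : ∀ (i a a' : ℕ), a ≤ 1 → a' ≤ 1 →
        |(((i + a : ℕ) : ℝ) / M) - (((i + a' : ℕ) : ℝ) / M)| < η := by
      intro i a a' ha ha'
      refine lt_of_lt_of_le ?_ hη
      interval_cases a <;> interval_cases a'
      · exact hstay i
      · exact hstep i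
      · exact hst' i
      · exact hstay (i + 1)
    exact hV _ _ _ _ (hin _ (by omega)) (hin _ (by omega)) (hin _ (by omega)) (hin _ (by omega))
      (hd i a a' ha ha') (hd j b b' hb hb')
  have hgU := hgrid U ηU (min_le_left _ _) hU
  have hgD := hgrid D ηD (min_le_right _ _) hD
  -- small triangles
  have hsml : ∀ (V : ℝ → ℝ → X), (∀ u v, V u v ∈ Y) →
      (∀ i < M, ∀ j < M, ∀ a a' b b' : ℕ, a ≤ 1 → a' ≤ 1 → b ≤ 1 → b' ≤ 1 →
        dist (V (((i + a : ℕ) : ℝ) / M) (((j + b : ℕ) : ℝ) / M))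
          (V (((i + a' : ℕ) : ℝ) / M) (((j + b' : ℕ) : ℝ) / M)) < min δ ε) →
      ∀ i < M, ∀ j < M, ∀ a b : ℕ, a ≤ 1 → b ≤ 1 → ∀ x ∈
        [V ((i : ℝ) / M) ((j : ℝ) / M), V (((i + a : ℕ) : ℝ) / M) (((j + b : ℕ) : ℝ) / M),
          V (((i + 1 : ℕ) : ℝ) / M) (((j + 1 : ℕ) : ℝ) / M)], ∀ y ∈
        [V ((i : ℝ) / M) ((j : ℝ) / M), V (((i + a : ℕ) : ℝ) / M) (((j + b : ℕ) : ℝ) / M),
          V (((i + 1 : ℕ) : ℝ) / M) (((j + 1 : ℕ) : ℝ) / M)], dist x y < min δ ε := by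
    intro V hVY hV i hi j hj a b ha hb x hx y hy
    have h := hV i hi j hj
    simp only [List.mem_cons, List.not_mem_nil, or_false] at hx hy
    have e00 := h 0 0 0 0 (by norm_num) (by norm_num) (by norm_num) (by norm_num)
    have e0a := h 0 a 0 b (by norm_num) ha (by norm_num) hb
    have e01 := h 0 1 0 1 (by norm_num) (by norm_num) (by norm_num) (by norm_num)
    have ea0 := h a 0 b 0 ha (by norm_num) hb (by norm_num)
    have eaa := h a a b b ha ha hb hb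
    have ea1 := h a 1 b 1 ha (by norm_num) hb (by norm_num)
    have e10 := h 1 0 1 0 (by norm_num) (by norm_num) (by norm_num) (by norm_num)
    have e1a := h 1 a 1 b (by norm_num) ha (by norm_num) hb
    have e11 := h 1 1 1 1 (by norm_num) (by norm_num) (by norm_num) (by norm_num)
    simp only [Nat.add_zero] at e00 e0a e01 ea0 ea1 e10 e1a e11
    rcases hx with rfl | rfl | rfl <;> rcases hy with rfl | rfl | rfl <;> assumption
  have hGm : ∀ (V : ℝ → ℝ → X), (∀ u v, V u v ∈ Y) →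
      (∀ i < M, ∀ j < M, ∀ a a' b b' : ℕ, a ≤ 1 → a' ≤ 1 → b ≤ 1 → b' ≤ 1 →
        dist (V (((i + a : ℕ) : ℝ) / M) (((j + b : ℕ) : ℝ) / M))
          (V (((i + a' : ℕ) : ℝ) / M) (((j + b' : ℕ) : ℝ) / M)) < min δ ε) →
      G (fun i j => V ((i : ℝ) / M) ((j : ℝ) / M)) M ∈ Sml Y δ := by
    intro V hVY hV
    refine AddSubgroup.sum_mem _ fun i hi => AddSubgroup.sum_mem _ fun j hj => ?_
    have hi' := Finset.mem_range.1 hi
    have hj' := Finset.mem_range.1 hj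
    refine AddSubgroup.add_mem _ (of_mem_cl ⟨?_, ?_⟩) (of_mem_cl ⟨?_, ?_⟩)
    · intro x hx
      simp only [List.mem_cons, List.not_mem_nil, or_false] at hx
      rcases hx with rfl | rfl | rfl <;> exact hVY _ _
    · intro x hx y hy
      exact lt_of_lt_of_le (hsml V hVY hV i hi' j hj' 1 0 le_rfl (by norm_num) x hx y hy)
        (min_le_left _ _)
    · intro x hx
      simp only [List.mem_cons, List.not_mem_nil, or_false] at hx
      rcases hx with rfl | rfl | rfl <;> exact hVY _ _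
    · intro x hx y hy
      exact lt_of_lt_of_le (hsml V hVY hV i hi' j hj' 0 1 (by norm_num) le_rfl x hx y hy)
        (min_le_left _ _)
  have hmem : G PU M + G PD M ∈ Sml Y δ :=
    AddSubgroup.add_mem _ (hGm U hUY hgU) (hGm D hDY hgD)
  have hbeq : bG PU M = bG PD M := by
    have hMM : ((M : ℕ) : ℝ) / M = 1 := div_self hM0.ne'
    have h00 : ((0 : ℕ) : ℝ) / M = 0 := by rw [Nat.cast_zero, zero_div]
    have f1 : ∀ j, PU M j = PD M j := fun j => by
      show U (((M : ℕ) : ℝ) / M) _ = D (((M : ℕ) : ℝ) / M) _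
      rw [hMM]; exact hb2 _
    have f0 : ∀ j, PU 0 j = PD 0 j := fun j => by
      show U (((0 : ℕ) : ℝ) / M) _ = D (((0 : ℕ) : ℝ) / M) _
      rw [h00]; exact hb1 _
    have f3 : ∀ i, PU i M = PD i M := fun i => by
      show U _ (((M : ℕ) : ℝ) / M) = D _ (((M : ℕ) : ℝ) / M)
      rw [hMM]; exact hb4 _
    have f2 : ∀ i, PU i 0 = PD i 0 := fun i => by
      show U _ (((0 : ℕ) : ℝ) / M) = D _ (((0 : ℕ) : ℝ) / M)
      rw [h00]; exact hb3 _
    unfold bG
    simp only [f1, f0, f3, f2]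
  have hcyc : dO (G PU M + G PD M) ∈ Ng X := by
    have h1 := AddSubgroup.add_mem _ (dO_G PU M) (dO_G PD M)
    have h2 := two_mem (bG PU M)
    have h3 := AddSubgroup.add_mem _ h1 h2
    convert h3 using 1
    rw [map_add, ← hbeq]
    abel
  obtain ⟨w, hw, hwc⟩ := hδ2 _ hmem hcyc
  have r1 := t3L_Ng L hwc
  rw [map_sub, t3L_dO hfour hw, map_add] at r1
  -- the lower disc carries no rainbow
  have hlow : t3L L (G PD M) = 0 := by
    unfold G
    rw [map_sum]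
    refine Finset.sum_eq_zero fun i _ => ?_
    rw [map_sum]
    refine Finset.sum_eq_zero fun j _ => ?_
    have hn : ∀ a b, L (PD a b) ≠ 2 := by
      intro a b h
      have h1 := hL2 _ (hDY _ _) h
      have h2 := hD2 ((a : ℝ) / M) ((b : ℝ) / M)
      exact absurd (h1.trans h2) (not_le.2 hcpos)
    rw [map_add, t3L_of, t3L_of]
    show tE _ _ _ + tE _ _ _ = 0
    rw [tE_low _ _ _ (hn _ _) (hn _ _) (hn _ _), tE_low _ _ _ (hn _ _) (hn _ _) (hn _ _),
      add_zero]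
  -- the upper disc
  have hthree : ∀ σ : List X, (∀ x ∈ σ, x ∈ Y ∧ 0 ≤ f 2 x) →
      (∀ x ∈ σ, ∀ y ∈ σ, dist x y < ε) → ∀ x ∈ σ, ∀ y ∈ σ, ∀ t ∈ σ, L x = 0 → L y = 1 →
      L t ≠ 3 := by
    intro σ hσ hd x hx y hy t ht ex ey
    have a0 := hL0 x (hσ x hx).1 ex
    have a1 := hL1 y (hσ y hy).1 ey
    have b0 := abs_lt.1 (hg0 x t (hd x hx t ht))
    have b1 := abs_lt.1 (hg1 y t (hd y hy t ht))
    exact hL3 t (by linarith) (by linarith) (hσ t ht).2
  have htri : ∀ x y z : X, (∀ p ∈ [x, y, z], p ∈ Y ∧ 0 ≤ f 2 p) →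
      (∀ p ∈ [x, y, z], ∀ q ∈ [x, y, z], dist p q < ε) →
      t3L L (of [x, y, z]) = c2L L (dO (of [x, y, z])) := by
    intro x y z h1 h2
    rw [dO_three, map_sub, map_sub, t3L_of, c2L_of, c2L_of, c2L_of]
    show tE (L x) (L y) (L z) = cE (L y) (L z) - (cE (L x) (L z) - cE (L x) (L y))
    refine tE_three _ _ _ ?_
    intro h0 h1' h3
    have e : ∀ k : Fin 4, k ∈ [L x, L y, L z] → ∃ p ∈ [x, y, z], L p = k := by
      intro k hk
      have hk' : k ∈ List.map L [x, y, z] := hk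
      obtain ⟨p, hp, hpk⟩ := List.mem_map.1 hk'
      exact ⟨p, hp, hpk⟩
    obtain ⟨p0, hp0, e0⟩ := e 0 h0
    obtain ⟨p1, hp1, e1⟩ := e 1 h1'
    obtain ⟨p3, hp3, e3⟩ := e 3 h3
    exact hthree [x, y, z] h1 h2 p0 hp0 p1 hp1 p3 hp3 e0 e1 e3
  have hup : t3L L (G PU M) = c2L L (dO (G PU M)) := by
    unfold G
    rw [map_sum, map_sum, map_sum]
    refine Finset.sum_congr rfl fun i hi => ?_
    rw [map_sum, map_sum, map_sum]
    refine Finset.sum_congr rfl fun j hj => ?_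
    have hi' := Finset.mem_range.1 hi
    have hj' := Finset.mem_range.1 hj
    rw [map_add, map_add, map_add]
    congr 1
    · refine htri _ _ _ ?_ ?_
      · intro p hp
        simp only [List.mem_cons, List.not_mem_nil, or_false] at hp
        rcases hp with rfl | rfl | rfl <;> exact ⟨hUY _ _, hU2 _ _⟩
      · intro p hp q hq
        exact lt_of_lt_of_le (hsml U hUY hgU i hi' j hj' 1 0 le_rfl (by norm_num) p hp q hq)
          (min_le_right _ _)
    · refine htri _ _ _ ?_ ?_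
      · intro p hp
        simp only [List.mem_cons, List.not_mem_nil, or_false] at hp
        rcases hp with rfl | rfl | rfl <;> exact ⟨hUY _ _, hU2 _ _⟩
      · intro p hp q hq
        exact lt_of_lt_of_le (hsml U hUY hgU i hi' j hj' 0 1 (by norm_num) le_rfl p hp q hq)
          (min_le_right _ _)
  have hbd : c2L L (dO (G PU M)) = c2L L (bG PU M) := by
    have h1 := c2L_Ng L (dO_G PU M)
    rw [map_sub] at h1
    exact sub_eq_zero.1 h1
  -- the boundary
  have hMM : ((M : ℕ) : ℝ) / M = 1 := div_self hM0.ne'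
  have h00 : ((0 : ℕ) : ℝ) / M = 0 := by rw [Nat.cast_zero, zero_div]
  have hb0 : ∀ v, f 2 (U 1 v) = 0 := fun v =>
    le_antisymm (by rw [hb2 v]; exact hD2 _ _) (hU2 _ _)
  have hM2 : ∀ j, L (PU M j) ≠ 2 := by
    intro j h
    have h1 := hL2 _ (hUY _ _) h
    have h2 : f 2 (PU M j) = 0 := by
      show f 2 (U (((M : ℕ) : ℝ) / M) _) = 0
      rw [hMM]; exact hb0 _
    rw [h2] at h1
    exact absurd h1 (not_le.2 hcpos)
  have hM3 : ∀ j, L (PU M j) ≠ 3 := by
    intro j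
    refine hL3 _ ?_ ?_ (hU2 _ _)
    · show 0 ≤ f 0 (U (((M : ℕ) : ℝ) / M) _)
      rw [hMM]; exact hs1 _
    · show 0 ≤ f 1 (U (((M : ℕ) : ℝ) / M) _)
      rw [hMM]; exact hs2 _
  have hV : ∑ j ∈ Finset.range M, c2L L (of [PU M j, PU M (j + 1)]) =
      (if L (PU M M) = 0 then 1 else 0) - (if L (PU M 0) = 0 then 1 else 0) := by
    rw [← Finset.sum_range_sub (fun j : ℕ => if L (PU M j) = 0 then (1 : ZMod 2) else 0) M]
    refine Finset.sum_congr rfl fun j _ => ?_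
    rw [c2L_of]
    exact cE_diff _ _ (hM2 _) (hM3 _) (hM2 _) (hM3 _)
  have hVe : L (PU M M) = 0 := by
    have h1 : L (PU M M) ≠ 1 := by
      intro h
      have h1 := hL1 _ (hUY _ _) h
      have h2 : f 1 (PU M M) ≤ 0 := by
        show f 1 (U (((M : ℕ) : ℝ) / M) (((M : ℕ) : ℝ) / M)) ≤ 0
        rw [hMM]; exact he2
      exact absurd (h1.trans h2) (not_le.2 hcpos)
    have h2 := hM2 M
    have h3 := hM3 M
    generalize L (PU M M) = l at h1 h2 h3
    revert h1 h2 h3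
    revert l
    decide
  have hVs : L (PU M 0) ≠ 0 := by
    intro h
    have h1 := hL0 _ (hUY _ _) h
    have h2 : f 0 (PU M 0) ≤ 0 := by
      show f 0 (U (((M : ℕ) : ℝ) / M) (((0 : ℕ) : ℝ) / M)) ≤ 0
      rw [hMM, h00]; exact he1
    exact absurd (h1.trans h2) (not_le.2 hcpos)
  have hV0 : ∑ j ∈ Finset.range M, c2L L (of [PU 0 j, PU 0 (j + 1)]) = 0 := by
    refine Finset.sum_eq_zero fun j _ => ?_
    rw [c2L_of]
    have hn : ∀ j, L (PU 0 j) ≠ 0 := by
      intro j h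
      have h1 := hL0 _ (hUY _ _) h
      have h2 : f 0 (PU 0 j) ≤ 0 := by
        show f 0 (U (((0 : ℕ) : ℝ) / M) _) ≤ 0
        rw [h00]; exact hs4 _
      exact absurd (h1.trans h2) (not_le.2 hcpos)
    exact cE_zero _ _ (hn _) (hn _)
  have hH0 : ∑ i ∈ Finset.range M, c2L L (of [PU i 0, PU (i + 1) 0]) = 0 := by
    refine Finset.sum_eq_zero fun i _ => ?_
    rw [c2L_of]
    have hn : ∀ i, L (PU i 0) ≠ 0 := by
      intro i h
      have h1 := hL0 _ (hUY _ _) h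
      have h2 : f 0 (PU i 0) ≤ 0 := by
        show f 0 (U _ (((0 : ℕ) : ℝ) / M)) ≤ 0
        rw [h00]; exact hs5 _
      exact absurd (h1.trans h2) (not_le.2 hcpos)
    exact cE_zero _ _ (hn _) (hn _)
  have hHM : ∑ i ∈ Finset.range M, c2L L (of [PU i M, PU (i + 1) M]) = 0 := by
    refine Finset.sum_eq_zero fun i _ => ?_
    rw [c2L_of]
    have hn : ∀ i, L (PU i M) ≠ 1 := by
      intro i h
      have h1 := hL1 _ (hUY _ _) h
      have h2 : f 1 (PU i M) ≤ 0 := by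
        show f 1 (U _ (((M : ℕ) : ℝ) / M)) ≤ 0
        rw [hMM]; exact hs3 _
      exact absurd (h1.trans h2) (not_le.2 hcpos)
    exact cE_one _ _ (hn _) (hn _)
  have hfin : c2L L (bG PU M) = 1 := by
    unfold bG
    rw [map_add, map_sum, map_sum]
    simp only [map_sub]
    rw [Finset.sum_sub_distrib, Finset.sum_sub_distrib, hV, hV0, hH0, hHM, if_pos hVe,
      if_neg hVs]
    decide
  rw [hlow, hup, hbd, hfin] at r1
  exact absurd r1 (by decide)

end Pool.Agent.H71.SM
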