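import Pool.Agent.H71.SM.Acy

/-!
# Splitting small chains along the sign of a function
-/

namespace Pool.Agent.H71.SM

open FreeAbelianGroup Pool.Agent.H73.Avr
open scoped Classical

variable {X : Type}

/-- the part of a list without points outside `nr`, moved by `π` -/
noncomputable def cL (nr : X → Prop) (π : X → X) : List X → O X
  | [] => of []
  | (x :: σ) => if nr x then cns (π x) (cL nr π σ) else 0

/-- the part of a list with exactly one point in `P`, which is removed, the others in `nr`,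
moved by `π` -/
noncomputable def uL (nr P : X → Prop) (π : X → X) : List X → O X
  | [] => 0
  | (x :: σ) => if nr x then cns (π x) (uL nr P π σ) else if P x then cL nr π σ else 0

noncomputable def cM (nr : X → Prop) (π : X → X) : O X →+ O X := lift (cL nr π)
noncomputable def uM (nr P : X → Prop) (π : X → X) : O X →+ O X := lift (uL nr P π)

/-- admissible lists: every point is in `nr`, `P` or `Q`, and not both `P` and `Q` occur -/
def Adm (nr P Q : X → Prop) (σ : List X) : Prop :=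
  (∀ x ∈ σ, nr x ∨ P x ∨ Q x) ∧ ((∀ x ∈ σ, ¬ P x) ∨ (∀ x ∈ σ, ¬ Q x))

/-! ### the negligible chains -/

private theorem of_Dg_mem {σ : List X} (h : Dg σ) : of σ ∈ Ng X :=
  AddSubgroup.mem_sup_left (of_mem_cl h)

private theorem cl_Dg_le {y : O X} (h : y ∈ cl (X := X) Dg) : y ∈ Ng X :=
  AddSubgroup.mem_sup_left h

private theorem two_mem (y : O X) : y + y ∈ Ng X :=
  AddSubgroup.mem_sup_right ⟨y, rfl⟩

/-- a homomorphism which maps degenerate lists to negligible chains preserves `Ng` -/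
private theorem hom_Ng (f : O X →+ O X) (h : ∀ σ, Dg σ → f (of σ) ∈ Ng X) {y : O X}
    (hy : y ∈ Ng X) : f y ∈ Ng X := by
  have h1 : Ng X ≤ (Ng X).comap f := by
    unfold Ng
    refine sup_le ?_ ?_
    · intro z hz
      exact map_mem_of_cl (S := Ng X) f h hz
    · rintro _ ⟨z, rfl⟩
      show f (z + z) ∈ Ng X
      rw [map_add]
      exact two_mem _
  exact h1 hy

private theorem cns_Ng (x : X) {y : O X} (hy : y ∈ Ng X) : cns x y ∈ Ng X :=
  hom_Ng (cns x) (fun _ hσ => of_Dg_mem (hσ.cons x)) hy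

private theorem mem_cl_true (y : O X) : y ∈ cl (X := X) (fun _ => True) := by
  unfold cl
  induction y using FreeAbelianGroup.induction_on with
  | zero => exact AddSubgroup.zero_mem _
  | of σ => exact AddSubgroup.subset_closure ⟨σ, trivial, rfl⟩
  | neg σ h => exact AddSubgroup.neg_mem _ h
  | add a b ha hb => exact AddSubgroup.add_mem _ ha hb

private theorem cns_cns_mem (a : X) (y : O X) : cns a (cns a y) ∈ cl (X := X) Dg :=
  map_mem_of_cl ((cns a).comp (cns a)) (fun _ _ => of_mem_cl (Dg.head _ _)) (mem_cl_true y)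

private theorem cl_mono {p p' : List X → Prop} (h : ∀ σ, p σ → p' σ) : cl p ≤ cl p' := by
  intro y hy
  exact map_mem_of_cl (S := cl p') (AddMonoidHom.id _) (fun σ hσ => of_mem_cl (h σ hσ)) hy

/-- two homomorphisms which agree on the generators agree -/
private theorem hom_eq {A : Type*} [AddCommGroup A] {p : List X → Prop} (f f' : O X →+ A)
    (h : ∀ σ, p σ → f (of σ) = f' (of σ)) {y : O X} (hy : y ∈ cl p) : f y = f' y := by
  have h1 : (f - f') y ∈ (⊥ : AddSubgroup A) :=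
    map_mem_of_cl (f - f') (fun σ hσ => by
      rw [AddSubgroup.mem_bot, AddMonoidHom.sub_apply, h σ hσ, sub_self]) hy
  rw [AddSubgroup.mem_bot, AddMonoidHom.sub_apply, sub_eq_zero] at h1
  exact h1

/-! ### the operators on lists -/

private theorem cM_of (nr : X → Prop) (π : X → X) (σ : List X) : cM nr π (of σ) = cL nr π σ :=
  lift_apply_of _ _
private theorem uM_of (nr P : X → Prop) (π : X → X) (σ : List X) :
    uM nr P π (of σ) = uL nr P π σ := lift_apply_of _ _

private theorem cL_nr {nr : X → Prop} {π : X → X} {x : X} (h : nr x) (σ : List X) :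
    cL nr π (x :: σ) = cns (π x) (cL nr π σ) := by
  show (if nr x then _ else _) = _
  rw [if_pos h]

private theorem cL_not {nr : X → Prop} {π : X → X} {x : X} (h : ¬ nr x) (σ : List X) :
    cL nr π (x :: σ) = 0 := by
  show (if nr x then _ else _) = _
  rw [if_neg h]

private theorem uL_nr {nr P : X → Prop} {π : X → X} {x : X} (h : nr x) (σ : List X) :
    uL nr P π (x :: σ) = cns (π x) (uL nr P π σ) := by
  show (if nr x then _ else _) = _
  rw [if_pos h]

private theorem uL_P {nr P : X → Prop} {π : X → X} {x : X} (h : ¬ nr x) (h' : P x)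
    (σ : List X) : uL nr P π (x :: σ) = cL nr π σ := by
  show (if nr x then _ else if P x then _ else _) = _
  rw [if_neg h, if_pos h']

private theorem uL_not {nr P : X → Prop} {π : X → X} {x : X} (h : ¬ nr x) (h' : ¬ P x)
    (σ : List X) : uL nr P π (x :: σ) = 0 := by
  show (if nr x then _ else if P x then _ else _) = _
  rw [if_neg h, if_neg h']

private theorem cM_cns_nr {nr : X → Prop} {π : X → X} {x : X} (h : nr x) (y : O X) :
    cM nr π (cns x y) = cns (π x) (cM nr π y) :=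
  hom_eq ((cM nr π).comp (cns x)) ((cns (π x)).comp (cM nr π)) (fun σ _ => by
    show cM nr π (cns x (of σ)) = cns (π x) (cM nr π (of σ))
    rw [cns_of, cM_of, cM_of, cL_nr h]) (mem_cl_true y)

private theorem cM_cns_not {nr : X → Prop} {π : X → X} {x : X} (h : ¬ nr x) (y : O X) :
    cM nr π (cns x y) = 0 :=
  hom_eq ((cM nr π).comp (cns x)) 0 (fun σ _ => by
    show cM nr π (cns x (of σ)) = 0
    rw [cns_of, cM_of, cL_not h]) (mem_cl_true y)

private theorem uM_cns_nr {nr P : X → Prop} {π : X → X} {x : X} (h : nr x) (y : O X) :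
    uM nr P π (cns x y) = cns (π x) (uM nr P π y) :=
  hom_eq ((uM nr P π).comp (cns x)) ((cns (π x)).comp (uM nr P π)) (fun σ _ => by
    show uM nr P π (cns x (of σ)) = cns (π x) (uM nr P π (of σ))
    rw [cns_of, uM_of, uM_of, uL_nr h]) (mem_cl_true y)

private theorem uM_cns_P {nr P : X → Prop} {π : X → X} {x : X} (h : ¬ nr x) (h' : P x)
    (y : O X) : uM nr P π (cns x y) = cM nr π y :=
  hom_eq ((uM nr P π).comp (cns x)) (cM nr π) (fun σ _ => by
    show uM nr P π (cns x (of σ)) = cM nr π (of σ)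
    rw [cns_of, uM_of, cM_of, uL_P h h']) (mem_cl_true y)

private theorem uM_cns_not {nr P : X → Prop} {π : X → X} {x : X} (h : ¬ nr x) (h' : ¬ P x)
    (y : O X) : uM nr P π (cns x y) = 0 :=
  hom_eq ((uM nr P π).comp (cns x)) 0 (fun σ _ => by
    show uM nr P π (cns x (of σ)) = 0
    rw [cns_of, uM_of, uL_not h h']) (mem_cl_true y)

private theorem uL_none {nr P : X → Prop} {π : X → X} (σ : List X) (h : ∀ x ∈ σ, ¬ P x) :
    uL nr P π σ = 0 := by
  induction σ with
  | nil => rfl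
  | cons x σ ih =>
    by_cases hn : nr x
    · rw [uL_nr hn, ih (fun y hy => h y (by simp [hy])), map_zero]
    · rw [uL_not hn (h x (by simp))]

private theorem adm_tail {nr P Q : X → Prop} {x : X} {σ : List X} (h : Adm nr P Q (x :: σ)) :
    Adm nr P Q σ :=
  ⟨fun y hy => h.1 y (by simp [hy]), h.2.imp (fun h1 y hy => h1 y (by simp [hy]))
    (fun h1 y hy => h1 y (by simp [hy]))⟩

private theorem cL_dl {nr P Q : X → Prop} {π : X → X} (hP : ∀ x, P x → ¬ nr x ∧ ¬ Q x)
    (hQ : ∀ x, Q x → ¬ nr x ∧ ¬ P x) (σ : List X) (h : Adm nr P Q σ) :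
    cM nr π (dl σ) - (dO (cL nr π σ) + uL nr P π σ + uL nr Q π σ) ∈ Ng X := by
  induction σ with
  | nil =>
    show cM nr π 0 - (dO (of []) + (0 : O X) + 0) ∈ Ng X
    rw [map_zero, dO_of, add_zero, add_zero]
    show (0 : O X) - 0 ∈ Ng X
    rw [sub_zero]
    exact (Ng X).zero_mem
  | cons x σ ih =>
    have ih' := ih (adm_tail h)
    show cM nr π (of σ - cns x (dl σ)) - _ ∈ Ng X
    rw [map_sub, cM_of]
    by_cases hn : nr x
    · rw [cM_cns_nr hn, cL_nr hn, uL_nr hn, uL_nr hn, dO_cns]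
      have e : cL nr π σ - cns (π x) (cM nr π (dl σ)) -
          (cL nr π σ - cns (π x) (dO (cL nr π σ)) + cns (π x) (uL nr P π σ) +
            cns (π x) (uL nr Q π σ)) =
          -(cns (π x) (cM nr π (dl σ) - (dO (cL nr π σ) + uL nr P π σ + uL nr Q π σ)) +
            (cns (π x) (uL nr P π σ + uL nr Q π σ) + cns (π x) (uL nr P π σ + uL nr Q π σ))) := by
        simp only [map_sub, map_add]
        abel
      rw [e]
      exact (Ng X).neg_mem ((Ng X).add_mem (cns_Ng _ ih') (two_mem _))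
    · rw [cM_cns_not hn, cL_not hn, map_zero]
      rcases h.1 x (by simp) with h1 | h1 | h1
      · exact absurd h1 hn
      · rw [uL_P hn h1, uL_not hn (hP x h1).2, sub_zero, zero_add, add_zero, sub_self]
        exact (Ng X).zero_mem
      · rw [uL_P hn h1, uL_not hn (hQ x h1).2, sub_zero, zero_add, zero_add, sub_self]
        exact (Ng X).zero_mem

theorem cM_dO {nr P Q : X → Prop} {π : X → X} (hP : ∀ x, P x → ¬ nr x ∧ ¬ Q x)
    (hQ : ∀ x, Q x → ¬ nr x ∧ ¬ P x) {y : O X} (hy : y ∈ cl (Adm nr P Q)) :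
    cM nr π (dO y) - (dO (cM nr π y) + uM nr P π y + uM nr Q π y) ∈ Ng X := by
  refine map_mem_of_cl (S := Ng X) ((cM nr π).comp dO - ((dO (X := X)).comp (cM nr π) +
    uM nr P π + uM nr Q π)) (fun σ hσ => ?_) hy
  show cM nr π (dO (of σ)) - (dO (cM nr π (of σ)) + uM nr P π (of σ) + uM nr Q π (of σ)) ∈ Ng X
  rw [dO_of, cM_of, uM_of, uM_of]
  exact cL_dl hP hQ σ hσ

private theorem uL_dl {nr P Q : X → Prop} {π : X → X} (hP : ∀ x, P x → ¬ nr x ∧ ¬ Q x)
    (hQ : ∀ x, Q x → ¬ nr x ∧ ¬ P x) (σ : List X) (h : Adm nr P Q σ) :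
    uM nr P π (dl σ) - dO (uL nr P π σ) ∈ Ng X := by
  induction σ with
  | nil =>
    show uM nr P π 0 - dO (0 : O X) ∈ Ng X
    rw [map_zero, map_zero, sub_zero]
    exact (Ng X).zero_mem
  | cons x σ ih =>
    have ih' := ih (adm_tail h)
    show uM nr P π (of σ - cns x (dl σ)) - _ ∈ Ng X
    rw [map_sub, uM_of]
    by_cases hn : nr x
    · rw [uM_cns_nr hn, uL_nr hn, dO_cns]
      have e : uL nr P π σ - cns (π x) (uM nr P π (dl σ)) -
          (uL nr P π σ - cns (π x) (dO (uL nr P π σ))) =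
          -(cns (π x) (uM nr P π (dl σ) - dO (uL nr P π σ))) := by
        simp only [map_sub]
        abel
      rw [e]
      exact (Ng X).neg_mem (cns_Ng _ ih')
    · rcases h.1 x (by simp) with h1 | h1 | h1
      · exact absurd h1 hn
      · rw [uM_cns_P hn h1, uL_P hn h1]
        have h2 : uL nr Q π σ = 0 := by
          refine uL_none σ (fun y hy => ?_)
          rcases h.2 with h3 | h3
          · exact absurd h1 (h3 x (by simp))
          · exact h3 y (by simp [hy])
        have h3 := cL_dl (π := π) hP hQ σ (adm_tail h)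
        rw [h2, add_zero] at h3
        have e : uL nr P π σ - cM nr π (dl σ) - dO (cL nr π σ) =
            -((cM nr π (dl σ) - (dO (cL nr π σ) + uL nr P π σ)) +
              (dO (cL nr π σ) + dO (cL nr π σ))) := by
          abel
        rw [e]
        exact (Ng X).neg_mem ((Ng X).add_mem h3 (two_mem _))
      · rw [uM_cns_not hn (hQ x h1).2, uL_not hn (hQ x h1).2, map_zero, sub_zero, sub_zero]
        have h2 : uL nr P π σ = 0 := by
          refine uL_none σ (fun y hy => ?_)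
          rcases h.2 with h3 | h3
          · exact h3 y (by simp [hy])
          · exact absurd h1 (h3 x (by simp))
        rw [h2]
        exact (Ng X).zero_mem

theorem uM_dO {nr P Q : X → Prop} {π : X → X} (hP : ∀ x, P x → ¬ nr x ∧ ¬ Q x)
    (hQ : ∀ x, Q x → ¬ nr x ∧ ¬ P x) {y : O X} (hy : y ∈ cl (Adm nr P Q)) :
    uM nr P π (dO y) - dO (uM nr P π y) ∈ Ng X := by
  refine map_mem_of_cl (S := Ng X) ((uM nr P π).comp dO - (dO (X := X)).comp (uM nr P π))
    (fun σ hσ => ?_) hy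
  show uM nr P π (dO (of σ)) - dO (uM nr P π (of σ)) ∈ Ng X
  rw [dO_of, uM_of]
  exact uL_dl hP hQ σ hσ

private theorem cL_Dg {nr : X → Prop} {π : X → X} (σ : List X) (h : Dg σ) :
    cL nr π σ ∈ cl (X := X) Dg := by
  obtain ⟨l, x, r, rfl⟩ := h
  induction l with
  | nil =>
    rw [List.nil_append]
    by_cases hn : nr x
    · rw [cL_nr hn, cL_nr hn]
      exact cns_cns_mem _ _
    · rw [cL_not hn]
      exact AddSubgroup.zero_mem _
  | cons z l ih =>
    rw [List.cons_append]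
    by_cases hn : nr z
    · rw [cL_nr hn]
      exact cns_mem_Dg ih _
    · rw [cL_not hn]
      exact AddSubgroup.zero_mem _

private theorem uL_Dg {nr P : X → Prop} {π : X → X} (σ : List X) (h : Dg σ) :
    uL nr P π σ ∈ cl (X := X) Dg := by
  obtain ⟨l, x, r, rfl⟩ := h
  induction l with
  | nil =>
    rw [List.nil_append]
    by_cases hn : nr x
    · rw [uL_nr hn, uL_nr hn]
      exact cns_cns_mem _ _
    · by_cases hp : P x
      · rw [uL_P hn hp, cL_not hn]
        exact AddSubgroup.zero_mem _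
      · rw [uL_not hn hp]
        exact AddSubgroup.zero_mem _
  | cons z l ih =>
    rw [List.cons_append]
    by_cases hn : nr z
    · rw [uL_nr hn]
      exact cns_mem_Dg ih _
    · by_cases hp : P z
      · rw [uL_P hn hp]
        exact cL_Dg _ ⟨l, x, r, rfl⟩
      · rw [uL_not hn hp]
        exact AddSubgroup.zero_mem _

theorem cM_Ng {nr : X → Prop} {π : X → X} {y : O X} (hy : y ∈ Ng X) : cM nr π y ∈ Ng X :=
  hom_Ng _ (fun σ hσ => by rw [cM_of]; exact cl_Dg_le (cL_Dg σ hσ)) hy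

theorem uM_Ng {nr P : X → Prop} {π : X → X} (hP : ∀ x, P x → ¬ nr x) {y : O X}
    (hy : y ∈ Ng X) : uM nr P π y ∈ Ng X :=
  hom_Ng _ (fun σ hσ => by rw [uM_of]; exact cl_Dg_le (uL_Dg σ hσ)) hy

private theorem cL_map {Y : Set X} {nr : X → Prop} {π g : X → X}
    (hn : ∀ x ∈ Y, (nr (g x) ↔ nr x)) (hπ : ∀ x ∈ Y, nr x → π (g x) = g (π x)) (σ : List X)
    (h : ∀ x ∈ σ, x ∈ Y) : cL nr π (σ.map g) = mp g (cL nr π σ) := by
  induction σ with
  | nil => rfl
  | cons x σ ih =>
    have hx := h x (by simp)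
    have ih' := ih (fun y hy => h y (by simp [hy]))
    rw [List.map_cons]
    by_cases hnx : nr x
    · rw [cL_nr ((hn x hx).2 hnx), cL_nr hnx, mp_cns, ih', hπ x hx hnx]
    · rw [cL_not (fun h' => hnx ((hn x hx).1 h')), cL_not hnx, map_zero]

theorem cM_mp {Y : Set X} {nr : X → Prop} {π g : X → X} (hn : ∀ x ∈ Y, (nr (g x) ↔ nr x))
    (hπ : ∀ x ∈ Y, nr x → π (g x) = g (π x)) {y : O X} (hy : y ∈ cl (fun σ => ∀ x ∈ σ, x ∈ Y)) :
    cM nr π (mp g y) = mp g (cM nr π y) :=
  hom_eq ((cM nr π).comp (mp g)) ((mp g).comp (cM nr π)) (fun σ hσ => by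
    show cM nr π (mp g (of σ)) = mp g (cM nr π (of σ))
    rw [mp_of, cM_of, cM_of]
    exact cL_map hn hπ σ hσ) hy

private theorem uL_map {Y : Set X} {nr P Q : X → Prop} {π g : X → X}
    (hn : ∀ x ∈ Y, (nr (g x) ↔ nr x)) (hPQ : ∀ x ∈ Y, (P (g x) ↔ Q x))
    (hπ : ∀ x ∈ Y, nr x → π (g x) = g (π x)) (σ : List X) (h : ∀ x ∈ σ, x ∈ Y) :
    uL nr P π (σ.map g) = mp g (uL nr Q π σ) := by
  induction σ with
  | nil =>
    show (0 : O X) = mp g 0
    rw [map_zero]
  | cons x σ ih =>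
    have hx := h x (by simp)
    have hσ : ∀ y ∈ σ, y ∈ Y := fun y hy => h y (by simp [hy])
    have ih' := ih hσ
    rw [List.map_cons]
    by_cases hnx : nr x
    · rw [uL_nr ((hn x hx).2 hnx), uL_nr hnx, mp_cns, ih', hπ x hx hnx]
    · have hng : ¬ nr (g x) := fun h' => hnx ((hn x hx).1 h')
      by_cases hq : Q x
      · rw [uL_P hng ((hPQ x hx).2 hq), uL_P hnx hq]
        exact cL_map hn hπ σ hσ
      · rw [uL_not hng (fun h' => hq ((hPQ x hx).1 h')), uL_not hnx hq, map_zero]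

theorem uM_mp {Y : Set X} {nr P Q : X → Prop} {π g : X → X} (hn : ∀ x ∈ Y, (nr (g x) ↔ nr x))
    (hPQ : ∀ x ∈ Y, (P (g x) ↔ Q x))
    (hπ : ∀ x ∈ Y, nr x → π (g x) = g (π x)) {y : O X} (hy : y ∈ cl (fun σ => ∀ x ∈ σ, x ∈ Y)) :
    uM nr P π (mp g y) = mp g (uM nr Q π y) :=
  hom_eq ((uM nr P π).comp (mp g)) ((mp g).comp (uM nr Q π)) (fun σ hσ => by
    show uM nr P π (mp g (of σ)) = mp g (uM nr Q π (of σ))
    rw [mp_of, uM_of, uM_of]
    exact uL_map hn hPQ hπ σ hσ) hy

private theorem cL_pts {nr : X → Prop} {π : X → X} (σ : List X) :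
    cL nr π σ ∈ cl (fun τ => ∀ y ∈ τ, ∃ x ∈ σ, nr x ∧ y = π x) := by
  induction σ with
  | nil => exact of_mem_cl (by simp)
  | cons x σ ih =>
    by_cases hn : nr x
    · rw [cL_nr hn]
      refine map_mem_of_cl (cns (π x)) (fun τ hτ => of_mem_cl ?_) ih
      intro y hy
      rcases List.mem_cons.1 hy with rfl | hy
      · exact ⟨x, by simp, hn, rfl⟩
      · obtain ⟨z, hz, h1⟩ := hτ y hy
        exact ⟨z, by simp [hz], h1⟩
    · rw [cL_not hn]
      exact AddSubgroup.zero_mem _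

private theorem uL_pts {nr P : X → Prop} {π : X → X} (σ : List X) :
    uL nr P π σ ∈ cl (fun τ => ∀ y ∈ τ, ∃ x ∈ σ, nr x ∧ y = π x) := by
  induction σ with
  | nil => exact AddSubgroup.zero_mem _
  | cons x σ ih =>
    by_cases hn : nr x
    · rw [uL_nr hn]
      refine map_mem_of_cl (cns (π x)) (fun τ hτ => of_mem_cl ?_) ih
      intro y hy
      rcases List.mem_cons.1 hy with rfl | hy
      · exact ⟨x, by simp, hn, rfl⟩
      · obtain ⟨z, hz, h1⟩ := hτ y hy
        exact ⟨z, by simp [hz], h1⟩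
    · by_cases hp : P x
      · rw [uL_P hn hp]
        refine cl_mono (fun τ hτ y hy => ?_) (cL_pts σ)
        obtain ⟨z, hz, h1⟩ := hτ y hy
        exact ⟨z, by simp [hz], h1⟩
      · rw [uL_not hn hp]
        exact AddSubgroup.zero_mem _

private theorem pts_small [MetricSpace X] {Y Y0 : Set X} {nr : X → Prop} {π : X → X}
    {δ ρ ε : ℝ} (hε : δ + 2 * ρ ≤ ε) (hπ : ∀ x ∈ Y, nr x → π x ∈ Y0 ∧ dist x (π x) < ρ)
    {σ : List X} (hσ : (∀ x ∈ σ, x ∈ Y) ∧ ∀ x ∈ σ, ∀ y ∈ σ, dist x y < δ) :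
    cl (fun τ => ∀ y ∈ τ, ∃ x ∈ σ, nr x ∧ y = π x) ≤ Sml Y0 ε := by
  refine cl_mono (fun τ hτ => ⟨fun y hy => ?_, fun y hy y' hy' => ?_⟩)
  · obtain ⟨x, hx, hn, rfl⟩ := hτ y hy
    exact (hπ x (hσ.1 x hx) hn).1
  · obtain ⟨x, hx, hn, rfl⟩ := hτ y hy
    obtain ⟨x', hx', hn', rfl⟩ := hτ y' hy'
    have h1 := (hπ x (hσ.1 x hx) hn).2
    have h2 := (hπ x' (hσ.1 x' hx') hn').2
    have h3 := hσ.2 x hx x' hx'
    have h4 := dist_triangle4 (π x) x x' (π x')
    rw [dist_comm (π x) x] at h4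
    linarith

theorem cM_Sml [MetricSpace X] {Y Y0 : Set X} {nr : X → Prop} {π : X → X} {δ ρ ε : ℝ}
    (hε : δ + 2 * ρ ≤ ε) (hπ : ∀ x ∈ Y, nr x → π x ∈ Y0 ∧ dist x (π x) < ρ) {y : O X}
    (hy : y ∈ Sml Y δ) : cM nr π y ∈ Sml Y0 ε :=
  map_mem_of_cl (S := Sml Y0 ε) (cM nr π) (fun σ hσ => by
    rw [cM_of]
    exact pts_small hε hπ hσ (cL_pts σ)) hy

theorem uM_Sml [MetricSpace X] {Y Y0 : Set X} {nr P : X → Prop} {π : X → X} {δ ρ ε : ℝ}
    (hε : δ + 2 * ρ ≤ ε) (hπ : ∀ x ∈ Y, nr x → π x ∈ Y0 ∧ dist x (π x) < ρ) {y : O X}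
    (hy : y ∈ Sml Y δ) : uM nr P π y ∈ Sml Y0 ε :=
  map_mem_of_cl (S := Sml Y0 ε) (uM nr P π) (fun σ hσ => by
    rw [uM_of]
    exact pts_small hε hπ hσ (uL_pts σ)) hy

theorem cM_fix {Y : Set X} {nr : X → Prop} {π g : X → X}
    (h : ∀ x ∈ Y, g x = x → nr x ∧ π x = x) {B : O X} (hB : B ∈ Fxd Y g) : cM nr π B = B := by
  refine hom_eq (cM nr π) (AddMonoidHom.id _) (fun σ hσ => ?_) hB
  show cM nr π (of σ) = of σ
  rw [cM_of]
  induction σ with
  | nil => rfl
  | cons x σ ih =>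
    have hx := hσ x (by simp)
    have h1 := h x hx.1 hx.2
    rw [cL_nr h1.1, ih (fun y hy => hσ y (by simp [hy])), h1.2, cns_of]

theorem uM_fix {Y : Set X} {nr P : X → Prop} {π g : X → X}
    (h : ∀ x ∈ Y, g x = x → nr x ∧ π x = x) {B : O X} (hB : B ∈ Fxd Y g) : uM nr P π B = 0 := by
  refine hom_eq (uM nr P π) 0 (fun σ hσ => ?_) hB
  show uM nr P π (of σ) = 0
  rw [uM_of]
  induction σ with
  | nil => rfl
  | cons x σ ih =>
    have hx := hσ x (by simp)
    have h1 := h x hx.1 hx.2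
    rw [uL_nr h1.1, ih (fun y hy => hσ y (by simp [hy])), map_zero]

end Pool.Agent.H71.SM
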