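import Pool.Agent.H71.SM.Split

/-!
# Elimination of one odd function
-/

namespace Pool.Agent.H71.SM

open FreeAbelianGroup Pool.Agent.H73.Avr

/-- the class of a chain modulo negligible chains -/
private noncomputable def qq (X : Type) : O X →+ (O X ⧸ Ng X) := QuotientAddGroup.mk' (Ng X)

private theorem qq_eq {X : Type} {x y : O X} : qq X x = qq X y ↔ x - y ∈ Ng X := by
  rw [← sub_eq_zero, ← map_sub]
  exact QuotientAddGroup.eq_zero_iff (x - y)

private theorem qq_two {X : Type} (x : O X) : qq X x + qq X x = 0 := by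
  rw [← map_add]
  exact (QuotientAddGroup.eq_zero_iff (x + x)).2 (add_self_Ng x)

private theorem near_zero {X : Type} [MetricSpace X] [CompactSpace X] {Y : Set X}
    (hY : IsClosed Y) {F : X → ℝ} (hFc : Continuous F) {ρ : ℝ} (hρ : 0 < ρ) :
    ∃ d > 0, ∀ y ∈ Y, |F y| < d → ∃ y0 ∈ Y, F y0 = 0 ∧ dist y y0 < ρ := by
  let Kc : Set X := {y | y ∈ Y ∧ ∀ y0 ∈ Y, F y0 = 0 → ρ ≤ dist y y0}
  have hK : IsCompact Kc := by
    apply IsClosed.isCompact
    have : Kc = Y ∩ ⋂ y0 : {y0 : X // y0 ∈ Y ∧ F y0 = 0}, {y | ρ ≤ dist y y0.1} := by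
      ext y
      simp only [Kc, Set.mem_setOf_eq, Set.mem_inter_iff, Set.mem_iInter]
      constructor
      · rintro ⟨h1, h2⟩
        exact ⟨h1, fun y0 => h2 y0.1 y0.2.1 y0.2.2⟩
      · rintro ⟨h1, h2⟩
        exact ⟨h1, fun y0 h3 h4 => h2 ⟨y0, h3, h4⟩⟩
    rw [this]
    exact hY.inter (isClosed_iInter fun y0 => isClosed_le continuous_const
      (continuous_id.dist continuous_const))
  have hpos : ∀ y ∈ Kc, 0 < |F y| := by
    rintro y ⟨h1, h2⟩
    rw [abs_pos]
    intro h3
    have := h2 y h1 h3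
    rw [dist_self] at this
    linarith
  rcases Kc.eq_empty_or_nonempty with he | hne
  · refine ⟨1, one_pos, fun y hy _ => ?_⟩
    by_contra hcon
    push Not at hcon
    have : y ∈ Kc := ⟨hy, fun y0 h3 h4 => hcon y0 h3 h4⟩
    rw [he] at this
    exact this
  · obtain ⟨y1, hy1, hmin⟩ := hK.exists_isMinOn hne (f := fun y => |F y|)
      (hFc.abs.continuousOn)
    refine ⟨|F y1|, hpos y1 hy1, fun y hy hlt => ?_⟩
    by_contra hcon
    push Not at hcon
    have h5 : y ∈ Kc := ⟨hy, fun y0 h3 h4 => hcon y0 h3 h4⟩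
    have h6 : |F y1| ≤ |F y| := hmin h5
    linarith

private theorem unif {X Z : Type} [MetricSpace X] [CompactSpace X] [PseudoMetricSpace Z]
    {f : X → Z} (hf : Continuous f) {ε : ℝ} (hε : 0 < ε) :
    ∃ δ > 0, ∀ x y, dist x y < δ → dist (f x) (f y) < ε := by
  have h1 := CompactSpace.uniformContinuous_of_continuous hf
  rw [Metric.uniformContinuous_iff] at h1
  obtain ⟨δ, hδ, h2⟩ := h1 ε hε
  exact ⟨δ, hδ, fun x y h => h2 h⟩

private theorem mp_Sml {X : Type} [MetricSpace X] {Y : Set X} {g : X → X}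
    (hg : ∀ y ∈ Y, g y ∈ Y) {δ ε : ℝ} (h : ∀ x y, dist x y < δ → dist (g x) (g y) < ε)
    {y : O X} (hy : y ∈ Sml Y δ) : mp g y ∈ Sml Y ε := by
  refine map_mem_of_cl (mp g) ?_ hy
  rintro σ ⟨h1, h2⟩
  rw [mp_of]
  refine of_mem_cl ⟨?_, ?_⟩
  · intro x hx
    obtain ⟨x', hx', rfl⟩ := List.mem_map.1 hx
    exact hg _ (h1 _ hx')
  · intro x hx y hy
    obtain ⟨x', hx', rfl⟩ := List.mem_map.1 hx
    obtain ⟨y', hy', rfl⟩ := List.mem_map.1 hy
    exact h _ _ (h2 _ hx' _ hy')

private theorem Sml_mono {X : Type} [MetricSpace X] {Y : Set X} {δ ε : ℝ} (h : δ ≤ ε) :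
    Sml Y δ ≤ Sml Y ε := by
  unfold Sml cl
  rw [AddSubgroup.closure_le]
  rintro _ ⟨σ, ⟨h1, h2⟩, rfl⟩
  exact AddSubgroup.subset_closure ⟨σ, ⟨h1, fun x hx y hy => (h2 x hx y hy).trans_le h⟩, rfl⟩

private theorem mp_mp_self {X : Type} [MetricSpace X] {Y : Set X} {g : X → X}
    (hgg : ∀ y ∈ Y, g (g y) = y) {δ : ℝ} {y : O X} (hy : y ∈ Sml Y δ) : mp g (mp g y) = y := by
  have h1 : ((mp g).comp (mp g) - AddMonoidHom.id (O X)) y ∈ (⊥ : AddSubgroup (O X)) := by
    refine map_mem_of_cl _ ?_ hy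
    rintro σ ⟨h1, -⟩
    rw [AddSubgroup.mem_bot]
    show mp g (mp g (of σ)) - of σ = 0
    rw [mp_of, mp_of, List.map_map, sub_eq_zero]
    congr 1
    have : σ.map (g ∘ g) = σ.map id := List.map_congr_left fun x hx => hgg x (h1 x hx)
    rw [this, List.map_id]
  exact sub_eq_zero.1 ((AddSubgroup.mem_bot).1 h1)

private theorem mp_fixd {X : Type} {Y : Set X} {g : X → X} {B : O X} (hB : B ∈ Fxd Y g) :
    mp g B = B := by
  have h1 : (mp g - AddMonoidHom.id (O X)) B ∈ (⊥ : AddSubgroup (O X)) := by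
    refine map_mem_of_cl _ ?_ hB
    intro σ h1
    rw [AddSubgroup.mem_bot]
    show mp g (of σ) - of σ = 0
    rw [mp_of, sub_eq_zero]
    congr 1
    have : σ.map g = σ.map id := List.map_congr_left fun x hx => (h1 x hx).2
    rw [this, List.map_id]
  exact sub_eq_zero.1 ((AddSubgroup.mem_bot).1 h1)

theorem sq_step {X : Type} [MetricSpace X] [CompactSpace X] {Y : Set X} (hY : IsClosed Y)
    {g : X → X} (hgc : Continuous g) (hgY : ∀ y ∈ Y, g y ∈ Y) (hgg : ∀ y ∈ Y, g (g y) = y)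
    {F : X → ℝ} (hFc : Continuous F) (hFg : ∀ y ∈ Y, F (g y) = -F y) {ε : ℝ} (hε : 0 < ε) :
    ∃ δ > 0, ∀ (a R : ℕ) (B : O X), B ∈ Fxd Y g → Sq Y g B δ a R →
      Sq {y | y ∈ Y ∧ F y = 0} g B ε (a + 1) R := by
  classical
  set Y0 : Set X := {y | y ∈ Y ∧ F y = 0} with hY0
  obtain ⟨η, hη, hgη⟩ := unif hgc hε
  set ε1 := min ε η with hε1
  have hε1pos : 0 < ε1 := lt_min hε hη
  obtain ⟨η2, hη2, hgη2⟩ := unif hgc (show 0 < ε1 / 4 by positivity)
  set ρ' := min (ε1 / 4) η2 with hρ'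
  have hρ'pos : 0 < ρ' := lt_min (by positivity) hη2
  obtain ⟨d0, hd0, hnear⟩ := near_zero hY hFc hρ'pos
  obtain ⟨δ1, hδ1, hFδ⟩ := unif hFc hd0
  -- the near point
  let p : X → X := fun y => if h : ∃ y0 ∈ Y, F y0 = 0 ∧ dist y y0 < ρ' then h.choose else y
  have hp : ∀ y ∈ Y, |F y| < d0 → p y ∈ Y ∧ F (p y) = 0 ∧ dist y (p y) < ρ' := by
    intro y hy hlt
    have h : ∃ y0 ∈ Y, F y0 = 0 ∧ dist y y0 < ρ' := by
      obtain ⟨y0, h1, h2, h3⟩ := hnear y hy hlt
      exact ⟨y0, h1, h2, h3⟩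
    have h1 : p y = h.choose := dif_pos h
    rw [h1]
    exact ⟨h.choose_spec.1, h.choose_spec.2.1, h.choose_spec.2.2⟩
  let π : X → X := fun y => if F y = 0 then y else if 0 < F y then p y else g (p (g y))
  let nr : X → Prop := fun y => |F y| < d0
  let Pp : X → Prop := fun y => d0 ≤ F y
  let Qn : X → Prop := fun y => F y ≤ -d0
  have hP : ∀ x, Pp x → ¬ nr x ∧ ¬ Qn x := by
    intro x hx
    have hx' : d0 ≤ F x := hx
    refine ⟨fun h => ?_, fun h => ?_⟩
    · have h' : |F x| < d0 := h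
      have := le_abs_self (F x)
      linarith
    · have h' : F x ≤ -d0 := h
      linarith
  have hQ : ∀ x, Qn x → ¬ nr x ∧ ¬ Pp x := by
    intro x hx
    have hx' : F x ≤ -d0 := hx
    refine ⟨fun h => ?_, fun h => ?_⟩
    · have h' : |F x| < d0 := h
      have := neg_le_abs (F x)
      linarith
    · have h' : d0 ≤ F x := h
      linarith
  have hπ : ∀ x ∈ Y, nr x → π x ∈ Y0 ∧ dist x (π x) < ε1 / 4 := by
    intro x hx hn
    have hn' : |F x| < d0 := hn
    by_cases h0 : F x = 0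
    · have : π x = x := if_pos h0
      rw [this, dist_self]
      exact ⟨⟨hx, h0⟩, by positivity⟩
    · by_cases h1 : 0 < F x
      · have : π x = p x := by show (if _ then _ else _) = _; rw [if_neg h0, if_pos h1]
        rw [this]
        obtain ⟨h2, h3, h4⟩ := hp x hx hn'
        exact ⟨⟨h2, h3⟩, h4.trans_le (min_le_left _ _)⟩
      · have : π x = g (p (g x)) := by
          show (if _ then _ else _) = _; rw [if_neg h0, if_neg h1]
        rw [this]
        have hn2 : |F (g x)| < d0 := by rw [hFg x hx, abs_neg]; exact hn'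
        obtain ⟨h2, h3, h4⟩ := hp (g x) (hgY x hx) hn2
        refine ⟨⟨hgY _ h2, by rw [hFg _ h2, h3, neg_zero]⟩, ?_⟩
        have h5 := hgη2 (g x) (p (g x)) (h4.trans_le (min_le_right _ _))
        rw [hgg x hx] at h5
        exact h5
  have hnrg : ∀ x ∈ Y, (nr (g x) ↔ nr x) := by
    intro x hx
    show |F (g x)| < d0 ↔ |F x| < d0
    rw [hFg x hx, abs_neg]
  have hPQ : ∀ x ∈ Y, (Pp (g x) ↔ Qn x) := by
    intro x hx
    show d0 ≤ F (g x) ↔ F x ≤ -d0
    rw [hFg x hx]
    constructor <;> intro h <;> linarith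
  have hQP : ∀ x ∈ Y, (Qn (g x) ↔ Pp x) := by
    intro x hx
    show F (g x) ≤ -d0 ↔ d0 ≤ F x
    rw [hFg x hx]
    constructor <;> intro h <;> linarith
  have hπg : ∀ x ∈ Y, nr x → π (g x) = g (π x) := by
    intro x hx hn
    have hn' : |F x| < d0 := hn
    by_cases h0 : F x = 0
    · have h1 : π x = x := if_pos h0
      have h2 : π (g x) = g x := if_pos (by rw [hFg x hx, h0, neg_zero])
      rw [h1, h2]
    · have h0' : F (g x) ≠ 0 := by rw [hFg x hx]; exact neg_ne_zero.2 h0
      by_cases h1 : 0 < F x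
      · have e1 : π x = p x := by show (if _ then _ else _) = _; rw [if_neg h0, if_pos h1]
        have e2 : π (g x) = g (p (g (g x))) := by
          show (if _ then _ else _) = _
          rw [if_neg h0', if_neg (by rw [hFg x hx]; linarith)]
        rw [e1, e2, hgg x hx]
      · have h1' : F x < 0 := lt_of_le_of_ne (not_lt.1 h1) h0
        have e1 : π x = g (p (g x)) := by
          show (if _ then _ else _) = _; rw [if_neg h0, if_neg h1]
        have e2 : π (g x) = p (g x) := by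
          show (if _ then _ else _) = _
          rw [if_neg h0', if_pos (by rw [hFg x hx]; linarith)]
        have hn2 : |F (g x)| < d0 := by rw [hFg x hx, abs_neg]; exact hn'
        rw [e1, e2, hgg _ (hp (g x) (hgY x hx) hn2).1]
  have hfix : ∀ x ∈ Y, g x = x → nr x ∧ π x = x := by
    intro x hx hgx
    have h1 := hFg x hx
    rw [hgx] at h1
    have h2 : F x = 0 := by linarith
    exact ⟨by show |F x| < d0; rw [h2, abs_zero]; exact hd0, if_pos h2⟩
  refine ⟨min δ1 (ε1 / 2), lt_min hδ1 (by positivity), fun a R B hB hSq => ?_⟩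
  set δ := min δ1 (ε1 / 2) with hδ
  obtain ⟨z, hz, hz0, hzk⟩ := hSq
  have hYl : Sml Y δ ≤ cl (X := X) (fun σ => ∀ x ∈ σ, x ∈ Y) := by
    unfold Sml cl
    rw [AddSubgroup.closure_le]
    rintro _ ⟨σ, ⟨h1, -⟩, rfl⟩
    exact AddSubgroup.subset_closure ⟨σ, h1, rfl⟩
  have hAdm : Sml Y δ ≤ cl (Adm nr Pp Qn) := by
    unfold Sml cl
    rw [AddSubgroup.closure_le]
    rintro _ ⟨σ, ⟨h1, h2⟩, rfl⟩
    refine AddSubgroup.subset_closure ⟨σ, ⟨?_, ?_⟩, rfl⟩
    · intro x _
      rcases lt_or_ge |F x| d0 with h3 | h3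
      · exact Or.inl h3
      · right
        rcases le_abs.1 h3 with h4 | h4
        · exact Or.inl h4
        · right
          show F x ≤ -d0
          linarith
    · by_contra hcon
      rw [not_or] at hcon
      obtain ⟨hc1, hc2⟩ := hcon
      push Not at hc1 hc2
      obtain ⟨x, hx, hx'⟩ := hc1
      obtain ⟨y, hy, hy'⟩ := hc2
      have h3 := hFδ x y ((h2 x hx y hy).trans_le (min_le_left _ _))
      rw [Real.dist_eq, abs_lt] at h3
      have h4 : d0 ≤ F x := hx'
      have h5 : F y ≤ -d0 := hy'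
      linarith [h3.2]
  have hsize : δ + 2 * (ε1 / 4) ≤ ε1 := by
    have := min_le_right δ1 (ε1 / 2)
    rw [← hδ] at this
    linarith
  have hsize' : δ + 2 * (ε1 / 4) ≤ ε := hsize.trans (min_le_left _ _)
  have hg0 : ∀ y ∈ Y0, g y ∈ Y0 := by
    rintro y ⟨h1, h2⟩
    exact ⟨hgY y h1, by rw [hFg y h1, h2, neg_zero]⟩
  have hgg0 : ∀ y ∈ Y0, g (g y) = y := fun y hy => hgg y hy.1
  set u := uM nr Pp π with hu
  set v := uM nr Qn π with hv
  set c := cM nr π with hc
  -- congruences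
  have cu : ∀ {x y : O X}, qq X x = qq X y → qq X (u x) = qq X (u y) := by
    intro x y h
    rw [qq_eq] at h ⊢
    rw [← map_sub]
    exact uM_Ng (fun x hx => (hP x hx).1) h
  have cc : ∀ {x y : O X}, qq X x = qq X y → qq X (c x) = qq X (c y) := by
    intro x y h
    rw [qq_eq] at h ⊢
    rw [← map_sub]
    exact cM_Ng h
  have cG : ∀ {x y : O X}, qq X x = qq X y → qq X (mp g x) = qq X (mp g y) := by
    intro x y h
    rw [qq_eq] at h ⊢
    rw [← map_sub]
    exact mp_Ng g h
  have e_u : ∀ k, qq X (dO (u (z k))) = qq X (u (dO (z k))) := by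
    intro k
    exact ((qq_eq).2 (uM_dO hP hQ (hAdm (hz k)))).symm
  have e_c : ∀ k, qq X (dO (c (z k))) = qq X (c (dO (z k))) + qq X (u (z k)) + qq X (v (z k)) := by
    intro k
    have h1 := (qq_eq).2 (cM_dO (π := π) hP hQ (hAdm (hz k)))
    rw [map_add, map_add] at h1
    rw [show cM nr π (dO (z k)) = c (dO (z k)) from rfl] at h1
    rw [h1]
    calc qq X (dO (c (z k))) = qq X (dO (c (z k))) + (qq X (u (z k)) + qq X (u (z k))) +
          (qq X (v (z k)) + qq X (v (z k))) := by rw [qq_two, qq_two, add_zero, add_zero]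
      _ = _ := by abel
  have g_u : ∀ k, u (mp g (z k)) = mp g (v (z k)) := fun k =>
    uM_mp hnrg hPQ hπg (hYl (hz k))
  have g_c : ∀ k, c (mp g (z k)) = mp g (c (z k)) := fun k =>
    cM_mp hnrg hπg (hYl (hz k))
  have s_c : ∀ k, c (z k) ∈ Sml Y0 ε1 := fun k => cM_Sml hsize hπ (hz k)
  have s_u : ∀ k, u (z k) ∈ Sml Y0 ε := fun k => uM_Sml hsize' hπ (hz k)
  have s_gc : ∀ k, mp g (c (z k)) ∈ Sml Y0 ε := fun k =>
    mp_Sml hg0 (fun x y h => hgη x y (h.trans_le (min_le_right _ _))) (s_c k)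
  have gg_c : ∀ k, mp g (mp g (c (z k))) = c (z k) := fun k => mp_mp_self hgg0 (s_c k)
  have b_u : ∀ (q : Prop) [Decidable q], u (if q then B else 0) = 0 := by
    intro q _
    split_ifs
    · exact uM_fix hfix hB
    · exact map_zero _
  have b_c : ∀ (q : Prop) [Decidable q], c (if q then B else 0) = if q then B else 0 := by
    intro q _
    split_ifs
    · exact cM_fix hfix hB
    · exact map_zero _
  have b_g : ∀ (q : Prop) [Decidable q], mp g (if q then B else 0) = if q then B else 0 := by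
    intro q _
    split_ifs
    · exact mp_fixd hB
    · exact map_zero _
  let y : ℕ → O X := fun k => Nat.casesOn k (u (z 0)) (fun k => u (z (k + 1)) + mp g (c (z k)))
  have hy0 : y 0 = u (z 0) := rfl
  have hys : ∀ k, y (k + 1) = u (z (k + 1)) + mp g (c (z k)) := fun _ => rfl
  have hr0 : qq X (dO (z 0)) = qq X (if a = 0 then B else 0) := (qq_eq).2 hz0
  have hrk : ∀ k < R, qq X (dO (z (k + 1))) =
      qq X (mp g (z k) + z k + if a = k + 1 then B else 0) := fun k hk => (qq_eq).2 (hzk k hk)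
  refine ⟨y, ?_, ?_, ?_⟩
  · intro k
    rcases k with _ | k
    · rw [hy0]; exact s_u 0
    · rw [hys]; exact (Sml Y0 ε).add_mem (s_u _) (s_gc k)
  · rw [if_neg (Nat.succ_ne_zero a), ← qq_eq, hy0, e_u, cu hr0, b_u]
  · intro k hk
    rw [← qq_eq]
    have e1 : qq X (dO (u (z (k + 1)))) = qq X (mp g (v (z k))) + qq X (u (z k)) := by
      rw [e_u, cu (hrk k hk), map_add u, map_add u, b_u, add_zero, g_u, map_add]
    have e2 : qq X (dO (mp g (c (z k)))) = qq X (mp g (c (dO (z k)))) + qq X (mp g (u (z k))) +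
        qq X (mp g (v (z k))) := by
      have h1 : qq X (dO (c (z k))) = qq X (c (dO (z k)) + u (z k) + v (z k)) := by
        rw [map_add, map_add]; exact e_c k
      rw [dO_mp, cG h1, map_add, map_add, map_add, map_add]
    rw [hys, map_add, map_add, e1, e2]
    rcases k with _ | k
    · have e3 : qq X (mp g (c (dO (z 0)))) = qq X (if a = 0 then B else 0) := by
        rw [cG (cc hr0), b_c, b_g]
      have e4 : (if a + 1 = 0 + 1 then B else 0) = if a = 0 then B else (0 : O X) := by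
        by_cases ha : a = 0
        · rw [if_pos ha, if_pos (by omega)]
        · rw [if_neg ha, if_neg (by omega)]
      rw [e3, e4, hy0, map_add, map_add]
      calc qq X (mp g (v (z 0))) + qq X (u (z 0)) + (qq X (if a = 0 then B else 0) +
            qq X (mp g (u (z 0))) + qq X (mp g (v (z 0))))
          = qq X (mp g (u (z 0))) + qq X (u (z 0)) + qq X (if a = 0 then B else 0) +
            (qq X (mp g (v (z 0))) + qq X (mp g (v (z 0)))) := by abel
        _ = _ := by rw [qq_two, add_zero]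
    · have e3 : qq X (mp g (c (dO (z (k + 1))))) = qq X (c (z k)) + qq X (mp g (c (z k))) +
          qq X (if a = k + 1 then B else 0) := by
        rw [cG (cc (hrk k (by omega))), map_add c, map_add c, g_c, b_c, map_add (mp g),
          map_add (mp g), gg_c, b_g, map_add, map_add]
      have e4 : (if a + 1 = k + 1 + 1 then B else 0) = if a = k + 1 then B else (0 : O X) := by
        by_cases ha : a = k + 1
        · rw [if_pos ha, if_pos (by omega)]
        · rw [if_neg ha, if_neg (by omega)]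
      rw [e3, e4, hys, map_add (mp g), gg_c, map_add, map_add, map_add, map_add]
      calc qq X (mp g (v (z (k + 1)))) + qq X (u (z (k + 1))) +
            (qq X (c (z k)) + qq X (mp g (c (z k))) + qq X (if a = k + 1 then B else 0) +
            qq X (mp g (u (z (k + 1)))) + qq X (mp g (v (z (k + 1)))))
          = qq X (mp g (u (z (k + 1)))) + qq X (c (z k)) + (qq X (u (z (k + 1))) +
            qq X (mp g (c (z k)))) + qq X (if a = k + 1 then B else 0) +
            (qq X (mp g (v (z (k + 1)))) + qq X (mp g (v (z (k + 1))))) := by abel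
        _ = _ := by rw [qq_two, add_zero]

end Pool.Agent.H71.SM
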