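import Pool.Agent.H71.SM.Defs
import Pool.Agent.H48.PS.Tch2

/-!
# Module TchM: first touching point of `|f - M|` with a weight

Copy of `mn_touch` (H48/PI/MaxN.lean) / `tch2_aux` (H48/PS/Tch2.lean) with `|f t x v - M v|` in place of `f t x v`: `G t x v = exp(-E t x v) / Wp p v = (1+nsq v)^p exp(-E)`; `|f - M| (1+|v|²)^p ≤ C/(1+‖v‖)` uniformly for `t ∈ [0,T₁]` (decay of `f` and of `M`), `exp(-E) ≤ exp c`.
-/

set_option autoImplicit false

open MeasureTheory Set Filter Topology Pool.Agent.H25.Kin Pool.Agent.H82.BK Pool.Agent.H82.CM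
open Pool.Agent.H48.PL Pool.Agent.H48.PI Pool.Agent.H48.PW Pool.Agent.H48.PD Pool.Agent.H48.PR

namespace Pool.Agent.H71.SM

variable {d : ℕ}

/-- reduction of the position to the unit cube -/
private lemma tchM_per {F : Vec d → ℝ} (hF : Per F) (x : Vec d) :
    ∃ y ∈ Icc (0 : Vec d) 1, F y = F x := by
  refine ⟨fun i => Int.fract (x i), ⟨fun i => Int.fract_nonneg _, fun i => (Int.fract_lt_one _).le⟩, ?_⟩
  have hl : (fun i => (-(⌊x i⌋ : ℤ) : ℝ)) ∈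
      Submodule.span ℤ (Set.range (Pi.basisFun ℝ (Fin d))) := by
    have e : (fun i => (-(⌊x i⌋ : ℤ) : ℝ)) = ∑ i, (-⌊x i⌋ : ℤ) • (Pi.basisFun ℝ (Fin d) i) := by
      funext j
      rw [Finset.sum_apply]
      simp only [Pi.basisFun_apply, Pi.smul_apply, Pi.single_apply]
      rw [Finset.sum_eq_single j]
      · simp
      · intro b _ hb
        simp [Ne.symm hb]
      · intro h
        exact absurd (Finset.mem_univ _) h
    rw [e]
    exact Submodule.sum_mem _ fun i _ => Submodule.smul_mem _ _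
      (Submodule.subset_span (Set.mem_range_self i))
  have h := hF.span hl x
  have e2 : (fun i => (-(⌊x i⌋ : ℤ) : ℝ)) + x = fun i => Int.fract (x i) := by
    funext i
    simp only [Pi.add_apply, Int.fract]
    ring
  rw [e2] at h
  exact h

/-- velocities with a large value of `|f - M|` are bounded -/
private lemma tchM_bdd {T : ℝ} {Q f : ℝ → Vec d → Vec d → ℝ} (hf : IsClassicalSol T Q f) (p : ℕ)
    {M : Vec d → ℝ} (hMd : ∀ N : ℕ, ∃ C, ∀ v, (1 + ‖v‖) ^ N * |M v| ≤ C)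
    {T₁ : ℝ} (hT₁ : T₁ < T) {β : ℝ} (hβ : 0 < β) :
    ∃ R : ℝ, ∀ t ∈ Icc 0 T₁, ∀ x v, β ≤ |f t x v - M v| * (1 + nsq v) ^ p → ‖v‖ ≤ R := by
  obtain ⟨C, hC⟩ := hf.decay T₁ hT₁ (2 * p + 1)
  obtain ⟨C', hC'⟩ := hMd (2 * p + 1)
  refine ⟨((d : ℝ) + 1) ^ p * (C + C') / β, fun t ht x v h => ?_⟩
  have h0 : 0 ≤ f t x v := hf.nonneg t ⟨ht.1, ht.2.trans_lt hT₁⟩ x v
  have hn := norm_nonneg v
  have h1 : (1 + ‖v‖) ^ (2 * p + 1) * |f t x v - M v| ≤ C + C' := by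
    have h3 : |f t x v - M v| ≤ f t x v + |M v| := by
      refine (abs_sub _ _).trans ?_
      rw [abs_of_nonneg h0]
    calc (1 + ‖v‖) ^ (2 * p + 1) * |f t x v - M v|
        ≤ (1 + ‖v‖) ^ (2 * p + 1) * (f t x v + |M v|) :=
          mul_le_mul_of_nonneg_left h3 (by positivity)
      _ = (1 + ‖v‖) ^ (2 * p + 1) * f t x v + (1 + ‖v‖) ^ (2 * p + 1) * |M v| := by ring
      _ ≤ C + C' := add_le_add (hC t ht x v) (hC' v)
  have h2 : 1 + nsq v ≤ ((d : ℝ) + 1) * (1 + ‖v‖) ^ 2 := by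
    have h3 := sq_le v
    have h4 : (0 : ℝ) ≤ d := Nat.cast_nonneg _
    nlinarith [mul_nonneg h4 hn]
  have h5 : (1 + nsq v) ^ p ≤ ((d : ℝ) + 1) ^ p * (1 + ‖v‖) ^ (2 * p) := by
    rw [pow_mul, ← mul_pow]
    exact pow_le_pow_left₀ (by have := sq_nonneg' v; linarith) h2 p
  have h6 : |f t x v - M v| * (1 + nsq v) ^ p ≤
      |f t x v - M v| * (((d : ℝ) + 1) ^ p * (1 + ‖v‖) ^ (2 * p)) :=
    mul_le_mul_of_nonneg_left h5 (abs_nonneg _)
  rw [le_div_iff₀ hβ]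
  have h7 : β * (1 + ‖v‖) ≤ ((d : ℝ) + 1) ^ p * (C + C') := by
    calc β * (1 + ‖v‖) ≤ (|f t x v - M v| * (((d : ℝ) + 1) ^ p * (1 + ‖v‖) ^ (2 * p))) * (1 + ‖v‖) := by
          gcongr
          exact h.trans h6
      _ = ((d : ℝ) + 1) ^ p * ((1 + ‖v‖) ^ (2 * p + 1) * |f t x v - M v|) := by ring
      _ ≤ ((d : ℝ) + 1) ^ p * (C + C') := by gcongr
  nlinarith

/-- the first touching point for a weight `G t x v` which is periodic in `x` -/
private lemma tchM_touch {T : ℝ} {Q f : ℝ → Vec d → Vec d → ℝ} (hf : IsClassicalSol T Q f) (p : ℕ)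
    {M : Vec d → ℝ} (hMc : Continuous M) (hMd : ∀ N : ℕ, ∃ C, ∀ v, (1 + ‖v‖) ^ N * |M v| ≤ C)
    {T₁ : ℝ} (hT₀ : 0 ≤ T₁) (hT₁ : T₁ < T) {B : ℝ → ℝ} (hB : ContinuousOn B (Icc 0 T₁))
    (hB0 : ∀ t ∈ Icc 0 T₁, 0 < B t) {G : ℝ → Vec d → Vec d → ℝ}
    (hG : ContinuousOn (unc G) (Icc 0 T₁ ×ˢ univ)) {c : ℝ} (hc : 0 < c)
    (hGp : ∀ t ∈ Icc 0 T₁, ∀ x v i, G t (x + Pi.single i 1) v = G t x v)
    (hG1 : ∀ t ∈ Icc 0 T₁, ∀ x v, G t x v ≤ c * (1 + nsq v) ^ p)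
    (h0 : ∀ x v, |f 0 x v - M v| * G 0 x v < B 0)
    (hex : ∃ t ∈ Icc 0 T₁, ∃ x v, B t ≤ |f t x v - M v| * G t x v) :
    ∃ t₀ ∈ Ioc 0 T₁, ∃ x₀ v₀, |f t₀ x₀ v₀ - M v₀| * G t₀ x₀ v₀ = B t₀ ∧
      (∀ t ∈ Ico 0 t₀, ∀ x v, |f t x v - M v| * G t x v < B t) ∧
      (∀ x v, |f t₀ x v - M v| * G t₀ x v ≤ B t₀) := by
  obtain ⟨tm, htm, hmin⟩ := isCompact_Icc.exists_isMinOn (nonempty_Icc.2 hT₀) hB
  have hβ := hB0 tm htm
  obtain ⟨R, hR⟩ := tchM_bdd hf p hMd hT₁ (div_pos hβ hc)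
  have hsub : Icc (0 : ℝ) T₁ ⊆ Ico 0 T := fun t ht => ⟨ht.1, ht.2.trans_lt hT₁⟩
  have hper : ∀ t ∈ Icc (0 : ℝ) T₁, ∀ v : Vec d, Per fun x => |f t x v - M v| * G t x v :=
    fun t ht v x i => by
      show |f t (x + Pi.single i 1) v - M v| * G t (x + Pi.single i 1) v =
        |f t x v - M v| * G t x v
      rw [hf.periodic t (hsub ht) x v i, hGp t ht x v i]
  set K : Set (ℝ × Vec d × Vec d) := Icc 0 T₁ ×ˢ (Icc (0 : Vec d) 1 ×ˢ Metric.closedBall (0 : Vec d) R)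
    with hK
  have hKc : IsCompact K := isCompact_Icc.prod (isCompact_Icc.prod (isCompact_closedBall _ _))
  have hMc3 : Continuous fun q : ℝ × Vec d × Vec d => M q.2.2 :=
    hMc.comp (continuous_snd.comp continuous_snd)
  have hFc : ContinuousOn (fun q : ℝ × Vec d × Vec d => |unc f q - M q.2.2| * unc G q)
      (Icc 0 T₁ ×ˢ univ) :=
    ((((show ContinuousOn (unc f) (Ico 0 T ×ˢ univ) from hf.isCont).mono
      fun q hq => ⟨hsub hq.1, mem_univ _⟩).sub hMc3.continuousOn).abs).mul hG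
  have hGc : ContinuousOn (fun q : ℝ × Vec d × Vec d =>
      |unc f q - M q.2.2| * unc G q - B q.1) K := by
    refine (hFc.mono fun q hq => ⟨hq.1, mem_univ _⟩).sub ?_
    exact hB.comp continuous_fst.continuousOn fun q hq => hq.1
  set S : Set (ℝ × Vec d × Vec d) :=
    K ∩ (fun q : ℝ × Vec d × Vec d => |unc f q - M q.2.2| * unc G q - B q.1) ⁻¹' Ici 0 with hS
  have hSc : IsCompact S := hKc.of_isClosed_subset
    (hGc.preimage_isClosed_of_isClosed hKc.isClosed isClosed_Ici) inter_subset_left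
  have hmem : ∀ t ∈ Icc (0 : ℝ) T₁, ∀ x v, B t ≤ |f t x v - M v| * G t x v →
      ∃ y, (t, y, v) ∈ S := by
    intro t ht x v h
    obtain ⟨y, hy, hyx⟩ := tchM_per (hper t ht v) x
    refine ⟨y, ⟨⟨ht, hy, ?_⟩, ?_⟩⟩
    · rw [Metric.mem_closedBall, dist_zero_right]
      refine hR t ht x v ?_
      rw [div_le_iff₀ hc]
      calc B tm ≤ B t := hmin ht
        _ ≤ |f t x v - M v| * G t x v := h
        _ ≤ |f t x v - M v| * (c * (1 + nsq v) ^ p) :=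
            mul_le_mul_of_nonneg_left (hG1 t ht x v) (abs_nonneg _)
        _ = |f t x v - M v| * (1 + nsq v) ^ p * c := by ring
    · simp only [mem_preimage, mem_Ici, unc]
      have h2 : |f t y v - M v| * G t y v = |f t x v - M v| * G t x v := hyx
      rw [h2]
      linarith
  obtain ⟨t1, ht1, x1, v1, h1⟩ := hex
  obtain ⟨y1, hy1⟩ := hmem t1 ht1 x1 v1 h1
  obtain ⟨q, hqS, hq⟩ := hSc.exists_isMinOn ⟨_, hy1⟩ (f := fun q : ℝ × Vec d × Vec d => q.1)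
    continuous_fst.continuousOn
  obtain ⟨t₀, x₀, v₀⟩ := q
  have ht₀ : t₀ ∈ Icc 0 T₁ := hqS.1.1
  have hge : B t₀ ≤ |f t₀ x₀ v₀ - M v₀| * G t₀ x₀ v₀ := by
    have := hqS.2
    simp only [mem_preimage, mem_Ici, unc] at this
    linarith
  have hlt : ∀ t ∈ Ico 0 t₀, ∀ x v, |f t x v - M v| * G t x v < B t := by
    intro t ht x v
    by_contra hcon
    push Not at hcon
    obtain ⟨y, hy⟩ := hmem t ⟨ht.1, ht.2.le.trans ht₀.2⟩ x v hcon
    have h2 : t₀ ≤ t := hq hy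
    exact absurd ht.2 (not_lt.2 h2)
  have hpos : 0 < t₀ := by
    rcases ht₀.1.lt_or_eq with h | h
    · exact h
    · exfalso
      subst h
      exact absurd hge (not_le.2 (h0 x₀ v₀))
  have hle : ∀ x v, |f t₀ x v - M v| * G t₀ x v ≤ B t₀ := by
    intro x v
    have hcc : ContinuousOn (fun t : ℝ => |f t x v - M v| * G t x v) (Icc 0 T₁) := by
      have h3 : ContinuousOn (fun t : ℝ => (fun q : ℝ × Vec d × Vec d =>
          |unc f q - M q.2.2| * unc G q) (t, x, v)) (Icc 0 T₁) := by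
        refine hFc.comp (Continuous.continuousOn (by fun_prop)) fun t ht => ⟨ht, mem_univ _⟩
      exact h3
    have hne : (𝓝[Ico 0 t₀] t₀).NeBot := by
      rw [← mem_closure_iff_nhdsWithin_neBot, closure_Ico hpos.ne]
      exact ⟨hpos.le, le_rfl⟩
    have hs : Ico 0 t₀ ⊆ Icc 0 T₁ := fun t ht => ⟨ht.1, ht.2.le.trans ht₀.2⟩
    have l1 : Tendsto (fun t : ℝ => |f t x v - M v| * G t x v) (𝓝[Ico 0 t₀] t₀)
        (𝓝 (|f t₀ x v - M v| * G t₀ x v)) := (hcc t₀ ht₀).mono hs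
    have l2 : Tendsto B (𝓝[Ico 0 t₀] t₀) (𝓝 (B t₀)) := (hB t₀ ht₀).mono hs
    refine le_of_tendsto_of_tendsto l1 l2 ?_
    filter_upwards [self_mem_nhdsWithin] with t ht
    exact (hlt t ht x v).le
  exact ⟨t₀, ⟨hpos, ht₀.2⟩, x₀, v₀, le_antisymm (hle x₀ v₀) hge, hlt, hle⟩

theorem tch_M {T : ℝ} {Q f : ℝ → Vec d → Vec d → ℝ} (hf : IsClassicalSol T Q f) (p : ℕ)
    {M : Vec d → ℝ} (hMc : Continuous M) (hMd : ∀ N : ℕ, ∃ C, ∀ v, (1 + ‖v‖) ^ N * |M v| ≤ C) {T₁ : ℝ}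
    (hT₀ : 0 < T₁) (hT₁ : T₁ < T) {E : ℝ → Vec d → Vec d → ℝ}
    (hEc : ContinuousOn (unc E) (Icc 0 T₁ ×ˢ univ))
    (hEp : ∀ t ∈ Icc 0 T₁, ∀ x v i, E t (x + Pi.single i 1) v = E t x v)
    (hEb : ∃ c, ∀ t ∈ Icc 0 T₁, ∀ x v, |E t x v| ≤ c) {B : ℝ → ℝ} (hB : ContinuousOn B (Icc 0 T₁))
    (hB0 : ∀ t ∈ Icc 0 T₁, 0 < B t) (h0 : ∀ x v, |f 0 x v - M v| < B 0 * Wp p v * Real.exp (E 0 x v))
    (hex : ∃ t ∈ Icc 0 T₁, ∃ x v, B t * Wp p v * Real.exp (E t x v) ≤ |f t x v - M v|) :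
    ∃ t₀ ∈ Ioc 0 T₁, ∃ x₀ v₀, |f t₀ x₀ v₀ - M v₀| = B t₀ * Wp p v₀ * Real.exp (E t₀ x₀ v₀) ∧
      (∀ t ∈ Ico 0 t₀, ∀ x v, |f t x v - M v| < B t * Wp p v * Real.exp (E t x v)) ∧
      (∀ x v, |f t₀ x v - M v| ≤ B t₀ * Wp p v * Real.exp (E t₀ x v)) := by
  obtain ⟨b, hb⟩ := hEb
  have hw : ∀ v : Vec d, 0 < (1 + nsq v) ^ p := fun v => pow_pos (by have := sq_nonneg' v; linarith) p
  have hnq : Continuous (nsq : Vec d → ℝ) := by unfold nsq; fun_prop
  -- the two forms of the inequality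
  have key : ∀ (a B' E' : ℝ) (v : Vec d),
      B' * Wp p v * Real.exp E' = a ↔ a * ((1 + nsq v) ^ p * Real.exp (-E')) = B' := by
    intro a B' E' v
    have hw' := (hw v).ne'
    have he := (Real.exp_pos E').ne'
    unfold Wp
    rw [Real.exp_neg]
    constructor
    · intro h
      rw [← h]
      field_simp
    · intro h
      rw [← h]
      field_simp
  have hmul : ∀ (B' E' : ℝ) (v : Vec d),
      B' * Wp p v * Real.exp E' * ((1 + nsq v) ^ p * Real.exp (-E')) = B' := fun B' E' v =>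
    (key _ B' E' v).1 rfl
  have hgp : ∀ (E' : ℝ) (v : Vec d), 0 < (1 + nsq v) ^ p * Real.exp (-E') := fun E' v =>
    mul_pos (hw v) (Real.exp_pos _)
  have klt : ∀ (a B' E' : ℝ) (v : Vec d),
      a < B' * Wp p v * Real.exp E' ↔ a * ((1 + nsq v) ^ p * Real.exp (-E')) < B' := by
    intro a B' E' v
    have h1 := hmul B' E' v
    constructor
    · intro h
      have := mul_lt_mul_of_pos_right h (hgp E' v)
      linarith
    · intro h
      by_contra hcon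
      have := mul_le_mul_of_nonneg_right (not_lt.1 hcon) (hgp E' v).le
      linarith
  have kle : ∀ (a B' E' : ℝ) (v : Vec d),
      a ≤ B' * Wp p v * Real.exp E' ↔ a * ((1 + nsq v) ^ p * Real.exp (-E')) ≤ B' := by
    intro a B' E' v
    have h1 := hmul B' E' v
    constructor
    · intro h
      have := mul_le_mul_of_nonneg_right h (hgp E' v).le
      linarith
    · intro h
      by_contra hcon
      have := mul_lt_mul_of_pos_right (not_le.1 hcon) (hgp E' v)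
      linarith
  have kge : ∀ (a B' E' : ℝ) (v : Vec d),
      B' * Wp p v * Real.exp E' ≤ a ↔ B' ≤ a * ((1 + nsq v) ^ p * Real.exp (-E')) := by
    intro a B' E' v
    rw [← not_lt, ← not_lt, klt]
  set G : ℝ → Vec d → Vec d → ℝ := fun t x v => (1 + nsq v) ^ p * Real.exp (-E t x v) with hGd
  have hGc : ContinuousOn (unc G) (Icc 0 T₁ ×ˢ univ) := by
    have h1 : ContinuousOn (fun q : ℝ × Vec d × Vec d => (1 + nsq q.2.2) ^ p * Real.exp (-(unc E q)))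
        (Icc 0 T₁ ×ˢ univ) := by
      refine ContinuousOn.mul ?_ ?_
      · exact ((continuous_const.add (hnq.comp (continuous_snd.comp continuous_snd))).pow p).continuousOn
      · exact Real.continuous_exp.comp_continuousOn hEc.neg
    exact h1
  obtain ⟨t₀, ht₀, x₀, v₀, heq, hlt, hle⟩ := tchM_touch hf p hMc hMd hT₀.le hT₁ hB hB0 (G := G) hGc
    (c := Real.exp b) (Real.exp_pos b)
    (fun t ht x v i => by
      show (1 + nsq v) ^ p * Real.exp (-E t (x + Pi.single i 1) v) =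
        (1 + nsq v) ^ p * Real.exp (-E t x v)
      rw [hEp t ht x v i])
    (fun t ht x v => by
      show (1 + nsq v) ^ p * Real.exp (-E t x v) ≤ Real.exp b * (1 + nsq v) ^ p
      have h1 : Real.exp (-E t x v) ≤ Real.exp b :=
        Real.exp_le_exp.2 (by have := (abs_le.1 (hb t ht x v)).1; linarith)
      calc (1 + nsq v) ^ p * Real.exp (-E t x v) ≤ (1 + nsq v) ^ p * Real.exp b :=
            mul_le_mul_of_nonneg_left h1 (hw v).le
        _ = Real.exp b * (1 + nsq v) ^ p := mul_comm _ _)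
    (fun x v => (klt _ _ _ _).1 (h0 x v))
    (by
      obtain ⟨t, ht, x, v, h⟩ := hex
      exact ⟨t, ht, x, v, (kge _ _ _ _).1 h⟩)
  refine ⟨t₀, ht₀, x₀, v₀, ((key _ _ _ _).2 heq).symm, fun t ht x v => (klt _ _ _ _).2 (hlt t ht x v),
    fun x v => (kle _ _ _ _).2 (hle x v)⟩

end Pool.Agent.H71.SM
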