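import Pool.Agent.H71.SM.Smith
import Pool.Agent.H71.SM.Disc
import Pool.Agent.H71.SM.Loop
import Pool.Agent.H71.SM.Metriz

/-!
# Smith theory for a tower of isometries acting on the thickening
-/

namespace Pool.Agent.H71.SM

open Pool.Agent.H73.Avr Pool.Agent.H71.AV

/-- a tower of isometries: each normalises the earlier ones (commuting towers have `k = j` in
`nrm`), and the square of each is the identity or an earlier one -/
structure TowerOK (n s : ℕ) (T : ℕ → Sph n → Sph n) : Prop where
  iso : ∀ i < s, ∀ x y, geo n (T i x) (T i y) = geo n x y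
  nrm : ∀ i < s, ∀ j < i, ∃ k < i, ∀ x, T j (T i x) = T i (T k x)
  sq : ∀ i < s, (∀ x, T i (T i x) = x) ∨ ∃ j < i, ∀ x, T i (T i x) = T j x

/-- the measure is invariant under the tower -/
def Inv {n s : ℕ} {r : ℝ} (T : ℕ → Sph n → Sph n) (μ : AVR (geo n) r) : Prop :=
  ∀ i < s, ∀ x, μ.w (T i x) = μ.w x

private theorem tower_bij {n s : ℕ} {T : ℕ → Sph n → Sph n} (hT : TowerOK n s T) :
    ∀ i < s, Function.Bijective (T i) := by
  intro i
  induction i using Nat.strong_induction_on with
  | _ i ih =>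
    intro hi
    rcases hT.sq i hi with h | ⟨j, hj, h⟩
    · exact (show Function.Involutive (T i) from h).bijective
    · have hb := ih j hj (hj.trans hi)
      have hc : T i ∘ T i = T j := funext h
      have hb' : Function.Bijective (T i ∘ T i) := by rw [hc]; exact hb
      exact ⟨hb'.1.of_comp, hb'.2.of_comp⟩

private theorem map_apply' {n : ℕ} {r : ℝ} {S : Sph n → Sph n}
    (hS : ∀ x y, geo n (S x) (S y) = geo n x y) (hi : Function.Injective S) (μ : AVR (geo n) r)
    (x : Sph n) : (μ.map S hS hi).w (S x) = μ.w x :=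
  Finsupp.mapDomain_apply hi _ _

private theorem map_eq_iff {n : ℕ} {r : ℝ} {S : Sph n → Sph n}
    (hS : ∀ x y, geo n (S x) (S y) = geo n x y) (hb : Function.Bijective S) (μ : AVR (geo n) r) :
    μ.map S hS hb.1 = μ ↔ ∀ x, μ.w (S x) = μ.w x := by
  constructor
  · intro h x
    have h1 := map_apply' hS hb.1 μ x
    rw [h] at h1
    exact h1
  · intro h
    apply AVR.ext
    ext y
    obtain ⟨x, rfl⟩ := hb.2 y
    rw [map_apply' hS hb.1 μ x, h]

private theorem acy_inv {n : ℕ} {r : ℝ} (hr : 0 < r) [hc : ContractibleSpace (AVR (geo n) r)]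
    [hm : TopologicalSpace.MetrizableSpace (AVR (geo n) r)] (s : ℕ) (T : ℕ → Sph n → Sph n)
    (hT : TowerOK n s T) :
    letI := TopologicalSpace.metrizableSpaceMetric (AVR (geo n) r)
    Acy {μ : AVR (geo n) r | Inv (s := s) T μ} ∧ IsClosed {μ : AVR (geo n) r | Inv (s := s) T μ} := by
  let _ : MetricSpace (AVR (geo n) r) := TopologicalSpace.metrizableSpaceMetric (AVR (geo n) r)
  have : CompactSpace (AVR (geo n) r) := avr_compact hr
  have hbij := tower_bij hT
  obtain ⟨p, hp⟩ := exists_packing n hr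
  have hcard : ∀ μ : AVR (geo n) r, μ.w.support.card ≤ p := fun μ => hp _ μ.spread
  have key : ∀ k ≤ s, Acy {μ : AVR (geo n) r | ∀ i < k, ∀ x, μ.w (T i x) = μ.w x} ∧
      IsClosed {μ : AVR (geo n) r | ∀ i < k, ∀ x, μ.w (T i x) = μ.w x} := by
    intro k
    induction k with
    | zero =>
      intro _
      have h0 : {μ : AVR (geo n) r | ∀ i < 0, ∀ x, μ.w (T i x) = μ.w x} = Set.univ := by
        ext μ; simp
      rw [h0]
      exact ⟨acy_univ, isClosed_univ⟩
    | succ k ih =>
      intro hk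
      obtain ⟨hA, hcl⟩ := ih (by omega)
      have hks : k < s := by omega
      have hS := hT.iso k hks
      have hb := hbij k hks
      set g : AVR (geo n) r → AVR (geo n) r := AVR.map (T k) hS hb.1 with hg
      have hgc : Continuous g := continuous_map geo_nonneg (T k) hS hb.1
      have hgw : ∀ μ x, (g μ).w (T k x) = μ.w x := fun μ x => map_apply' hS hb.1 μ x
      have hgY : ∀ μ ∈ {μ : AVR (geo n) r | ∀ i < k, ∀ x, μ.w (T i x) = μ.w x},
          g μ ∈ {μ : AVR (geo n) r | ∀ i < k, ∀ x, μ.w (T i x) = μ.w x} := by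
        intro μ hμ i hi y
        obtain ⟨x, rfl⟩ := hb.2 y
        obtain ⟨l, hl, h⟩ := hT.nrm k hks i hi
        rw [h, hgw, hgw]
        exact hμ l hl x
      have hgg : ∀ μ ∈ {μ : AVR (geo n) r | ∀ i < k, ∀ x, μ.w (T i x) = μ.w x}, g (g μ) = μ := by
        intro μ hμ
        apply AVR.ext
        ext y
        obtain ⟨x, rfl⟩ := hb.2 y
        obtain ⟨z, rfl⟩ := hb.2 x
        rw [hgw, hgw]
        rcases hT.sq k hks with h | ⟨j, hj, h⟩
        · rw [h]
        · rw [h]; exact (hμ j hj z).symm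
      have hset : {μ : AVR (geo n) r | ∀ i < k + 1, ∀ x, μ.w (T i x) = μ.w x} =
          {μ | μ ∈ {μ : AVR (geo n) r | ∀ i < k, ∀ x, μ.w (T i x) = μ.w x} ∧ g μ = μ} := by
        ext μ
        constructor
        · intro h
          exact ⟨fun i hi => h i (by omega), (map_eq_iff hS hb μ).2 (h k (by omega))⟩
        · rintro ⟨h1, h2⟩ i hi
          rcases Nat.lt_succ_iff_lt_or_eq.1 hi with h3 | h3
          · exact h1 i h3
          · subst h3; exact (map_eq_iff hS hb μ).1 h2
      rw [hset]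
      classical
      let J : Type := Σ m : Fin (2 * p + 1), (Fin m → Fin (n + 1))
      let e : J ≃ Fin (Fintype.card J) := Fintype.equivFin J
      let G : J → AVR (geo n) r → ℝ := fun j μ => ri (rmon j.2) μ.w - ri (rmon j.2) (g μ).w
      let F : ℕ → AVR (geo n) r → ℝ := fun j =>
        if h : j < Fintype.card J then G (e.symm ⟨j, h⟩) else fun _ => 0
      refine ⟨smith_step hcl hgc hgY hgg (Fintype.card J) F ?_ ?_ ?_ hA, ?_⟩
      · intro j hj
        simp only [F, hj, dif_pos]
        exact (continuous_rmon _).sub ((continuous_rmon _).comp hgc)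
      · intro j hj μ hμ
        simp only [F, hj, dif_pos, G]
        rw [hgg μ hμ]; ring
      · intro μ hμ h
        refine eq_of_moments (p := p) (g μ) μ (hcard _) (hcard _) ?_
        intro m hm' φ
        have hGe : ∀ j : J, F (e j) μ = G j μ := by
          intro j
          simp only [F, Fin.is_lt, dif_pos, Fin.eta, Equiv.symm_apply_apply]
        have hml : m < 2 * p + 1 := by omega
        have h1 := h (e ⟨⟨m, hml⟩, φ⟩) (e ⟨⟨m, hml⟩, φ⟩).2
        rw [hGe] at h1
        exact (sub_eq_zero.1 h1).symm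
      · exact hcl.inter (isClosed_eq hgc continuous_id)
  exact key s le_rfl

theorem avr_disc {n : ℕ} {r : ℝ} (hr : 0 < r) (hc : ContractibleSpace (AVR (geo n) r))
    (s : ℕ) (T : ℕ → Sph n → Sph n) (hT : TowerOK n s T) (h : AVR (geo n) r → ℝ)
    (hh : Continuous h) (hne : ∀ μ, Inv (s := s) T μ → h μ ≠ 0) (a b : AVR (geo n) r)
    (ha : Inv (s := s) T a) (hb : Inv (s := s) T b) (hpa : 0 < h a) (hpb : h b < 0) : False := by
  have : TopologicalSpace.MetrizableSpace (AVR (geo n) r) := avr_metrizable hr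
  have : CompactSpace (AVR (geo n) r) := avr_compact hr
  have h1 := acy_inv hr s T hT
  let _ := TopologicalSpace.metrizableSpaceMetric (AVR (geo n) r)
  exact acy_disc h1.2 h1.1 hh hne ha hb hpa hpb

theorem avr_loop {n : ℕ} {r : ℝ} (hr : 0 < r) (hc : ContractibleSpace (AVR (geo n) r))
    (s : ℕ) (T : ℕ → Sph n → Sph n) (hT : TowerOK n s T) (t h : AVR (geo n) r → ℝ)
    (ht : Continuous t) (hh : Continuous h) (hne : ∀ μ, Inv (s := s) T μ → t μ = 0 → h μ ≠ 0)
    (pth : Fin 4 → ℝ → AVR (geo n) r) (hpc : ∀ i, Continuous (pth i))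
    (hpY : ∀ i u, Inv (s := s) T (pth i u)) (hglue : ∀ i, pth i 1 = pth (i + 1) 0)
    (h0 : ∀ u, 0 < h (pth 0 u)) (hs : |h (pth 0 0)| < t (pth 0 0))
    (he : |h (pth 0 1)| < -t (pth 0 1)) (hl : ∀ i, i ≠ 0 → ∀ u, h (pth i u) < |t (pth i u)|) :
    False := by
  have : TopologicalSpace.MetrizableSpace (AVR (geo n) r) := avr_metrizable hr
  have : CompactSpace (AVR (geo n) r) := avr_compact hr
  have h1 := acy_inv hr s T hT
  let _ := TopologicalSpace.metrizableSpaceMetric (AVR (geo n) r)
  exact acy_loop h1.2 h1.1 ht hh hne pth hpc hpY hglue h0 hs he hl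

section nonempty

open FreeAbelianGroup

variable {X : Type}

private noncomputable def e0 : O X →+ ZMod 2 := lift (fun σ => if σ.length = 0 then 1 else 0)

private theorem e0_of (σ : List X) : e0 (of σ) = if σ.length = 0 then 1 else 0 :=
  lift_apply_of _ _

private theorem e0_Ng {y : O X} (hy : y ∈ Ng X) : e0 y = 0 := by
  rw [Ng, AddSubgroup.mem_sup] at hy
  obtain ⟨u, hu, v, ⟨z, hz⟩, rfl⟩ := hy
  have h1 : e0 u ∈ (⊥ : AddSubgroup (ZMod 2)) := by
    refine map_mem_of_cl e0 ?_ hu
    rintro σ ⟨l, x, r, rfl⟩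
    rw [e0_of, if_neg (by simp)]
    exact AddSubgroup.zero_mem _
  have h2 : e0 v = 0 := by
    rw [← hz]
    show e0 (z + z) = 0
    rw [map_add]
    exact CharTwo.add_self_eq_zero _
  rw [map_add, AddSubgroup.mem_bot.1 h1, h2, add_zero]

private theorem acy_nonempty [MetricSpace X] {Y : Set X} (hA : Acy Y) : Y.Nonempty := by
  by_contra hne
  rw [Set.not_nonempty_iff_eq_empty] at hne
  subst hne
  obtain ⟨δ, _, h⟩ := hA 1 one_pos
  obtain ⟨w, hw, hd⟩ := h (of []) (of_mem_cl ⟨by simp, by simp⟩) (by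
    rw [dO_of]; exact AddSubgroup.zero_mem _)
  have h0 : dO w ∈ (⊥ : AddSubgroup (O X)) := by
    refine map_mem_of_cl dO ?_ hw
    rintro σ ⟨h1, _⟩
    cases σ with
    | nil => rw [dO_of]; exact AddSubgroup.zero_mem _
    | cons x τ => exact absurd (h1 x (by simp)) (by simp)
  have h3 := e0_Ng hd
  rw [AddSubgroup.mem_bot.1 h0, zero_sub, map_neg, e0_of, if_pos List.length_nil] at h3
  exact absurd h3 (by decide)

end nonempty

/-- some measure is invariant under the tower -/
theorem avr_exists_inv {n : ℕ} {r : ℝ} (hr : 0 < r) (hc : ContractibleSpace (AVR (geo n) r))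
    (s : ℕ) (T : ℕ → Sph n → Sph n) (hT : TowerOK n s T) :
    ∃ μ : AVR (geo n) r, Inv (s := s) T μ := by
  have : TopologicalSpace.MetrizableSpace (AVR (geo n) r) := avr_metrizable hr
  have h1 := acy_inv hr s T hT
  let _ := TopologicalSpace.metrizableSpaceMetric (AVR (geo n) r)
  exact acy_nonempty h1.1

/-- the set of the invariant measures is acyclic and closed -/
theorem avr_acy {n : ℕ} {r : ℝ} (hr : 0 < r) (hc : ContractibleSpace (AVR (geo n) r))
    (s : ℕ) (T : ℕ → Sph n → Sph n) (hT : TowerOK n s T) :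
    ∃ _ : TopologicalSpace.MetrizableSpace (AVR (geo n) r),
    letI := TopologicalSpace.metrizableSpaceMetric (AVR (geo n) r)
    Acy {μ : AVR (geo n) r | Inv (s := s) T μ} ∧ IsClosed {μ : AVR (geo n) r | Inv (s := s) T μ} :=
  ⟨avr_metrizable hr, haveI := avr_metrizable (n := n) hr; acy_inv hr s T hT⟩

end Pool.Agent.H71.SM
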